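import Pool.Agent.P.MP_d483fb_an.Os.OutT
import Pool.Agent.P.MP_d483fb_an.Z.Stmt

/-!
Superrigidity: the homogeneous space of a lattice with a Borel section, the return cocycle, and the
properties of the ambient group that are used.
-/

open scoped Topology InnerProductSpace RealInnerProductSpace TensorProduct
open MeasureTheory Filter Set

set_option linter.unusedSectionVars false

noncomputable section

namespace Pool.Agent.P.MP_d483fb_an.Z.SR

/-- A homogeneous space with stabiliser `Γ`, an invariant probability measure and a Borel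
section. -/
structure Sec {G : Type} [Group G] [TopologicalSpace G] [MeasurableSpace G] (Γ : Subgroup G)
    (X : Type) [MeasurableSpace X] [MulAction G X] where
  o : X
  μ : Measure X
  s : X → G
  stab : ∀ g : G, g • o = o ↔ g ∈ Γ
  prob : IsProbabilityMeasure μ
  inv : ∀ g : G, MeasurePreserving (fun x : X => g • x) μ μ
  meas : Measurable s
  s_o : ∀ x, s x • o = x

section Amb

variable {G : Type} [Group G] [TopologicalSpace G] {A : Type} [NormedAddCommGroup A]

/-- `u` is contracted by conjugation with the powers of `h`. -/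
def Contr (h u : G) : Prop := Tendsto (fun n : ℕ => h ^ n * u * (h ^ n)⁻¹) atTop (𝓝 1)

/-- The elements that are contracted by some element generate a dense subgroup. -/
def Gen (G : Type) [Group G] [TopologicalSpace G] : Prop :=
  ∀ S : Subgroup G, IsClosed (S : Set G) → (∀ h u : G, Contr h u → u ∈ S) → S = ⊤

/-- A letter of size `r`. -/
def Letter (a : A → G) (Z K : Set G) (r : ℝ) (g : G) : Prop :=
  g ∈ K ∨ g ∈ Z ∨ ∃ t, ‖t‖ ≤ r ∧ g = a t

/-- Exponential decay of coefficients of unitary representations along some bounded words. -/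
def Dec (a : A → G) (Z : Set G) : Prop :=
  ∀ (H : Type) [NormedAddCommGroup H] [InnerProductSpace ℝ H] [CompleteSpace H]
    (U : G →* (H →L[ℝ] H)), (∀ g ξ, ‖U g ξ‖ = ‖ξ‖) → (∀ ξ, Continuous fun g => U g ξ) →
    (∀ ξ, (∀ g, U g ξ = ξ) → ξ = 0) → ∀ ξ : H,
      ∃ (q : ℕ) (K : Set G) (κ C : ℝ), IsCompact K ∧ 0 < κ ∧ ∀ᶠ r : ℝ in atTop, ∃ l : List G,
        l.length ≤ q ∧ (∀ g ∈ l, Letter a Z K r g) ∧ ⟪U l.prod ξ, ξ⟫ ≤ C * Real.exp (-(κ * r))

/-- Continuous homomorphisms into finite dimensional algebras have a derivative on `𝔤`. -/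
def Der (G : Type) [Group G] [TopologicalSpace G] (𝔤 : Type) [LieRing 𝔤] [LieAlgebra ℝ 𝔤] : Prop :=
  ∀ (𝔸 : Type) [NormedRing 𝔸] [NormedAlgebra ℝ 𝔸] [FiniteDimensional ℝ 𝔸] (τ : G →* 𝔸),
    Continuous τ → ∃ d : 𝔤 →ₗ[ℝ] 𝔸, (∀ X Y, d ⁅X, Y⁆ = d X * d Y - d Y * d X) ∧
      (∀ (X : 𝔤) (t : ℝ), NormedSpace.exp (t • d X) ∈ range τ) ∧
      (∀ (g : G) (X : 𝔤), ∃ Y, τ g * d X = d Y * τ g) ∧ ((∀ X, d X = 0) → ∀ g, τ g = 1)

end Amb

/-- Margulis' lemma: a section invariant under `a` lies in a finite dimensional invariant space of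
sections on which the group acts continuously. -/
def MS {G A X : Type} [Group G] [TopologicalSpace G] [MeasurableSpace G] [MeasurableSpace X]
    [MulAction G X] (μ : Measure X) (a : A → G) : Prop :=
  ∀ (k V : Type) [NontriviallyNormedField k] [ProperSpace k] [NormedAddCommGroup V]
    [NormedSpace k V] [FiniteDimensional k V] (c : G → X → V →L[k] V),
    StronglyMeasurable (fun p : G × X => c p.1 p.2) → (∀ x, c 1 x = 1) →
    (∀ g h x, c (g * h) x = c g (h • x) * c h x) → ∀ f : X → V, StronglyMeasurable f →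
    (∀ t, ∀ᵐ x ∂μ, c (a t) x (f x) = f (a t • x)) →
    ∃ (n : ℕ) (w : Fin n → X → V) (τ : G →* Matrix (Fin n) (Fin n) k) (b : Fin n → k),
      Continuous τ ∧ (∀ j, StronglyMeasurable (w j)) ∧
      (∀ g j, ∀ᵐ x ∂μ, c g x (w j x) = ∑ i, τ g i j • w i (g • x)) ∧
      (∀ v : Fin n → k, (∀ᵐ x ∂μ, ∑ j, v j • w j x = 0) → v = 0) ∧
      ∀ᵐ x ∂μ, f x = ∑ j, b j • w j x

/-- The conclusion of superrigidity for a group `Λ`: an infinite irreducible unitary action by
automorphisms of a simple complex Lie algebra makes it a quotient of the complexification of `𝔤`. -/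
def Rigid (Λ : Type) [Group Λ] (𝔤 : Type) [LieRing 𝔤] [LieAlgebra ℝ 𝔤] : Prop :=
  ∀ (L : Type) [LieRing L] [LieAlgebra ℂ L] [LieAlgebra.IsSimple ℂ L] (d : ℕ)
    (b : Module.Basis (Fin d) ℂ L) (π : Λ →* Module.End ℂ L),
    (∀ γ x y, π γ ⁅x, y⁆ = ⁅π γ x, π γ y⁆) →
    (∀ γ, LinearMap.toMatrix b b (π γ) ∈ Matrix.unitaryGroup (Fin d) ℂ) →
    (∀ W : Submodule ℂ L, (∀ γ, ∀ v ∈ W, π γ v ∈ W) → W = ⊥ ∨ W = ⊤) → (range π).Infinite →
    ∃ φ : ℂ ⊗[ℝ] 𝔤 →ₗ⁅ℂ⁆ L, Function.Surjective φ

/-- There is no nonzero homomorphism to the reals. -/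
def NoChar (Λ : Type) [Group Λ] : Prop :=
  ∀ χ : Λ → ℝ, (∀ γ δ, χ (γ * δ) = χ γ + χ δ) → ∀ γ, χ γ = 0

namespace Sec

variable {G : Type} [Group G] [TopologicalSpace G] [MeasurableSpace G] {Γ : Subgroup G}
  {X : Type} [MeasurableSpace X] [MulAction G X] (S : Sec Γ X)

instance : IsProbabilityMeasure S.μ := S.prob

/-- The return cocycle. -/
def β (g : G) (x : X) : Γ :=
  ⟨(S.s (g • x))⁻¹ * g * S.s x, (S.stab _).1 (by
    rw [mul_smul, mul_smul, S.s_o, inv_smul_eq_iff, S.s_o])⟩

theorem coe_β (g : G) (x : X) : (S.β g x : G) = (S.s (g • x))⁻¹ * g * S.s x := rfl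

theorem β_one (x : X) : S.β 1 x = 1 := Subtype.ext (by simp [coe_β])

theorem β_mul (g h : G) (x : X) : S.β (g * h) x = S.β g (h • x) * S.β h x :=
  Subtype.ext (by simp [coe_β, mul_smul, mul_assoc])

theorem conj_smul (γ : Γ) (x : X) : (S.s x * γ * (S.s x)⁻¹) • x = x := by
  have h : (S.s x)⁻¹ • x = S.o := by rw [inv_smul_eq_iff, S.s_o]
  rw [mul_smul, mul_smul, h, (S.stab _).2 γ.2, S.s_o]

theorem β_conj (γ : Γ) (x : X) : S.β (S.s x * γ * (S.s x)⁻¹) x = γ :=
  Subtype.ext (by rw [coe_β, S.conj_smul]; group)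

include S in
theorem central_smul (γ : Γ) (hγ : (γ : G) ∈ Subgroup.center G) (x : X) : (γ : G) • x = x := by
  have h := S.conj_smul γ x
  rwa [Subgroup.mem_center_iff.1 hγ, mul_inv_cancel_right] at h

theorem β_central (γ : Γ) (hγ : (γ : G) ∈ Subgroup.center G) (x : X) : S.β γ x = γ := by
  have h := S.β_conj γ x
  rwa [Subgroup.mem_center_iff.1 hγ, mul_inv_cancel_right] at h

theorem measurable_coe_β [MeasurableMul₂ G] [MeasurableInv G] [MeasurableSMul₂ G X] :
    Measurable fun p : G × X => (S.β p.1 p.2 : G) :=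
  ((S.meas.comp (measurable_fst.smul measurable_snd)).inv.mul measurable_fst).mul
    (S.meas.comp measurable_snd)

theorem measurableSet_β [MeasurableMul₂ G] [MeasurableInv G] [MeasurableSMul₂ G X]
    [MeasurableSingletonClass G] (γ : Γ) : MeasurableSet {p : G × X | S.β p.1 p.2 = γ} := by
  have : {p : G × X | S.β p.1 p.2 = γ} = (fun p : G × X => (S.β p.1 p.2 : G)) ⁻¹' {(γ : G)} := by
    ext p
    exact Subtype.ext_iff
  rw [this]
  exact S.measurable_coe_β (measurableSet_singleton _)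

theorem stronglyMeasurable_comp_β [MeasurableMul₂ G] [MeasurableInv G] [MeasurableSMul₂ G X]
    [MeasurableSingletonClass G] [Countable Γ] {Y : Type*} [TopologicalSpace Y]
    [TopologicalSpace.PseudoMetrizableSpace Y] (F : Γ → Y) :
    StronglyMeasurable fun p : G × X => F (S.β p.1 p.2) := by
  let : MeasurableSpace Γ := ⊤
  have h1 : Measurable fun p : G × X => S.β p.1 p.2 :=
    measurable_to_countable' fun γ => S.measurableSet_β γ
  borelize Y
  have h2 : StronglyMeasurable F := stronglyMeasurable_iff_measurable_separable.2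
    ⟨measurable_from_top, (countable_range F).isSeparable⟩
  exact h2.comp_measurable h1

end Sec

/-- All that superrigidity uses about the lattice `Γ` and the ambient group. -/
structure Good {G : Type} [Group G] [TopologicalSpace G] [MeasurableSpace G] {Γ : Subgroup G}
    {X : Type} [MeasurableSpace X] [MulAction G X] (S : Sec Γ X)
    {A : Type} [NormedAddCommGroup A] (a : A → G) where
  sys : Os.Sys A X S.μ
  act : ∀ t x, sys.act t x = a t • x
  add : ∀ t t', a (t + t') = a t * a t'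
  fin : ∀ C : Set G, IsCompact C → {γ : Γ | (γ : G) ∈ C}.Finite
  gen : Gen G
  dec : Dec a (Γ ∩ Subgroup.center G)
  ms : MS S.μ a
  met : ∀ (k V : Type) [NontriviallyNormedField k] [ProperSpace k] [NormedAddCommGroup V]
    [NormedSpace k V] [FiniteDimensional k V] (π : Γ →* (V →L[k] V)),
    ∃ (ι : Type) (_ : Fintype ι), Nonempty (Os.OseA sys (fun t x => π (S.β (a t) x)) ι)
  nc : NoChar Γ

end Pool.Agent.P.MP_d483fb_an.Z.SR
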