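import Pool.Agent.P.MP_d483fb_an.Z.SR.Defs
import Pool.Agent.P.MP_d483fb_an.Z.Lie.Cover
import Pool.Agent.P.MP_d483fb_an.Z.Lie.Hom

/-!
Continuous homomorphisms of a higher rank group have a derivative.
-/

open scoped Matrix Matrix.Norms.Operator Topology
open NormedSpace Filter Set

attribute [local instance 100] LieRing.ofAssociativeRing

noncomputable section

namespace Pool.Agent.P.MP_d483fb_an.Z

theorem HigherRank.der {G : Type} [Group G] [TopologicalSpace G] [IsTopologicalGroup G]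
    [PreconnectedSpace G] {n : ℕ} (R : HigherRank G n) : SR.Der G (lieAlg (Set.range R.ρ)) := by
  intro A _ _ _ τ hτ
  have := FiniteDimensional.complete ℝ A
  obtain ⟨D, -, hg⟩ := R.exists_expData
  have hm : ∀ X : Mat n, X ∈ lieAlg (Set.range R.ρ) ↔ X ∈ D.g := fun X => by
    rw [hg, R.matGrp.mem_lieAlg, R.matGrp.mem_lieOf_mat]
  obtain ⟨d, h1, h2, h3⟩ := D.exists_deriv τ hτ
  refine ⟨d ∘ₗ (lieAlg (Set.range R.ρ)).toSubmodule.subtype, fun X Y => ?_, fun X t => ?_,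
    fun g X => ?_, fun h0 g => ?_⟩
  · exact h3 X ((hm _).1 X.2) Y ((hm _).1 Y.2)
  · refine ⟨D.ex (t • X.1), ?_⟩
    rw [h1 _ (D.g.smul_mem t ((hm _).1 X.2)), map_smul]
    rfl
  · refine ⟨⟨D.Ad g X, (hm _).2 (D.Ad_mem g ((hm _).1 X.2))⟩, ?_⟩
    change τ g * d X = d (D.Ad g X) * τ g
    rw [h2 g X ((hm _).1 X.2), mul_assoc, ← map_mul, inv_mul_cancel, map_one, mul_one]
  · refine D.ex_induction (p := fun x => τ x = 1) one_pos (map_one τ) (fun X hX _ x hx => ?_) g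
    have h4 : d X = 0 := h0 ⟨X, (hm _).2 hX⟩
    rw [map_mul, hx, h1 X hX, h4, exp_zero, mul_one]

end Pool.Agent.P.MP_d483fb_an.Z
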