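import Pool.Agent.P.MP_d483fb_an.Z.Stmt

/-! The consequence of superrigidity that is used for compact targets. -/

open scoped Matrix

attribute [local instance 100] LieRing.ofAssociativeRing

namespace Pool.Agent.P.MP_d483fb_an.Z.SR

/-- For every orthogonal representation the Lie algebra of the closure of the image has no proper
subalgebra of codimension at most `m`. -/
def SRd (Γ : Type) [Group Γ] (m : ℕ) : Prop :=
  ∀ (N : ℕ) (ρ : Γ →* Mat N), (∀ γ, ρ γ * (ρ γ)ᵀ = 1) → ∀ l0 : LieSubalgebra ℝ (Mat N),
    l0 ≤ lieAlg (closure (Set.range ρ)) →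
    Module.finrank ℝ (lieAlg (closure (Set.range ρ))) - Module.finrank ℝ l0 ≤ m →
    l0 = lieAlg (closure (Set.range ρ))

end Pool.Agent.P.MP_d483fb_an.Z.SR
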