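import Pool.Agent.P.MP_d483fb_an.Z.SR.End2

/-! Compact Lie algebras: semisimplicity, simplicity of the complexification, codimensions. -/

open Set Module
open scoped TensorProduct Matrix

set_option linter.unusedSectionVars false

attribute [local instance 100] LieRing.ofAssociativeRing

noncomputable section

namespace Pool.Agent.P.MP_d483fb_an.Z.SR

variable {L : Type} [LieRing L] [LieAlgebra ℝ L] {B : LinearMap.BilinForm ℝ L}

theorem Cpt.isSemisimple [Module.Finite ℝ L] (hB : Cpt B)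
    (hc : ∀ Z : L, (∀ X : L, ⁅X, Z⁆ = 0) → Z = 0) : LieAlgebra.IsSemisimple ℝ L := by
  refine LieAlgebra.InvariantForm.isSemisimple_of_nondegenerate B
    ⟨fun X h => hB.def' X (h X), fun X h => hB.def' X (h X)⟩ hB.inv
    (fun X Y h => by rw [hB.symm, h]) fun I hI hab => hI.1 (eq_bot_iff.2 fun Z hZ => ?_)
  refine hc Z fun X => ?_
  have h1 : ⁅Z, ⁅Z, X⁆⁆ = 0 :=
    congrArg Subtype.val (hab.trivial ⟨Z, hZ⟩ ⟨⁅Z, X⁆, lie_mem_left ℝ L I Z X hZ⟩)
  have h2 := hB.inv Z X ⁅Z, X⁆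
  rw [h1, map_zero, neg_zero] at h2
  rw [← lie_skew, hB.def' _ h2, neg_zero]

theorem one_tmul_eq_zero {X : L} (h : (1 : ℂ) ⊗ₜ[ℝ] X = 0) : X = 0 := by
  simpa using congrArg (fun z => TensorProduct.lid ℝ L (Complex.reLm.rTensor L z)) h

theorem Cpt.eq_bot_or_eq_top [hs : LieAlgebra.IsSimple ℝ L] (hB : Cpt B) {I : Type} [LieRing I]
    [LieAlgebra ℂ I] {φ : (ℂ ⊗[ℝ] L) →ₗ⁅ℂ⁆ I} (hφ : Function.Surjective φ) (J : LieIdeal ℂ I) :
    J = ⊥ ∨ J = ⊤ := by
  let p : LieIdeal ℝ L :=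
    { carrier := {X | res φ X ∈ J}
      zero_mem' := by simp
      add_mem' := fun {X Y} (hX : res φ X ∈ J) (hY : res φ Y ∈ J) => by
        change res φ _ ∈ J
        rw [map_add]
        exact J.add_mem hX hY
      smul_mem' := fun c X (hX : res φ X ∈ J) => by
        change res φ _ ∈ J
        rw [res_smul]
        exact J.smul_mem _ hX
      lie_mem := fun {X Y} (hY : res φ Y ∈ J) => by
        change res φ _ ∈ J
        rw [res_lie]
        exact J.lie_mem hY }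
  rcases hs.eq_bot_or_eq_top p with hp | hp
  · refine Or.inl (eq_bot_iff.2 fun z hz => ?_)
    obtain ⟨A, A', rfl⟩ := exists_res hφ z
    have key : ∀ Y : L, ⁅A, Y⁆ = 0 ∧ ⁅A', Y⁆ = 0 := by
      intro Y
      have h1 := J.add_mem (lie_mem_left ℂ _ J _ (⁅res φ Y, res φ A - Complex.I • res φ A'⁆) hz)
        (J.lie_mem (x := res φ A - Complex.I • res φ A') (J.lie_mem (x := res φ Y) hz))
      have h2 : (2 : ℝ) • (⁅A, ⁅Y, A⁆⁆ + ⁅A', ⁅Y, A'⁆⁆) ∈ p := by
        change res φ _ ∈ J.toSubmodule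
        convert h1 using 1
        simp only [two_smul, map_add, res_lie, lie_add, add_lie, lie_sub, sub_lie, lie_smul,
          smul_lie, smul_add, smul_sub, I_I_smul]
        abel
      rw [hp, LieSubmodule.mem_bot, smul_eq_zero_iff_right two_ne_zero] at h2
      have h3 := congrArg (fun W => B W Y) h2
      have h4 : ∀ X : L, B ⁅X, ⁅Y, X⁆⁆ Y = B ⁅X, Y⁆ ⁅X, Y⁆ := fun X => by
        rw [hB.inv, ← lie_skew Y X, map_neg, LinearMap.neg_apply, neg_neg]
      simp only [map_add, LinearMap.add_apply, h4, map_zero, LinearMap.zero_apply] at h3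
      exact ⟨hB.def' _ (by linarith [hB.nonneg ⁅A, Y⁆, hB.nonneg ⁅A', Y⁆]),
        hB.def' _ (by linarith [hB.nonneg ⁅A, Y⁆, hB.nonneg ⁅A', Y⁆])⟩
    have hz : ∀ X : L, (∀ Y : L, ⁅X, Y⁆ = 0) → X = 0 := fun X hX => by
      have : X ∈ LieAlgebra.center ℝ L := fun Y => by rw [← lie_skew, hX, neg_zero]
      rwa [LieAlgebra.center_eq_bot, LieSubmodule.mem_bot] at this
    rw [hz A fun Y => (key Y).1, hz A' fun Y => (key Y).2]
    simp
  · refine Or.inr (eq_top_iff.2 fun z _ => ?_)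
    obtain ⟨A, A', rfl⟩ := exists_res hφ z
    have h : ∀ X, res φ X ∈ J := fun X => show X ∈ p from hp ▸ LieSubmodule.mem_top X
    exact J.add_mem (h A) (J.smul_mem _ (h A'))

theorem Cpt.isSimple_cx [hs : LieAlgebra.IsSimple ℝ L] (hB : Cpt B) :
    LieAlgebra.IsSimple ℂ (ℂ ⊗[ℝ] L) where
  non_abelian h := hs.non_abelian ⟨fun X Y => one_tmul_eq_zero (by
    simpa using h.trivial ((1 : ℂ) ⊗ₜ[ℝ] X) ((1 : ℂ) ⊗ₜ[ℝ] Y))⟩
  eq_bot_or_eq_top J := hB.eq_bot_or_eq_top (φ := LieHom.id) Function.surjective_id J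

theorem Cpt.exists_basis [Module.Finite ℝ L] (hB : Cpt B) :
    ∃ b : Basis (Fin (finrank ℝ L)) ℝ L, ∀ X i, b.repr X i = B (b i) X := by
  let c : InnerProductSpace.Core ℝ L :=
    { inner := fun X Y => B X Y
      conj_inner_symm := fun X Y => hB.symm Y X
      re_inner_nonneg := hB.nonneg
      add_left := fun X Y Z => by simp
      smul_left := fun X Y r => by simp
      definite := hB.def' }
  let : NormedAddCommGroup L := c.toNormedAddCommGroup
  let : InnerProductSpace ℝ L := InnerProductSpace.ofCore c.toCore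
  exact ⟨(stdOrthonormalBasis ℝ L).toBasis, fun X i => (stdOrthonormalBasis ℝ L).repr_apply_apply X i⟩

theorem cpt_of_hom {N : ℕ} (ι : L →ₗ⁅ℝ⁆ Mat N) (hι : Function.Injective ι)
    (hs : ∀ X, (ι X)ᵀ = -ι X) :
    ∃ B : LinearMap.BilinForm ℝ L, Cpt B ∧ ∀ X Y, B X Y = (ι X * (ι Y)ᵀ).trace := by
  let B : LinearMap.BilinForm ℝ L := LinearMap.mk₂ ℝ (fun X Y => (ι X * (ι Y)ᵀ).trace)
    (fun X X' Y => by simp [add_mul]) (fun c X Y => by simp)
    (fun X Y Y' => by simp [mul_add]) (fun c X Y => by simp)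
  have hB : ∀ X Y, B X Y = (ι X * (ι Y)ᵀ).trace := fun _ _ => rfl
  refine ⟨B, ⟨fun X Y => ?_, fun X => ?_, fun X h => ?_, fun X Y Z => ?_⟩, hB⟩
  · rw [hB, hB, ← Matrix.trace_transpose, Matrix.transpose_mul, Matrix.transpose_transpose]
  · rw [hB]
    refine Finset.sum_nonneg fun i _ => ?_
    rw [Matrix.diag_apply, Matrix.mul_apply]
    exact Finset.sum_nonneg fun j _ => mul_self_nonneg _
  · exact hι (((Matrix.trace_mul_conjTranspose_self_eq_zero_iff (A := ι X)).1 h).trans (map_zero ι).symm)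
  · rw [hB, hB, hs, hs]
    simp only [LieHom.map_lie, LieRing.of_associative_ring_bracket, mul_neg, sub_mul,
      mul_sub, Matrix.trace_neg, Matrix.trace_sub, neg_neg, mul_assoc]
    rw [Matrix.trace_mul_comm (ι X) (ι Y * ι Z), mul_assoc]
    ring

variable {G : Type} [Group G] [TopologicalSpace G] {n m : ℕ}

theorem exists_atom_equiv (D : HigherRank G n) {L' : Type} [LieRing L'] [LieAlgebra ℂ L']
    [hs : LieAlgebra.IsSimple ℂ L'] (φ : (ℂ ⊗[ℝ] lieAlg (range D.ρ)) →ₗ⁅ℂ⁆ L')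
    (hφ : Function.Surjective φ) :
    ∃ I : LieIdeal ℂ (ℂ ⊗[ℝ] lieAlg (range D.ρ)), IsAtom I ∧ Nonempty (L' ≃ₗ⁅ℂ⁆ I) := by
  have := isKilling_cx D
  obtain ⟨I, hI, hk⟩ : ∃ I : LieIdeal ℂ (ℂ ⊗[ℝ] lieAlg (range D.ρ)), IsAtom I ∧ ¬I ≤ φ.ker := by
    by_contra hn
    push Not at hn
    have h1 : ⊤ ≤ φ.ker := by
      rw [← LieAlgebra.IsSemisimple.sSup_atoms_eq_top]
      exact sSup_le hn
    refine hs.non_abelian ⟨fun x y => ?_⟩
    obtain ⟨x, rfl⟩ := hφ x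
    rw [LieHom.mem_ker.1 (h1 (LieSubmodule.mem_top x)), zero_lie]
  have hIs := isSimple_atom D I hI
  refine ⟨I, hI, ⟨(LieEquiv.ofBijective (φ.comp I.incl) ⟨?_, fun y => ?_⟩).symm⟩⟩
  · rw [← LieHom.ker_eq_bot]
    refine (hIs.eq_bot_or_eq_top _).resolve_right fun h => hk fun x hx => ?_
    exact (show (⟨x, hx⟩ : I) ∈ (φ.comp I.incl).ker from h ▸ LieSubmodule.mem_top _)
  · have h := (hs.eq_bot_or_eq_top (I.map φ)).resolve_left fun h => hk (LieIdeal.map_eq_bot_iff.1 h)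
    exact LieIdeal.mem_map_of_surjective hφ (h ▸ LieSubmodule.mem_top y)

/-- Proper subalgebras of a compact simple form have large codimension. -/
theorem codim_gt (D : HigherRank G n) (hD : D.ltD m) [Module.Finite ℝ L]
    [hs : LieAlgebra.IsSimple ℝ L] (hB : Cpt B) (I : LieIdeal ℂ (ℂ ⊗[ℝ] lieAlg (range D.ρ)))
    (hI : IsAtom I) (e : (ℂ ⊗[ℝ] L) ≃ₗ⁅ℂ⁆ I) (h : Submodule ℝ L)
    (hh : ∀ X ∈ h, ∀ Y ∈ h, ⁅X, Y⁆ ∈ h) (h1 : h ≠ ⊤) : m < finrank ℝ L - finrank ℝ h := by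
  obtain ⟨b, hb⟩ := exists_skew_basis hB
  have key : ∀ h : Submodule ℝ L, (∀ X ∈ h, ∀ Y ∈ h, ⁅X, Y⁆ ∈ h) → h ≠ ⊥ → h ≠ ⊤ →
      m < finrank ℝ L - finrank ℝ h := by
    intro h hh h0 h1
    refine lt_of_ltD b D hD hb I hI e h hh ?_
    by_contra hn
    push Not at hn
    let J : LieIdeal ℝ L := { h with lie_mem := fun {X Y} hY => hn X Y hY }
    rcases hs.eq_bot_or_eq_top J with hJ | hJ
    · exact h0 (congrArg LieSubmodule.toSubmodule hJ)
    · exact h1 (congrArg LieSubmodule.toSubmodule hJ)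
  by_cases h0 : h = ⊥
  · obtain ⟨X0, X1, hX⟩ : ∃ X0 X1 : L, ⁅X0, X1⁆ ≠ 0 := by
      by_contra hn
      push Not at hn
      exact hs.non_abelian ⟨hn⟩
    have hX0 : X0 ≠ 0 := fun h => hX (by rw [h, zero_lie])
    refine (key (Submodule.span ℝ {X0}) ?_ (by simpa using hX0) fun ht => hX ?_).trans_le
      (Nat.sub_le_sub_left (Submodule.finrank_mono (h0 ▸ bot_le)) _)
    · intro X hX Z hZ
      obtain ⟨s, rfl⟩ := Submodule.mem_span_singleton.1 hX
      obtain ⟨t, rfl⟩ := Submodule.mem_span_singleton.1 hZ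
      simp
    · obtain ⟨s, rfl⟩ := Submodule.mem_span_singleton.1 (ht ▸ Submodule.mem_top (x := X1))
      simp
  · exact key h hh h0 h1

end Pool.Agent.P.MP_d483fb_an.Z.SR
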