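import Pool.Agent.P.MP_d483fb_an.Z.SR.Wrap2
import Pool.Agent.P.MP_d483fb_an.Z.SR.Wrap3
import Pool.Agent.P.MP_d483fb_an.Z.SR.SRdDef

/-! From superrigidity for simple targets to the codimension bound for compact targets. -/

open Set Filter Topology NormedSpace Module
open scoped Matrix Matrix.Norms.Operator TensorProduct

set_option linter.unusedSectionVars false

attribute [local instance 100] LieRing.ofAssociativeRing

noncomputable section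

namespace Pool.Agent.P.MP_d483fb_an.Z.SR

theorem exists_surj_of_rigid {N : ℕ} {Γ : Type} [Group Γ] {ρ : Γ →* Mat N}
    (hρ : ∀ γ, ρ γ * (ρ γ)ᵀ = 1) {𝔤 : Type} [LieRing 𝔤] [LieAlgebra ℝ 𝔤]
    (h : ∀ Λ : Subgroup Γ, Λ.FiniteIndex → Rigid Λ 𝔤) {L : Type} [LieRing L] [LieAlgebra ℝ L]
    [Module.Finite ℝ L] [hs : LieAlgebra.IsSimple ℝ L] (ι : L →ₗ⁅ℝ⁆ Mat N)
    (hι : Function.Injective ι) (hl : ∀ X, ι X ∈ lieAlg (closure (range ρ)))
    (hn : ∀ X ∈ lieAlg (closure (range ρ)), ∀ Y, ∃ Z, ι Z = ⁅X, ι Y⁆) :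
    ∃ φ : ℂ ⊗[ℝ] 𝔤 →ₗ⁅ℂ⁆ ℂ ⊗[ℝ] L, Function.Surjective φ := by
  have hS := oGrp_closure hρ
  have hρ' : ∀ γ, (ρ γ)ᵀ * ρ γ = 1 := fun γ => mul_eq_one_comm.1 (hρ γ)
  obtain ⟨B, hB, hBe⟩ := cpt_of_hom ι hι fun X => hS.skew (hl X)
  have := hB.isSimple_cx
  obtain ⟨b, hb⟩ := hB.exists_basis
  let v : Submodule ℝ (Mat N) := LinearMap.range (ι : L →ₗ[ℝ] Mat N)
  have hexp : ∀ X ∈ lieAlg (closure (range ρ)), (exp X)ᵀ = exp (-X) := fun X hX =>
    (Matrix.exp_transpose X).symm.trans (congrArg exp (hS.skew hX))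
  let Λ : Subgroup Γ :=
    { carrier := {γ | ∀ Y ∈ v, ρ γ * Y * ρ γ⁻¹ ∈ v ∧ ρ γ⁻¹ * Y * ρ γ ∈ v}
      one_mem' := fun Y hY => by simpa using hY
      mul_mem' := fun {γ δ} h1 h2 Y hY => by
        have a := (h1 _ (h2 Y hY).1).1
        have a' := (h2 _ (h1 Y hY).2).2
        simp only [mul_inv_rev, map_mul, mul_assoc] at a a' ⊢
        exact ⟨a, a'⟩
      inv_mem' := fun {γ} h1 Y hY => by
        rw [inv_inv]
        exact (h1 Y hY).symm }
  have hΛ : Λ.FiniteIndex := finiteIndex_of_exp hρ Λ fun γ X hX e Y hY => by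
    have a : ∀ X ∈ lieAlg (closure (range ρ)), exp X * Y * exp (-X) ∈ v := fun X hX =>
      conj_mem v.closed_of_finiteDimensional (by rintro _ ⟨Z, rfl⟩; exact hn X hX Z) hY
    have a' := a _ (neg_mem hX)
    rw [neg_neg] at a'
    rw [rho_inv hρ, ← e, hexp X hX]
    exact ⟨a X hX, a'⟩
  obtain ⟨p, hp⟩ := (ι : L →ₗ[ℝ] Mat N).exists_leftInverse_of_injective
    (LinearMap.ker_eq_bot.2 hι)
  have hp' : ∀ Y ∈ v, ι (p Y) = Y := by
    rintro _ ⟨Z, rfl⟩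
    exact congrArg ι (LinearMap.congr_fun hp Z)
  let T0 : Λ → Module.End ℝ L := fun γ =>
    p ∘ₗ LinearMap.mulLeftRight ℝ (ρ γ, ρ (γ : Γ)⁻¹) ∘ₗ (ι : L →ₗ[ℝ] Mat N)
  have hT0 : ∀ γ Y, ι (T0 γ Y) = ρ γ * ι Y * ρ (γ : Γ)⁻¹ := fun γ Y => hp' _ (γ.2 _ ⟨Y, rfl⟩).1
  let T : Λ →* Module.End ℝ L :=
    { toFun := T0
      map_one' := LinearMap.ext fun Y => hι (by simp [hT0])
      map_mul' := fun γ δ => LinearMap.ext fun Y => hι (by simp [hT0, mul_assoc]) }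
  have hT : ∀ γ Y, ι (T γ Y) = ρ γ * ι Y * (ρ γ)ᵀ := fun γ Y => rho_inv hρ γ ▸ hT0 γ Y
  have hTl : ∀ γ X Y, T γ ⁅X, Y⁆ = ⁅T γ X, T γ Y⁆ := fun γ X Y => hι (by
    simp only [hT, LieHom.map_lie, LieRing.of_associative_ring_bracket, mul_sub, sub_mul, mul_assoc,
      ← mul_assoc (ρ γ)ᵀ, hρ', one_mul])
  have hTB : ∀ γ X Y, B (T γ X) Y = B X (T γ⁻¹ Y) := by
    intro γ X Y
    rw [hBe, hBe, hT, hT, Subgroup.coe_inv, rho_inv hρ]
    simp only [Matrix.transpose_mul, Matrix.transpose_transpose, mul_assoc]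
    rw [Matrix.trace_mul_comm (ρ γ)]
    simp only [mul_assoc]
  let π : Λ →* Module.End ℂ (ℂ ⊗[ℝ] L) := (Module.End.baseChangeHom ℝ ℂ L).toMonoidHom.comp T
  have hπ : ∀ γ (c : ℂ) X, π γ (c ⊗ₜ[ℝ] X) = c ⊗ₜ[ℝ] T γ X := fun _ _ _ => rfl
  refine h Λ hΛ (ℂ ⊗[ℝ] L) _ (Algebra.TensorProduct.basis ℂ b) π (fun γ x y => ?_) (fun γ => ?_)
    (fun W hW => ?_) fun hfin => ?_
  · exact (bcHom { T γ with map_lie' := hTl γ _ _ }).map_lie x y
  · have e : ∀ γ, LinearMap.toMatrix (Algebra.TensorProduct.basis ℂ b)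
        (Algebra.TensorProduct.basis ℂ b) (π γ) =
          (LinearMap.toMatrix b b (T γ)).map (algebraMap ℝ ℂ) := fun γ =>
      LinearMap.toMatrix_baseChange ℂ (T γ) b b
    have e2 : star (LinearMap.toMatrix (Algebra.TensorProduct.basis ℂ b)
        (Algebra.TensorProduct.basis ℂ b) (π γ)) = LinearMap.toMatrix
          (Algebra.TensorProduct.basis ℂ b) (Algebra.TensorProduct.basis ℂ b) (π γ⁻¹) := by
      rw [e, e]
      ext i j
      simp only [Matrix.star_apply, Matrix.map_apply, LinearMap.toMatrix_apply, hb,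
        Complex.coe_algebraMap, Complex.star_def, Complex.conj_ofReal]
      rw [← hTB, hB.symm]
    rw [Matrix.mem_unitaryGroup_iff, e2, ← LinearMap.toMatrix_mul, ← map_mul, mul_inv_cancel,
      map_one, LinearMap.toMatrix_one]
  · let j : Mat N × Mat N →ₗ[ℝ] ℂ ⊗[ℝ] L :=
      (TensorProduct.mk ℝ ℂ L 1 ∘ₗ p).coprod (TensorProduct.mk ℝ ℂ L Complex.I ∘ₗ p)
    have hj : ∀ A A' : L, j (ι A, ι A') = (1 : ℂ) ⊗ₜ[ℝ] A + Complex.I • (1 : ℂ) ⊗ₜ[ℝ] A' := by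
      intro A A'
      have : ∀ A, p (ι A) = A := LinearMap.congr_fun hp
      simp [j, this, TensorProduct.smul_tmul']
    let V : Submodule ℝ (Mat N × Mat N) := (W.restrictScalars ℝ).comap j
    have key : ∀ X : L, ∀ z ∈ W, ⁅(1 : ℂ) ⊗ₜ[ℝ] X, z⁆ ∈ W := by
      intro X z hz
      obtain ⟨A, A', rfl⟩ := exists_re_im z
      have h1 : ∀ t : ℝ, (exp (t • ι X) * ι A * exp (-(t • ι X)),
          exp (t • ι X) * ι A' * exp (-(t • ι X))) ∈ V := by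
        intro t
        rw [← hexp _ ((lieAlg _).smul_mem t (hl X))]
        refine exp_mem_of_finiteIndex hρ Λ (P := {M | (M * ι A * Mᵀ, M * ι A' * Mᵀ) ∈ V})
          (V.closed_of_finiteDimensional.preimage (by fun_prop)) (fun γ hγ => ?_) (hl X) t
        change j _ ∈ W
        have := hW ⟨γ, hγ⟩ _ hz
        rwa [map_add, map_smul, hπ, hπ, ← hj, hT, hT] at this
      have h2 := deriv_mem V h1 ((hasDerivAt_conj (ι X) (ι A) 0).prodMk
        (hasDerivAt_conj (ι X) (ι A') 0))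
      simp only [zero_smul, neg_zero, exp_zero, one_mul, mul_one] at h2
      have h3 : j (ι ⁅X, A⁆, ι ⁅X, A'⁆) ∈ W := by
        rw [LieHom.map_lie, LieHom.map_lie]
        exact h2
      have e := (LieAlgebra.ad ℂ (ℂ ⊗[ℝ] L) ((1 : ℂ) ⊗ₜ[ℝ] X)).map_add ((1 : ℂ) ⊗ₜ[ℝ] A)
        (Complex.I • (1 : ℂ) ⊗ₜ[ℝ] A')
      rw [map_smul] at e
      simp only [LieAlgebra.ad_apply, LieAlgebra.ExtendScalars.bracket_tmul, mul_one] at e
      rwa [hj, ← e] at h3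
    let J : LieIdeal ℂ (ℂ ⊗[ℝ] L) :=
      { W with
        lie_mem := fun {x z} hz => by
          obtain ⟨A, A', rfl⟩ := exists_re_im x
          have e := add_lie ((1 : ℂ) ⊗ₜ[ℝ] A) (Complex.I • (1 : ℂ) ⊗ₜ[ℝ] A') z
          have e' := smul_lie Complex.I ((1 : ℂ) ⊗ₜ[ℝ] A') z
          change _ ∈ W
          rw [e, e']
          exact W.add_mem (key A z hz) (W.smul_mem _ (key A' z hz)) }
    exact (LieAlgebra.IsSimple.eq_bot_or_eq_top J).imp (congrArg LieSubmodule.toSubmodule)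
      (congrArg LieSubmodule.toSubmodule)
  · have : Finite π.toHomUnits.range := by
      have := hfin.to_subtype
      refine Finite.of_injective (β := range π) (fun u => ⟨u.1.1, by
        obtain ⟨γ, hγ⟩ := u.2
        exact ⟨γ, congrArg Units.val hγ⟩⟩) fun u u' e => ?_
      exact Subtype.ext (Units.ext (congrArg Subtype.val e))
    have : (π.toHomUnits.ker.map Λ.subtype).FiniteIndex := ⟨by
      rw [Subgroup.index_map_subtype]
      exact mul_ne_zero Subgroup.FiniteIndex.index_ne_zero Subgroup.FiniteIndex.index_ne_zero⟩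
    refine hs.non_abelian ⟨fun X Y => hι ?_⟩
    have h1 : ∀ t : ℝ, exp (t • ι X) * ι Y * exp (-(t • ι X)) - ι Y ∈ (⊥ : Submodule ℝ (Mat N)) := by
      intro t
      rw [← hexp _ ((lieAlg _).smul_mem t (hl X)), Submodule.mem_bot, sub_eq_zero]
      refine exp_mem_of_finiteIndex hρ (π.toHomUnits.ker.map Λ.subtype)
        (P := {M | M * ι Y * Mᵀ = ι Y}) (isClosed_eq (by fun_prop) continuous_const) ?_ (hl X) t
      rintro _ ⟨γ, hγ, rfl⟩
      have h2 : π γ = 1 := congrArg Units.val (MonoidHom.mem_ker.1 hγ)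
      have h3 := hπ γ 1 Y
      rw [h2, Module.End.one_apply, ← sub_eq_zero, ← TensorProduct.tmul_sub] at h3
      exact (hT γ Y).symm.trans (congrArg ι (sub_eq_zero.1 (one_tmul_eq_zero h3)).symm)
    have h2 := deriv_mem _ h1 ((hasDerivAt_conj (ι X) (ι Y) 0).sub_const (ι Y))
    simp only [zero_smul, neg_zero, exp_zero, one_mul, mul_one, Submodule.mem_bot] at h2
    rw [LieHom.map_lie, map_zero]
    exact h2

theorem srd_of_rigid {G : Type} [Group G] [TopologicalSpace G] {n m N : ℕ} (D : HigherRank G n)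
    (hd : D.ltD m) {Λ : Type} [Group Λ] [Group.FG Λ] (ρ : Λ →* Mat N)
    (ho : ∀ γ, ρ γ * (ρ γ)ᵀ = 1)
    (h : ∀ Λ₀ : Subgroup Λ, Λ₀.FiniteIndex → NoChar Λ₀ ∧ Rigid Λ₀ (lieAlg (range D.ρ)))
    (c : LieSubalgebra ℝ (Mat N)) (hc : c ≤ lieAlg (closure (range ρ)))
    (hm : Module.finrank ℝ (lieAlg (closure (range ρ))) - Module.finrank ℝ c ≤ m) :
    c = lieAlg (closure (range ρ)) := by
  set l := lieAlg (closure (range ρ)) with hl
  obtain ⟨B, hB⟩ := cpt_of_skew l fun X hX => (oGrp_closure ho).skew hX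
  have := hB.isSemisimple fun Z hZ => Subtype.ext (central_eq_zero ho (fun Λ₀ a => (h Λ₀ a).1) Z.2
    fun X hX => sub_eq_zero.1 (congrArg Subtype.val (hZ ⟨X, hX⟩)))
  refine le_antisymm hc ?_
  by_contra hn
  obtain ⟨k, hk, hkc⟩ : ∃ k : LieIdeal ℝ l, IsAtom k ∧
      ¬k.toSubmodule ≤ c.toSubmodule.comap l.toSubmodule.subtype := by
    by_contra hk
    push Not at hk
    refine hn fun X hX => ?_
    have h1 : (⟨X, hX⟩ : l) ∈ (sSup {I : LieIdeal ℝ l | IsAtom I}).toSubmodule := by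
      rw [LieAlgebra.IsSemisimple.sSup_atoms_eq_top]
      exact LieSubmodule.mem_top _
    rw [LieSubmodule.sSup_toSubmodule] at h1
    refine (sSup_le ?_ : _ ≤ c.toSubmodule.comap l.toSubmodule.subtype) h1
    rintro _ ⟨I, hI, rfl⟩
    exact hk I hI
  have := LieAlgebra.IsSemisimple.isSimple_of_isAtom k hk
  let ι : k →ₗ⁅ℝ⁆ Mat N := l.incl.comp k.incl
  have hι : Function.Injective ι := Subtype.val_injective.comp Subtype.val_injective
  obtain ⟨φ, hφ⟩ := exists_surj_of_rigid ho (fun Λ₀ a => (h Λ₀ a).2) ι hι (fun X => X.1.2)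
    fun X hX Y => ⟨⟨⁅(⟨X, hX⟩ : l), Y.1⁆, k.lie_mem Y.2⟩, rfl⟩
  obtain ⟨B1, hB1, -⟩ := cpt_of_hom ι hι fun X => (oGrp_closure ho).skew X.1.2
  have := hB1.isSimple_cx
  obtain ⟨I, hI, ⟨e⟩⟩ := exists_atom_equiv D φ hφ
  let v : Submodule ℝ (Mat N) := LinearMap.range (ι : k →ₗ[ℝ] Mat N)
  have h1 := codim_gt D hd hB1 I hI e (c.toSubmodule.comap (ι : k →ₗ[ℝ] Mat N))
    (fun X hX Y hY => c.lie_mem hX hY) fun ht => hkc fun X hX =>
      (show (⟨X, hX⟩ : k) ∈ c.toSubmodule.comap (ι : k →ₗ[ℝ] Mat N) from ht ▸ Submodule.mem_top)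
  have h2 := Submodule.finrank_sup_add_finrank_inf_eq v c.toSubmodule
  have h3 : finrank ℝ (v ⊔ c.toSubmodule : Submodule ℝ (Mat N)) ≤ finrank ℝ l.toSubmodule :=
    Submodule.finrank_mono (sup_le (by rintro _ ⟨X, rfl⟩; exact X.1.2) hc)
  have h4 : finrank ℝ v = finrank ℝ k := LinearMap.finrank_range_of_inj hι
  have h5 : finrank ℝ (v ⊓ c.toSubmodule : Submodule ℝ (Mat N)) =
      finrank ℝ (c.toSubmodule.comap (ι : k →ₗ[ℝ] Mat N)) := by
    rw [← Submodule.map_comap_eq]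
    exact (Submodule.equivMapOfInjective _ hι _).finrank_eq.symm
  have h6 : finrank ℝ l.toSubmodule - finrank ℝ c.toSubmodule ≤ m := hm
  omega

theorem srd {G : Type} [Group G] [TopologicalSpace G] {n m : ℕ} (D : HigherRank G n)
    (hd : D.ltD m) {Λ : Type} [Group Λ] [Group.FG Λ]
    (h : ∀ Λ₀ : Subgroup Λ, Λ₀.FiniteIndex → NoChar Λ₀ ∧ Rigid Λ₀ (lieAlg (range D.ρ))) :
    SRd Λ m := fun _ ρ ho c hc hm => srd_of_rigid D hd ρ ho h c hc hm

theorem SRd.finite {Λ : Type} [Group Λ] {m N : ℕ} (h : SRd Λ m) (ρ : Λ →* Mat N)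
    (ho : ∀ γ, ρ γ * (ρ γ)ᵀ = 1) (Y : Set (Fin N → ℝ)) (hY : IsClosed Y)
    (hinv : ∀ γ, ∀ y ∈ Y, ρ γ *ᵥ y ∈ Y) (hspan : Submodule.span ℝ Y = ⊤) (hdim : dimH Y ≤ m) :
    (range ρ).Finite := by
  refine finite_of_lieAlg_eq_bot ho (eq_bot_iff.2 fun X hX => ?_)
  set l := lieAlg (closure (range ρ)) with hl
  refine Matrix.toLin'.map_eq_zero_iff.1 (LinearMap.ext_on hspan fun y hy => ?_)
  let T : l →ₗ[ℝ] Fin N → ℝ := (evL y : Mat N →ₗ[ℝ] Fin N → ℝ) ∘ₗ l.toSubmodule.subtype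
  let c : LieSubalgebra ℝ (Mat N) :=
    { (LinearMap.ker T).map l.toSubmodule.subtype with
      lie_mem' := by
        rintro _ _ ⟨A, hA : A.1 *ᵥ y = 0, rfl⟩ ⟨A', hA' : A'.1 *ᵥ y = 0, rfl⟩
        refine ⟨⟨⁅A.1, A'.1⁆, l.lie_mem A.2 A'.2⟩, show (A.1 * A'.1 - A'.1 * A.1) *ᵥ y = 0 from ?_, rfl⟩
        rw [Matrix.sub_mulVec, ← Matrix.mulVec_mulVec, ← Matrix.mulVec_mulVec, hA, hA']
        simp }
  have h1 : (finrank ℝ (LinearMap.range T) : ENNReal) ≤ m := by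
    refine (rank_le_dimH l.toSubmodule.subtype y fun A => ?_).trans hdim
    exact closure_minimal (t := evL y ⁻¹' Y) (by rintro _ ⟨γ, rfl⟩; exact hinv γ y hy)
      (hY.preimage (evL y).continuous) ((oGrp_closure ho).exp_mem A.2)
  have h2 := T.finrank_range_add_finrank_ker
  have h3 : finrank ℝ c = finrank ℝ (LinearMap.ker T) :=
    (Submodule.equivMapOfInjective _ l.toSubmodule.injective_subtype _).finrank_eq.symm
  have h4 : finrank ℝ (LinearMap.range T) ≤ m := by exact_mod_cast h1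
  have h5 := h N ρ ho c (by rintro _ ⟨A, -, rfl⟩; exact A.2) (by rw [← hl]; omega)
  obtain ⟨A, hA, rfl⟩ : X ∈ c := h5 ▸ hX
  exact hA

theorem SRd.finite_of_le {Λ : Type} [Group Λ] {m N : ℕ} (h : SRd Λ m) (hN : N ≤ m)
    (ρ : Λ →* Mat N) (ho : ∀ γ, ρ γ * (ρ γ)ᵀ = 1) : (range ρ).Finite :=
  h.finite ρ ho univ isClosed_univ (fun _ _ _ => mem_univ _) Submodule.span_univ
    (by rw [Real.dimH_univ_pi_fin]; exact_mod_cast hN)

theorem finite_of_rigid {G : Type} [Group G] [TopologicalSpace G] {n m N : ℕ} (D : HigherRank G n)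
    (hd : D.ltD m) {Λ : Type} [Group Λ] [Group.FG Λ] (ρ : Λ →* Mat N)
    (ho : ∀ γ, ρ γ * (ρ γ)ᵀ = 1) (Y : Set (Fin N → ℝ)) (hY : IsClosed Y)
    (hinv : ∀ γ, ∀ y ∈ Y, ρ γ *ᵥ y ∈ Y) (hspan : Submodule.span ℝ Y = ⊤) (hdim : dimH Y ≤ m)
    (h : ∀ Λ₀ : Subgroup Λ, Λ₀.FiniteIndex → NoChar Λ₀ ∧ Rigid Λ₀ (lieAlg (range D.ρ))) :
    (range ρ).Finite :=
  (srd D hd h).finite ρ ho Y hY hinv hspan hdim

end Pool.Agent.P.MP_d483fb_an.Z.SR
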