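import Pool.Agent.P.MP_d483fb_an.Z.SR.Defs
import Pool.Agent.P.MP_d483fb_an.Z.EM.Vol

/-! Decay of coefficients along bounded words from exponential mixing. -/

open scoped Topology InnerProductSpace RealInnerProductSpace
open MeasureTheory Filter Set

set_option linter.unusedSectionVars false

noncomputable section

namespace Pool.Agent.P.MP_d483fb_an.Z.SR

variable {G : Type} [Group G] [TopologicalSpace G] [IsTopologicalGroup G] [LocallyCompactSpace G]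
  [SecondCountableTopology G] [MeasurableSpace G] [BorelSpace G]
  {H : Type} [NormedAddCommGroup H] [InnerProductSpace ℝ H] [CompleteSpace H]
  {U : G →* (H →L[ℝ] H)}

theorem integrable_orbit (ν : Measure G) [IsFiniteMeasure ν] (h1 : ∀ g ξ, ‖U g ξ‖ = ‖ξ‖)
    (h2 : ∀ ξ, Continuous fun g => U g ξ) (ξ : H) : Integrable (fun u => U u ξ) ν :=
  (integrable_const ‖ξ‖).mono' (h2 ξ).aestronglyMeasurable
    (Eventually.of_forall fun u => (h1 u ξ).le)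

theorem inner_smooth (ν : Measure G) [IsFiniteMeasure ν] (h1 : ∀ g ξ, ‖U g ξ‖ = ‖ξ‖)
    (h2 : ∀ ξ, Continuous fun g => U g ξ) (ξ w : H) (g : G) :
    ⟪w, U g (∫ u, U u ξ ∂ν)⟫ = ∫ u, ⟪w, U (g * u) ξ⟫ ∂ν := by
  have hi := integrable_orbit ν h1 h2 ξ
  rw [← (U g).integral_comp_comm hi, ← integral_inner ((U g).integrable_comp hi)]
  simp only [EM.pi_mul]

theorem gLip_smooth {dd : G → ℝ} {M : ℝ} {ν : Measure G} [IsProbabilityMeasure ν]
    (h0 : ∀ g, 0 ≤ dd g) (hM : 0 ≤ M) (hν : EM.LipM dd M ν) (h1 : ∀ g ξ, ‖U g ξ‖ = ‖ξ‖)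
    (h2 : ∀ ξ, Continuous fun g => U g ξ) (ξ : H) :
    EM.GLip dd U ((M + 1) * (‖ξ‖ + 1)) (∫ u, U u ξ ∂ν) := by
  have hξ := norm_nonneg ξ
  refine ⟨?_, fun g => ?_⟩
  · have h := norm_integral_le_of_norm_le_const (μ := ν) (f := fun u => U u ξ) (C := ‖ξ‖)
      (Eventually.of_forall fun u => (h1 u ξ).le)
    rw [probReal_univ, mul_one] at h
    nlinarith
  · set w := U g (∫ u, U u ξ ∂ν) - ∫ u, U u ξ ∂ν with hw
    have hw0 := norm_nonneg w
    have hd := h0 g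
    rcases hw0.eq_or_lt with h | h
    · rw [← h]
      positivity
    have hp : 0 < ‖w‖ * (‖ξ‖ + 1) := by positivity
    have key := hν g (fun u => ⟪w, U u ξ⟫ / (‖w‖ * (‖ξ‖ + 1)))
      ((continuous_const.inner (h2 ξ)).div_const _).measurable fun u => by
        rw [abs_div, abs_of_pos hp, div_le_one hp]
        refine (abs_real_inner_le_norm _ _).trans ?_
        rw [h1]
        nlinarith
    have e1 := inner_smooth ν h1 h2 ξ w g
    have e2 := inner_smooth ν h1 h2 ξ w 1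
    simp only [map_one, one_apply_eq_self, one_mul] at e2
    rw [integral_div, integral_div, ← e1, ← e2, ← sub_div, ← inner_sub_right, ← hw,
      real_inner_self_eq_norm_mul_norm, abs_of_nonneg (by positivity), div_le_iff₀ hp] at key
    have h3 : ‖w‖ ≤ M * dd g * (‖ξ‖ + 1) := le_of_mul_le_mul_left (by linarith) h
    nlinarith [mul_nonneg hd (add_nonneg hξ zero_le_one)]

theorem exists_word {ν : Measure G} [IsProbabilityMeasure ν] {K : Set G} (hK : ∀ᵐ u ∂ν, u ∈ K)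
    (h1 : ∀ g ξ, ‖U g ξ‖ = ‖ξ‖) (h2 : ∀ ξ, Continuous fun g => U g ξ) (ξ : H) (g : G) :
    ∃ u ∈ K, ∃ u' ∈ K, ⟪U (u'⁻¹ * g * u) ξ, ξ⟫ ≤ ⟪U g (∫ u, U u ξ ∂ν), ∫ u, U u ξ ∂ν⟫ := by
  have hi : ∀ (w : H) (g : G), Integrable (fun u => ⟪w, U (g * u) ξ⟫) ν := fun w g => by
    simp only [EM.pi_mul]
    exact ((U g).integrable_comp (integrable_orbit ν h1 h2 ξ)).const_inner w
  obtain ⟨u, hu, h3⟩ := exists_notMem_null_le_integral (hi (∫ u, U u ξ ∂ν) g) (ae_iff.1 hK)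
  obtain ⟨u', hu', h4⟩ := exists_notMem_null_le_integral (hi (U (g * u) ξ) 1) (ae_iff.1 hK)
  refine ⟨u, not_not.1 hu, u', not_not.1 hu', ?_⟩
  rw [← inner_smooth ν h1 h2] at h3 h4
  rw [map_one, one_apply_eq_self, real_inner_comm (∫ u, U u ξ ∂ν)] at h4
  rw [real_inner_comm _ (U g _), mul_assoc, EM.pi_mul, EM.inner_pi_left h1, inv_inv]
  rw [one_mul] at h4
  exact h4.trans h3

theorem dec_of_mix {n : ℕ} {D : ExpData G n} (Γ : EM.Gauge D) {Far : G → ℝ → Prop} {A : Type}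
    [NormedAddCommGroup A] {a : A → G} {c : ℝ} (hc : 0 < c)
    (hfar : ∀ r : ℝ, 0 ≤ r → ∃ t, ‖t‖ ≤ r ∧ Far (a t) (c * r))
    (hmix : ∀ (H : Type) [NormedAddCommGroup H] [InnerProductSpace ℝ H] [CompleteSpace H]
      (U : G →* (H →L[ℝ] H)), (∀ g ξ, ‖U g ξ‖ = ‖ξ‖) → (∀ ξ, Continuous fun g => U g ξ) →
      EM.MixH Γ.dd Far U) (Z : Set G) : Dec a Z := by
  intro H _ _ _ U h1 h2 h3 ξ
  obtain ⟨κ, hκ, C, -, h⟩ := hmix H U h1 h2
  obtain ⟨M, L, hM, hν⟩ := Γ.exists_lipM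
  obtain ⟨ν, _, hs, hl, -⟩ := hν 1 one_pos le_rfl
  rw [one_pow, div_one] at hl
  have hx := gLip_smooth Γ.nonneg hM hl h1 h2 ξ
  have hp : EM.prj U ⊤ (∫ u, U u ξ ∂ν) = 0 :=
    h3 _ fun g => EM.prj_fix U ⊤ _ (Subgroup.mem_top g)
  refine ⟨3, {g | Γ.dd g ≤ 2}, κ * c, C * ((M + 1) * (‖ξ‖ + 1)) * ((M + 1) * (‖ξ‖ + 1)), Γ.cpt,
    by positivity, (eventually_ge_atTop 0).mono fun r hr => ?_⟩
  obtain ⟨t, ht, hf⟩ := hfar r hr
  obtain ⟨u, hu, u', hu', h4⟩ := exists_word (K := {g | Γ.dd g ≤ 2})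
    (hs.mono fun u hu => show Γ.dd u ≤ 2 by linarith) h1 h2 ξ (a t)
  have h5 := h _ _ hf _ _ _ _ hx hx
  rw [hp, inner_zero_left, sub_zero] at h5
  refine ⟨[u'⁻¹, a t, u], le_rfl, fun g hg => ?_, ?_⟩
  · simp only [List.mem_cons, List.not_mem_nil, or_false] at hg
    rcases hg with rfl | rfl | rfl
    · exact Or.inl (show Γ.dd u'⁻¹ ≤ 2 by rwa [Γ.inv])
    · exact Or.inr (Or.inr ⟨t, ht, rfl⟩)
    · exact Or.inl hu
  · simp only [List.prod_cons, List.prod_nil, mul_one]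
    rw [← mul_assoc, mul_assoc κ]
    exact h4.trans ((le_abs_self _).trans h5)

end Pool.Agent.P.MP_d483fb_an.Z.SR
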