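import Pool.Agent.P.MP_d483fb_an.Z.SR.Defs
import Pool.Agent.P.MP_d483fb_an.Z.Su.ToLen
import Pool.Agent.P.MP_d483fb_an.Z.Path.LMR
import Pool.Agent.P.MP_d483fb_an.Os.MainT

/-! The data of superrigidity for the quotient of a normed group by a lattice. -/

open scoped Topology
open MeasureTheory Filter Set

set_option linter.unusedSectionVars false

noncomputable section

namespace Pool.Agent.P.MP_d483fb_an.Z.SR

variable {G : Type} [Group G] [TopologicalSpace G] [IsTopologicalGroup G] [T2Space G]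
  [LocallyCompactSpace G] [SecondCountableTopology G] [MeasurableSpace G] [BorelSpace G]
  (L : Lat G) (μ : Measure L.B) [IsProbabilityMeasure μ] [SMulInvariantMeasure G L.B μ]

/-- The section by elements of least norm. -/
def latSec : Sec L.Γ L.B where
  o := L.o
  μ := μ
  s := L.sec
  stab _ := L.smul_o_eq
  prob := inferInstance
  inv g := measurePreserving_smul g μ
  meas := L.measurable_sec
  s_o := L.sec_smul_o

theorem latSec_β (g : G) (x : L.B) : (latSec L μ).β g x = L.c g x :=
  Subtype.ext (L.coe_c g x).symm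

theorem lat_lmr {Far : G → ℝ → Prop} {T : Set G} (P : Geo L.toLen Far T)
    (E : Equi L.toLen Far L.base.o μ) (f : L.Γ → ℝ) (hf : ∀ γ δ, f (γ * δ) ≤ f γ + f δ) :
    ∃ C : ℝ, 0 ≤ C ∧ ∀ γ, f γ ≤ C * (L.len γ + 2) := by
  classical
  obtain ⟨C, hC⟩ := L.base.lmr P E (fun g => if h : g ∈ L.Γ then f ⟨g, h⟩ else 0) fun g g' h h' => by
    have h1 := L.smul_o_eq.1 h
    have h2 := L.smul_o_eq.1 h'
    rw [dif_pos h1, dif_pos h2, dif_pos (mul_mem h1 h2)]
    exact hf ⟨g, h1⟩ ⟨g', h2⟩
  refine ⟨|C|, abs_nonneg C, fun γ => ?_⟩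
  have h := hC γ (L.smul_o_eq.2 γ.2)
  rw [dif_pos γ.2] at h
  have h1 := L.toLen_le γ
  exact h.trans (mul_le_mul (le_abs_self C) (by linarith) (by positivity) (abs_nonneg C))

theorem lat_good {A : Type} [NormedAddCommGroup A] [NormedSpace ℝ A] [FiniteDimensional ℝ A]
    {a : A → G} (add : ∀ t t', a (t + t') = a t * a t') (cont : Continuous a) {c : ℝ}
    (hc : 0 ≤ c) (hlen : ∀ t, L.len (a t) ≤ c * ‖t‖)
    (erg : ∃ t, Ergodic (fun x : L.B => a t • x) μ) (gen : Gen G)
    (dec : Dec a (L.Γ ∩ Subgroup.center G)) (ms : MS μ a)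
    (lmr : ∀ f : L.Γ → ℝ, (∀ γ δ, f (γ * δ) ≤ f γ + f δ) →
      ∃ C : ℝ, 0 ≤ C ∧ ∀ γ, f γ ≤ C * (L.len γ + 2)) (nc : NoChar L.Γ) :
    Nonempty (Good (latSec L μ) a) := by
  have h0 : a 0 = 1 := by simpa using add 0 0
  let sys : Os.Sys A L.B μ :=
    { act := fun t x => a t • x
      zero := fun x => by rw [h0, one_smul]
      add := fun s t x => by rw [add, mul_smul]
      mp := fun s => measurePreserving_smul _ μ
      erg := fun U hU h => by
        obtain ⟨t, ht⟩ := erg
        refine (ht.ae_empty_or_univ hU (Set.ext fun x => ⟨fun hx => ?_, h t x⟩)).imp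
          ae_eq_empty.1 ae_eq_univ.1
        have := h (-t) _ hx
        rwa [smul_smul, ← add, neg_add_cancel, h0, one_smul] at this }
  refine ⟨⟨sys, fun _ _ => rfl, add, fun C hC => ?_, gen, dec, ms, fun k V _ _ _ _ _ π => ?_, nc⟩⟩
  · exact (show IsCompact {γ : L.Γ | (γ : G) ∈ C} from
      L.closed.isClosedEmbedding_subtypeVal.isCompact_preimage hC).finite_of_discrete
  · borelize A
    have := FiniteDimensional.proper k V
    have h1 : ∀ γ, (0 : ℝ) < max 1 ‖π γ‖ := fun γ => one_pos.trans_le (le_max_left _ _)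
    obtain ⟨C, hC, h⟩ := lmr (fun γ => Real.log (max 1 ‖π γ‖)) fun γ δ => by
      rw [← Real.log_mul (h1 γ).ne' (h1 δ).ne']
      refine Real.log_le_log (h1 _) (max_le
        (one_le_mul_of_one_le_of_one_le (le_max_left _ _) (le_max_left _ _)) ?_)
      rw [map_mul]
      exact (norm_mul_le _ _).trans
        (mul_le_mul (le_max_right _ _) (le_max_right _ _) (norm_nonneg _) (h1 γ).le)
    have hcc := mul_nonneg hC hc
    refine Os.oseledets_temp (h := fun x => 2 * C * L.ht x) (L := 2 * (C * c) + 2 * C)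
      ⟨fun x v => ?_, fun s t x v => ?_, fun s x v => ?_, by positivity,
        L.measurable_ht.const_mul _, fun x => mul_nonneg (by positivity) (L.ht_nonneg x),
        fun s x => ?_⟩
      (((latSec L μ).stronglyMeasurable_comp_β fun γ => π γ).comp_measurable
        ((cont.measurable.comp measurable_fst).prodMk measurable_snd))
    · rw [h0, Sec.β_one, map_one, one_apply_eq_self]
    · rw [add, Sec.β_mul, map_mul]
      rfl
    · refine ((π _).le_opNorm v).trans (mul_le_mul_of_nonneg_right ?_ (norm_nonneg v))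
      refine (le_max_right 1 _).trans ((Real.log_le_iff_le_exp (h1 _)).1 ((h _).trans ?_))
      rw [latSec_β]
      have h2 := mul_le_mul_of_nonneg_left (L.len_c' (a s) x) hC
      have h3 := mul_le_mul_of_nonneg_left (hlen s) hC
      nlinarith [mul_nonneg hC (norm_nonneg s)]
    · have h2 := mul_le_mul_of_nonneg_left (L.ht_smul (a s) x) hC
      have h3 := mul_le_mul_of_nonneg_left (hlen s) hC
      change 2 * C * L.ht (a s • x) ≤ _
      nlinarith [mul_nonneg hC (norm_nonneg s)]

end Pool.Agent.P.MP_d483fb_an.Z.SR
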