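import Pool.Agent.P.MP_d483fb_an.Z.SR.Defs
import Pool.Agent.P.MP_d483fb_an.Z.TZ.KazLat

/-! Subgroups of finite index of a lattice are lattices; transport along isomorphisms. -/

open scoped Topology ENNReal TensorProduct
open MeasureTheory Filter Set

set_option linter.unusedSectionVars false

noncomputable section

namespace Pool.Agent.P.MP_d483fb_an.Z

theorem IsLattice.of_finiteIndex {G : Type} [Group G] [TopologicalSpace G] [IsTopologicalGroup G]
    [SecondCountableTopology G] {Γ : Subgroup G} (h : IsLattice Γ) (Λ : Subgroup Γ)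
    [Λ.FiniteIndex] : IsLattice (Λ.map Γ.subtype) := by
  classical
  obtain ⟨hd, μ, hμ, hinv⟩ := h
  refine ⟨DiscreteTopology.of_subset (s := (Γ : Set G)) hd (Subgroup.map_subtype_le Λ), ?_⟩
  borelize G
  let _ : MeasurableSpace (G ⧸ Γ) := borel _
  have : BorelSpace (G ⧸ Γ) := ⟨rfl⟩
  let _ : MeasurableSpace (G ⧸ Λ.map Γ.subtype) := borel _
  have : BorelSpace (G ⧸ Λ.map Γ.subtype) := ⟨rfl⟩
  have := Fintype.ofFinite (Γ ⧸ Λ)
  obtain ⟨σ, hσ, h2, -⟩ := TZ.exists_section Γ μ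
  have hmk : ∀ (g : G) b, ((g * σ b : G) : G ⧸ Γ) = g • b := by
    intro g b
    conv_rhs => rw [← h2 b]
    rfl
  let F : Γ ⧸ Λ → G ⧸ Γ → G ⧸ Λ.map Γ.subtype := fun q x => ((σ x * (q.out : Γ) : G) : G ⧸ _)
  have hF : ∀ q, Measurable (F q) := fun q =>
    QuotientGroup.continuous_mk.measurable.comp (hσ.mul_const _)
  let β : G → G ⧸ Γ → Γ := fun g b =>
    ⟨(σ (g • b))⁻¹ * (g * σ b), QuotientGroup.eq.mp ((h2 _).trans (hmk g b).symm)⟩
  have hβ : ∀ g q x, g • F q x = F (β g x • q) (g • x) := by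
    intro g q x
    have h1 : ((β g x * q.out : Γ) : Γ ⧸ Λ) = ((β g x • q).out : Γ) := by
      rw [QuotientGroup.out_eq']
      conv_rhs => rw [← QuotientGroup.out_eq' q]
      rfl
    refine QuotientGroup.eq.2 ⟨_, QuotientGroup.eq.1 h1, ?_⟩
    simp [β, mul_assoc]
  have hI : ∀ {A : Set (G ⧸ Λ.map Γ.subtype)}, MeasurableSet A → ∀ q,
      Measurable fun x => (A.indicator 1 (F q x) : ℝ≥0∞) := fun hA q =>
    (measurable_one.indicator hA).comp (hF q)
  have hν : ∀ A : Set (G ⧸ Λ.map Γ.subtype), MeasurableSet A →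
      (∑ q, μ.map (F q)) A = ∫⁻ x, ∑ q, A.indicator 1 (F q x) ∂μ := by
    intro A hA
    rw [Measure.finsetSum_apply, lintegral_finsetSum _ fun q _ => hI hA q]
    refine Finset.sum_congr rfl fun q _ => ?_
    rw [← lintegral_indicator_one hA, lintegral_map (measurable_one.indicator hA) (hF q)]
  refine ⟨(Fintype.card (Γ ⧸ Λ) : ℝ≥0∞)⁻¹ • ∑ q, μ.map (F q), ⟨?_⟩, ⟨fun g A hA => ?_⟩⟩
  · rw [Measure.smul_apply, hν _ MeasurableSet.univ]
    simp only [indicator_univ, Pi.one_apply, Finset.sum_const, Finset.card_univ, nsmul_eq_mul,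
      mul_one, lintegral_const, measure_univ, smul_eq_mul]
    exact ENNReal.inv_mul_cancel (by simp) (by simp)
  · rw [Measure.smul_apply, Measure.smul_apply, hν _ hA, hν _ (measurable_const_smul g hA),
      ← (measurePreserving_smul g μ).lintegral_comp (Finset.measurable_sum _ fun q _ => hI hA q)]
    congr 1
    refine lintegral_congr fun x => ?_
    rw [← Equiv.sum_comp (MulAction.toPerm (β g x)) fun q => A.indicator 1 (F q (g • x))]
    refine Finset.sum_congr rfl fun q _ => ?_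
    rw [MulAction.toPerm_apply, ← hβ]
    rfl

namespace SR

theorem NoChar.of_mulEquiv {Λ Λ' : Type} [Group Λ] [Group Λ'] (e : Λ ≃* Λ') (h : NoChar Λ') :
    NoChar Λ := fun χ hχ γ => by
  simpa using h (fun x => χ (e.symm x)) (fun x y => by rw [map_mul, hχ]) (e γ)

theorem Rigid.of_mulEquiv {Λ Λ' : Type} [Group Λ] [Group Λ'] (e : Λ ≃* Λ') {𝔤 : Type} [LieRing 𝔤]
    [LieAlgebra ℝ 𝔤] (h : Rigid Λ' 𝔤) : Rigid Λ 𝔤 := by
  intro L _ _ _ d b π h1 h2 h3 h4
  refine h L d b (π.comp e.symm.toMonoidHom) (fun γ => h1 _) (fun γ => h2 _)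
    (fun W hW => h3 W fun γ v hv => ?_) (h4.mono ?_)
  · simpa using hW (e γ) v hv
  · rintro _ ⟨γ, rfl⟩
    exact ⟨e γ, by simp⟩

end SR

end Pool.Agent.P.MP_d483fb_an.Z
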