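import Pool.Agent.P.MP_d483fb_an.Z.SR.Core
import Pool.Agent.P.MP_d483fb_an.Z.SR.End
import Pool.Agent.P.MP_d483fb_an.Z.SR.Der
import Pool.Agent.P.MP_d483fb_an.Z.SR.Lat
import Pool.Agent.P.MP_d483fb_an.Z.SR.GlueLat
import Pool.Agent.P.MP_d483fb_an.Z.SR.GlueDec
import Pool.Agent.P.MP_d483fb_an.Z.MS.Sec
import Pool.Agent.P.MP_d483fb_an.Z.EM.Equi
import Pool.Agent.P.MP_d483fb_an.Z.Path.Geo
import Pool.Agent.P.MP_d483fb_an.Z.TZ.Kaz
import Pool.Agent.P.MP_d483fb_an.Z.TZ.KazStd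
import Pool.Agent.P.MP_d483fb_an.Z.Lie.ExStd

/-! Superrigidity for compact targets. -/

open scoped Topology Matrix.Norms.Operator InnerProductSpace RealInnerProductSpace
open MeasureTheory Filter Set

set_option linter.unusedSectionVars false

noncomputable section

namespace Pool.Agent.P.MP_d483fb_an.Z.SR

variable {G : Type} [Group G] [TopologicalSpace G] [IsTopologicalGroup G] [ConnectedSpace G]
  [T2Space G] [LocallyCompactSpace G] [SecondCountableTopology G] {n k : ℕ}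

theorem far_ray (D : Std G n k) : ∃ c : ℝ, 0 < c ∧ ∀ r : ℝ, 0 ≤ r →
    ∃ t, ‖t‖ ≤ r ∧ D.Far (D.a t) (c * r) := by
  obtain ⟨s, hs⟩ := D.exists_reg
  obtain ⟨c, hc, h⟩ : ∃ c : ℝ, 0 < c ∧ ∀ β ∈ D.roots, c ≤ |⟪β, s⟫| := by
    rcases D.roots.eq_empty_or_nonempty with he | he
    · exact ⟨1, one_pos, by simp [he]⟩
    · obtain ⟨β, hβ, h⟩ := D.roots.exists_min_image (fun β => |⟪β, s⟫|) he
      exact ⟨_, abs_pos.2 (hs β hβ), h⟩
  have h1 : 0 < ‖s‖ + 1 := by positivity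
  refine ⟨c / (‖s‖ + 1), by positivity, fun r hr => ⟨(r / (‖s‖ + 1)) • s, ?_, 1, one_mem _, 1,
    one_mem _, _, by rw [one_mul, mul_one], fun γ hγ => ⟨γ, hγ, .refl, ?_⟩⟩⟩
  · rw [norm_smul, Real.norm_of_nonneg (by positivity), div_mul_eq_mul_div, div_le_iff₀ h1]
    nlinarith
  · rw [inner_smul_right, abs_mul, abs_of_nonneg (by positivity), div_mul_comm]
    exact mul_le_mul_of_nonneg_left (h γ hγ) (by positivity)

theorem dec_of_std (D : Std G n k) (Z : Set G) : Dec D.a Z := by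
  borelize G
  obtain ⟨Γ⟩ := EM.exists_gauge D.toExpData
  obtain ⟨c, hc, h⟩ := far_ray D
  exact dec_of_mix Γ hc h (fun _ _ _ _ _ h1 h2 => D.mixH Γ h1 h2) Z

theorem rigid_of_lattice (D : Std G n k) {𝔤 : Type} [LieRing 𝔤] [LieAlgebra ℝ 𝔤] (hd : Der G 𝔤)
    {Γ : Subgroup G} (h : IsLattice Γ) : Rigid Γ 𝔤 := by
  have hT := D.hasT h
  obtain ⟨_, μ, hμ, hinv⟩ := h
  borelize G
  let L := D.lat Γ
  let μ' : Measure L.B := μ
  have : IsProbabilityMeasure μ' := hμ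
  have : SMulInvariantMeasure G L.B μ' := hinv
  have hE : MS.GErg G μ' := ⟨fun g => measurePreserving_smul g μ', fun U hU h =>
    aeconst_of_trans (Measure.haar (G := G)).inv L.base.trans' hU h⟩
  obtain ⟨T, -, -, ⟨P⟩⟩ := D.geo L.toLen
  obtain ⟨E⟩ := D.equi (μ := μ') L.toLen L.base
  obtain ⟨hG⟩ := lat_good L μ' D.a_add D.a_cont
    (LinearMap.toContinuousLinearMap D.dg).opNorm_nonneg
    (fun t => (D.len_ex_le (D.dg_mem t)).trans
      ((LinearMap.toContinuousLinearMap D.dg).le_opNorm t))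
    ((MS.ergodic_wall D hE 0).imp fun _ h => h.2) (MS.gen_of_std D) (dec_of_std D _)
    (MS.section_lemma D hE) (lat_lmr L μ' P E) hT.hom_eq_zero
  have : Group.FG L.Γ := hT.fg
  exact hG.rigid hd

/-- Superrigidity: orthogonal representations of a lattice. -/
theorem srd_of_lattice (R : HigherRank G n) {m : ℕ} (hd : R.ltD m) {Γ : Subgroup G}
    (h : IsLattice Γ) : SRd Γ m := by
  obtain ⟨k, D, -⟩ := R.exists_std
  have := (D.hasT h).fg
  refine srd R hd fun Λ hΛ => ⟨((D.hasT h).of_finiteIndex Λ).hom_eq_zero, ?_⟩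
  exact (rigid_of_lattice D R.der (h.of_finiteIndex Λ)).of_mulEquiv
    (Λ.equivMapOfInjective Γ.subtype Γ.subtype_injective)

theorem SRd.of_mulEquiv {Λ Λ' : Type} [Group Λ] [Group Λ'] (e : Λ ≃* Λ') {m : ℕ} (h : SRd Λ' m) :
    SRd Λ m := by
  intro N ρ ho
  have he : range (ρ.comp e.symm.toMonoidHom) = range ρ := e.symm.surjective.range_comp ρ
  rw [← he]
  exact h N _ fun γ => ho _

/-- Superrigidity for the subgroups of finite index of a lattice. -/
theorem srd_lattice (R : HigherRank G n) {m : ℕ} (hd : R.ltD m) (Γ : Subgroup G)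
    (h : IsLattice Γ) (Λ : Subgroup Γ) (hΛ : Λ.FiniteIndex) : SRd Λ m :=
  (srd_of_lattice R hd (h.of_finiteIndex Λ)).of_mulEquiv
    (Λ.equivMapOfInjective Γ.subtype Γ.subtype_injective)

end Pool.Agent.P.MP_d483fb_an.Z.SR
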