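import Pool.Agent.P.MP_d483fb_an.Z.SR.BorelA

open scoped Topology ENNReal Matrix
open MeasureTheory Filter Set

set_option linter.unusedSectionVars false

noncomputable section

namespace Pool.Agent.P.MP_d483fb_an.Z.SR

variable {G : Type} [Group G] [TopologicalSpace G] [IsTopologicalGroup G] [LocallyCompactSpace G]
  [T2Space G] [SecondCountableTopology G] [MeasurableSpace G] [BorelSpace G]
  {Γ : Subgroup G} [Countable Γ] {X : Type} [MeasurableSpace X] [MulAction G X]
  [MeasurableSMul₂ G X]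
  {𝕜 W : Type} [RCLike 𝕜] [NormedAddCommGroup W] [NormedSpace 𝕜 W] [FiniteDimensional 𝕜 W]

theorem borelB_mul_inv (τ : G →* (W →L[𝕜] W)) (g : G) (v : W) : τ g (τ g⁻¹ v) = v := by
  rw [← mul_apply_eq_comp, ← map_mul, mul_inv_cancel, map_one,
    one_apply_eq_self]

theorem borelB_inv_mul (τ : G →* (W →L[𝕜] W)) (g : G) (v : W) : τ g⁻¹ (τ g v) = v := by
  rw [← mul_apply_eq_comp, ← map_mul, inv_mul_cancel, map_one,
    one_apply_eq_self]

/-- The action on multilinear forms. -/
def formRep (τ : G →* (W →L[𝕜] W)) (c : ℕ) : G →*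
    (ContinuousMultilinearMap 𝕜 (fun _ : Fin c => W) 𝕜 →L[𝕜]
      ContinuousMultilinearMap 𝕜 (fun _ : Fin c => W) 𝕜) where
  toFun g := ContinuousMultilinearMap.compContinuousLinearMapContinuousMultilinear 𝕜
    (fun _ : Fin c => W) (fun _ : Fin c => W) 𝕜 fun _ => τ g⁻¹
  map_one' := by
    ext ω m
    simp
  map_mul' g h := by
    ext ω m
    simp

theorem formRep_apply (τ : G →* (W →L[𝕜] W)) (c : ℕ) (g : G)
    (ω : ContinuousMultilinearMap 𝕜 (fun _ : Fin c => W) 𝕜) (m : Fin c → W) :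
    formRep τ c g ω m = ω fun i => τ g⁻¹ (m i) := rfl

theorem continuous_formRep (τ : G →* (W →L[𝕜] W)) (hτ : Continuous τ) (c : ℕ) :
    Continuous (formRep τ c) :=
  (ContinuousMultilinearMap.compContinuousLinearMapContinuousMultilinear 𝕜
    (fun _ : Fin c => W) (fun _ : Fin c => W) 𝕜).cont.comp
      (continuous_pi fun _ => hτ.comp continuous_inv)

/-- The action on bilinear products. -/
def bilRep (τ : G →* (W →L[𝕜] W)) :
    G →* ((W →L[𝕜] W →L[𝕜] W) →L[𝕜] (W →L[𝕜] W →L[𝕜] W)) where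
  toFun g := LinearMap.toContinuousLinearMap
    { toFun := fun B => ((ContinuousLinearMap.compL 𝕜 W W W (τ g)).comp
        (((ContinuousLinearMap.compL 𝕜 W W W).flip (τ g⁻¹)).comp B)).comp (τ g⁻¹)
      map_add' := fun B B' => by
        ext x y
        simp
      map_smul' := fun c B => by
        ext x y
        simp }
  map_one' := by
    ext B x y
    simp
  map_mul' g h := by
    ext B x y
    simp

theorem bilRep_apply (τ : G →* (W →L[𝕜] W)) (g : G) (B : W →L[𝕜] W →L[𝕜] W) (x y : W) :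
    bilRep τ g B x y = τ g (B (τ g⁻¹ x) (τ g⁻¹ y)) := rfl

theorem continuous_bilRep (τ : G →* (W →L[𝕜] W)) (hτ : Continuous τ) :
    Continuous (bilRep τ) := by
  have hi : Continuous fun g : G => τ g⁻¹ := hτ.comp continuous_inv
  have h1 : ∀ B : W →L[𝕜] W →L[𝕜] W, Continuous fun g => bilRep τ g B := fun B => by
    refine continuous_clm_apply.2 fun x => continuous_clm_apply.2 fun y => ?_
    simp only [bilRep_apply]
    exact hτ.clm_apply ((B.continuous.comp (hi.clm_apply continuous_const)).clm_apply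
      (hi.clm_apply continuous_const))
  exact (continuous_clm_apply (𝕜 := 𝕜) (E := W →L[𝕜] W →L[𝕜] W)
    (F := W →L[𝕜] W →L[𝕜] W)).2 h1

theorem Sec.inv_submodule (S : Sec Γ X) (hgen : Gen G) (τ : G →* (W →L[𝕜] W))
    (hτ : Continuous τ) (U : Submodule 𝕜 W) (h : ∀ γ : Γ, ∀ v ∈ U, τ γ v ∈ U) (g : G) :
    ∀ v ∈ U, τ g v ∈ U := by
  intro v hv
  set c := Module.finrank 𝕜 (W ⧸ U)
  let e : Module.Basis (Fin c) 𝕜 (W ⧸ U) := Module.finBasis 𝕜 (W ⧸ U)
  have : FiniteDimensional 𝕜 (ContinuousMultilinearMap 𝕜 (fun _ : Fin c => W) 𝕜) :=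
    Module.Finite.of_injective (ContinuousMultilinearMap.toMultilinearMapLinear (R' := 𝕜))
      ContinuousMultilinearMap.toMultilinearMap_injective
  let ω : ContinuousMultilinearMap 𝕜 (fun _ : Fin c => W) 𝕜 :=
    { toMultilinearMap := e.det.toMultilinearMap.compLinearMap fun _ => U.mkQ
      cont := by
        show Continuous fun m : Fin c → W => e.det fun i => U.mkQ (m i)
        simp only [Module.Basis.det_apply]
        refine Continuous.matrix_det (continuous_matrix fun i j => ?_)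
        exact (LinearMap.continuous_of_finiteDimensional (e.coord i ∘ₗ U.mkQ)).comp
          (continuous_apply j) }
  have hω : ∀ m, ω m = e.det fun i => U.mkQ (m i) := fun _ => rfl
  have hfix := S.fixed_of_line hgen (formRep τ c) (continuous_formRep τ hτ c) ω (fun γ => by
    refine ⟨LinearMap.det (U.mapQ U (τ (γ⁻¹ : Γ) : W →ₗ[𝕜] W) (h γ⁻¹)), ?_⟩
    ext m
    rw [formRep_apply, smul_apply, hω, hω, smul_eq_mul,
      ← Module.Basis.det_comp]
    rfl) g
  rw [← Submodule.Quotient.mk_eq_zero, ← e.forall_coord_eq_zero_iff]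
  intro i
  choose w hw using fun j => U.mkQ_surjective (e j)
  have h1 : ω (Function.update w i (τ g v)) = e.coord i (U.mkQ (τ g v)) := by
    have e1 : (fun j => U.mkQ (Function.update w i (τ g v) j)) =
        Function.update e i (U.mkQ (τ g v)) := by
      funext j
      by_cases hj : j = i
      · simp [hj]
      · simp only [Function.update_of_ne hj, hw]
    rw [hω, e1, Module.Basis.det_apply, e.toMatrix_update, e.toMatrix_self,
      ← Matrix.cramer_apply, Matrix.cramer_one]
    rfl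
  have h2 : formRep τ c g ω (Function.update w i (τ g v)) = 0 := by
    rw [formRep_apply, hω]
    refine e.det.map_coord_zero i ?_
    simpa [borelB_inv_mul] using hv
  rw [hfix, h1] at h2
  exact h2

theorem Sec.descend (S : Sec Γ X) (hgen : Gen G) {n : ℕ} (τ : G →* Matrix (Fin n) (Fin n) 𝕜)
    (hτ : Continuous τ) (π : Γ →* (W →L[𝕜] W)) (Φ : (Fin n → 𝕜) →ₗ[𝕜] W)
    (hΦ : ∀ (γ : Γ) (v : Fin n → 𝕜), Φ (τ γ *ᵥ v) = π γ (Φ v)) (hs : Function.Surjective Φ) :
    ∃ τ' : G →* (W →L[𝕜] W), Continuous τ' ∧ ∀ γ : Γ, τ' γ = π γ := by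
  let σ : G →* ((Fin n → 𝕜) →L[𝕜] (Fin n → 𝕜)) :=
    { toFun := fun g => LinearMap.toContinuousLinearMap (Matrix.toLin' (τ g))
      map_one' := by
        ext v i
        simp
      map_mul' := fun g h => by
        refine ContinuousLinearMap.ext fun v => ?_
        simp }
  have hσ : ∀ g v, σ g v = τ g *ᵥ v := fun _ _ => rfl
  have hσc : Continuous σ := continuous_clm_apply.2 fun v => by
    simp only [hσ]
    exact hτ.matrix_mulVec continuous_const
  have hker : ∀ g v, Φ v = 0 → Φ (τ g *ᵥ v) = 0 := fun g =>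
    S.inv_submodule hgen σ hσc (LinearMap.ker Φ) (fun γ v hv => by
      rw [LinearMap.mem_ker] at hv ⊢
      rw [hσ, hΦ, hv, map_zero]) g
  obtain ⟨R, hR⟩ := Φ.exists_rightInverse_of_surjective (LinearMap.range_eq_top.2 hs)
  have hR' : ∀ x, Φ (R x) = x := fun x => LinearMap.congr_fun hR x
  have key : ∀ g v, Φ (τ g *ᵥ R (Φ v)) = Φ (τ g *ᵥ v) := by
    intro g v
    rw [← sub_eq_zero, ← map_sub, ← Matrix.mulVec_sub]
    exact hker g _ (by rw [map_sub, hR', sub_self])
  refine ⟨{ toFun := fun g => LinearMap.toContinuousLinearMap (Φ ∘ₗ Matrix.toLin' (τ g) ∘ₗ R)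
            map_one' := by
              ext x
              simp [hR']
            map_mul' := fun g h => by
              ext x
              simp [key] }, continuous_clm_apply.2 fun x => ?_, fun γ => ?_⟩
  · exact Φ.continuous_of_finiteDimensional.comp (hτ.matrix_mulVec continuous_const)
  · ext x
    simp [hΦ, hR']

theorem Sec.aut_of_lattice (S : Sec Γ X) (hgen : Gen G) (τ : G →* (W →L[𝕜] W))
    (hτ : Continuous τ) (B : W →L[𝕜] W →L[𝕜] W)
    (h : ∀ (γ : Γ) (x y : W), τ γ (B x y) = B (τ γ x) (τ γ y)) (g : G) (x y : W) :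
    τ g (B x y) = B (τ g x) (τ g y) := by
  have hfix := S.fixed_of_line (𝕜 := 𝕜) (W := W →L[𝕜] W →L[𝕜] W) hgen (bilRep τ)
    (continuous_bilRep τ hτ) B (fun γ => ⟨1, by
    ext x y
    rw [bilRep_apply, h, borelB_mul_inv, borelB_mul_inv, one_smul]⟩) g
  rw [← congrArg (fun B' : W →L[𝕜] W →L[𝕜] W => B' (τ g x) (τ g y)) hfix, bilRep_apply,
    borelB_inv_mul, borelB_inv_mul]

end Pool.Agent.P.MP_d483fb_an.Z.SR
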