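import Pool.Agent.P.MP_d483fb_an.Z.SR.Defs

open scoped Topology ENNReal
open MeasureTheory Filter Set

set_option linter.unusedSectionVars false

noncomputable section

namespace Pool.Agent.P.MP_d483fb_an.Z.SR

variable {A X V : Type} [NormedAddCommGroup A] [MeasurableSpace X] {μ : Measure X}
  [NormedAddCommGroup V] [NormedSpace ℂ V] [FiniteDimensional ℂ V] {sys : Os.Sys A X μ}
  {c : A → X → V →L[ℂ] V} {ι : Type} [Fintype ι]

theorem grade_est (o : Os.OseA sys c ι) (B : V →L[ℂ] V →L[ℂ] V)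
    (hB : ∀ t x u v, c t x (B u v) = B (c t x u) (c t x v)) {x : X} (hx : x ∈ o.X0) {i j : ι}
    (l : ι) {u v : V} (hu : u ∈ o.D i x) (hv : v ∈ o.D j x) {ε : ℝ} (hε : 0 < ε) :
    ∃ K : ℝ, 0 ≤ K ∧ ∀ s, ‖o.P l x (B u v)‖ ≤
      K * Real.exp (o.lam i s + o.lam j s - o.lam l s + 4 * ε * ‖s‖) := by
  obtain ⟨q, -, -, hq1, hq2⟩ := o.est ε hε
  refine ⟨Real.exp (4 * q x + o.B) * (‖B‖ * ‖u‖ * ‖v‖), by positivity, fun s => ?_⟩
  have h1 := (((hq2 x hx l).2 s) _ (o.P_mem x hx l (B u v))).2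
  rw [← o.P_inv x hx, hB] at h1
  have h3 : ‖o.P l (sys.act s x)‖ ≤ Real.exp (q x + ε * ‖s‖ + o.B) :=
    (hq2 _ (o.inv0 s x hx) l).1.trans (Real.exp_le_exp.2 (hq1 s x hx))
  have h5 := (((hq2 x hx i).2 s) u hu).1
  have h6 := (((hq2 x hx j).2 s) v hv).1
  calc ‖o.P l x (B u v)‖ ≤ Real.exp (q x - o.lam l s + ε * ‖s‖) *
        (‖o.P l (sys.act s x)‖ * (‖B‖ * ‖c s x u‖ * ‖c s x v‖)) := by
        refine h1.trans (mul_le_mul_of_nonneg_left (((o.P l _).le_opNorm _).trans ?_)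
          (Real.exp_pos _).le)
        exact mul_le_mul_of_nonneg_left (B.le_opNorm₂ _ _) (norm_nonneg _)
    _ ≤ Real.exp (q x - o.lam l s + ε * ‖s‖) * (Real.exp (q x + ε * ‖s‖ + o.B) *
        (‖B‖ * (Real.exp (q x + o.lam i s + ε * ‖s‖) * ‖u‖) *
          (Real.exp (q x + o.lam j s + ε * ‖s‖) * ‖v‖))) := by gcongr
    _ = Real.exp ((q x - o.lam l s + ε * ‖s‖) + (q x + ε * ‖s‖ + o.B) +
          (q x + o.lam i s + ε * ‖s‖) + (q x + o.lam j s + ε * ‖s‖)) * (‖B‖ * ‖u‖ * ‖v‖) := by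
        simp only [Real.exp_add]
        ring
    _ = _ := by
        rw [mul_right_comm (Real.exp _), ← Real.exp_add]
        congr 2
        ring

theorem grade_le (o : Os.OseA sys c ι) (B : V →L[ℂ] V →L[ℂ] V)
    (hB : ∀ t x u v, c t x (B u v) = B (c t x u) (c t x v)) {x : X} (hx : x ∈ o.X0) {i j l : ι}
    {u v : V} (hu : u ∈ o.D i x) (hv : v ∈ o.D j x) (h : o.P l x (B u v) ≠ 0) (s : A) :
    o.lam l s ≤ o.lam i s + o.lam j s := by
  by_contra hlt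
  obtain ⟨δ, hδ, e⟩ : ∃ δ : ℝ, 0 < δ ∧ o.lam l s = o.lam i s + o.lam j s + δ :=
    ⟨_, sub_pos.2 (not_le.1 hlt), by ring⟩
  have hs : 0 < ‖s‖ + 1 := by positivity
  obtain ⟨K, hK, hb⟩ := grade_est o B hB hx l hu hv (ε := δ / (8 * (‖s‖ + 1))) (by positivity)
  have h1 : 4 * (δ / (8 * (‖s‖ + 1))) * ‖s‖ ≤ δ / 2 := by
    rw [show 4 * (δ / (8 * (‖s‖ + 1))) * ‖s‖ = δ / 2 * (‖s‖ / (‖s‖ + 1)) by field_simp; ring]
    exact mul_le_of_le_one_right (by positivity) ((div_le_one hs).2 (by linarith))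
  have h2 : ∀ n : ℕ, ‖o.P l x (B u v)‖ ≤ K * Real.exp (-(δ / 2)) ^ n := fun n => by
    refine (hb (n • s)).trans (mul_le_mul_of_nonneg_left ?_ hK)
    rw [← Real.exp_nat_mul, Real.exp_le_exp]
    simp only [map_nsmul, nsmul_eq_mul, e]
    have h3 : 4 * (δ / (8 * (‖s‖ + 1))) * ‖n • s‖ ≤ 4 * (δ / (8 * (‖s‖ + 1))) * (n * ‖s‖) :=
      mul_le_mul_of_nonneg_left norm_nsmul_le (by positivity)
    have h4 := mul_le_mul_of_nonneg_left h1 (Nat.cast_nonneg (α := ℝ) n)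
    nlinarith
  have h3 : Tendsto (fun n : ℕ => K * Real.exp (-(δ / 2)) ^ n) atTop (𝓝 (K * 0)) :=
    (tendsto_pow_atTop_nhds_zero_of_lt_one (Real.exp_pos _).le
      (Real.exp_lt_one_iff.2 (by linarith))).const_mul K
  rw [mul_zero] at h3
  exact h (norm_le_zero_iff.1 (ge_of_tendsto' h3 h2))

theorem grade (o : Os.OseA sys c ι) (B : V →L[ℂ] V →L[ℂ] V)
    (hB : ∀ t x u v, c t x (B u v) = B (c t x u) (c t x v)) {x : X} (hx : x ∈ o.X0) {i j l : ι}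
    {u v : V} (hu : u ∈ o.D i x) (hv : v ∈ o.D j x) (h : o.P l x (B u v) ≠ 0) (t : A) :
    o.lam l t = o.lam i t + o.lam j t := by
  have h1 := grade_le o B hB hx hu hv h t
  have h2 := grade_le o B hB hx hu hv h (-t)
  simp only [map_neg] at h2
  linarith

theorem grade_eig (o : Os.OseA sys c ι) {x : X} (hx : x ∈ o.X0) (t : A) {i : ι} {u : V}
    (hu : u ∈ o.D i x) : (∑ l, (o.lam l t : ℂ) • o.P l x) u = (o.lam i t : ℂ) • u := by
  rw [_root_.sum_apply, Finset.sum_eq_single i]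
  · rw [_root_.smul_apply, o.P_self x hx i u hu]
  · intro l _ hl
    rw [_root_.smul_apply, o.P_other x hx l i hl u hu, smul_zero]
  · simp

theorem grade_pure (o : Os.OseA sys c ι) (B : V →L[ℂ] V →L[ℂ] V)
    (hB : ∀ t x u v, c t x (B u v) = B (c t x u) (c t x v)) {x : X} (hx : x ∈ o.X0) (t : A)
    {i j : ι} {u v : V} (hu : u ∈ o.D i x) (hv : v ∈ o.D j x) :
    (∑ i, (o.lam i t : ℂ) • o.P i x) (B u v) =
      B ((∑ i, (o.lam i t : ℂ) • o.P i x) u) v + B u ((∑ i, (o.lam i t : ℂ) • o.P i x) v) := by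
  rw [grade_eig o hx t hu, grade_eig o hx t hv, map_smul, map_smul, _root_.smul_apply,
    ← add_smul, _root_.sum_apply]
  conv_rhs => rw [← o.P_sum x hx (B u v), Finset.smul_sum]
  refine Finset.sum_congr rfl fun l _ => ?_
  rw [_root_.smul_apply]
  by_cases h : o.P l x (B u v) = 0
  · rw [h, smul_zero, smul_zero]
  · rw [grade o B hB hx hu hv h t, Complex.ofReal_add]

theorem grade_deriv (o : Os.OseA sys c ι) (B : V →L[ℂ] V →L[ℂ] V)
    (hB : ∀ t x u v, c t x (B u v) = B (c t x u) (c t x v)) {x : X} (hx : x ∈ o.X0) (t : A)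
    (u v : V) : (∑ i, (o.lam i t : ℂ) • o.P i x) (B u v) =
      B ((∑ i, (o.lam i t : ℂ) • o.P i x) u) v + B u ((∑ i, (o.lam i t : ℂ) • o.P i x) v) := by
  have h := fun i j => grade_pure o B hB hx t (o.P_mem x hx i u) (o.P_mem x hx j v)
  generalize (∑ i, (o.lam i t : ℂ) • o.P i x) = T at h ⊢
  rw [← o.P_sum x hx u, ← o.P_sum x hx v]
  simp only [map_sum, _root_.sum_apply, h, Finset.sum_add_distrib]

end Pool.Agent.P.MP_d483fb_an.Z.SR
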