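import Pool.Agent.P.MP_d483fb_an.Z.SR.Defs

open scoped Topology ENNReal Matrix
open MeasureTheory Filter Set

set_option linter.unusedSectionVars false

noncomputable section

namespace Pool.Agent.P.MP_d483fb_an.Z.SR

variable {G : Type} [Group G] [TopologicalSpace G] [IsTopologicalGroup G] [LocallyCompactSpace G]
  [T2Space G] [SecondCountableTopology G] [MeasurableSpace G] [BorelSpace G]
  {Γ : Subgroup G} [Countable Γ] {X : Type} [MeasurableSpace X] [MulAction G X]
  [MeasurableSMul₂ G X]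
  {k V : Type} [NontriviallyNormedField k] [ProperSpace k] [NormedAddCommGroup V] [NormedSpace k V]
  [FiniteDimensional k V]
  {S : Sec Γ X} {A : Type} [NormedAddCommGroup A] {a : A → G}

/-- Evaluation of a combination of sections at a point. -/
def Phi_ev {n : ℕ} (w : Fin n → X → V) (y : X) : (Fin n → k) →ₗ[k] V :=
  Fintype.linearCombination k fun j => w j y

theorem Phi_ev_apply {n : ℕ} (w : Fin n → X → V) (y : X) (v : Fin n → k) :
    Phi_ev w y v = ∑ j, v j • w j y := Fintype.linearCombination_apply _ _ _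

theorem Phi_good {n : ℕ} {w : Fin n → X → V} {x y : X} {c : V →L[k] V}
    {M : Matrix (Fin n) (Fin n) k} (h : ∀ j, c (w j x) = ∑ i, M i j • w i y) (v : Fin n → k) :
    c (Phi_ev w x v) = Phi_ev w y (M *ᵥ v) := by
  simp only [Phi_ev_apply, map_sum, map_smul, h, Finset.smul_sum, Matrix.mulVec, dotProduct,
    Finset.sum_smul, smul_smul]
  rw [Finset.sum_comm]
  simp only [mul_comm]

theorem Good.extend (hG : Good S a) (π : Γ →* (V →L[k] V)) (f : X → V)
    (hf : StronglyMeasurable f) (hinv : ∀ t, ∀ᵐ x ∂S.μ, π (S.β (a t) x) (f x) = f (a t • x))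
    (T : Set V) (hT : ∀ᵐ x ∂S.μ, f x ∈ T) :
    ∃ (n : ℕ) (τ : G →* Matrix (Fin n) (Fin n) k) (Φ : (Fin n → k) →ₗ[k] V), Continuous τ ∧
      (∀ (γ : Γ) (v : Fin n → k), Φ (τ γ *ᵥ v) = π γ (Φ v)) ∧ ∃ v, Φ v ∈ T := by
  obtain ⟨n, w, τ, b, hτ, hw, hc, -, hb⟩ := hG.ms k V (fun g x => π (S.β g x))
    (S.stronglyMeasurable_comp_β π) (fun x => by rw [S.β_one, map_one])
    (fun g h x => by rw [S.β_mul, map_mul]) f hf hinv
  let m : Measure G := Measure.haar
  have hm : MeasurableSet {p : G × X |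
      ∀ j, π (S.β p.1 p.2) (w j p.2) = ∑ i, τ p.1 i j • w i (p.1 • p.2)} := by
    rw [ofPred_forall]
    refine MeasurableSet.iInter fun j => StronglyMeasurable.measurableSet_eq_fun ?_ ?_
    · exact (continuous_fst.clm_apply continuous_snd).comp_stronglyMeasurable
        ((S.stronglyMeasurable_comp_β π).prodMk ((hw j).comp_measurable measurable_snd))
    · refine Finset.stronglyMeasurable_fun_sum _ fun i _ => StronglyMeasurable.smul ?_ ?_
      · exact (hτ.matrix_elem i j).stronglyMeasurable.comp_measurable measurable_fst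
      · exact (hw i).comp_measurable (measurable_fst.smul measurable_snd)
  have h1 : ∀ᵐ x ∂S.μ, ∀ᵐ g ∂m, ∀ j, π (S.β g x) (w j x) = ∑ i, τ g i j • w i (g • x) :=
    (Measure.ae_ae_comm (μ := m) (ν := S.μ)
      (p := fun g x => ∀ j, π (S.β g x) (w j x) = ∑ i, τ g i j • w i (g • x)) hm).1
      (Eventually.of_forall fun g => ae_all_iff.2 (hc g))
  obtain ⟨x, hx, hxb, hxT⟩ := (h1.and (hb.and hT)).exists
  have key : ∀ (γ : Γ) (v : Fin n → k),
      π γ (Phi_ev w x v) = Phi_ev w x (τ (S.s x * γ * (S.s x)⁻¹) *ᵥ v) := by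
    intro γ v
    have h2 := (quasiMeasurePreserving_mul_right m (S.s x * γ * (S.s x)⁻¹)).ae hx
    have : (ae m).NeBot := ae_neBot.2 (NeZero.ne m)
    obtain ⟨g, g1, g2⟩ := (hx.and h2).exists
    have e1 := Phi_good g1 (τ (S.s x * γ * (S.s x)⁻¹) *ᵥ v)
    have e2 := Phi_good g2 v
    rw [S.β_mul, mul_smul g, S.conj_smul, S.β_conj, map_mul, map_mul τ g,
      ← Matrix.mulVec_mulVec, ← e1, mul_apply_eq_comp] at e2
    have e3 := congrArg (π (S.β g x)⁻¹) e2
    simpa only [← mul_apply_eq_comp, ← mul_assoc, ← map_mul, inv_mul_cancel, map_one,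
      one_mul, one_apply_eq_self] using e3
  refine ⟨n, τ, (Phi_ev w x).comp (Matrix.mulVecLin (τ (S.s x))), hτ, fun γ v => ?_,
    τ (S.s x)⁻¹ *ᵥ b, ?_⟩
  · simp only [LinearMap.comp_apply, Matrix.mulVecLin_apply]
    rw [key, Matrix.mulVec_mulVec, Matrix.mulVec_mulVec, ← map_mul, ← map_mul,
      inv_mul_cancel_right]
  · simp only [LinearMap.comp_apply, Matrix.mulVecLin_apply]
    rw [Matrix.mulVec_mulVec, ← map_mul, mul_inv_cancel, map_one, Matrix.one_mulVec,
      Phi_ev_apply, ← hxb]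
    exact hxT

end Pool.Agent.P.MP_d483fb_an.Z.SR
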