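import Pool.Agent.P.MP_d483fb_an.Z.SR.Lam
import Pool.Agent.P.MP_d483fb_an.Z.SR.Phi
import Pool.Agent.P.MP_d483fb_an.Z.SR.BorelB
import Pool.Agent.P.MP_d483fb_an.Z.SR.Grade

open scoped Topology ENNReal
open MeasureTheory Filter Set

set_option linter.unusedSectionVars false
set_option linter.deprecated false

noncomputable section

namespace Pool.Agent.P.MP_d483fb_an.Z.SR

variable {G : Type} [Group G] [TopologicalSpace G] [IsTopologicalGroup G] [LocallyCompactSpace G]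
  [T2Space G] [SecondCountableTopology G] [MeasurableSpace G] [BorelSpace G]
  {Γ : Subgroup G} [Countable Γ] {X : Type} [MeasurableSpace X] [MulAction G X]
  [MeasurableSMul₂ G X]
  [MeasurableSpace.CountablyGenerated X]
  {S : Sec Γ X} {A : Type} [NormedAddCommGroup A] {a : A → G}
  {V : Type} [NormedAddCommGroup V] [NormedSpace ℂ V] [FiniteDimensional ℂ V]

theorem Good.arch (hG : Good S a) (B : V →L[ℂ] V →L[ℂ] V)
    (π : Γ →* (V →L[ℂ] V)) (hz : ∀ γ : Γ, (γ : G) ∈ Subgroup.center G → π γ = 1)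
    (aut : ∀ γ x y, π γ (B x y) = B (π γ x) (π γ y))
    (inner : ∀ D : V →L[ℂ] V, (∀ x y, D (B x y) = B (D x) y + B x (D y)) → ∃ h, D = B h)
    (inj : Function.Injective B)
    (irr : ∀ W : Submodule ℂ V, (∀ γ, ∀ v ∈ W, π γ v ∈ W) → W = ⊥ ∨ W = ⊤)
    (hu : ¬ ∃ C : ℝ, ∀ γ, ‖π γ‖ ≤ C) :
    ∃ τ : G →* (V →L[ℂ] V), Continuous τ ∧ (∀ γ : Γ, τ γ = π γ) ∧
      ∀ g x y, τ g (B x y) = B (τ g x) (τ g y) := by
  obtain ⟨ι, _, ⟨o⟩⟩ := hG.met ℂ V π
  obtain ⟨i₀, j₀, t, hij⟩ := hG.exists_lam_ne π hz hu o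
  obtain ⟨i, hi⟩ : ∃ i, o.lam i t ≠ 0 := by
    by_contra h
    push Not at h
    exact hij (by rw [h, h])
  obtain ⟨Λ₀, hΛ₀⟩ := (B : V →ₗ[ℂ] (V →L[ℂ] V)).exists_leftInverse_of_injective
    (LinearMap.ker_eq_bot.2 inj)
  have hΛ : ∀ h, Λ₀ (B h) = h := fun h => LinearMap.congr_fun hΛ₀ h
  set D : X → V →L[ℂ] V := fun x => ∑ l, (o.lam l t : ℂ) • o.P l x with hD
  have hDm : StronglyMeasurable D :=
    Finset.stronglyMeasurable_fun_sum _ fun l _ => (o.measP l).const_smul (o.lam l t : ℂ)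
  have hfm : StronglyMeasurable fun x => Λ₀ (D x) :=
    Λ₀.continuous_of_finiteDimensional.comp_stronglyMeasurable hDm
  have hBf : ∀ x ∈ o.X0, B (Λ₀ (D x)) = D x := by
    intro x hx
    obtain ⟨h, hh⟩ := inner (D x) (grade_deriv o B (fun s y u v => aut _ u v) hx t)
    rw [hh, hΛ]
  have hDinv : ∀ x ∈ o.X0, ∀ s v, D (a s • x) (π (S.β (a s) x) v) = π (S.β (a s) x) (D x v) := by
    intro x hx s v
    simp only [hD, ContinuousLinearMap.sum_apply, ContinuousLinearMap.smul_apply, map_sum,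
      map_smul]
    refine Finset.sum_congr rfl fun l _ => ?_
    rw [← hG.act, o.P_inv x hx l s v]
  have hinv : ∀ s, ∀ᵐ x ∂S.μ, π (S.β (a s) x) (Λ₀ (D x)) = Λ₀ (D (a s • x)) := by
    intro s
    filter_upwards [o.ae0] with x hx
    have hx' : a s • x ∈ o.X0 := hG.act s x ▸ o.inv0 s x hx
    refine inj ?_
    rw [hBf _ hx']
    ext v
    have hv : π (S.β (a s) x) (π (S.β (a s) x)⁻¹ v) = v := by
      rw [← ContinuousLinearMap.mul_apply, ← map_mul, mul_inv_cancel, map_one,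
        ContinuousLinearMap.one_apply]
    rw [← hv, ← aut, hBf x hx, hDinv x hx]
  have hne : ∀ᵐ x ∂S.μ, Λ₀ (D x) ∈ ({0}ᶜ : Set V) := by
    filter_upwards [o.ae0] with x hx h0
    have hD0 : D x = 0 := by rw [← hBf x hx, mem_singleton_iff.1 h0, map_zero]
    have hpos : 0 < Module.finrank ℂ (o.D i x) := by
      rw [o.rank x hx i]
      exact o.d_pos i
    obtain ⟨⟨v, hv⟩, hv0⟩ := Module.finrank_pos_iff_exists_ne_zero.1 hpos
    have hDv : D x v = (o.lam i t : ℂ) • v := by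
      simp only [hD, ContinuousLinearMap.sum_apply, ContinuousLinearMap.smul_apply]
      rw [Finset.sum_eq_single i, o.P_self x hx i v hv]
      · intro l _ hl
        rw [o.P_other x hx l i hl v hv, smul_zero]
      · intro h
        exact absurd (Finset.mem_univ i) h
    rw [hD0, ContinuousLinearMap.zero_apply, eq_comm, smul_eq_zero] at hDv
    rcases hDv with h | h
    · exact hi (by exact_mod_cast h)
    · exact hv0 (Subtype.ext h)
  obtain ⟨n, τ, Φ, hτ, hΦ, v, hv⟩ := hG.extend π _ hfm hinv _ hne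
  have hs : Function.Surjective Φ := by
    rw [← LinearMap.range_eq_top]
    refine (irr (LinearMap.range Φ) ?_).resolve_left fun h => hv ?_
    · rintro γ _ ⟨w, rfl⟩
      exact ⟨_, hΦ γ w⟩
    · have : Φ v ∈ LinearMap.range Φ := ⟨v, rfl⟩
      rw [h] at this
      exact this
  obtain ⟨τ', hτ', hπ⟩ := S.descend hG.gen τ hτ π Φ hΦ hs
  refine ⟨τ', hτ', hπ, fun g x y => S.aut_of_lattice hG.gen τ' hτ' B (fun γ x y => ?_) g x y⟩
  rw [hπ, aut]

end Pool.Agent.P.MP_d483fb_an.Z.SR
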