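import Mathlib

open Set

set_option linter.unusedSectionVars false

noncomputable section

namespace Pool.Agent.P.MP_d483fb_an.Z.SR

open LieAlgebra LieAlgebra.IsKilling LieModule Module

section General

variable {K L : Type*} [Field K] [CharZero K] [LieRing L] [LieAlgebra K L]
  [FiniteDimensional K L] [IsKilling K L]
  {H : LieSubalgebra K L} [H.IsCartanSubalgebra] [IsTriangularizable K H L]

/-- A nonzero root space is the line spanned by any of its nonzero vectors. -/
theorem Basis_line {β : Weight K H L} (hβ : β.IsNonZero) {y g : L}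
    (hy : y ∈ rootSpace H β) (hg : g ∈ rootSpace H β) (hg0 : g ≠ 0) :
    ∃ c : K, y = c • g := by
  obtain ⟨c, hc⟩ := (finrank_eq_one_iff_of_nonzero' (⟨g, hg⟩ : rootSpace H β)
    (by rwa [ne_eq, LieSubmodule.mk_eq_zero])).mp (finrank_rootSpace_eq_one β hβ) ⟨y, hy⟩
  exact ⟨c, by simpa using hc.symm⟩

/-- If the sum of two roots is a weight then the raising operator does not kill the root space. -/
theorem Basis_lie_ne_zero {α β : Weight K H L} (hα : α.IsNonZero) (hβ : β.IsNonZero)
    (hs : rootSpace H ((α : H → K) + β) ≠ ⊥) {h e f : L} (t : IsSl2Triple h e f)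
    (he : e ∈ rootSpace H α) (hf : f ∈ rootSpace H (-α)) {x : L}
    (hx : x ∈ rootSpace H β) (hx0 : x ≠ 0) : ⁅e, x⁆ ≠ 0 := by
  obtain ⟨v, hv, hv0⟩ := (chainTop (α : H → K) β).exists_ne_zero
  obtain rfl := t.h_eq_coroot hα he hf
  have prim : t.HasPrimitiveVectorWith v (chainLength α β : K) :=
    have := lie_mem_genWeightSpace_of_mem_genWeightSpace he hv
    ⟨hv0, (chainLength_smul _ _ hv).symm, by rwa [genWeightSpace_add_chainTop _ _ hα] at this⟩
  have h1 : (1 : ℤ) ≤ chainTopCoeff (α : H → K) β :=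
    ((rootSpace_zsmul_add_ne_bot_iff α β hα 1).mp (by rwa [one_smul])).1
  have h2 := chainTopCoeff_le_chainLength α β
  obtain ⟨r, hr⟩ : ∃ r : ℕ, chainTopCoeff (α : H → K) β = r + 1 :=
    ⟨chainTopCoeff (α : H → K) β - 1, by omega⟩
  have hm : (toEnd K L L f ^ (r + 1)) v ∈ rootSpace H β := by
    have := toEnd_pow_apply_mem hf hv (r + 1)
    rwa [coe_chainTop', hr, smul_neg, neg_add_cancel_left] at this
  have hn1 : (toEnd K L L f ^ (r + 1)) v ≠ 0 :=
    prim.pow_toEnd_f_ne_zero_of_eq_nat rfl (by omega)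
  have hn0 : (toEnd K L L f ^ r) v ≠ 0 :=
    prim.pow_toEnd_f_ne_zero_of_eq_nat rfl (by omega)
  obtain ⟨c, rfl⟩ := Basis_line hβ hx hm hn1
  have hc : c ≠ 0 := by
    rintro rfl
    exact hx0 (zero_smul _ _)
  rw [lie_smul, prim.lie_e_pow_succ_toEnd_f r]
  refine smul_ne_zero hc (smul_ne_zero (mul_ne_zero (Nat.cast_add_one_ne_zero r) ?_) hn0)
  rw [sub_ne_zero]
  intro hh
  have : chainLength α β = r := by exact_mod_cast hh
  omega

/-- One step of the induction on the height. -/
theorem Basis_step (S : LieSubalgebra K L) {α β γ : Weight K H L} (hα : α.IsNonZero)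
    (hβ : β.IsNonZero) (hγ : γ.IsNonZero) (hs : (γ : H → K) = α + β) {h e f : L}
    (t : IsSl2Triple h e f) (he : e ∈ rootSpace H α) (hf : f ∈ rootSpace H (-α)) (heS : e ∈ S)
    (hS : ∀ x ∈ rootSpace H β, x ∈ S) : ∀ y ∈ rootSpace H γ, y ∈ S := by
  intro y hy
  obtain ⟨x, hx, hx0⟩ := β.exists_ne_zero
  have hne := Basis_lie_ne_zero hα hβ (hs ▸ γ.genWeightSpace_ne_bot) t he hf hx hx0
  have hm : ⁅e, x⁆ ∈ rootSpace H γ := by
    rw [hs]
    exact lie_mem_genWeightSpace_of_mem_genWeightSpace he hx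
  obtain ⟨c, rfl⟩ := Basis_line hγ hy hm hne
  exact S.smul_mem c (S.lie_mem heS (hS x hx))

theorem Basis_root_add {i j k : H.root}
    (hk : (rootSystem H).root k = (rootSystem H).root i + (rootSystem H).root j) :
    ((k : Weight K H L) : H → K) = (j : Weight K H L) + (i : Weight K H L) := by
  funext x
  have := LinearMap.congr_fun hk x
  simp only [rootSystem_root_apply, LinearMap.add_apply, Weight.toLinear_apply] at this
  rw [Pi.add_apply, add_comm]
  exact this

/-- Root vectors for the simple roots and their negatives reach every root space. -/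
theorem Basis_roots (b : (rootSystem H).Base) (S : LieSubalgebra K L)
    (hS : ∀ i ∈ b.support, ∃ h e f : L, IsSl2Triple h e f ∧ e ∈ rootSpace H (i : Weight K H L) ∧
      f ∈ rootSpace H (-(i : Weight K H L)) ∧ e ∈ S ∧ f ∈ S) (k : H.root) :
    (∀ x ∈ rootSpace H (k : Weight K H L), x ∈ S) ∧
      ∀ x ∈ rootSpace H (-(k : Weight K H L)), x ∈ S := by
  refine b.induction_add k (p := fun k => (∀ x ∈ rootSpace H (k : Weight K H L), x ∈ S) ∧
      ∀ x ∈ rootSpace H (-(k : Weight K H L)), x ∈ S) ?_ ?_ ?_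
  · intro i hi
    have h1 : ((((rootSystem H).reflectionPerm i i : H.root) : Weight K H L) : H → K) =
        -(i : Weight K H L) := by
      funext x
      have h2 := (rootSystem H).root_reflectionPerm i i
      rw [RootPairing.reflection_apply_self] at h2
      exact LinearMap.congr_fun h2 x
    rw [h1, neg_neg]
    exact ⟨hi.2, hi.1⟩
  · intro i hi
    obtain ⟨h, e, f, t, he, hf, heS, hfS⟩ := hS i hi
    have hi0 := H.isNonZero_coe_root i
    refine ⟨fun x hx => ?_, fun x hx => ?_⟩
    · obtain ⟨c, rfl⟩ := Basis_line hi0 hx he t.e_ne_zero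
      exact S.smul_mem c heS
    · rw [← Weight.coe_neg] at hx hf
      obtain ⟨c, rfl⟩ := Basis_line hi0.neg hx hf t.f_ne_zero
      exact S.smul_mem c hfS
  · intro i j k hk hi hj
    obtain ⟨h, e, f, t, he, hf, heS, hfS⟩ := hS j hj
    have hi0 := H.isNonZero_coe_root i
    have hj0 := H.isNonZero_coe_root j
    have hk0 := H.isNonZero_coe_root k
    have hs := Basis_root_add hk
    refine ⟨Basis_step S hj0 hi0 hk0 hs t he hf heS hi.1, ?_⟩
    have hi2 := hi.2
    rw [← Weight.coe_neg] at hf hi2 ⊢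
    refine Basis_step S hj0.neg hi0.neg hk0.neg ?_ t.symm hf ?_ hfS hi2
    · rw [Weight.coe_neg, Weight.coe_neg, Weight.coe_neg, hs, neg_add]
    · rwa [Weight.coe_neg, neg_neg]

theorem Basis_top (S : LieSubalgebra K L) (hH : ∀ x ∈ H, x ∈ S)
    (hS : ∀ k : H.root, ∀ x ∈ rootSpace H (k : Weight K H L), x ∈ S) : S = ⊤ := by
  rw [eq_top_iff]
  rintro x -
  have hx : x ∈ ⨆ χ : Weight K H L, genWeightSpace L (χ : H → K) := by
    rw [iSup_genWeightSpace_eq_top' K H L]
    trivial
  refine LieSubmodule.iSup_induction _ (motive := fun x => x ∈ S) hx ?_ S.zero_mem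
    fun y z hy hz => S.add_mem hy hz
  intro χ y hy
  by_cases hχ : χ.IsNonZero
  · exact hS ⟨χ, by simpa [LieSubalgebra.root] using hχ⟩ y hy
  · have h0 : (χ : H → K) = 0 := not_not.mp hχ
    rw [h0] at hy
    have hy' : y ∈ rootSpace H (0 : H → K) := hy
    rw [rootSpace_zero_eq K L H] at hy'
    exact hH y hy'

theorem Basis_cartan (b : (rootSystem H).Base) (S : LieSubalgebra K L)
    (hS : ∀ i ∈ b.support, ((coroot (i : Weight K H L) : H) : L) ∈ S) : ∀ x ∈ H, x ∈ S := by
  intro x hx
  have h1 : (⟨x, hx⟩ : H) ∈ Submodule.span K (range b.toCoweightBasis) := by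
    rw [b.toCoweightBasis.span_eq]
    trivial
  have h2 : Submodule.span K (range b.toCoweightBasis) ≤
      S.toSubmodule.comap H.toSubmodule.subtype := by
    rw [Submodule.span_le]
    rintro - ⟨i, rfl⟩
    rw [b.toCoweightBasis_apply]
    exact hS i i.2
  exact h2 h1

theorem Basis_exists (b : (rootSystem H).Base) : Nonempty (LieAlgebra.Basis b.support H) := by
  have hex : ∀ i : b.support, ∃ h e f : L, IsSl2Triple h e f ∧
      e ∈ rootSpace H ((i : H.root) : Weight K H L) ∧
      f ∈ rootSpace H (-((i : H.root) : Weight K H L)) := fun i =>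
    exists_isSl2Triple_of_weight_isNonZero (H.isNonZero_coe_root i)
  choose h e f t he hf using hex
  have hh : ∀ i : b.support, h i = (coroot ((i : H.root) : Weight K H L) : H) := fun i =>
    (t i).h_eq_coroot (H.isNonZero_coe_root i) (he i) (hf i)
  have hA : ∀ i j : b.support, ((b.cartanMatrix i j : ℤ) : K) =
      ((i : H.root) : Weight K H L) (coroot ((j : H.root) : Weight K H L)) := fun i j => by
    have := b.algebraMap_cartanMatrixIn_apply ℤ i j
    rw [rootSystem_pairing_apply] at this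
    simpa using this
  refine ⟨{
    A := b.cartanMatrix
    h := h
    e := e
    f := f
    cartan_eq_lieSpan := ?_
    span_ef := ?_
    linInd := ?_
    nondegen := b.cartanMatrix_nondegenerate
    sl2 := t
    lie_h_h := ?_
    lie_h_e := ?_
    lie_h_f := ?_
    lie_e_f_ne := ?_ }⟩
  · refine le_antisymm (fun x hx => Basis_cartan b _ (fun i hi => ?_) x hx) ?_
    · exact LieSubalgebra.subset_lieSpan ⟨⟨i, hi⟩, hh ⟨i, hi⟩⟩
    · rw [LieSubalgebra.lieSpan_le]
      rintro - ⟨i, rfl⟩
      rw [hh i]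
      exact (coroot ((i : H.root) : Weight K H L)).2
  · have heS : ∀ i, e i ∈ LieSubalgebra.lieSpan K L (range e ∪ range f) := fun i =>
      LieSubalgebra.subset_lieSpan (Or.inl ⟨i, rfl⟩)
    have hfS : ∀ i, f i ∈ LieSubalgebra.lieSpan K L (range e ∪ range f) := fun i =>
      LieSubalgebra.subset_lieSpan (Or.inr ⟨i, rfl⟩)
    refine Basis_top (H := H) _ (Basis_cartan b _ fun i hi => ?_) fun k => ?_
    · rw [← hh ⟨i, hi⟩, ← (t ⟨i, hi⟩).lie_e_f]
      exact LieSubalgebra.lie_mem _ (heS _) (hfS _)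
    · refine (Basis_roots b _ (fun i hi => ?_) k).1
      exact ⟨h ⟨i, hi⟩, e ⟨i, hi⟩, f ⟨i, hi⟩, t ⟨i, hi⟩, he ⟨i, hi⟩, hf ⟨i, hi⟩, heS _, hfS _⟩
  · have h1 : h = H.toSubmodule.subtype ∘ b.toCoweightBasis := by
      funext i
      rw [Function.comp_apply, b.toCoweightBasis_apply, hh i]
      rfl
    rw [h1]
    exact b.toCoweightBasis.linearIndependent.map' _ (Submodule.ker_subtype _)
  · intro i j
    rw [hh i, hh j]
    have h0 : ((coroot ((j : H.root) : Weight K H L) : H) : L) ∈ rootSpace H (0 : H → K) := by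
      rw [rootSpace_zero_eq K L H]
      exact (coroot ((j : H.root) : Weight K H L)).2
    have := lie_eq_smul_of_mem_rootSpace h0 (coroot ((i : H.root) : Weight K H L))
    rw [Pi.zero_apply, zero_smul] at this
    exact this
  · intro i j
    have := lie_eq_smul_of_mem_rootSpace (he i) (coroot ((j : H.root) : Weight K H L))
    rw [hh j, ← Int.cast_smul_eq_zsmul K, hA]
    exact this
  · intro i j
    have := lie_eq_smul_of_mem_rootSpace (hf i) (coroot ((j : H.root) : Weight K H L))
    rw [hh j, ← Int.cast_smul_eq_zsmul K, Int.cast_neg, hA]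
    exact this
  · intro i j hij
    have hm := lie_mem_genWeightSpace_of_mem_genWeightSpace (he i) (hf j)
    by_contra hne
    have hbot : genWeightSpace L ((((i : H.root) : Weight K H L) : H → K) +
        -(((j : H.root) : Weight K H L) : H → K)) ≠ ⊥ := by
      intro hb
      rw [hb] at hm
      exact hne (by simpa using hm)
    let γ : Weight K H L := ⟨_, hbot⟩
    have hγ : γ.IsNonZero := by
      intro h0
      apply hij
      ext x
      have := congr_fun h0 x
      exact sub_eq_zero.mp (by rw [sub_eq_add_neg]; exact this)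
    refine b.sub_notMem_range_root i.2 j.2 ⟨⟨γ, by simpa [LieSubalgebra.root] using hγ⟩, ?_⟩
    ext x
    rw [sub_eq_add_neg]
    rfl

end General

theorem exists_lieBasis (L : Type) [LieRing L] [LieAlgebra ℂ L] [FiniteDimensional ℂ L]
    [LieAlgebra.IsSimple ℂ L] :
    ∃ (ι : Type) (_ : Finite ι) (H : LieSubalgebra ℂ L), Nonempty (LieAlgebra.Basis ι H) := by
  obtain ⟨x, hx⟩ := LieAlgebra.exists_isCartanSubalgebra_engel ℂ L
  obtain ⟨b⟩ := (rootSystem (LieSubalgebra.engel ℂ x)).nonempty_base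
  exact ⟨b.support, inferInstance, _, Basis_exists b⟩

end Pool.Agent.P.MP_d483fb_an.Z.SR
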