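import Pool.Agent.P.MP_d483fb_an.Z.SR.Defs

open scoped Topology ENNReal
open MeasureTheory Filter Set

set_option linter.unusedSectionVars false

noncomputable section

namespace Pool.Agent.P.MP_d483fb_an.Z.SR

variable {G : Type} [Group G] [TopologicalSpace G] [IsTopologicalGroup G] [LocallyCompactSpace G]
  [T2Space G] [SecondCountableTopology G] [MeasurableSpace G] [BorelSpace G]
  {Γ : Subgroup G} [Countable Γ] {X : Type} [MeasurableSpace X] [MulAction G X]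
  [MeasurableSMul₂ G X]
  {𝕜 W : Type} [RCLike 𝕜] [NormedAddCommGroup W] [NormedSpace 𝕜 W] [FiniteDimensional 𝕜 W]

theorem unipotent_of_contr (τ : G →* (W →L[𝕜] W)) (hτ : Continuous τ) {h u : G}
    (hu : Contr h u) : IsNilpotent (τ u - 1) := by
  let ι : (W →L[𝕜] W) →+* (W →ₗ[𝕜] W) := ContinuousLinearMap.toLinearMapRingHom
  have hι : Function.Injective ι := ContinuousLinearMap.coe_injective
  rw [← IsNilpotent.map_iff (f := ι) hι, LinearMap.isNilpotent_iff_charpoly]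
  refine Polynomial.funext fun z => ?_
  let Δ : (W →L[𝕜] W) →* 𝕜 := LinearMap.det.comp ι.toMonoidHom
  have hΔ : Continuous Δ := ContinuousLinearMap.continuous_det
  have e1 : ∀ k : G, Δ (z • 1 - (τ (k * u * k⁻¹) - 1)) = Δ (z • 1 - (τ u - 1)) := fun k => by
    have a1 : τ k * τ k⁻¹ = 1 := by rw [← map_mul, mul_inv_cancel, map_one]
    have a2 : z • 1 - (τ (k * u * k⁻¹) - 1) = τ k * (z • 1 - (τ u - 1)) * τ k⁻¹ := by
      simp only [map_mul, mul_sub, sub_mul, mul_smul_comm, smul_mul_assoc, mul_one, a1]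
    rw [a2, map_mul, map_mul, mul_right_comm, ← map_mul, a1, map_one, one_mul]
  have e2 : Tendsto (fun n : ℕ => Δ (z • 1 - (τ (h ^ n * u * (h ^ n)⁻¹) - 1))) atTop
      (𝓝 (Δ (z • 1 - (τ 1 - 1)))) :=
    (hΔ.tendsto _).comp (tendsto_const_nhds.sub (((hτ.tendsto _).comp hu).sub tendsto_const_nhds))
  simp only [e1, map_one, sub_self, sub_zero] at e2
  have e3 := tendsto_nhds_unique tendsto_const_nhds e2
  have e4 : Δ (z • 1) = z ^ Module.finrank 𝕜 W := by
    show LinearMap.det (z • (LinearMap.id : W →ₗ[𝕜] W)) = _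
    rw [LinearMap.det_smul, LinearMap.det_id, mul_one]
  rw [LinearMap.eval_charpoly, Polynomial.eval_pow, Polynomial.eval_X, ← e4, ← e3,
    Algebra.algebraMap_eq_smul_one]
  rfl

theorem fixed_of_recurrent (T : W →L[𝕜] W) (hT : IsNilpotent (T - 1)) (v : W)
    (h : ∀ ε : ℝ, 0 < ε → ∃ᶠ n : ℕ in atTop, ∃ c : 𝕜, ‖c • (T ^ n) v - v‖ < ε) : T v = v := by
  classical
  by_contra hne
  obtain ⟨N, rfl⟩ : ∃ N, T = 1 + N := ⟨T - 1, by abel⟩
  rw [add_sub_cancel_left] at hT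
  have hex : ∃ k : ℕ, (N ^ k) (N v) = 0 := by
    obtain ⟨k, hk⟩ := hT
    exact ⟨k, by rw [hk, zero_apply]⟩
  have h0 : Nat.find hex ≠ 0 := fun e => by
    have h1 := Nat.find_spec hex
    rw [e, pow_zero, one_apply_eq_self] at h1
    exact hne (by rw [add_apply, h1, add_zero, one_apply_eq_self])
  obtain ⟨j, hj⟩ := Nat.exists_eq_succ_of_ne_zero h0
  have hy : N ((N ^ j) v) ≠ 0 := by
    have h1 := Nat.find_min hex (m := j) (by omega)
    rwa [← mul_apply_eq_comp, ← pow_succ, pow_succ', mul_apply_eq_comp]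
      at h1
  have hz : N (N ((N ^ j) v)) = 0 := by
    have h1 := Nat.find_spec hex
    rwa [hj, ← mul_apply_eq_comp, ← pow_succ, pow_succ', pow_succ',
      mul_apply_eq_comp, mul_apply_eq_comp] at h1
  have hc : ∀ n : ℕ, (N ^ j) (((1 + N) ^ n) v) = ((1 + N) ^ n) ((N ^ j) v) := fun n => by
    have h1 : Commute (N ^ j) ((1 + N) ^ n) :=
      ((Commute.one_right N).add_right (Commute.refl N)).pow_pow j n
    rw [← mul_apply_eq_comp, h1.eq, mul_apply_eq_comp]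
  generalize N ^ j = A at hy hz hc
  set w := A v
  have hp : ∀ n : ℕ, ((1 + N) ^ n) w = w + (n : 𝕜) • N w := fun n => by
    induction n with
    | zero => simp
    | succ n ih =>
      rw [pow_succ', mul_apply_eq_comp, ih]
      simp only [add_apply, one_apply_eq_self, map_add, map_smul,
        hz, Nat.cast_succ, add_smul, one_smul, add_zero]
      abel
  have hy' : 0 < ‖N w‖ := norm_pos_iff.mpr hy
  have hK : 0 < ‖N‖ * ‖A‖ + 1 := by positivity
  obtain ⟨ε, hε, hε'⟩ : ∃ ε : ℝ, 0 < ε ∧ (‖N‖ * ‖A‖ + 1) * ε = ‖N w‖ / 2 :=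
    ⟨‖N w‖ / 2 / (‖N‖ * ‖A‖ + 1), by positivity, mul_div_cancel₀ _ hK.ne'⟩
  have hev : ∀ᶠ n : ℕ in atTop, (2 * (‖A‖ * ε) + ‖w‖) / ‖N w‖ < (n : ℝ) :=
    tendsto_natCast_atTop_atTop.eventually_gt_atTop _
  obtain ⟨n, ⟨c, hcn⟩, hn⟩ := ((h ε hε).and_eventually hev).exists
  rw [div_lt_iff₀ hy'] at hn
  have a1 : A (c • ((1 + N) ^ n) v - v) = (c - 1) • w + (c * n) • N w := by
    rw [map_sub, map_smul, hc, hp, smul_add, smul_smul, sub_smul, one_smul]
    abel
  have a2 : ‖(c - 1) • w + (c * n) • N w‖ ≤ ‖A‖ * ε := by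
    rw [← a1]
    exact (A.le_opNorm _).trans (mul_le_mul_of_nonneg_left hcn.le (norm_nonneg _))
  have a3 : ‖c - 1‖ * ‖N w‖ ≤ ‖N‖ * (‖A‖ * ε) := by
    have b1 := (N.le_opNorm _).trans (mul_le_mul_of_nonneg_left a2 (norm_nonneg N))
    rwa [map_add, map_smul, map_smul, hz, smul_zero, add_zero, norm_smul] at b1
  have a4 : ‖c - 1‖ ≤ 1 / 2 := le_of_mul_le_mul_right (by nlinarith) hy'
  have a5 : 1 / 2 ≤ ‖c‖ := by
    have b1 := norm_sub_norm_le (1 : 𝕜) c
    rw [norm_one, norm_sub_rev] at b1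
    linarith
  have a6 := norm_sub_le ((c - 1) • w + (c * n) • N w) ((c - 1) • w)
  rw [add_sub_cancel_left, norm_smul, norm_smul, norm_mul, RCLike.norm_natCast] at a6
  have a7 : ‖c - 1‖ * ‖w‖ ≤ 1 / 2 * ‖w‖ := mul_le_mul_of_nonneg_right a4 (norm_nonneg _)
  have a8 : 1 / 2 * (n * ‖N w‖) ≤ ‖c‖ * (n * ‖N w‖) :=
    mul_le_mul_of_nonneg_right a5 (by positivity)
  nlinarith

theorem Sec.measurableSet_orb (S : Sec Γ X) {O : Set G} (hO : MeasurableSet O) :
    MeasurableSet ((fun g : G => g • S.o) '' O) := by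
  have e : (fun g : G => g • S.o) '' O = ⋃ γ : Γ, (fun x => S.s x * γ) ⁻¹' O := by
    ext x
    simp only [mem_image, mem_iUnion, mem_preimage]
    constructor
    · rintro ⟨g, hg, rfl⟩
      refine ⟨⟨(S.s (g • S.o))⁻¹ * g, (S.stab _).1 ?_⟩, by simpa using hg⟩
      rw [mul_smul, inv_smul_eq_iff, S.s_o]
    · rintro ⟨γ, hγ⟩
      exact ⟨_, hγ, by rw [mul_smul, (S.stab _).2 γ.2, S.s_o]⟩
  rw [e]
  exact MeasurableSet.iUnion fun γ => (S.meas.mul_const _) hO

theorem Sec.orb_ne_zero (S : Sec Γ X) {O : Set G} (hO : IsOpen O) (hne : O.Nonempty) :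
    S.μ ((fun g : G => g • S.o) '' O) ≠ 0 := by
  intro h0
  obtain ⟨g₀, hg₀⟩ := hne
  obtain ⟨t, ht, hU⟩ := TopologicalSpace.countable_cover_nhds
    (f := fun k : G => (fun g => g₀ * k⁻¹ * g) ⁻¹' O) fun k =>
      (hO.preimage (continuous_const.mul continuous_id)).mem_nhds (by simpa using hg₀)
  have h1 : S.μ (⋃ k ∈ t, (fun x : X => (g₀ * k⁻¹) • x) ⁻¹' ((fun g : G => g • S.o) '' O)) = 0 :=
    (measure_biUnion_null_iff ht).2 fun k _ => by
      rw [(S.inv _).measure_preimage (S.measurableSet_orb hO.measurableSet).nullMeasurableSet, h0]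
  refine one_ne_zero (α := ℝ≥0∞) (le_zero_iff.1 ?_)
  rw [← h1, ← measure_univ (μ := S.μ)]
  refine measure_mono fun x _ => ?_
  obtain ⟨k, hk, hx⟩ := mem_iUnion₂.1 (hU.ge (mem_univ (S.s x)))
  exact mem_iUnion₂.2 ⟨k, hk, _, hx, by simp only [mul_smul, S.s_o]⟩

theorem Sec.recurrent (S : Sec Γ X) (u : G) : ∀ᵐ x ∂S.μ, ∀ g : G, g • S.o = x → ∀ O ∈ 𝓝 g,
    ∃ᶠ n : ℕ in atTop, ∃ γ : Γ, u ^ n * g * γ ∈ O := by
  have h1 : ∀ᵐ x ∂S.μ, ∀ O ∈ TopologicalSpace.countableBasis G,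
      x ∈ (fun g : G => g • S.o) '' O →
        ∃ᶠ n : ℕ in atTop, (fun x : X => u • x)^[n] x ∈ (fun g : G => g • S.o) '' O :=
    (ae_ball_iff (TopologicalSpace.countable_countableBasis G)).2 fun O hO =>
      (S.inv u).conservative.ae_mem_imp_frequently_image_mem (S.measurableSet_orb
        (TopologicalSpace.isOpen_of_mem_countableBasis hO).measurableSet).nullMeasurableSet
  filter_upwards [h1] with x hx g hg O hO
  obtain ⟨O', a1, a2, a3⟩ := (TopologicalSpace.isBasis_countableBasis G).mem_nhds_iff.1 hO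
  refine (hx O' a1 ⟨g, a2, hg⟩).mono ?_
  rintro n ⟨g', b1, b2⟩
  rw [smul_iterate_apply, ← hg, ← mul_smul] at b2
  refine ⟨⟨(u ^ n * g)⁻¹ * g', (S.stab _).1 ?_⟩, ?_⟩
  · rw [mul_smul, inv_smul_eq_iff]
    exact b2
  · show u ^ n * g * ((u ^ n * g)⁻¹ * g') ∈ O
    rw [mul_inv_cancel_left]
    exact a3 b1

theorem Sec.fixed_of_line (S : Sec Γ X) (hgen : Gen G) (τ : G →* (W →L[𝕜] W))
    (hτ : Continuous τ) (ω : W) (h : ∀ γ : Γ, ∃ c : 𝕜, τ γ ω = c • ω) (g : G) : τ g ω = ω := by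
  have hc : Continuous fun g : G => τ g ω := hτ.clm_apply continuous_const
  let F : Subgroup G :=
    { carrier := {u | τ u ω = ω}
      one_mem' := by simp
      mul_mem' := fun {a b} ha hb => by
        simp only [mem_ofPred_eq] at ha hb ⊢
        rw [map_mul, mul_apply_eq_comp, hb, ha]
      inv_mem' := fun {a} ha => by
        simp only [mem_ofPred_eq] at ha ⊢
        conv_lhs => rw [← ha]
        rw [← mul_apply_eq_comp, ← map_mul, inv_mul_cancel, map_one,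
          one_apply_eq_self] }
  have hF : F = ⊤ := by
    refine hgen F (isClosed_eq hc continuous_const) fun k u hu => ?_
    by_contra hn
    have hO : IsOpen {g : G | τ u (τ g ω) ≠ τ g ω} :=
      isOpen_ne_fun ((τ u).continuous.comp hc) hc
    obtain ⟨_, ⟨g, hg, rfl⟩, hx⟩ := Measure.exists_mem_of_measure_ne_zero_of_ae
      (S.orb_ne_zero hO ⟨1, fun e => hn (by simpa using e : τ u ω = ω)⟩) (ae_restrict_of_ae (S.recurrent u))
    refine hg (fixed_of_recurrent _ (unipotent_of_contr τ hτ hu) _ fun ε hε => ?_)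
    refine (hx g rfl _ (hc.continuousAt (Metric.ball_mem_nhds _ hε))).mono ?_
    rintro n ⟨γ, hγ⟩
    obtain ⟨c, hcγ⟩ := h γ
    refine ⟨c, ?_⟩
    rwa [mem_preimage, mem_ball_iff_norm, map_mul, map_mul, map_pow, mul_apply_eq_comp,
      mul_apply_eq_comp, hcγ, map_smul, map_smul] at hγ
  exact (hF.ge (Subgroup.mem_top g) : g ∈ F)

end Pool.Agent.P.MP_d483fb_an.Z.SR
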