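import Pool.Agent.P.MP_d483fb_an.Z.SR.Defs

open scoped Topology TensorProduct
open Filter Set

set_option linter.unusedSectionVars false

noncomputable section

namespace Pool.Agent.P.MP_d483fb_an.Z.SR

variable {G : Type} [Group G] [TopologicalSpace G] {𝔤 : Type} [LieRing 𝔤] [LieAlgebra ℝ 𝔤]
  {V : Type} [NormedAddCommGroup V] [NormedSpace ℂ V] [FiniteDimensional ℂ V]

/-- The generator of a one-parameter group of automorphisms of a bilinear map is a derivation. -/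
theorem deriv_of_exp_aut (B : V →L[ℂ] V →L[ℂ] V) (D : V →L[ℂ] V)
    (h : ∀ (t : ℝ) x y, NormedSpace.exp (t • D) (B x y) =
      B (NormedSpace.exp (t • D) x) (NormedSpace.exp (t • D) y)) (x y : V) :
    D (B x y) = B (D x) y + B x (D y) := by
  have : CompleteSpace V := FiniteDimensional.complete ℂ V
  have h0 : HasDerivAt (fun t : ℝ => NormedSpace.exp (t • D)) D 0 := by
    simpa using hasDerivAt_exp_smul_const (𝕂 := ℝ) D (0 : ℝ)
  have h1 : ∀ v : V, HasDerivAt (fun t : ℝ => NormedSpace.exp (t • D) v) (D v) 0 := fun v =>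
    (((ContinuousLinearMap.apply ℂ V v).restrictScalars ℝ).hasFDerivAt.comp_hasDerivAt 0 h0)
  have h2 := (B.bilinearRestrictScalars ℝ).hasDerivAt_of_bilinear (fun _ => h1 x) (fun _ => h1 y)
  have h3 := h1 (B x y)
  simp only [h] at h3
  have h4 := h3.unique h2
  simpa [add_comm] using h4

theorem lie_surj (hd : Der G 𝔤) (B : V →L[ℂ] V →L[ℂ] V)
    (jac : ∀ u v, B (B u v) = B u * B v - B v * B u)
    (inner : ∀ D : V →L[ℂ] V, (∀ x y, D (B x y) = B (D x) y + B x (D y)) → ∃ h, D = B h)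
    (inj : Function.Injective B) (τ : G →* (V →L[ℂ] V)) (hτ : Continuous τ)
    (aut : ∀ g x y, τ g (B x y) = B (τ g x) (τ g y))
    (irr : ∀ W : Submodule ℂ V, (∀ g, ∀ v ∈ W, τ g v ∈ W) → W = ⊥ ∨ W = ⊤)
    (hne : ∃ g, τ g ≠ 1) :
    ∃ ψ : 𝔤 →ₗ[ℝ] V, (∀ X Y, ψ ⁅X, Y⁆ = B (ψ X) (ψ Y)) ∧ Submodule.span ℂ (range ψ) = ⊤ := by
  have : FiniteDimensional ℝ (V →L[ℂ] V) := Module.Finite.trans ℂ _
  obtain ⟨d, hbr, hexp, hconj, hzero⟩ := hd (V →L[ℂ] V) τ hτ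
  have hder : ∀ X, ∃ h, d X = B h := fun X => by
    refine inner _ (deriv_of_exp_aut B _ fun t x y => ?_)
    obtain ⟨g, hg⟩ := hexp X t
    rw [← hg]
    exact aut g x y
  choose ψ hψ using hder
  let ψl : 𝔤 →ₗ[ℝ] V :=
    { toFun := ψ
      map_add' := fun X Y => inj (by rw [← hψ, map_add, map_add, hψ, hψ])
      map_smul' := fun t X => inj (by
        rw [← hψ, map_smul, hψ, RingHom.id_apply, ContinuousLinearMap.map_smul_of_tower]) }
  have hψl : ∀ X, d X = B (ψl X) := hψ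
  refine ⟨ψl, fun X Y => inj (by rw [← hψl, hbr, jac, ← hψl, ← hψl]), ?_⟩
  have hinv : ∀ g X, ∃ Y, τ g (ψl X) = ψl Y := fun g X => by
    obtain ⟨Y, hY⟩ := hconj g X
    refine ⟨Y, inj ?_⟩
    ext w
    have hw : τ g (τ g⁻¹ w) = w := by
      rw [← mul_apply_eq_comp, ← map_mul, mul_inv_cancel, map_one,
        one_apply_eq_self]
    have h1 := congrArg (fun T : V →L[ℂ] V => T (τ g⁻¹ w)) hY
    simp only [mul_apply_eq_comp, hψl, aut, hw] at h1
    exact h1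
  rcases irr (Submodule.span ℂ (range ψl)) (fun g v hv => by
    induction hv using Submodule.span_induction with
    | mem x hx =>
      obtain ⟨X, rfl⟩ := hx
      obtain ⟨Y, hY⟩ := hinv g X
      rw [hY]
      exact Submodule.subset_span ⟨Y, rfl⟩
    | zero => simp
    | add x y _ _ hx hy => rw [map_add]; exact Submodule.add_mem _ hx hy
    | smul c x _ hx => rw [map_smul]; exact Submodule.smul_mem _ _ hx) with hb | ht
  · exfalso
    obtain ⟨g, hg⟩ := hne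
    refine hg (hzero (fun X => ?_) g)
    have : ψl X ∈ Submodule.span ℂ (range ψl) := Submodule.subset_span ⟨X, rfl⟩
    rw [hb, Submodule.mem_bot] at this
    rw [hψl, this, map_zero]
  · exact ht

theorem exists_lieHom {L : Type} [LieRing L] [LieAlgebra ℂ L] (ψ : 𝔤 →+ L)
    (h1 : ∀ (t : ℝ) (X : 𝔤), ψ (t • X) = (t : ℂ) • ψ X) (h2 : ∀ X Y, ψ ⁅X, Y⁆ = ⁅ψ X, ψ Y⁆)
    (h3 : Submodule.span ℂ (range ψ) = ⊤) :
    ∃ φ : ℂ ⊗[ℝ] 𝔤 →ₗ⁅ℂ⁆ L, Function.Surjective φ := by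
  let ψl : 𝔤 →ₗ[ℝ] L :=
    { toFun := ψ
      map_add' := ψ.map_add
      map_smul' := fun t X => by rw [h1, RingHom.id_apply, Complex.coe_smul] }
  let φ0 : ℂ ⊗[ℝ] 𝔤 →ₗ[ℂ] L := ψl.liftBaseChange ℂ
  have hφ0 : ∀ (c : ℂ) (X : 𝔤), φ0 (c ⊗ₜ X) = c • ψ X := fun c X =>
    LinearMap.liftBaseChange_tmul ℂ ψl c X
  have hbr : ∀ x y, φ0 ⁅x, y⁆ = ⁅φ0 x, φ0 y⁆ := by
    intro x y
    induction x using TensorProduct.induction_on with
    | zero => simp
    | add x x' hx hx' => rw [add_lie, map_add, map_add, add_lie, hx, hx']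
    | tmul c X =>
      induction y using TensorProduct.induction_on with
      | zero =>
        rw [show ⁅c ⊗ₜ[ℝ] X, (0 : ℂ ⊗[ℝ] 𝔤)⁆ = 0 from lie_zero (L := ℂ ⊗[ℝ] 𝔤) (M := ℂ ⊗[ℝ] 𝔤) _, map_zero, lie_zero]
      | add y y' hy hy' =>
        rw [show ⁅c ⊗ₜ[ℝ] X, y + y'⁆ = ⁅c ⊗ₜ[ℝ] X, y⁆ + ⁅c ⊗ₜ[ℝ] X, y'⁆ from
          LieRing.lie_add _ _ _, map_add, map_add, lie_add, hy, hy']
      | tmul c' Y =>
        rw [LieAlgebra.ExtendScalars.bracket_tmul, hφ0, hφ0, hφ0, h2, smul_lie, lie_smul,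
          mul_smul]
  refine ⟨{ φ0 with map_lie' := fun {x y} => hbr x y }, ?_⟩
  change Function.Surjective φ0
  rw [← LinearMap.range_eq_top, eq_top_iff, ← h3, Submodule.span_le]
  rintro _ ⟨X, rfl⟩
  exact ⟨1 ⊗ₜ X, by rw [hφ0, one_smul]⟩

end Pool.Agent.P.MP_d483fb_an.Z.SR
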