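import Mathlib

open scoped Matrix
open Set

set_option linter.unusedSectionVars false

noncomputable section

namespace Pool.Agent.P.MP_d483fb_an.Z.SR

section
variable {k : Type} [NontriviallyNormedField k] [IsUltrametricDist k] {d : ℕ}

/-- All entries have norm at most `a`. -/
def TitsA_Sm (a : ℝ) (M : Matrix (Fin d) (Fin d) k) : Prop := ∀ i j, ‖M i j‖ ≤ a

theorem TitsA_mul {a b : ℝ} (ha : 0 ≤ a) (hb : 0 ≤ b) {M N : Matrix (Fin d) (Fin d) k}
    (hM : TitsA_Sm a M) (hN : TitsA_Sm b N) : TitsA_Sm (a * b) (M * N) := by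
  intro i j
  rw [Matrix.mul_apply]
  refine IsUltrametricDist.norm_sum_le_of_forall_le_of_nonneg (mul_nonneg ha hb) fun l _ => ?_
  rw [norm_mul]
  exact mul_le_mul (hM i l) (hN l j) (norm_nonneg _) ha

theorem TitsA_add {a : ℝ} {M N : Matrix (Fin d) (Fin d) k}
    (hM : TitsA_Sm a M) (hN : TitsA_Sm a N) : TitsA_Sm a (M + N) := fun i j =>
  (IsUltrametricDist.norm_add_le_max _ _).trans (max_le (hM i j) (hN i j))

theorem TitsA_mono {a b : ℝ} (h : a ≤ b) {M : Matrix (Fin d) (Fin d) k}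
    (hM : TitsA_Sm a M) : TitsA_Sm b M := fun i j => (hM i j).trans h

theorem TitsA_smul {a : ℝ} (m : ℕ) {M : Matrix (Fin d) (Fin d) k}
    (hM : TitsA_Sm a M) : TitsA_Sm a ((m : k) • M) := by
  intro i j
  rw [Matrix.smul_apply, smul_eq_mul, norm_mul]
  exact (mul_le_of_le_one_left (norm_nonneg _)
    (IsUltrametricDist.norm_natCast_le_one k m)).trans (hM i j)

theorem TitsA_one : TitsA_Sm 1 (1 : Matrix (Fin d) (Fin d) k) := by
  intro i j
  rw [Matrix.one_apply]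
  split_ifs <;> simp

theorem TitsA_pow {y : Matrix (Fin d) (Fin d) k} (hy : TitsA_Sm 1 y) (m : ℕ) :
    ∃ z, TitsA_Sm 1 z ∧ (1 + y) ^ m = 1 + ((m : k) • y + y * y * z) := by
  induction m with
  | zero => exact ⟨0, fun i j => by simp, by simp⟩
  | succ m ih =>
    obtain ⟨z, hz, e⟩ := ih
    refine ⟨(m : k) • 1 + z + z * y, TitsA_add (TitsA_add (TitsA_smul m TitsA_one) hz) ?_, ?_⟩
    · simpa using TitsA_mul zero_le_one zero_le_one hz hy
    · rw [pow_succ, e]
      simp only [Nat.cast_succ, add_smul, one_smul, mul_add, add_mul, mul_one, one_mul,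
        smul_mul_assoc, mul_smul_comm, mul_assoc]
      abel

theorem TitsA_prime {l : ℕ} {ρ : ℝ} (h1 : ρ ≤ 1) (hl : ρ < ‖(l : k)‖)
    {y : Matrix (Fin d) (Fin d) k} (hy : TitsA_Sm ρ y) (h : (1 + y) ^ l = 1) : y = 0 := by
  by_contra h0
  obtain ⟨i0, j0, hij⟩ : ∃ i j, y i j ≠ 0 := by
    by_contra hc
    push Not at hc
    exact h0 (Matrix.ext hc)
  obtain ⟨p, -, hp⟩ := Finset.exists_max_image (Finset.univ : Finset (Fin d × Fin d))
    (fun p => ‖y p.1 p.2‖) ⟨(i0, j0), Finset.mem_univ _⟩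
  have hN : TitsA_Sm ‖y p.1 p.2‖ y := fun i j => hp (i, j) (Finset.mem_univ _)
  have hpos : 0 < ‖y p.1 p.2‖ := (norm_pos_iff.2 hij).trans_le (hN i0 j0)
  obtain ⟨z, hz, e⟩ := TitsA_pow (TitsA_mono h1 hy) l
  rw [h] at e
  have e2 : (l : k) • y = -(y * y * z) := eq_neg_of_add_eq_zero_left (left_eq_add.1 e)
  have h2 := TitsA_mul (mul_nonneg hpos.le hpos.le) zero_le_one
    (TitsA_mul hpos.le hpos.le hN hN) hz p.1 p.2
  rw [← norm_neg, ← Matrix.neg_apply, ← e2, Matrix.smul_apply, smul_eq_mul, norm_mul,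
    mul_one] at h2
  have h3 := le_of_mul_le_mul_right h2 hpos
  exact absurd (hl.trans_le (h3.trans (hy p.1 p.2))) (lt_irrefl _)

theorem TitsA_radius [CharZero k] :
    ∃ r : ℝ, 0 < r ∧ r ≤ 1 ∧ ∀ l : ℕ, l.Prime → r ≤ ‖(l : k)‖ := by
  by_cases h : ∃ p : ℕ, p.Prime ∧ ‖(p : k)‖ < 1
  · obtain ⟨p, hp, h1⟩ := h
    refine ⟨‖(p : k)‖, norm_pos_iff.2 (Nat.cast_ne_zero.2 hp.ne_zero), h1.le, fun l hl => ?_⟩
    by_cases e : p = l
    · rw [e]
    refine h1.le.trans (not_lt.1 fun h2 => ?_)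
    obtain ⟨a, b, hab⟩ := Nat.isCoprime_iff_coprime.2 ((Nat.coprime_primes hp hl).2 e)
    have h3 : (a : k) * p + (b : k) * l = 1 := by exact_mod_cast congrArg (Int.cast (R := k)) hab
    have h4 := IsUltrametricDist.norm_add_le_max ((a : k) * p) ((b : k) * l)
    rw [h3, norm_one, norm_mul, norm_mul] at h4
    refine absurd h4 (not_le.2 (max_lt ?_ ?_))
    · exact (mul_le_of_le_one_left (norm_nonneg _)
        (IsUltrametricDist.norm_intCast_le_one k a)).trans_lt h1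
    · exact (mul_le_of_le_one_left (norm_nonneg _)
        (IsUltrametricDist.norm_intCast_le_one k b)).trans_lt h2
  · push Not at h
    exact ⟨1, one_pos, le_rfl, h⟩

theorem TitsA_torsion {ρ : ℝ} (h0 : 0 ≤ ρ) (h1 : ρ ≤ 1)
    (hl : ∀ l : ℕ, l.Prime → ρ < ‖(l : k)‖) {M : Matrix (Fin d) (Fin d) k}
    (hM : TitsA_Sm ρ (M - 1)) (ht : IsOfFinOrder M) : M = 1 := by
  by_contra hne
  have hn0 : 0 < orderOf M := ht.orderOf_pos
  have hn1 : orderOf M ≠ 1 := fun e => hne (orderOf_eq_one_iff.1 e)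
  have hp := Nat.minFac_prime hn1
  obtain ⟨m, hm⟩ := Nat.minFac_dvd (orderOf M)
  have hm0 : m ≠ 0 := by
    rintro rfl
    rw [mul_zero] at hm
    exact hn0.ne' hm
  have hlt : m < orderOf M := by
    calc m = 1 * m := (one_mul m).symm
      _ < (orderOf M).minFac * m := Nat.mul_lt_mul_of_pos_right hp.one_lt (Nat.pos_of_ne_zero hm0)
      _ = orderOf M := hm.symm
  obtain ⟨z, hz, e⟩ := TitsA_pow (TitsA_mono h1 hM) m
  rw [add_sub_cancel] at e
  have hy : TitsA_Sm ρ ((m : k) • (M - 1) + (M - 1) * (M - 1) * z) := by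
    refine TitsA_add (TitsA_smul m hM) (TitsA_mono ?_
      (TitsA_mul (mul_nonneg h0 h0) zero_le_one (TitsA_mul h0 h0 hM hM) hz))
    rw [mul_one]
    exact mul_le_of_le_one_left h0 h1
  have h2 := TitsA_prime h1 (hl _ hp) hy (by
    rw [← e, ← pow_mul, mul_comm, ← hm, pow_orderOf_eq_one])
  rw [h2, add_zero] at e
  exact pow_ne_one_of_lt_orderOf hm0 hlt e

end

theorem finite_of_bdd_torsion {k : Type} [NontriviallyNormedField k] [ProperSpace k]
    [IsUltrametricDist k] [CharZero k] {Λ : Type} [Group Λ] {d : ℕ}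
    (R : Λ →* Matrix (Fin d) (Fin d) k) (hb : ∃ C : ℝ, ∀ γ i j, ‖R γ i j‖ ≤ C)
    (ht : ∀ γ, IsOfFinOrder (R γ)) : (range R).Finite := by
  obtain ⟨C0, hC0⟩ := hb
  obtain ⟨r, hr0, hr1, hr⟩ := TitsA_radius (k := k)
  set C : ℝ := max C0 1 with hC
  have hCpos : 0 < C := lt_max_of_lt_right one_pos
  have hb : ∀ γ, TitsA_Sm C (R γ) := fun γ i j => (hC0 γ i j).trans (le_max_left _ _)
  set ε : ℝ := r / 2 / C with hε
  have hεpos : 0 < ε := by positivity
  have hsep : ∀ γ δ, TitsA_Sm ε (R δ - R γ) → R δ = R γ := by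
    intro γ δ h
    have h1 := TitsA_mul hCpos.le hεpos.le (hb γ⁻¹) h
    have e1 : C * ε = r / 2 := by rw [hε]; field_simp
    rw [e1, mul_sub, ← map_mul, ← map_mul, inv_mul_cancel, map_one] at h1
    have h2 := TitsA_torsion (by positivity) (by linarith)
      (fun l hl => (half_lt_self hr0).trans_le (hr l hl)) h1 (ht _)
    rw [← mul_inv_cancel_left γ δ, map_mul, h2, mul_one]
  let S : Set (Fin d → Fin d → k) := range fun γ i j => R γ i j
  have hS : S ⊆ Metric.closedBall 0 C := by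
    rintro _ ⟨γ, rfl⟩
    rw [mem_closedBall_zero_iff, pi_norm_le_iff_of_nonneg hCpos.le]
    intro i
    rw [pi_norm_le_iff_of_nonneg hCpos.le]
    exact hb γ i
  have htb : TotallyBounded S := (isCompact_closedBall 0 C).totallyBounded.subset hS
  obtain ⟨t, htf, hcov⟩ := Metric.totallyBounded_iff.1 htb (ε / 2) (half_pos hεpos)
  have hfin : S.Finite := by
    refine (htf.biUnion (t := fun y => S ∩ Metric.ball y (ε / 2)) fun y _ =>
      Set.Subsingleton.finite ?_).subset fun x hx => ?_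
    · rintro _ ⟨⟨δ, rfl⟩, h1⟩ _ ⟨⟨γ, rfl⟩, h2⟩
      have h3 := dist_triangle_right (fun i j => R δ i j) (fun i j => R γ i j) y
      have h4 : dist (fun i j => R δ i j) (fun i j => R γ i j) ≤ ε := by
        rw [Metric.mem_ball] at h1 h2
        linarith
      have h5 : R δ = R γ := hsep γ δ fun i j => by
        rw [Matrix.sub_apply, ← dist_eq_norm]
        exact ((dist_le_pi_dist (R δ i) (R γ i) j).trans
          (dist_le_pi_dist (fun i j => R δ i j) (fun i j => R γ i j) i)).trans h4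
      simp only [h5]
    · obtain ⟨y, hy, h1⟩ := mem_iUnion₂.1 (hcov hx)
      exact mem_iUnion₂.2 ⟨y, hy, hx, h1⟩
  exact hfin

end Pool.Agent.P.MP_d483fb_an.Z.SR
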