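import Mathlib

open scoped Matrix
open Set

set_option linter.unusedSectionVars false

noncomputable section

namespace Pool.Agent.P.MP_d483fb_an.Z.SR

theorem norm_eig_le_one {Ω : Type} [NormedField Ω] (σ : ℂ →+* Ω) {Λ : Type} [Group Λ] {d : ℕ}
    (R : Λ →* Matrix (Fin d) (Fin d) ℂ) (hb : ∃ C : ℝ, ∀ γ i j, ‖σ (R γ i j)‖ ≤ C) (γ : Λ)
    {z : ℂ} {v : Fin d → ℂ} (hv : v ≠ 0) (h : R γ *ᵥ v = z • v) : ‖σ z‖ ≤ 1 := by
  obtain ⟨C, hC⟩ := hb
  obtain ⟨i, hi⟩ := Function.ne_iff.1 hv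
  have hi' : 0 < ‖σ (v i)‖ := norm_pos_iff.2 ((map_ne_zero σ).2 hi)
  have hn : ∀ n : ℕ, R (γ ^ n) *ᵥ v = z ^ n • v := by
    intro n
    induction n with
    | zero => rw [pow_zero, pow_zero, map_one, Matrix.one_mulVec, one_smul]
    | succ n ih =>
      rw [pow_succ, map_mul, ← Matrix.mulVec_mulVec, h, Matrix.mulVec_smul, ih, smul_smul,
        pow_succ']
  have hb : ∀ n : ℕ, ‖σ z‖ ^ n * ‖σ (v i)‖ ≤ ∑ j, C * ‖σ (v j)‖ := by
    intro n
    have := congrArg σ (congrFun (hn n) i)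
    rw [Pi.smul_apply, smul_eq_mul, map_mul, map_pow σ, Matrix.mulVec, dotProduct, map_sum] at this
    rw [← norm_pow, ← norm_mul, ← this]
    refine (norm_sum_le _ _).trans (Finset.sum_le_sum fun j _ => ?_)
    rw [map_mul, norm_mul]
    exact mul_le_mul_of_nonneg_right (hC _ _ _) (norm_nonneg _)
  by_contra hc
  obtain ⟨n, hn⟩ := pow_unbounded_of_one_lt ((∑ j, C * ‖σ (v j)‖) / ‖σ (v i)‖) (not_le.1 hc)
  rw [div_lt_iff₀ hi'] at hn
  exact absurd (hb n) (not_le.2 hn)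

theorem norm_eig_eq_one {Ω : Type} [NormedField Ω] (σ : ℂ →+* Ω) {Λ : Type} [Group Λ] {d : ℕ}
    (R : Λ →* Matrix (Fin d) (Fin d) ℂ) (hb : ∃ C : ℝ, ∀ γ i j, ‖σ (R γ i j)‖ ≤ C) (γ : Λ)
    {z : ℂ} {v : Fin d → ℂ} (hv : v ≠ 0) (h : R γ *ᵥ v = z • v) : ‖σ z‖ = 1 := by
  have h1 : z • R γ⁻¹ *ᵥ v = v := by
    rw [← Matrix.mulVec_smul, ← h, Matrix.mulVec_mulVec, ← map_mul, inv_mul_cancel, map_one,
      Matrix.one_mulVec]
  have hz : z ≠ 0 := by
    rintro rfl
    rw [zero_smul] at h1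
    exact hv h1.symm
  have h2 : R γ⁻¹ *ᵥ v = z⁻¹ • v := by rw [eq_inv_smul_iff₀ hz, h1]
  have h3 := norm_eig_le_one σ R hb γ⁻¹ hv h2
  rw [map_inv₀, norm_inv] at h3
  exact le_antisymm (norm_eig_le_one σ R hb γ hv h)
    ((inv_le_one₀ (norm_pos_iff.2 ((map_ne_zero σ).2 hz))).1 h3)

open Polynomial ComplexOrder in
theorem pow_eq_one_of_normal {d : ℕ} {M : Matrix (Fin d) (Fin d) ℂ} {N : ℕ}
    (hT : (M ^ N - 1)ᴴ * (M ^ N - 1) = (M ^ N - 1) * (M ^ N - 1)ᴴ) (s : Multiset ℂ)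
    (hs : ∀ z ∈ s, z ^ N = 1) (W : Matrix (Fin d) (Fin d) ℂ)
    (hW : aeval M (s.map fun z => X - C z).prod * W = 0) : (M ^ N - 1) * W = 0 := by
  induction s using Multiset.induction_on generalizing W with
  | empty =>
    rw [Multiset.map_zero, Multiset.prod_zero, map_one, one_mul] at hW
    rw [hW, mul_zero]
  | cons z s ih =>
    rw [Multiset.map_cons, Multiset.prod_cons, map_mul, map_sub, aeval_X, aeval_C, mul_assoc,
      Algebra.algebraMap_eq_smul_one, sub_mul, smul_mul_assoc, one_mul, sub_eq_zero] at hW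
    set P := aeval M (s.map fun z => X - C z).prod with hP
    have h1 : ∀ n : ℕ, M ^ n * (P * W) = z ^ n • (P * W) := by
      intro n
      induction n with
      | zero => rw [pow_zero, pow_zero, one_mul, one_smul]
      | succ n ih' => rw [pow_succ, mul_assoc, hW, mul_smul_comm, ih', smul_smul, pow_succ']
    have h2 : (M ^ N - 1) * (P * W) = 0 := by
      rw [sub_mul, h1, hs z (Multiset.mem_cons_self _ _), one_smul, one_mul, sub_self]
    have hc : Commute (M ^ N - 1) P := by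
      have : Commute (M ^ N - 1) M :=
        ((Commute.refl M).pow_left N).sub_left (Commute.one_left M)
      rw [hP, aeval_eq_sum_range]
      exact Commute.sum_right _ _ _ fun i _ => (this.pow_right i).smul_right _
    have h3 := ih (fun z hz => hs z (Multiset.mem_cons_of_mem hz)) ((M ^ N - 1) * W)
      (by rw [← mul_assoc, ← hc.eq, mul_assoc, h2])
    have h4 : (M ^ N - 1)ᴴ * ((M ^ N - 1) * W) = 0 := by
      rw [← Matrix.conjTranspose_mul_self_eq_zero, Matrix.conjTranspose_mul,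
        Matrix.conjTranspose_conjTranspose, mul_assoc, ← mul_assoc (M ^ N - 1), ← hT, mul_assoc,
        h3, mul_zero, mul_zero]
    rw [← Matrix.conjTranspose_mul_self_eq_zero, Matrix.conjTranspose_mul, mul_assoc, h4, mul_zero]

theorem isOfFinOrder_of_eig {d : ℕ} {M : Matrix (Fin d) (Fin d) ℂ}
    (hM : M ∈ Matrix.unitaryGroup (Fin d) ℂ)
    (h : ∀ (z : ℂ) (v : Fin d → ℂ), v ≠ 0 → M *ᵥ v = z • v → IsOfFinOrder z) : IsOfFinOrder M := by
  have h1 : ∀ z ∈ M.charpoly.roots, IsOfFinOrder z := by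
    intro z hz
    have h0 := Polynomial.isRoot_of_mem_roots hz
    rw [Polynomial.IsRoot, Matrix.eval_charpoly, ← Matrix.exists_mulVec_eq_zero_iff] at h0
    obtain ⟨v, hv, h0⟩ := h0
    refine h z v hv ?_
    rw [Matrix.sub_mulVec, sub_eq_zero, Matrix.scalar_apply, ← Matrix.smul_one_eq_diagonal,
      Matrix.smul_mulVec, Matrix.one_mulVec] at h0
    exact h0.symm
  set N := (M.charpoly.roots.map orderOf).prod with hN
  have hN0 : 0 < N := Multiset.prod_pos fun k hk => by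
    obtain ⟨z, hz, rfl⟩ := Multiset.mem_map.1 hk
    exact (h1 z hz).orderOf_pos
  have h2 : ∀ z ∈ M.charpoly.roots, z ^ N = 1 := fun z hz =>
    orderOf_dvd_iff_pow_eq_one.1 (Multiset.dvd_prod (Multiset.mem_map_of_mem _ hz))
  have hU := pow_mem hM N
  have hT : (M ^ N - 1)ᴴ * (M ^ N - 1) = (M ^ N - 1) * (M ^ N - 1)ᴴ := by
    have e1 : (M ^ N)ᴴ * M ^ N = 1 := (Unitary.mem_iff.1 hU).1
    have e2 : M ^ N * (M ^ N)ᴴ = 1 := (Unitary.mem_iff.1 hU).2
    rw [Matrix.conjTranspose_sub, Matrix.conjTranspose_one]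
    simp only [sub_mul, mul_sub, e1, e2, one_mul, mul_one]
    abel
  have h3 := pow_eq_one_of_normal hT _ h2 1 (by
    rw [← (IsAlgClosed.splits M.charpoly).eq_prod_roots_of_monic M.charpoly_monic,
      Matrix.aeval_self_charpoly, zero_mul])
  rw [mul_one, sub_eq_zero] at h3
  exact isOfFinOrder_iff_pow_eq_one.2 ⟨N, hN0, h3⟩

theorem exists_local_field (p : ℕ) [Fact p.Prime] {Λ : Type} [Group Λ] [Group.FG Λ] {d : ℕ}
    (R : Λ →* Matrix (Fin d) (Fin d) (PadicAlgCl p)) :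
    ∃ (k : Type) (_ : NontriviallyNormedField k) (_ : ProperSpace k) (_ : IsUltrametricDist k)
      (_ : CharZero k) (ι : k →+* PadicAlgCl p) (R' : Λ →* Matrix (Fin d) (Fin d) k),
      (∀ x, ‖ι x‖ = ‖x‖) ∧ ∀ γ i j, ι (R' γ i j) = R γ i j := by
  obtain ⟨S, hS, hfin⟩ := Monoid.fg_iff.1 (Group.fg_iff_monoid_fg.1 ‹Group.FG Λ›)
  let T : Set (PadicAlgCl p) :=
    (fun q : Λ × Fin d × Fin d => R q.1 q.2.1 q.2.2) '' (S ×ˢ univ)
  have hT : T.Finite := (hfin.prod finite_univ).image _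
  haveI := hT.to_subtype
  let k := IntermediateField.adjoin ℚ_[p] T
  haveI : FiniteDimensional ℚ_[p] k :=
    IntermediateField.finiteDimensional_adjoin fun x _ => Algebra.IsIntegral.isIntegral x
  have hmem : ∀ γ i j, R γ i j ∈ k := by
    intro γ
    have hγ : γ ∈ Submonoid.closure S := by rw [hS]; trivial
    induction hγ using Submonoid.closure_induction with
    | mem x hx =>
      exact fun i j => IntermediateField.subset_adjoin _ _ ⟨(x, i, j), ⟨hx, trivial⟩, rfl⟩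
    | one =>
      intro i j
      rw [map_one, Matrix.one_apply]
      split_ifs
      · exact one_mem _
      · exact zero_mem _
    | mul x y _ _ hx hy =>
      intro i j
      rw [map_mul, Matrix.mul_apply]
      exact sum_mem fun l _ => mul_mem (hx i l) (hy l j)
  let ι : k →+* PadicAlgCl p := k.val.toRingHom
  have hι : Function.Injective (ι.mapMatrix (m := Fin d)) := Matrix.map_injective ι.injective
  refine ⟨k, inferInstance, FiniteDimensional.proper ℚ_[p] k, IsUltrametricDist.subtype _,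
    inferInstance, ι,
    { toFun := fun γ => Matrix.of fun i j => ⟨R γ i j, hmem γ i j⟩
      map_one' := hι ?_
      map_mul' := fun x y => hι ?_ }, fun _ => rfl, fun _ _ _ => rfl⟩
  · rw [map_one ι.mapMatrix]
    exact map_one R
  · rw [map_mul ι.mapMatrix]
    exact map_mul R x y

end Pool.Agent.P.MP_d483fb_an.Z.SR
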