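import Pool.Agent.P.MP_d483fb_an.Z.SR.Kron
import Pool.Agent.P.MP_d483fb_an.Z.SR.TitsA
import Pool.Agent.P.MP_d483fb_an.Z.SR.TitsB

open scoped Matrix
open Set

set_option linter.unusedSectionVars false

noncomputable section

namespace Pool.Agent.P.MP_d483fb_an.Z.SR

/-- A representation twisted entrywise by a ring homomorphism. -/
def twistRep {Λ : Type} [Group Λ] {d : ℕ} {K L : Type} [CommRing K] [CommRing L] (σ : K →+* L)
    (R : Λ →* Matrix (Fin d) (Fin d) K) : Λ →* Matrix (Fin d) (Fin d) L :=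
  (σ.mapMatrix : Matrix (Fin d) (Fin d) K →+* Matrix (Fin d) (Fin d) L).toMonoidHom.comp R

theorem twistRep_apply {Λ : Type} [Group Λ] {d : ℕ} {K L : Type} [CommRing K] [CommRing L]
    (σ : K →+* L) (R : Λ →* Matrix (Fin d) (Fin d) K) (γ : Λ) (i j : Fin d) :
    twistRep σ R γ i j = σ (R γ i j) := rfl

theorem exists_equiv_padic (p : ℕ) [Fact p.Prime] : Nonempty (ℂ ≃+* PadicAlgCl p) := by
  have hK : Cardinal.aleph0 < Cardinal.mk ℂ := by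
    rw [Cardinal.mk_complex]; exact Cardinal.aleph0_lt_continuum
  obtain ⟨σ, -⟩ := exists_ringEquiv_ext (R := ℤ) hK (mk_padicAlgCl p).symm (Int.castRingHom ℂ)
    (Int.castRingHom (PadicAlgCl p)) (RingHom.injective_int _) (RingHom.injective_int _)
  exact ⟨σ⟩

theorem tits {Λ : Type} [Group Λ] [Group.FG Λ] {d : ℕ} (R : Λ →* Matrix (Fin d) (Fin d) ℂ)
    (hu : ∀ γ, R γ ∈ Matrix.unitaryGroup (Fin d) ℂ) (hinf : (range R).Infinite) :
    (∃ σ : ℂ ≃+* ℂ, ¬ ∃ C : ℝ, ∀ γ i j, ‖σ (R γ i j)‖ ≤ C) ∨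
    ∃ (k : Type) (_ : NontriviallyNormedField k) (_ : ProperSpace k) (_ : IsUltrametricDist k)
      (Ω : Type) (_ : Field Ω) (ι : k →+* Ω) (σ : ℂ ≃+* Ω) (R' : Λ →* Matrix (Fin d) (Fin d) k),
      (∀ γ i j, ι (R' γ i j) = σ (R γ i j)) ∧ ¬ ∃ C : ℝ, ∀ γ i j, ‖R' γ i j‖ ≤ C := by
  by_contra hcon
  rw [not_or] at hcon
  obtain ⟨h1, h2⟩ := hcon
  have hA : ∀ σ : ℂ ≃+* ℂ, ∃ C : ℝ, ∀ γ i j, ‖σ (R γ i j)‖ ≤ C := by
    intro σ
    by_contra h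
    exact h1 ⟨σ, h⟩
  -- the local fields
  have hloc : ∀ (p : ℕ) [Fact p.Prime] (σ : ℂ ≃+* PadicAlgCl p),
      ∃ (k : Type) (_ : NontriviallyNormedField k) (_ : ProperSpace k) (_ : IsUltrametricDist k)
        (_ : CharZero k) (ι : k →+* PadicAlgCl p) (R' : Λ →* Matrix (Fin d) (Fin d) k),
        (∀ x, ‖ι x‖ = ‖x‖) ∧ (∀ γ i j, ι (R' γ i j) = σ (R γ i j)) ∧
          ∃ C : ℝ, ∀ γ i j, ‖R' γ i j‖ ≤ C := by
    intro p _ σ
    obtain ⟨k, i1, i2, i3, i4, ι, R', hn, hR⟩ :=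
      exists_local_field p (twistRep (σ : ℂ →+* PadicAlgCl p) R)
    refine ⟨k, i1, i2, i3, i4, ι, R', hn, fun γ i j => hR γ i j, ?_⟩
    by_contra h
    exact h2 ⟨k, i1, i2, i3, PadicAlgCl p, inferInstance, ι, σ, R', fun γ i j => hR γ i j, h⟩
  have hP : ∀ (p : ℕ) [Fact p.Prime] (σ : ℂ ≃+* PadicAlgCl p),
      ∃ C : ℝ, ∀ γ i j, ‖σ (R γ i j)‖ ≤ C := by
    intro p _ σ
    obtain ⟨k, i1, i2, i3, i4, ι, R', hn, hR, C, hC⟩ := hloc p σ
    exact ⟨C, fun γ i j => by rw [← hR, hn]; exact hC γ i j⟩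
  have hfin : ∀ γ, IsOfFinOrder (R γ) := by
    intro γ
    refine isOfFinOrder_of_eig (hu γ) fun z v hv h => ?_
    refine isOfFinOrder_of_norm z (fun σ => ?_) (fun p _ σ => ?_)
    · exact norm_eig_eq_one (σ : ℂ →+* ℂ) R (hA σ) γ hv h
    · exact (norm_eig_eq_one (σ : ℂ →+* PadicAlgCl p) R (hP p σ) γ hv h).le
  obtain ⟨σ⟩ := exists_equiv_padic 2
  obtain ⟨k, i1, i2, i3, i4, ι, R', hn, hR, hC⟩ := hloc 2 σ
  have hinj : ∀ γ δ, R' γ = R' δ ↔ R γ = R δ := by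
    intro γ δ
    constructor
    · intro h
      ext i j
      apply σ.injective
      rw [← hR, ← hR, h]
    · intro h
      ext i j
      apply ι.injective
      rw [hR, hR, h]
  have ht : ∀ γ, IsOfFinOrder (R' γ) := by
    intro γ
    obtain ⟨n, hn0, hn1⟩ := isOfFinOrder_iff_pow_eq_one.1 (hfin γ)
    refine isOfFinOrder_iff_pow_eq_one.2 ⟨n, hn0, ?_⟩
    rw [← map_pow, ← map_one R', hinj, map_pow, hn1, map_one]
  have hf := finite_of_bdd_torsion R' hC ht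
  apply hinf
  classical
  let f : Matrix (Fin d) (Fin d) k → Matrix (Fin d) (Fin d) ℂ := fun M =>
    Matrix.of fun i j => σ.symm (ι (M i j))
  refine (hf.image f).subset ?_
  rintro _ ⟨γ, rfl⟩
  refine ⟨R' γ, ⟨γ, rfl⟩, ?_⟩
  ext i j
  simp [f, hR]

end Pool.Agent.P.MP_d483fb_an.Z.SR
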