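import Pool.Agent.P.MP_d483fb_an.Z.SR.Basis

open Set

set_option linter.unusedSectionVars false

noncomputable section

namespace Pool.Agent.P.MP_d483fb_an.Z.SR

/-- The same Lie ring with the scalar action twisted by `σ`. -/
def Tw (_σ : ℂ ≃+* ℂ) (L : Type) : Type := L

namespace Tw

variable (σ : ℂ ≃+* ℂ) (L : Type) [LieRing L] [LieAlgebra ℂ L]

instance : LieRing (Tw σ L) := inferInstanceAs (LieRing L)

instance : Module ℂ (Tw σ L) := Module.compHom L (σ.symm : ℂ ≃+* ℂ).toRingHom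

/-- The identity map as an additive equivalence. -/
def mk : L ≃+ Tw σ L := AddEquiv.refl L

variable {σ L}

theorem smul_mk (c : ℂ) (x : L) : c • mk σ L x = mk σ L (σ.symm c • x) := rfl

theorem mk_smul (c : ℂ) (x : L) : mk σ L (c • x) = σ c • mk σ L x := by
  rw [smul_mk, RingEquiv.symm_apply_apply]

theorem mk_lie (x y : L) : mk σ L ⁅x, y⁆ = ⁅mk σ L x, mk σ L y⁆ := rfl

instance : LieAlgebra ℂ (Tw σ L) where
  lie_smul c x y := by
    obtain ⟨x, rfl⟩ := (mk σ L).surjective x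
    obtain ⟨y, rfl⟩ := (mk σ L).surjective y
    rw [smul_mk, ← mk_lie, ← mk_lie, smul_mk, lie_smul]

theorem mem_span {s : Set L} {x : L} (hx : x ∈ Submodule.span ℂ s) :
    mk σ L x ∈ Submodule.span ℂ (mk σ L '' s) := by
  induction hx using Submodule.span_induction with
  | mem v hv => exact Submodule.subset_span (mem_image_of_mem _ hv)
  | zero => rw [map_zero]; exact zero_mem _
  | add v w _ _ hv hw => rw [map_add]; exact add_mem hv hw
  | smul t v _ hv => rw [mk_smul]; exact Submodule.smul_mem _ _ hv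

theorem mem_lieSpan {s : Set L} {x : L} (hx : x ∈ LieSubalgebra.lieSpan ℂ L s) :
    mk σ L x ∈ LieSubalgebra.lieSpan ℂ (Tw σ L) (mk σ L '' s) := by
  induction hx using LieSubalgebra.lieSpan_induction with
  | mem v hv => exact LieSubalgebra.subset_lieSpan (mem_image_of_mem _ hv)
  | zero => rw [map_zero]; exact zero_mem _
  | add v w _ _ hv hw => rw [map_add]; exact add_mem hv hw
  | smul t v _ hv => rw [mk_smul]; exact LieSubalgebra.smul_mem _ _ hv
  | lie v w _ _ hv hw => rw [mk_lie]; exact LieSubalgebra.lie_mem _ hv hw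

instance [FiniteDimensional ℂ L] : FiniteDimensional ℂ (Tw σ L) := by
  obtain ⟨s, hs⟩ := Module.Finite.fg_top (R := ℂ) (M := L)
  refine ⟨Submodule.fg_def.2 ⟨mk σ L '' s, s.finite_toSet.image _, ?_⟩⟩
  rw [eq_top_iff]
  intro x _
  obtain ⟨x, rfl⟩ := (mk σ L).surjective x
  exact mem_span (hs ▸ Submodule.mem_top)

/-- The ideal of `L` with the same carrier as an ideal of the twist. -/
def unIdeal (I : LieIdeal ℂ (Tw σ L)) : LieIdeal ℂ L where
  carrier := {x | mk σ L x ∈ I}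
  add_mem' := fun {a b} ha hb => by
    simp only [mem_ofPred_eq, map_add] at ha hb ⊢
    exact add_mem ha hb
  zero_mem' := by
    simp only [mem_ofPred_eq, map_zero]
    exact zero_mem I
  smul_mem' := fun c x hx => by
    simp only [mem_ofPred_eq, mk_smul] at hx ⊢
    exact I.smul_mem _ hx
  lie_mem := fun {x m} hm => by
    simp only [mem_ofPred_eq, mk_lie] at hm ⊢
    exact I.lie_mem hm

theorem mem_unIdeal {I : LieIdeal ℂ (Tw σ L)} {x : L} : x ∈ unIdeal I ↔ mk σ L x ∈ I := Iff.rfl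

instance [LieAlgebra.IsSimple ℂ L] : LieAlgebra.IsSimple ℂ (Tw σ L) where
  eq_bot_or_eq_top I := by
    rcases LieAlgebra.IsSimple.eq_bot_or_eq_top (unIdeal I) with h | h
    · left
      rw [eq_bot_iff]
      intro x hx
      obtain ⟨x, rfl⟩ := (mk σ L).surjective x
      have h1 : x ∈ unIdeal I := mem_unIdeal.2 hx
      rw [h, LieSubmodule.mem_bot] at h1
      rw [h1, map_zero]
      exact zero_mem _
    · right
      rw [eq_top_iff]
      intro x _
      obtain ⟨x, rfl⟩ := (mk σ L).surjective x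
      exact mem_unIdeal.1 (h ▸ LieSubmodule.mem_top x)
  non_abelian h := by
    apply LieAlgebra.IsSimple.non_abelian ℂ (L := L)
    refine ⟨fun x y => (mk σ L).injective ?_⟩
    rw [mk_lie, map_zero]
    exact trivial_lie_zero _ _ _ _

theorem linInd {ι : Type} {v : ι → L} (hv : LinearIndependent ℂ v) :
    LinearIndependent ℂ (fun i => mk σ L (v i)) := by
  rw [linearIndependent_iff'] at hv ⊢
  intro s g hg i hi
  have h1 : ∑ j ∈ s, σ.symm (g j) • v j = 0 := by
    apply (mk σ L).injective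
    rw [map_sum, map_zero, ← hg]
    exact Finset.sum_congr rfl fun j _ => (smul_mk _ _).symm
  have h2 := hv s (fun j => σ.symm (g j)) h1 i hi
  exact (map_eq_zero_iff _ σ.symm.injective).1 h2

/-- A basis of `L` is a basis of the twist, with the same matrix. -/
def basis {ι : Type} [Finite ι] {H : LieSubalgebra ℂ L} (b : LieAlgebra.Basis ι H) :
    LieAlgebra.Basis ι
      (LieSubalgebra.lieSpan ℂ (Tw σ L) (range fun i => mk σ L (b.h i))) where
  A := b.A
  h := fun i => mk σ L (b.h i)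
  e := fun i => mk σ L (b.e i)
  f := fun i => mk σ L (b.f i)
  cartan_eq_lieSpan := rfl
  span_ef := by
    rw [eq_top_iff]
    intro x _
    obtain ⟨x, rfl⟩ := (mk σ L).surjective x
    have h1 : x ∈ LieSubalgebra.lieSpan ℂ L (range b.e ∪ range b.f) := by
      rw [b.span_ef]; exact LieSubalgebra.mem_top x
    have h2 := mem_lieSpan (σ := σ) h1
    rwa [image_union, ← range_comp, ← range_comp] at h2
  linInd := linInd b.linInd
  nondegen := b.nondegen
  sl2 i :=
    { h_ne_zero := fun h => (b.sl2 i).h_ne_zero ((mk σ L).map_eq_zero_iff.1 h)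
      lie_e_f := by rw [← mk_lie, (b.sl2 i).lie_e_f]
      lie_h_e_nsmul := by rw [← mk_lie, (b.sl2 i).lie_h_e_nsmul, map_nsmul]
      lie_h_f_nsmul := by rw [← mk_lie, (b.sl2 i).lie_h_f_nsmul, map_neg, map_nsmul] }
  lie_h_h i j := by rw [← mk_lie, b.lie_h_h, map_zero]
  lie_h_e i j := by rw [← mk_lie, b.lie_h_e, map_zsmul]
  lie_h_f i j := by rw [← mk_lie, b.lie_h_f, map_zsmul]
  lie_e_f_ne i j hij := by rw [← mk_lie, b.lie_e_f_ne i j hij, map_zero]

end Tw

theorem exists_twist (L : Type) [LieRing L] [LieAlgebra ℂ L] [FiniteDimensional ℂ L]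
    [LieAlgebra.IsSimple ℂ L] (σ : ℂ ≃+* ℂ) :
    ∃ F : L ≃+ L, (∀ (c : ℂ) (x : L), F (c • x) = σ c • F x) ∧ ∀ x y, F ⁅x, y⁆ = ⁅F x, F y⁆ := by
  obtain ⟨ι, _, H, ⟨b⟩⟩ := exists_lieBasis L
  let e : Tw σ L ≃ₗ⁅ℂ⁆ L :=
    LieAlgebra.Basis.equivOfReindex (Equiv.refl ι) (Tw.basis (σ := σ) b) b (by simp [Tw.basis])
  refine ⟨(Tw.mk σ L).trans e.toLinearEquiv.toAddEquiv, fun c x => ?_, fun x y => ?_⟩
  · change e (Tw.mk σ L (c • x)) = σ c • e (Tw.mk σ L x)
    rw [Tw.mk_smul, map_smul]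
  · change e (Tw.mk σ L ⁅x, y⁆) = ⁅e (Tw.mk σ L x), e (Tw.mk σ L y)⁆
    rw [Tw.mk_lie, LieEquiv.map_lie]

end Pool.Agent.P.MP_d483fb_an.Z.SR
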