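import Pool.Agent.P.MP_d483fb_an.Z.SR.Padic
import Pool.Agent.P.MP_d483fb_an.Z.SR.Arch
import Pool.Agent.P.MP_d483fb_an.Z.SR.LieSurj
import Pool.Agent.P.MP_d483fb_an.Z.SR.Tits
import Pool.Agent.P.MP_d483fb_an.Z.SR.Twist

open scoped Topology ENNReal Matrix TensorProduct
open MeasureTheory Filter Set

set_option linter.unusedSectionVars false

noncomputable section

namespace Pool.Agent.P.MP_d483fb_an.Z.SR

section Aux

variable {Λ L : Type} [Group Λ] [LieRing L] [LieAlgebra ℂ L] [LieAlgebra.IsSimple ℂ L]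
  [FiniteDimensional ℂ L]

theorem schur (π : Λ →* Module.End ℂ L)
    (irr : ∀ W : Submodule ℂ L, (∀ γ, ∀ v ∈ W, π γ v ∈ W) → W = ⊥ ∨ W = ⊤)
    (T : Module.End ℂ L) (hT : ∀ γ, T * π γ = π γ * T) : ∃ c : ℂ, T = c • 1 := by
  have : Nontrivial L := LieAlgebra.IsSimple.nontrivial ℂ L
  obtain ⟨c, hc⟩ := Module.End.exists_eigenvalue T
  refine ⟨c, LinearMap.ext fun v => ?_⟩
  have h := (irr (T.eigenspace c) fun γ v hv => ?_).resolve_left hc
  · have hv : v ∈ T.eigenspace c := h ▸ Submodule.mem_top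
    exact Module.End.mem_eigenspace_iff.1 hv
  · rw [Module.End.mem_eigenspace_iff] at hv ⊢
    rw [← Module.End.mul_apply, hT, Module.End.mul_apply, hv, map_smul]

theorem central_eq_one (π : Λ →* Module.End ℂ L) (aut : ∀ γ x y, π γ ⁅x, y⁆ = ⁅π γ x, π γ y⁆)
    (irr : ∀ W : Submodule ℂ L, (∀ γ, ∀ v ∈ W, π γ v ∈ W) → W = ⊥ ∨ W = ⊤) {γ : Λ}
    (hγ : ∀ δ, γ * δ = δ * γ) : π γ = 1 := by
  obtain ⟨c, hc⟩ := schur π irr (π γ) fun δ => by rw [← map_mul, ← map_mul, hγ]
  have h1 : ∃ x y : L, ⁅x, y⁆ ≠ 0 := by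
    by_contra h
    push Not at h
    exact LieAlgebra.IsSimple.non_abelian ℂ (L := L) ⟨h⟩
  obtain ⟨x, y, hxy⟩ := h1
  have h2 := aut γ x y
  rw [hc] at h2
  simp only [LinearMap.smul_apply, Module.End.one_apply, smul_lie, lie_smul, smul_smul] at h2
  have h3 : c = c * c := smul_left_injective ℂ hxy h2
  have h4 : c ≠ 0 := by
    rintro rfl
    have h5 : π γ⁻¹ (π γ ⁅x, y⁆) = ⁅x, y⁆ := by
      rw [← Module.End.mul_apply, ← map_mul, inv_mul_cancel, map_one, Module.End.one_apply]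
    rw [hc] at h5
    exact hxy (by simpa using h5.symm)
  rw [hc, (mul_eq_left₀ h4).1 h3.symm, one_smul]

end Aux

/-- Matrices as continuous linear maps. -/
def clm (k : Type) [NontriviallyNormedField k] [CompleteSpace k] (d : ℕ) :
    Matrix (Fin d) (Fin d) k ≃ₐ[k] ((Fin d → k) →L[k] (Fin d → k)) :=
  Matrix.toLinAlgEquiv'.trans (Module.End.toContinuousLinearMap (Fin d → k))

theorem clm_apply {k : Type} [NontriviallyNormedField k] [CompleteSpace k] {d : ℕ}
    (M : Matrix (Fin d) (Fin d) k) (v : Fin d → k) : clm k d M v = M *ᵥ v := rfl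

theorem entry_le_clm {k : Type} [NontriviallyNormedField k] [CompleteSpace k] {d : ℕ}
    (M : Matrix (Fin d) (Fin d) k) (i j : Fin d) : ‖M i j‖ ≤ ‖clm k d M‖ := by
  have h1 : clm k d M (Pi.single j 1) i = M i j := by simp [clm_apply]
  rw [← h1]
  refine (norm_le_pi_norm _ i).trans (((clm k d M).le_opNorm _).trans ?_)
  rw [Pi.norm_single, norm_one, mul_one]

variable {G : Type} [Group G] [TopologicalSpace G] [IsTopologicalGroup G] [LocallyCompactSpace G]
  [T2Space G] [SecondCountableTopology G] [MeasurableSpace G] [BorelSpace G]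
  {Γ : Subgroup G} [Countable Γ] {X : Type} [MeasurableSpace X] [MulAction G X]
  [MeasurableSMul₂ G X]
  [MeasurableSpace.CountablyGenerated X]
  {S : Sec Γ X} {A : Type} [NormedAddCommGroup A] {a : A → G}

theorem Good.rigid_padic [ConnectedSpace G] (hG : Good S a) {d : ℕ}
    (R : Γ →* Matrix (Fin d) (Fin d) ℂ) (hz : ∀ γ : Γ, (γ : G) ∈ Subgroup.center G → R γ = 1)
    (hc : ∀ M : Matrix (Fin d) (Fin d) ℂ, (∀ γ, M * R γ = R γ * M) → ∃ c : ℂ, M = c • 1)
    {k : Type} [NontriviallyNormedField k] [ProperSpace k] [IsUltrametricDist k] {Ω : Type}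
    [Field Ω] (ι : k →+* Ω) (σ : ℂ ≃+* Ω) (R' : Γ →* Matrix (Fin d) (Fin d) k)
    (h : ∀ γ i j, ι (R' γ i j) = σ (R γ i j)) : ∃ C : ℝ, ∀ γ i j, ‖R' γ i j‖ ≤ C := by
  let ψ : k →+* ℂ := σ.symm.toRingHom.comp ι
  have hψ : ∀ γ, (R' γ).map ψ = R γ := fun γ => by
    ext i j
    simp [ψ, h]
  have hinj : Function.Injective fun M : Matrix (Fin d) (Fin d) k => M.map ψ :=
    Matrix.map_injective ψ.injective
  refine (hG.padic ((clm k d).toMonoidHom.comp R') (fun γ hγ => ?_) fun T hT => ?_).imp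
    fun C hC γ i j => (entry_le_clm _ i j).trans (hC γ)
  · have : R' γ = 1 := hinj (by
      simp only [hψ, hz γ hγ]
      exact (Matrix.map_one _ (map_zero ψ) (map_one ψ)).symm)
    change clm k d (R' γ) = 1
    rw [this, map_one]
  · obtain ⟨M, rfl⟩ := (clm k d).surjective T
    obtain ⟨c, hM⟩ := hc (M.map ψ) fun γ => by
      have h1 : M * R' γ = R' γ * M := (clm k d).injective (by rw [map_mul, map_mul]; exact hT γ)
      rw [← hψ, ← Matrix.map_mul, ← Matrix.map_mul, h1]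
    rcases Nat.eq_zero_or_pos d with rfl | hd
    · exact ⟨0, Subsingleton.elim _ _⟩
    · let i₀ : Fin d := ⟨0, hd⟩
      have h2 : ψ (M i₀ i₀) = c := by simpa using congrFun (congrFun hM i₀) i₀
      refine ⟨M i₀ i₀, ?_⟩
      have h3 : M = M i₀ i₀ • (1 : Matrix (Fin d) (Fin d) k) := hinj (by
        simp only [hM]
        ext i j
        by_cases hij : i = j
        · simp [hij, h2]
        · simp [hij])
      conv_lhs => rw [h3, map_smul, map_one]

theorem Good.rigid_arch (hG : Good S a) {𝔤 : Type} [LieRing 𝔤] [LieAlgebra ℝ 𝔤] (hd : Der G 𝔤)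
    {L : Type} [LieRing L] [LieAlgebra ℂ L] [LieAlgebra.IsSimple ℂ L] {d : ℕ}
    (θ : (Fin d → ℂ) ≃ₗ[ℂ] L) (π : Γ →* ((Fin d → ℂ) →L[ℂ] (Fin d → ℂ)))
    (hz : ∀ γ : Γ, (γ : G) ∈ Subgroup.center G → π γ = 1)
    (aut : ∀ γ u v, θ (π γ (θ.symm ⁅θ u, θ v⁆)) = ⁅θ (π γ u), θ (π γ v)⁆)
    (irr : ∀ W : Submodule ℂ (Fin d → ℂ), (∀ γ, ∀ v ∈ W, π γ v ∈ W) → W = ⊥ ∨ W = ⊤)
    (hu : ¬ ∃ C : ℝ, ∀ γ, ‖π γ‖ ≤ C) : ∃ φ : ℂ ⊗[ℝ] 𝔤 →ₗ⁅ℂ⁆ L, Function.Surjective φ := by
  have : FiniteDimensional ℂ L := θ.finiteDimensional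
  let B₀ : (Fin d → ℂ) →ₗ[ℂ] (Fin d → ℂ) →ₗ[ℂ] (Fin d → ℂ) :=
    LinearMap.mk₂ ℂ (fun u v => θ.symm ⁅θ u, θ v⁆) (fun _ _ _ => by simp) (fun _ _ _ => by simp)
      (fun _ _ _ => by simp) (fun _ _ _ => by simp)
  let B : (Fin d → ℂ) →L[ℂ] (Fin d → ℂ) →L[ℂ] (Fin d → ℂ) :=
    LinearMap.toContinuousLinearMap (LinearMap.toContinuousLinearMap.toLinearMap ∘ₗ B₀)
  have hB : ∀ u v, B u v = θ.symm ⁅θ u, θ v⁆ := fun _ _ => rfl
  have inner : ∀ D : (Fin d → ℂ) →L[ℂ] (Fin d → ℂ),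
      (∀ x y, D (B x y) = B (D x) y + B x (D y)) → ∃ h, D = B h := by
    intro D hD
    let D' : LieDerivation ℂ L L :=
      { toLinearMap := θ.toLinearMap ∘ₗ D.toLinearMap ∘ₗ θ.symm.toLinearMap
        leibniz' := fun x y => by
          have h := congrArg θ (hD (θ.symm x) (θ.symm y))
          simp only [hB, LinearEquiv.apply_symm_apply, map_add] at h
          simp only [LinearMap.comp_apply, LinearEquiv.coe_coe, ContinuousLinearMap.coe_coe, h]
          rw [← lie_skew (θ (D (θ.symm x))) y]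
          abel }
    obtain ⟨x, hx⟩ := LieDerivation.IsKilling.exists_eq_ad D'
    refine ⟨θ.symm x, ContinuousLinearMap.ext fun v => θ.injective ?_⟩
    have h := congrArg (fun E : LieDerivation ℂ L L => E (θ v)) hx
    simp only [LieDerivation.ad_apply_apply] at h
    rw [hB, θ.apply_symm_apply, θ.apply_symm_apply, h]
    change θ (D v) = θ (D (θ.symm (θ v)))
    rw [θ.symm_apply_apply]
  have inj : Function.Injective B := by
    refine (injective_iff_map_eq_zero B).2 fun u hu => ?_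
    refine θ.map_eq_zero_iff.1 (LieModule.ext_of_isFaithful (R := ℂ) (L := L) L fun y => ?_)
    have h := congrArg (fun T : (Fin d → ℂ) →L[ℂ] (Fin d → ℂ) => θ (T (θ.symm y))) hu
    simpa [hB] using h
  obtain ⟨τ, hτ, hπ, haut⟩ := hG.arch B π hz
    (fun γ x y => θ.injective (by rw [hB, hB, aut, θ.apply_symm_apply])) inner inj irr hu
  obtain ⟨ψ, h1, h2⟩ := lie_surj hd B (fun u v => ContinuousLinearMap.ext fun w => by
      simp [hB]) inner inj τ hτ haut
    (fun W hW => irr W fun γ v hv => hπ γ ▸ hW γ v hv) (by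
      by_contra h
      push Not at h
      exact hu ⟨1, fun γ => by
        rw [← hπ, h]
        exact ContinuousLinearMap.norm_id_le⟩)
  refine exists_lieHom (θ.toLinearMap.toAddMonoidHom.comp ψ.toAddMonoidHom) (fun t Y => ?_)
    (fun Y Y' => ?_) ?_
  · change θ (ψ (t • Y)) = (t : ℂ) • θ (ψ Y)
    rw [ψ.map_smul, ← θ.map_smul, Complex.coe_smul]
  · change θ (ψ ⁅Y, Y'⁆) = ⁅θ (ψ Y), θ (ψ Y')⁆
    rw [h1, hB, θ.apply_symm_apply]
  · have h3 : range (θ.toLinearMap.toAddMonoidHom.comp ψ.toAddMonoidHom) =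
        θ.toLinearMap '' range ψ := range_comp θ ψ
    rw [h3, ← Submodule.map_span, h2, Submodule.map_top, LinearEquiv.range]

theorem Good.rigid [ConnectedSpace G] [Group.FG Γ] (hG : Good S a) {𝔤 : Type} [LieRing 𝔤]
    [LieAlgebra ℝ 𝔤] (hd : Der G 𝔤) : Rigid Γ 𝔤 := by
  intro L _ _ _ d b π aut uni irr inf
  have : FiniteDimensional ℂ L := Module.Finite.of_basis b
  let R : Γ →* Matrix (Fin d) (Fin d) ℂ := (LinearMap.toMatrixAlgEquiv b).toMonoidHom.comp π
  have hR : ∀ γ, R γ = LinearMap.toMatrixAlgEquiv b (π γ) := fun _ => rfl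
  have hinf : (range R).Infinite := by
    have h : range R = LinearMap.toMatrixAlgEquiv b '' range π :=
      range_comp (LinearMap.toMatrixAlgEquiv b) π
    rw [h]
    exact inf.image (LinearMap.toMatrixAlgEquiv b).injective.injOn
  have hz : ∀ γ : Γ, (γ : G) ∈ Subgroup.center G → R γ = 1 := fun γ hγ => by
    rw [hR, central_eq_one π aut irr fun δ =>
      Subtype.ext (Subgroup.mem_center_iff.1 hγ δ).symm, map_one]
  rcases tits R uni hinf with ⟨σ, hσ⟩ | ⟨k, _, _, _, Ω, _, ι, σ, R', h1, h2⟩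
  · obtain ⟨F, hF1, hF2⟩ := exists_twist L σ
    let e : L ≃+ (Fin d → ℂ) :=
      b.equivFun.toAddEquiv.trans (AddEquiv.piCongrRight fun _ => σ.toAddEquiv)
    have he : ∀ x i, e x i = σ (b.repr x i) := fun _ _ => rfl
    have hes : ∀ (c : ℂ) (x : L), e (c • x) = σ c • e x := fun c x => funext fun i => by
      simp [he]
    let θ : (Fin d → ℂ) ≃ₗ[ℂ] L :=
      { e.symm.trans F with
        map_smul' := fun c v => by
          obtain ⟨x, rfl⟩ := e.surjective v
          obtain ⟨c, rfl⟩ := σ.surjective c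
          change F (e.symm (σ c • e x)) = σ c • F (e.symm (e x))
          rw [← hes, e.symm_apply_apply, e.symm_apply_apply, hF1] }
    have hθ : ∀ x, θ (e x) = F x := fun x => congrArg F (e.symm_apply_apply x)
    let π' : Γ →* ((Fin d → ℂ) →L[ℂ] (Fin d → ℂ)) :=
      (clm ℂ d).toMonoidHom.comp
        (((σ : ℂ →+* ℂ).mapMatrix (m := Fin d)).toMonoidHom.comp R)
    have hπ' : ∀ γ, π' γ = clm ℂ d ((R γ).map σ) := fun _ => rfl
    have hπe : ∀ γ x, π' γ (e x) = e (π γ x) := fun γ x => funext fun i => by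
      have h := congrFun (LinearMap.toMatrix_mulVec_repr b b (π γ) x) i
      rw [he, ← h, hπ', clm_apply]
      simp only [Matrix.mulVec, dotProduct, map_sum, map_mul, Matrix.map_apply, he]
      rfl
    refine hG.rigid_arch hd θ π' (fun γ hγ => ?_) (fun γ u v => ?_) (fun W hW => ?_) fun h => ?_
    · rw [hπ', hz γ hγ, Matrix.map_one _ (map_zero σ) (map_one σ), map_one]
    · obtain ⟨x, rfl⟩ := e.surjective u
      obtain ⟨y, rfl⟩ := e.surjective v
      rw [hθ, hθ, ← hF2, ← hθ, θ.symm_apply_apply, hπe, hπe, hπe, hθ, hθ, hθ, aut, hF2]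
    · let W' : Submodule ℂ L :=
        { carrier := {x | e x ∈ W}
          zero_mem' := by simp
          add_mem' := fun {x y} hx hy => by
            change e (x + y) ∈ W
            rw [map_add]
            exact W.add_mem hx hy
          smul_mem' := fun c x hx => by
            change e (c • x) ∈ W
            rw [hes]
            exact W.smul_mem _ hx }
      have hW' : ∀ x, x ∈ W' ↔ e x ∈ W := fun _ => Iff.rfl
      refine (irr W' fun γ x hx => ?_).imp (fun h => ?_) fun h => ?_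
      · rw [hW', ← hπe]
        exact hW γ _ hx
      · refine eq_bot_iff.2 fun v hv => ?_
        obtain ⟨x, rfl⟩ := e.surjective v
        have hx : x ∈ W' := hv
        rw [h, Submodule.mem_bot] at hx
        rw [hx, map_zero]
        exact Submodule.zero_mem _
      · refine eq_top_iff.2 fun v _ => ?_
        obtain ⟨x, rfl⟩ := e.surjective v
        exact (hW' x).1 (h ▸ Submodule.mem_top)
    · obtain ⟨C, hC⟩ := h
      exact hσ ⟨C, fun γ i j => (entry_le_clm ((R γ).map σ) i j).trans (hC γ)⟩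
  · refine absurd (hG.rigid_padic R hz (fun M hM => ?_) ι σ R' h1) h2
    obtain ⟨T, rfl⟩ := (LinearMap.toMatrixAlgEquiv b).surjective M
    obtain ⟨c, hc⟩ := schur π irr T fun γ => (LinearMap.toMatrixAlgEquiv b).injective (by
      rw [map_mul, map_mul]
      exact hM γ)
    exact ⟨c, by rw [hc, map_smul, map_one]⟩

end Pool.Agent.P.MP_d483fb_an.Z.SR
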