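import Pool.Agent.P.MP_d483fb_an.Z.Stmt

/-!
The identity component of the group of orthogonal automorphisms of a compact semisimple Lie
algebra, and the bound that `m < d(G)` gives for the codimension of its subalgebras.
-/

open Set Filter Topology NormedSpace Module
open scoped Matrix Matrix.Norms.Operator TensorProduct

set_option linter.unusedSectionVars false

attribute [local instance 100] LieRing.ofAssociativeRing

noncomputable section

namespace Pool.Agent.P.MP_d483fb_an.Z.SR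

theorem deriv_mem {E : Type} [NormedAddCommGroup E] [NormedSpace ℝ E] [FiniteDimensional ℝ E]
    (S : Submodule ℝ E) {f : ℝ → E} {f' : E} (h : ∀ t, f t ∈ S) (hf : HasDerivAt f f' 0) :
    f' ∈ S := by
  refine S.closed_of_finiteDimensional.mem_of_tendsto (hasDerivAt_iff_tendsto_slope.1 hf)
    (Eventually.of_forall fun t => ?_)
  exact S.smul_mem _ (S.sub_mem (h t) (h 0))

theorem exp_mul_exp_neg {N : ℕ} (A : Mat N) : exp A * exp (-A) = 1 := by
  rw [← Matrix.exp_add_of_commute _ _ (Commute.refl A).neg_right, add_neg_cancel, exp_zero]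

theorem exp_neg_mul_exp {N : ℕ} (A : Mat N) : exp (-A) * exp A = 1 := by
  rw [← Matrix.exp_add_of_commute _ _ (Commute.refl A).neg_left, neg_add_cancel, exp_zero]

theorem exp_orth {N : ℕ} {A : Mat N} (h : Aᵀ = -A) : exp A * (exp A)ᵀ = 1 := by
  rw [← Matrix.exp_transpose, h, exp_mul_exp_neg]

/-- Evaluation of a matrix at a vector. -/
def evL {N : ℕ} (v : Fin N → ℝ) : Mat N →L[ℝ] Fin N → ℝ :=
  LinearMap.toContinuousLinearMap ((Matrix.mulVecBilin ℝ ℝ).flip v)

theorem evL_apply {N : ℕ} (v : Fin N → ℝ) (A : Mat N) : evL v A = A *ᵥ v := rfl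

theorem hasDerivAt_exp_mulVec {N : ℕ} (A : Mat N) (v : Fin N → ℝ) (t : ℝ) :
    HasDerivAt (fun t : ℝ => exp (t • A) *ᵥ v) (A *ᵥ (exp (t • A) *ᵥ v)) t := by
  have := (evL v).hasFDerivAt.comp_hasDerivAt t (hasDerivAt_exp_smul_const' (𝕂 := ℝ) A t)
  rw [Matrix.mulVec_mulVec]
  exact this

theorem isCompact_orth {N : ℕ} {S : Set (Mat N)} (hS : IsClosed S) (h : ∀ A ∈ S, A * Aᵀ = 1) :
    IsCompact S := by
  refine (isCompact_univ_pi fun _ : Fin N => isCompact_univ_pi fun _ : Fin N =>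
    isCompact_Icc (a := (-1 : ℝ)) (b := 1)).of_isClosed_subset hS fun A hA i _ j _ => ?_
  have h1 := congrFun (congrFun (h A hA) i) i
  rw [Matrix.mul_apply, Matrix.one_apply_eq] at h1
  have h2 : A i j * Aᵀ j i ≤ 1 := h1 ▸ Finset.single_le_sum (f := fun j => A i j * Aᵀ j i)
    (fun j _ => mul_self_nonneg _) (Finset.mem_univ j)
  exact abs_le.1 (abs_le_one_iff_mul_self_le_one.2 h2)

/-- The identity component of a monoid of matrices. -/
def comp1 {N : ℕ} (S : Submonoid (Mat N)) : Submonoid (Mat N) where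
  carrier := connectedComponentIn (S : Set (Mat N)) 1
  one_mem' := mem_connectedComponentIn S.one_mem
  mul_mem' := by
    intro A B hA hB
    have hc := isPreconnected_connectedComponentIn (F := (S : Set (Mat N))) (x := 1)
    have h1 := mem_connectedComponentIn (F := (S : Set (Mat N))) S.one_mem
    refine ((hc.prod hc).image (fun p : Mat N × Mat N => p.1 * p.2)
      continuous_mul.continuousOn).subset_connectedComponentIn ⟨(1, 1), ⟨h1, h1⟩, mul_one 1⟩ ?_
      ⟨(A, B), ⟨hA, hB⟩, rfl⟩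
    rintro _ ⟨p, hp, rfl⟩
    exact S.mul_mem (connectedComponentIn_subset _ _ hp.1) (connectedComponentIn_subset _ _ hp.2)

theorem comp1_le {N : ℕ} (S : Submonoid (Mat N)) : comp1 S ≤ S := connectedComponentIn_subset _ _

theorem isConnected_comp1 {N : ℕ} (S : Submonoid (Mat N)) : IsConnected (comp1 S : Set (Mat N)) :=
  isConnected_connectedComponentIn_iff.2 S.one_mem

theorem isClosed_comp1 {N : ℕ} {S : Submonoid (Mat N)} (hS : IsClosed (S : Set (Mat N))) :
    IsClosed (comp1 S : Set (Mat N)) := by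
  refine closure_subset_iff_isClosed.1 ?_
  exact (isConnected_comp1 S).isPreconnected.closure.subset_connectedComponentIn
    (subset_closure (comp1 S).one_mem) (closure_minimal (comp1_le S) hS)

theorem lieSet_comp1 {N : ℕ} (S : Submonoid (Mat N)) :
    lieSet (comp1 S : Set (Mat N)) = lieSet (S : Set (Mat N)) := by
  refine Subset.antisymm (fun A hA t => comp1_le S (hA t)) fun A hA t => ?_
  have hc : Continuous fun t : ℝ => exp (t • A) :=
    continuous_iff_continuousAt.2 fun t => (hasDerivAt_exp_smul_const (𝕂 := ℝ) A t).continuousAt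
  refine (isPreconnected_range hc).subset_connectedComponentIn ⟨0, by simp⟩ ?_ ⟨t, rfl⟩
  rintro _ ⟨s, rfl⟩
  exact hA s

variable {L : Type} [LieRing L] [LieAlgebra ℝ L] {N : ℕ} (b : Basis (Fin N) ℝ L)

/-- The adjoint representation in a basis. -/
def adM : L →ₗ⁅ℝ⁆ Mat N :=
  ((LinearMap.toMatrixAlgEquiv b).toLieEquiv : Module.End ℝ L →ₗ⁅ℝ⁆ Mat N).comp (LieAlgebra.ad ℝ L)

theorem adM_apply (X : L) : adM b X = LinearMap.toMatrix b b (LieAlgebra.ad ℝ L X) := rfl

theorem adM_mulVec (X Y : L) : adM b X *ᵥ b.equivFun Y = b.equivFun ⁅X, Y⁆ := by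
  rw [adM_apply, Basis.equivFun_apply, LinearMap.toMatrix_mulVec_repr]
  rfl

/-- The adjoint representation in coordinates. -/
def co : (Fin N → ℝ) →L[ℝ] Mat N :=
  LinearMap.toContinuousLinearMap ((adM b : L →ₗ[ℝ] Mat N) ∘ₗ b.equivFun.symm.toLinearMap)

theorem co_apply (Y : L) : co b (b.equivFun Y) = adM b Y := by
  simp [co]

theorem hasDerivAt_co (A : Mat N) (v : Fin N → ℝ) (s : ℝ) :
    HasDerivAt (fun t : ℝ => co b (exp (t • A) *ᵥ v)) (co b (A *ᵥ (exp (s • A) *ᵥ v))) s :=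
  (co b).hasFDerivAt.comp_hasDerivAt s (hasDerivAt_exp_mulVec A v s)

/-- Orthogonal automorphisms. -/
def Aut : Submonoid (Mat N) where
  carrier := {A | A * Aᵀ = 1 ∧ ∀ v, A * co b v = co b (A *ᵥ v) * A}
  one_mem' := by simp
  mul_mem' := by
    rintro A B ⟨hA, hA'⟩ ⟨hB, hB'⟩
    refine ⟨?_, fun v => ?_⟩
    · rw [Matrix.transpose_mul, mul_assoc, ← mul_assoc B, hB, one_mul, hA]
    · rw [mul_assoc, hB', ← mul_assoc, hA', Matrix.mulVec_mulVec, mul_assoc]

theorem isClosed_Aut : IsClosed (Aut b : Set (Mat N)) := by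
  have : (Aut b : Set (Mat N)) =
      {A | A * Aᵀ = 1} ∩ ⋂ v, {A | A * co b v = co b (evL v A) * A} := by
    ext A
    simp only [mem_inter_iff, mem_iInter]
    rfl
  rw [this]
  exact (isClosed_eq (by fun_prop) continuous_const).inter
    (isClosed_iInter fun v => isClosed_eq (by fun_prop) (by fun_prop))

theorem adM_mem (hb : ∀ X, (adM b X)ᵀ = -adM b X) (X : L) :
    adM b X ∈ lieSet (Aut b : Set (Mat N)) := by
  intro t
  refine ⟨exp_orth (by rw [Matrix.transpose_smul, hb, smul_neg]), fun v => ?_⟩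
  set A := adM b X with hA
  have hd : ∀ w, co b (A *ᵥ w) = A * co b w - co b w * A := by
    intro w
    obtain ⟨Y, rfl⟩ := b.equivFun.surjective w
    rw [hA, adM_mulVec, co_apply, co_apply, LieHom.map_lie]
    rfl
  let f : ℝ → Mat N := fun s => exp (s • (-A)) * co b (exp (s • A) *ᵥ v) * exp (s • A)
  have hf : ∀ s, HasDerivAt f 0 s := by
    intro s
    have h1 := ((hasDerivAt_exp_smul_const (𝕂 := ℝ) (-A) s).mul
      (hasDerivAt_co b A v s)).mul (hasDerivAt_exp_smul_const' (𝕂 := ℝ) A s)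
    refine h1.congr_deriv ?_
    simp only [Pi.mul_apply, hd]
    noncomm_ring
  have h0 : f t = f 0 := is_const_of_deriv_eq_zero (fun s => (hf s).differentiableAt)
    (fun s => (hf s).deriv) t 0
  simp only [f, zero_smul, exp_zero, one_mul, mul_one, Matrix.one_mulVec] at h0
  rw [← h0, ← mul_assoc, ← mul_assoc, smul_neg, exp_mul_exp_neg, one_mul]

theorem exists_adM [LieAlgebra.IsKilling ℝ L] {A : Mat N} (hA : A ∈ lieSet (Aut b : Set (Mat N))) :
    ∃ X, adM b X = A := by
  have : Module.Finite ℝ L := Module.Finite.of_basis b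
  have hd : ∀ w, co b (A *ᵥ w) = A * co b w - co b w * A := by
    intro v
    have h1 := ((hasDerivAt_exp_smul_const (𝕂 := ℝ) A 0).mul_const (co b v)).sub
      ((hasDerivAt_co b A v 0).mul (hasDerivAt_exp_smul_const (𝕂 := ℝ) A 0))
    have h2 := deriv_mem (⊥ : Submodule ℝ (Mat N)) (fun t => sub_eq_zero.2 ((hA t).2 v)) h1
    simp only [zero_smul, exp_zero, one_mul, mul_one, Matrix.one_mulVec, Submodule.mem_bot] at h2
    rw [sub_eq_zero.1 h2]
    exact (add_sub_cancel_right _ _).symm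
  have he : ∀ Y, b.equivFun (Matrix.toLin b b A Y) = A *ᵥ b.equivFun Y := by
    intro Y
    rw [Basis.equivFun_apply, Basis.equivFun_apply, ← LinearMap.toMatrix_mulVec_repr b b,
      LinearMap.toMatrix_toLin]
  let δ : LieDerivation ℝ L L :=
    { toLinearMap := Matrix.toLin b b A
      leibniz' := fun Y Z => by
        apply b.equivFun.injective
        rw [sub_eq_add_neg, lie_skew, map_add, he, ← adM_mulVec, ← adM_mulVec, ← adM_mulVec, he,
          ← co_apply b (Matrix.toLin b b A Y), he, hd, co_apply, Matrix.sub_mulVec,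
          Matrix.mulVec_mulVec, Matrix.mulVec_mulVec]
        abel }
  obtain ⟨X, hX⟩ := LieDerivation.IsKilling.exists_eq_ad δ
  refine ⟨X, ?_⟩
  have : LieAlgebra.ad ℝ L X = Matrix.toLin b b A := by
    ext Y
    have := congrArg (fun d : LieDerivation ℝ L L => d Y) hX
    simpa [δ] using this
  rw [adM_apply, this, LinearMap.toMatrix_toLin]

theorem lieAlg_Aut [LieAlgebra.IsKilling ℝ L] (hb : ∀ X, (adM b X)ᵀ = -adM b X) :
    lieAlg (comp1 (Aut b) : Set (Mat N)) = (adM b).range := by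
  rw [lieAlg, lieSet_comp1]
  have : lieSet (Aut b : Set (Mat N)) = ((adM b).range : Set (Mat N)) := by
    refine Subset.antisymm (fun A hA => exists_adM b hA) ?_
    rintro _ ⟨X, rfl⟩
    exact adM_mem b hb X
  rw [this, LieSubalgebra.lieSpan_eq]

theorem adM_injective [LieAlgebra.IsKilling ℝ L] : Function.Injective (adM b) := by
  have : Module.Finite ℝ L := Module.Finite.of_basis b
  have : Function.Injective (LieAlgebra.ad ℝ L) := by
    rw [← LieHom.ker_eq_bot, LieAlgebra.ad_ker_eq_self_module_ker,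
      LieAlgebra.self_module_ker_eq_center, LieAlgebra.center_eq_bot]
  exact (LinearMap.toMatrix b b).injective.comp this

/-- The matrices preserving a subspace. -/
def stabS (S : Submodule ℝ (Fin N → ℝ)) : Subalgebra ℝ (Mat N) where
  carrier := {A | ∀ v ∈ S, A *ᵥ v ∈ S}
  mul_mem' hA hB v hv := by
    rw [← Matrix.mulVec_mulVec]
    exact hA _ (hB v hv)
  add_mem' hA hB v hv := by
    rw [Matrix.add_mulVec]
    exact S.add_mem (hA v hv) (hB v hv)
  algebraMap_mem' c v hv := by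
    rw [Algebra.algebraMap_eq_smul_one, Matrix.smul_mulVec, Matrix.one_mulVec]
    exact S.smul_mem c hv

theorem isClosed_stabS (S : Submodule ℝ (Fin N → ℝ)) : IsClosed (stabS S : Set (Mat N)) :=
  (Subalgebra.toSubmodule (stabS S)).closed_of_finiteDimensional

/-- Complexification of an isomorphism of Lie algebras. -/
def bcEquiv {L' : Type} [LieRing L'] [LieAlgebra ℝ L'] (e : L ≃ₗ⁅ℝ⁆ L') :
    (ℂ ⊗[ℝ] L) ≃ₗ⁅ℂ⁆ (ℂ ⊗[ℝ] L') :=
  { e.toLinearEquiv.baseChange ℝ ℂ _ _ with
    map_lie' := by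
      intro x y
      have h : ∀ z, e.toLinearEquiv.baseChange ℝ ℂ _ _ z =
          LieAlgebra.ExtendScalars.map (AlgHom.id ℝ ℂ) (e : L →ₗ⁅ℝ⁆ L') z := by
        intro z
        induction z using TensorProduct.induction_on with
        | zero => simp
        | add x x' hx hx' => simp only [map_add, hx, hx']
        | tmul s x => simp
      change e.toLinearEquiv.baseChange ℝ ℂ _ _ ⁅x, y⁆ =
        ⁅e.toLinearEquiv.baseChange ℝ ℂ _ _ x, e.toLinearEquiv.baseChange ℝ ℂ _ _ y⁆
      rw [h, h, h]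
      exact LieHom.map_lie _ x y }

variable {G : Type} [Group G] [TopologicalSpace G] {n m : ℕ}

/-- A subalgebra that is not an ideal has codimension greater than `m`. -/
theorem lt_of_ltD (D : HigherRank G n) (hD : D.ltD m) [LieAlgebra.IsKilling ℝ L]
    (hb : ∀ X, (adM b X)ᵀ = -adM b X) (I : LieIdeal ℂ (ℂ ⊗[ℝ] lieAlg (Set.range D.ρ)))
    (hI : IsAtom I) (e : (ℂ ⊗[ℝ] L) ≃ₗ⁅ℂ⁆ I) (h : Submodule ℝ L) (hh : ∀ X ∈ h, ∀ Y ∈ h, ⁅X, Y⁆ ∈ h)
    (hn : ∃ X : L, ∃ Y ∈ h, ⁅X, Y⁆ ∉ h) : m < N - finrank ℝ h := by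
  have : Module.Finite ℝ L := Module.Finite.of_basis b
  let S : Submodule ℝ (Fin N → ℝ) := h.map b.equivFun.toLinearMap
  have hK := isClosed_comp1 (isClosed_Aut b)
  have hO : ∀ A ∈ comp1 (Aut b), A * Aᵀ = 1 := fun A hA => (comp1_le _ hA).1
  have hm : ∀ X, adM b X ∈ lieSet (comp1 (Aut b) : Set (Mat N)) := fun X => by
    rw [lieSet_comp1]
    exact adM_mem b hb X
  let e1 : L ≃ₗ⁅ℝ⁆ lieAlg (comp1 (Aut b) : Set (Mat N)) :=
    (LieEquiv.ofInjective (adM b) (adM_injective b)).trans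
      (LieEquiv.ofEq _ _ (by rw [lieAlg_Aut b hb]))
  have key := hD N (comp1 (Aut b)) (comp1 (Aut b) ⊓ (stabS S).toSubmonoid)
    (isCompact_orth hK hO) (isConnected_comp1 _) hO (hK.inter (isClosed_stabS S)) ?_
    ⟨I, hI, ⟨(bcEquiv e1.symm).trans e⟩⟩
  · rw [← e1.toLinearEquiv.finrank_eq, finrank_eq_card_basis b, Fintype.card_fin] at key
    refine key.trans_le (Nat.sub_le_sub_left ?_ _)
    rw [← (Submodule.equivMapOfInjective (adM b : L →ₗ[ℝ] Mat N) (adM_injective b) h).finrank_eq.symm.symm.symm]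
    refine Submodule.finrank_mono (t := (lieAlg _).toSubmodule) ?_
    rintro _ ⟨X, hX, rfl⟩
    refine LieSubalgebra.subset_lieSpan fun t => ⟨hm X t, ?_⟩
    refine exp_mem (R := ℝ) (s := stabS S) (isClosed_stabS S) ((stabS S).smul_mem ?_ t)
    rintro _ ⟨Y, hY, rfl⟩
    exact ⟨_, hh X hX Y hY, (adM_mulVec b X Y).symm⟩
  · refine lt_of_le_of_ne inf_le_left fun he => ?_
    obtain ⟨X, Y, hY, hn⟩ := hn
    have h1 := deriv_mem S (fun t => (inf_eq_left.1 he (hm X t)) _ ⟨Y, hY, rfl⟩)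
      (hasDerivAt_exp_mulVec (adM b X) (b.equivFun Y) 0)
    rw [zero_smul, exp_zero, Matrix.one_mulVec, adM_mulVec] at h1
    obtain ⟨Z, hZ, hZ'⟩ := h1
    exact hn (b.equivFun.injective hZ' ▸ hZ)

end Pool.Agent.P.MP_d483fb_an.Z.SR
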