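import Mathlib

/-!
An invariant kernel that is a limit of averages of the kernels `⟪F (γ x), F (γ z)⟫`.
-/

open scoped RealInnerProductSpace

namespace Pool.Agent.P.MP_d483fb_an.Z.SR

/-- The output of the strong property (T) step. -/
structure INT {Γ M E : Type} [NormedAddCommGroup E] [InnerProductSpace ℝ E] (act : Γ → M → M)
    (F : M → E) where
  ub : M → M → ℝ
  inv : ∀ γ x z, ub (act γ x) (act γ z) = ub x z
  lip : ∀ γ, ∃ C : ℝ, ∀ x y, ‖F (act γ x) - F (act γ y)‖ ≤ C * ‖F x - F y‖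
  app : ∀ ε : ℝ, 0 < ε → ∃ (s : Finset Γ) (w : Γ → ℝ), (∀ γ, 0 ≤ w γ) ∧
    (∀ x z, |ub x z - ∑ γ ∈ s, w γ * ⟪F (act γ x), F (act γ z)⟫| ≤ ε) ∧
    ∀ x y z t, |ub x z - ub x t - ub y z + ub y t -
      ∑ γ ∈ s, w γ * ⟪F (act γ x) - F (act γ y), F (act γ z) - F (act γ t)⟫| ≤
        ε * ‖F x - F y‖ * ‖F z - F t‖
  low : ∃ c : ℝ, 0 < c ∧ ∀ x y, c * ‖F x - F y‖ ^ 2 ≤ ub x x + ub y y - 2 * ub x y

end Pool.Agent.P.MP_d483fb_an.Z.SR
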