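import Pool.Agent.P.MP_d483fb_an.Z.SR.FinDim
import Pool.Agent.P.MP_d483fb_an.Z.SR.IntDef

/-!
From the invariant kernel to an equivariant Lipschitz embedding in an orthogonal representation.
-/

open Set Filter Topology
open scoped RealInnerProductSpace Matrix

set_option linter.unusedSectionVars false

noncomputable section

namespace Pool.Agent.P.MP_d483fb_an.Z.SR

/-- The bilinear form of a kernel. -/
def kerForm {M : Type} (u : M → M → ℝ) : (M →₀ ℝ) →ₗ[ℝ] (M →₀ ℝ) →ₗ[ℝ] ℝ :=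
  Finsupp.linearCombination ℝ fun x => Finsupp.linearCombination ℝ (u x)

theorem kerForm_apply {M : Type} (u : M → M → ℝ) (f g : M →₀ ℝ) :
    kerForm u f g = ∑ x ∈ f.support, ∑ z ∈ g.support, f x * g z * u x z := by
  simp [kerForm, Finsupp.linearCombination_apply, Finsupp.sum, Finset.mul_sum, mul_assoc]

theorem inner_comb {M H : Type} [NormedAddCommGroup H] [InnerProductSpace ℝ H] (Φ : M → H)
    (f g : M →₀ ℝ) : ⟪Finsupp.linearCombination ℝ Φ f, Finsupp.linearCombination ℝ Φ g⟫ =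
      kerForm (fun x z => ⟪Φ x, Φ z⟫) f g := by
  rw [kerForm_apply]
  simp only [Finsupp.linearCombination_apply, Finsupp.sum, sum_inner]
  simp only [inner_sum, real_inner_smul_left, real_inner_smul_right, mul_assoc, mul_left_comm]

theorem exists_hilbert {M : Type} (u : M → M → ℝ) (hs : ∀ x z, u x z = u z x)
    (hp : ∀ f, 0 ≤ kerForm u f f) :
    ∃ (H : Type) (_ : NormedAddCommGroup H) (_ : InnerProductSpace ℝ H) (_ : CompleteSpace H)
      (Φ : M → H), (∀ x z, ⟪Φ x, Φ z⟫ = u x z) ∧ DenseRange (Finsupp.linearCombination ℝ Φ) := by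
  let c : PreInnerProductSpace.Core ℝ (M →₀ ℝ) :=
    { inner := fun f g => kerForm u f g
      conj_inner_symm := fun f g => by
        simp only [conj_trivial, kerForm_apply]
        rw [Finset.sum_comm]
        exact Finset.sum_congr rfl fun x _ => Finset.sum_congr rfl fun z _ => by
          rw [hs x z]; ring
      re_inner_nonneg := hp
      add_left := fun f g h => by simp
      smul_left := fun f g r => by simp }
  let : SeminormedAddCommGroup (M →₀ ℝ) := InnerProductSpace.Core.toSeminormedAddCommGroup (𝕜 := ℝ)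
  let : InnerProductSpace ℝ (M →₀ ℝ) := InnerProductSpace.ofCore c
  refine ⟨UniformSpace.Completion (M →₀ ℝ), inferInstance, inferInstance, inferInstance,
    fun x => ((Finsupp.single x 1 : M →₀ ℝ) : UniformSpace.Completion (M →₀ ℝ)), fun x z => ?_, ?_⟩
  · rw [UniformSpace.Completion.inner_coe]
    change kerForm u _ _ = _
    simp [kerForm]
  · have : Finsupp.linearCombination ℝ (fun x =>
        ((Finsupp.single x 1 : M →₀ ℝ) : UniformSpace.Completion (M →₀ ℝ))) =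
        (UniformSpace.Completion.toComplL : (M →₀ ℝ) →L[ℝ] _).toLinearMap := by
      ext x
      simp
    rw [this]
    exact UniformSpace.Completion.denseRange_coe

theorem exists_rep {Γ M H : Type} [Group Γ] [MulAction Γ M] [NormedAddCommGroup H]
    [InnerProductSpace ℝ H] [CompleteSpace H] (Φ : M → H)
    (hd : DenseRange (Finsupp.linearCombination ℝ Φ))
    (h : ∀ (γ : Γ) x z, ⟪Φ (γ • x), Φ (γ • z)⟫ = ⟪Φ x, Φ z⟫) :
    ∃ π : Γ →* (H ≃ₗᵢ[ℝ] H), ∀ γ x, Φ (γ • x) = π γ (Φ x) := by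
  let e := Finsupp.linearCombination ℝ Φ
  let T : Γ → (M →₀ ℝ) ≃ₗ[ℝ] (M →₀ ℝ) := fun γ => Finsupp.domLCongr (MulAction.toPerm γ)
  have hT : ∀ γ f, e (T γ f) = Finsupp.linearCombination ℝ (fun x => Φ (γ • x)) f := by
    intro γ f
    have : e ∘ₗ (T γ).toLinearMap = Finsupp.linearCombination ℝ (fun x => Φ (γ • x)) := by
      ext x
      simp [e, T]
    exact LinearMap.congr_fun this f
  have hn : ∀ γ f, ‖e (T γ f)‖ = ‖e f‖ := by
    intro γ f
    rw [hT, norm_eq_sqrt_real_inner, norm_eq_sqrt_real_inner, inner_comb, inner_comb]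
    simp only [h]
  let U : Γ → H ≃ₗᵢ[ℝ] H := fun γ => (T γ).extendOfIsometry e e hd hd (hn γ)
  have hU : ∀ γ x, U γ (Φ x) = Φ (γ • x) := by
    intro γ x
    have := (T γ).extendOfIsometry_eq e e hd hd (hn γ) (Finsupp.single x 1)
    rw [hT] at this
    simpa [e] using this
  have hext : ∀ A B : H ≃ₗᵢ[ℝ] H, (∀ x, A (Φ x) = B (Φ x)) → A = B := by
    intro A B hAB
    refine LinearIsometryEquiv.ext fun v => congrFun (hd.equalizer A.continuous B.continuous ?_) v
    funext f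
    simp [Finsupp.linearCombination_apply, Finsupp.sum, hAB]
  refine ⟨MonoidHom.mk' U fun γ δ => hext _ _ fun x => ?_, fun γ x => (hU γ x).symm⟩
  rw [LinearIsometryEquiv.coe_mul, Function.comp, hU, hU, hU, mul_smul]

theorem tb_of_approx {ι H : Type} [PseudoMetricSpace H] (s : ι → H)
    (h : ∀ ε : ℝ, 0 < ε → ∃ (β : Type) (_ : PseudoMetricSpace β) (u : ι → β),
      TotallyBounded (range u) ∧ ∃ δ : ℝ, 0 < δ ∧ ∀ p q, dist (u p) (u q) < δ → dist (s p) (s q) < ε) :
    TotallyBounded (range s) := by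
  refine Metric.totallyBounded_iff.2 fun ε hε => ?_
  obtain ⟨β, _, u, hu, δ, hδ, h1⟩ := h ε hε
  obtain ⟨t, ht, hf, hc⟩ := Metric.finite_approx_of_totallyBounded hu δ hδ
  rw [← image_univ] at ht
  obtain ⟨t', -, hf', rfl⟩ := exists_subset_image_finite_and.1 ⟨t, ht, hf, rfl⟩
  refine ⟨s '' t', hf'.image s, ?_⟩
  rintro _ ⟨p, rfl⟩
  obtain ⟨_, ⟨q, hq, rfl⟩, hd⟩ := mem_iUnion₂.1 (hc ⟨p, rfl⟩)
  exact mem_iUnion₂.2 ⟨s q, ⟨q, hq, rfl⟩, h1 p q hd⟩

variable {Γ M E : Type} [NormedAddCommGroup E] [InnerProductSpace ℝ E] {act : Γ → M → M}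
  {F : M → E}

theorem INT.symm (J : INT act F) (x z : M) : J.ub x z = J.ub z x := by
  refine eq_of_forall_dist_le fun ε hε => ?_
  obtain ⟨s, w, -, h, -⟩ := J.app (ε / 2) (half_pos hε)
  have h1 := abs_le.1 (h x z)
  have h2 := abs_le.1 (h z x)
  simp only [real_inner_comm (F (act _ x))] at h2
  rw [Real.dist_eq, abs_le]
  constructor <;> linarith [h1.1, h1.2, h2.1, h2.2]

theorem INT.psd (J : INT act F) (f : M →₀ ℝ) : 0 ≤ kerForm J.ub f f := by
  refine le_of_forall_pos_le_add fun ε hε => ?_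
  set A : ℝ := ∑ x ∈ f.support, ∑ z ∈ f.support, |f x * f z| with hA
  have hA0 : 0 ≤ A := Finset.sum_nonneg fun _ _ => Finset.sum_nonneg fun _ _ => abs_nonneg _
  obtain ⟨s, w, hw, h, -⟩ := J.app (ε / (A + 1)) (by positivity)
  have h1 : 0 ≤ ∑ γ ∈ s, w γ * kerForm (fun x z => ⟪F (act γ x), F (act γ z)⟫) f f :=
    Finset.sum_nonneg fun γ _ => mul_nonneg (hw γ) (by
      rw [← inner_comb fun x => F (act γ x)]
      exact real_inner_self_nonneg)
  have h2 : ∑ γ ∈ s, w γ * kerForm (fun x z => ⟪F (act γ x), F (act γ z)⟫) f f =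
      ∑ x ∈ f.support, ∑ z ∈ f.support, f x * f z * ∑ γ ∈ s, w γ * ⟪F (act γ x), F (act γ z)⟫ := by
    simp only [kerForm_apply, Finset.mul_sum]
    rw [Finset.sum_comm]
    refine Finset.sum_congr rfl fun x _ => ?_
    rw [Finset.sum_comm]
    exact Finset.sum_congr rfl fun z _ => Finset.sum_congr rfl fun γ _ => by ring
  have h3 : ∑ x ∈ f.support, ∑ z ∈ f.support,
      f x * f z * ∑ γ ∈ s, w γ * ⟪F (act γ x), F (act γ z)⟫ ≤
        kerForm J.ub f f + A * (ε / (A + 1)) := by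
    rw [kerForm_apply, hA, Finset.sum_mul, ← Finset.sum_add_distrib]
    refine Finset.sum_le_sum fun x _ => ?_
    rw [Finset.sum_mul, ← Finset.sum_add_distrib]
    refine Finset.sum_le_sum fun z _ => ?_
    rw [← sub_le_iff_le_add', ← mul_sub]
    refine (le_abs_self _).trans ?_
    rw [abs_mul, abs_sub_comm]
    exact mul_le_mul_of_nonneg_left (h x z) (abs_nonneg _)
  have h4 : A * (ε / (A + 1)) ≤ ε := by
    rw [mul_div_assoc', div_le_iff₀ (by positivity)]
    nlinarith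
  linarith

/-- The invariant kernel gives an equivariant Lipschitz embedding. -/
theorem INT.embedding [Group Γ] [FiniteDimensional ℝ E] (J : INT act F) (hF : Function.Injective F)
    (h1 : ∀ x, act 1 x = x) (hm : ∀ γ δ x, act (γ * δ) x = act γ (act δ x)) :
    ∃ (N : ℕ) (ρ : Γ →* Mat N) (Ψ : M → Fin N → ℝ) (C : ℝ), (∀ γ, ρ γ * (ρ γ)ᵀ = 1) ∧
      Function.Injective Ψ ∧ (∀ x y, ‖Ψ x - Ψ y‖ ≤ C * ‖F x - F y‖) ∧
      (∀ γ x, Ψ (act γ x) = ρ γ *ᵥ Ψ x) ∧ Submodule.span ℝ (range Ψ) = ⊤ := by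
  let : MulAction Γ M := { smul := act, one_smul := h1, mul_smul := hm }
  obtain ⟨H, _, _, _, Φ, hΦ, hd⟩ := exists_hilbert J.ub J.symm J.psd
  obtain ⟨π, hπ⟩ := exists_rep (Γ := Γ) Φ hd fun γ x z => by
    rw [hΦ, hΦ]
    exact J.inv γ x z
  obtain ⟨c, hc, hlow⟩ := J.low
  choose L hL using J.lip
  have hin : ∀ x y z t, ⟪Φ x - Φ y, Φ z - Φ t⟫ = J.ub x z - J.ub x t - J.ub y z + J.ub y t := by
    intro x y z t
    simp only [inner_sub_left, inner_sub_right, hΦ]
    ring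
  have hlo : ∀ x y, c * ‖F x - F y‖ ^ 2 ≤ ‖Φ x - Φ y‖ ^ 2 := by
    intro x y
    rw [← real_inner_self_eq_norm_sq (Φ x - Φ y), hin, J.symm y x]
    linarith [hlow x y]
  have hpos : ∀ x y, x ≠ y → 0 < ‖F x - F y‖ := fun x y h =>
    norm_pos_iff.2 (sub_ne_zero.2 fun h' => h (hF h'))
  have hinj : Function.Injective Φ := by
    intro x y h
    by_contra hxy
    have := hlo x y
    rw [h, sub_self, norm_zero] at this
    nlinarith [mul_pos hc (pow_pos (hpos x y hxy) 2)]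
  obtain ⟨C, hC⟩ : ∃ C : ℝ, ∀ x y, ‖Φ x - Φ y‖ ≤ C * ‖F x - F y‖ := by
    obtain ⟨s, w, hw, -, h⟩ := J.app 1 one_pos
    have hA : 0 ≤ ∑ γ ∈ s, w γ * L γ ^ 2 + 1 :=
      add_nonneg (Finset.sum_nonneg fun γ _ => mul_nonneg (hw γ) (sq_nonneg _)) zero_le_one
    refine ⟨√(∑ γ ∈ s, w γ * L γ ^ 2 + 1), fun x y => ?_⟩
    refine (sq_le_sq₀ (norm_nonneg _) (by positivity)).1 ?_
    have h2 := (abs_le.1 (h x y x y)).2
    have h3 : ∑ γ ∈ s, w γ * ⟪F (act γ x) - F (act γ y), F (act γ x) - F (act γ y)⟫ ≤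
        (∑ γ ∈ s, w γ * L γ ^ 2) * ‖F x - F y‖ ^ 2 := by
      rw [Finset.sum_mul]
      refine Finset.sum_le_sum fun γ _ => ?_
      rw [mul_assoc, ← mul_pow, real_inner_self_eq_norm_sq]
      exact mul_le_mul_of_nonneg_left (pow_le_pow_left₀ (norm_nonneg _) (hL γ x y) 2) (hw γ)
    rw [mul_pow, Real.sq_sqrt hA, ← real_inner_self_eq_norm_sq (Φ x - Φ y), hin]
    nlinarith
  let ι := {p : M × M // p.1 ≠ p.2}
  let σ : ι → H := fun p => ‖F p.1.1 - F p.1.2‖⁻¹ • (Φ p.1.1 - Φ p.1.2)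
  have htb : TotallyBounded (range σ) := by
    refine tb_of_approx σ fun ε hε => ?_
    obtain ⟨s, w, hw, -, h⟩ := J.app (ε ^ 2 / 8) (by positivity)
    let u : ι → s → E := fun p γ => ‖F p.1.1 - F p.1.2‖⁻¹ • (F (act γ p.1.1) - F (act γ p.1.2))
    have hu : ∀ p q, |⟪σ p, σ q⟫ - ∑ γ : s, w γ * ⟪u p γ, u q γ⟫| ≤ ε ^ 2 / 8 := by
      intro p q
      have hp := hpos _ _ p.2
      have hq := hpos _ _ q.2
      have e : ⟪σ p, σ q⟫ - ∑ γ : s, w γ * ⟪u p γ, u q γ⟫ =
          (‖F p.1.1 - F p.1.2‖ * ‖F q.1.1 - F q.1.2‖)⁻¹ * (⟪Φ p.1.1 - Φ p.1.2, Φ q.1.1 - Φ q.1.2⟫ -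
          ∑ γ ∈ s, w γ * ⟪F (act γ p.1.1) - F (act γ p.1.2), F (act γ q.1.1) - F (act γ q.1.2)⟫) := by
        rw [mul_sub, ← Finset.sum_coe_sort s, Finset.mul_sum]
        simp only [σ, u, real_inner_smul_left, real_inner_smul_right, mul_inv]
        congr 1
        · ring
        · exact Finset.sum_congr rfl fun γ _ => by ring
      rw [e, abs_mul, abs_of_pos (inv_pos.2 (mul_pos hp hq)), inv_mul_le_iff₀ (mul_pos hp hq), hin]
      exact (h _ _ _ _).trans_eq (by ring)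
    set W : ℝ := ∑ γ : s, w γ with hW
    have hW0 : 0 ≤ W := Finset.sum_nonneg fun γ _ => hw γ
    refine ⟨s → E, inferInstance, u, ?_, ε / 2 / (W + 1), by positivity, fun p q hpq => ?_⟩
    · refine (isCompact_closedBall (0 : s → E) (∑ γ : s, |L γ|)).totallyBounded.subset ?_
      rintro _ ⟨p, rfl⟩
      rw [mem_closedBall_zero_iff]
      refine (pi_norm_le_iff_of_nonneg (Finset.sum_nonneg fun _ _ => abs_nonneg _)).2 fun γ => ?_
      refine le_trans ?_ (Finset.single_le_sum (f := fun γ : s => |L γ|) (fun _ _ => abs_nonneg _)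
        (Finset.mem_univ γ))
      rw [norm_smul, norm_inv, norm_norm, inv_mul_le_iff₀ (hpos _ _ p.2), mul_comm]
      exact (hL _ _ _).trans (mul_le_mul_of_nonneg_right (le_abs_self _) (norm_nonneg _))
    · have e : ‖σ p - σ q‖ ^ 2 ≤ ∑ γ : s, w γ * ‖u p γ - u q γ‖ ^ 2 + ε ^ 2 / 2 := by
        simp only [← real_inner_self_eq_norm_sq, inner_sub_left, inner_sub_right, mul_sub,
          Finset.sum_sub_distrib]
        linarith [abs_le.1 (hu p p), abs_le.1 (hu p q), abs_le.1 (hu q p), abs_le.1 (hu q q)]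
      have e2 : ∑ γ : s, w γ * ‖u p γ - u q γ‖ ^ 2 ≤ W * (ε / 2 / (W + 1)) ^ 2 := by
        rw [hW, Finset.sum_mul]
        refine Finset.sum_le_sum fun γ _ => mul_le_mul_of_nonneg_left
          (pow_le_pow_left₀ (norm_nonneg _) ?_ 2) (hw γ)
        rw [← dist_eq_norm]
        exact (dist_le_pi_dist _ _ γ).trans hpq.le
      have e3 : W * (ε / 2 / (W + 1)) ^ 2 ≤ ε ^ 2 / 4 := by
        rw [div_pow, mul_div_assoc', div_le_iff₀ (by positivity)]
        nlinarith [mul_nonneg (sq_nonneg ε) (sq_nonneg W), mul_nonneg (sq_nonneg ε) hW0]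
      rw [dist_eq_norm]
      refine lt_of_pow_lt_pow_left₀ 2 hε.le ?_
      nlinarith [pow_pos hε 2]
  have hK : IsCompact (closure (range σ)) := htb.closure.isCompact_of_isClosed isClosed_closure
  have h0 : ∀ v ∈ closure (range σ), c ≤ ‖v‖ ^ 2 := by
    refine fun v hv => closure_minimal (t := {v : H | c ≤ ‖v‖ ^ 2}) ?_
      (isClosed_le continuous_const (by fun_prop)) hv
    rintro _ ⟨p, rfl⟩
    have hp := hpos _ _ p.2
    simp only [σ, mem_ofPred_eq, norm_smul, norm_inv, norm_norm, mul_pow, inv_pow]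
    rw [le_inv_mul_iff₀ (by positivity), mul_comm]
    exact hlo _ _
  have hK' : IsCompact ((fun v : H => ‖v‖⁻¹ • v) '' closure (range σ)) := by
    refine hK.image_of_continuousOn ((continuous_norm.continuousOn.inv₀ fun v hv h => ?_).smul
      continuousOn_id)
    have := h0 v hv
    rw [h] at this
    nlinarith
  obtain ⟨N, ρ, Ψ, a1, a2, a3, a4, a5⟩ := exists_embedding act π Φ hπ hinj
    (hK'.totallyBounded.subset (by
      rintro _ ⟨x, y, hxy, rfl⟩
      refine ⟨σ ⟨(x, y), hxy⟩, subset_closure ⟨_, rfl⟩, ?_⟩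
      have hp := (hpos _ _ hxy).ne'
      simp only [σ, norm_smul, norm_inv, norm_norm, smul_smul, mul_inv, inv_inv]
      congr 1
      field_simp))
  exact ⟨N, ρ, Ψ, C, a1, a2, fun x y => (a3 x y).trans (hC x y), a4, a5⟩

end Pool.Agent.P.MP_d483fb_an.Z.SR
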