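import Pool.Agent.P.MP_d483fb_an.Z.SR.RealForm

/-!
The last step: a compact Lie algebra of matrices whose complexification maps onto a simple ideal
of the complexified Lie algebra of `G` has orbits of Hausdorff dimension at least `d(G)`.
-/

open Set Filter Topology NormedSpace Module
open scoped Matrix Matrix.Norms.Operator TensorProduct

set_option linter.unusedSectionVars false

attribute [local instance 100] LieRing.ofAssociativeRing

noncomputable section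

namespace Pool.Agent.P.MP_d483fb_an.Z.SR

theorem isKilling_baseChange (L : Type) [LieRing L] [LieAlgebra ℝ L] [Module.Finite ℝ L]
    [LieAlgebra.IsKilling ℝ L] : LieAlgebra.IsKilling ℂ (ℂ ⊗[ℝ] L) where
  killingCompl_top_eq_bot := by
    refine eq_bot_iff.2 fun z hz => ?_
    obtain ⟨A, A', rfl⟩ := exists_re_im z
    have h : ∀ Y, killingForm ℝ L Y A = 0 ∧ killingForm ℝ L Y A' = 0 := by
      intro Y
      have h1 := (LieIdeal.mem_killingCompl ℂ _ ⊤).1 hz ((1 : ℂ) ⊗ₜ[ℝ] Y) (LieSubmodule.mem_top _)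
      rw [killingForm, LieModule.traceForm_baseChange, map_add, map_smul, LinearMap.BilinForm.baseChange_tmul,
        LinearMap.BilinForm.baseChange_tmul] at h1
      simpa [Complex.ext_iff] using h1
    have h0 : ∀ X, (∀ Y, killingForm ℝ L Y X = 0) → X = 0 := fun X hX =>
      (LieAlgebra.IsKilling.killingForm_nondegenerate ℝ L).2 X hX
    rw [h0 A fun Y => (h Y).1, h0 A' fun Y => (h Y).2]
    simp

variable {G : Type} [Group G] [TopologicalSpace G] {n m N : ℕ}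

theorem isKilling_cx (D : HigherRank G n) :
    LieAlgebra.IsKilling ℂ (ℂ ⊗[ℝ] lieAlg (Set.range D.ρ)) :=
  have := D.ss
  isKilling_baseChange _

theorem isSimple_atom (D : HigherRank G n) (I : LieIdeal ℂ (ℂ ⊗[ℝ] lieAlg (Set.range D.ρ)))
    (hI : IsAtom I) : LieAlgebra.IsSimple ℂ I :=
  have := isKilling_cx D
  LieAlgebra.IsSemisimple.isSimple_of_isAtom I hI

/-- The orbit of a vector has Hausdorff dimension at least the rank of the orbit map. -/
theorem rank_le_dimH {V : Type} [AddCommGroup V] [Module ℝ V] [Module.Finite ℝ V]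
    (c : V →ₗ[ℝ] Mat N) (y : Fin N → ℝ) {Y : Set (Fin N → ℝ)} (h : ∀ X, exp (c X) *ᵥ y ∈ Y) :
    (finrank ℝ (LinearMap.range ((evL y : Mat N →ₗ[ℝ] Fin N → ℝ) ∘ₗ c)) : ENNReal) ≤ dimH Y := by
  set R := LinearMap.range ((evL y : Mat N →ₗ[ℝ] Fin N → ℝ) ∘ₗ c) with hR
  obtain ⟨P, hP⟩ := R.subtype.exists_leftInverse_of_injective R.ker_subtype
  let e := (Module.finBasis ℝ V).equivFun
  let c' : (Fin (finrank ℝ V) → ℝ) →L[ℝ] Mat N :=
    LinearMap.toContinuousLinearMap (c ∘ₗ e.symm.toLinearMap)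
  let P' : (Fin N → ℝ) →L[ℝ] R := LinearMap.toContinuousLinearMap P
  have h0 : HasStrictFDerivAt (exp : Mat N → Mat N) (1 : Mat N →L[ℝ] Mat N) (c' 0) := by
    rw [map_zero]
    exact hasStrictFDerivAt_exp_zero (𝕂 := ℝ)
  have h1 := (P'.comp (evL y)).hasStrictFDerivAt.comp 0 (h0.comp 0 c'.hasStrictFDerivAt)
  have h2 := h1.map_nhds_eq_of_surj (by
    refine eq_top_iff.2 ?_
    rintro ⟨_, X, rfl⟩ -
    refine ⟨e X, ?_⟩
    have := LinearMap.congr_fun hP ⟨_, X, rfl⟩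
    simpa [c', P'] using this)
  have h3 : P' '' Y ∈ 𝓝 ((P'.comp (evL y)) (exp (c' 0))) := by
    rw [← h2, mem_map]
    exact Eventually.of_forall fun v => ⟨_, h (e.symm v), rfl⟩
  rw [← Real.dimH_of_mem_nhds h3]
  exact P'.lipschitz.dimH_image_le Y

theorem cpt_of_skew (k : LieSubalgebra ℝ (Mat N)) (hk : ∀ X ∈ k, Xᵀ = -X) :
    ∃ B : LinearMap.BilinForm ℝ k, Cpt B := by
  let B : LinearMap.BilinForm ℝ k := LinearMap.mk₂ ℝ (fun X Y => (X.1 * Y.1ᵀ).trace)
    (fun X X' Y => by simp [add_mul]) (fun c X Y => by simp)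
    (fun X Y Y' => by simp [mul_add]) (fun c X Y => by simp)
  have hB : ∀ X Y : k, B X Y = (X.1 * Y.1ᵀ).trace := fun _ _ => rfl
  refine ⟨B, fun X Y => ?_, fun X => ?_, fun X h => ?_, fun X Y Z => ?_⟩
  · rw [hB, hB, ← Matrix.trace_transpose, Matrix.transpose_mul, Matrix.transpose_transpose]
  · rw [hB]
    refine Finset.sum_nonneg fun i _ => ?_
    rw [Matrix.diag_apply, Matrix.mul_apply]
    exact Finset.sum_nonneg fun j _ => mul_self_nonneg _
  · exact Subtype.ext (Matrix.trace_mul_conjTranspose_self_eq_zero_iff.1 h)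
  · rw [hB, hB, hk _ Z.2, hk _ (⁅X, Z⁆ : k).2]
    simp only [LieSubalgebra.coe_bracket, LieRing.of_associative_ring_bracket, mul_neg, sub_mul,
      mul_sub, Matrix.trace_neg, Matrix.trace_sub, neg_neg, mul_assoc]
    rw [Matrix.trace_mul_comm X.1 (Y.1 * Z.1), mul_assoc]
    ring

/-- The last step of the argument. -/
theorem end2 (D : HigherRank G n) (hD : D.ltD m) (k : LieSubalgebra ℝ (Mat N))
    (hk : ∀ X ∈ k, Xᵀ = -X) (I : LieIdeal ℂ (ℂ ⊗[ℝ] lieAlg (Set.range D.ρ))) (hI : IsAtom I)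
    (φ : (ℂ ⊗[ℝ] k) →ₗ⁅ℂ⁆ I) (hφ : Function.Surjective φ) {Y : Set (Fin N → ℝ)}
    (hY : ∀ X ∈ k, ∀ y ∈ Y, exp X *ᵥ y ∈ Y) (hsp : Submodule.span ℝ Y = ⊤) :
    (m : ENNReal) < dimH Y := by
  have := isSimple_atom D I hI
  obtain ⟨B, hB⟩ := cpt_of_skew k hk
  obtain ⟨k1, hs, ⟨e⟩⟩ := exists_ideal φ hB hφ
  have hB1 : Cpt (L := k1) (B.compl₁₂ k1.toSubmodule.subtype k1.toSubmodule.subtype) :=
    ⟨fun X Y => hB.symm X Y, fun X => hB.nonneg X, fun X h => Subtype.ext (hB.def' X h),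
      fun X Y Z => hB.inv X Y Z⟩
  obtain ⟨b, hb⟩ := exists_skew_basis hB1
  have key : ∀ h : Submodule ℝ k1, (∀ X ∈ h, ∀ Y ∈ h, ⁅X, Y⁆ ∈ h) → h ≠ ⊥ → h ≠ ⊤ →
      m < finrank ℝ k1 - finrank ℝ h := by
    intro h hh h0 h1
    refine lt_of_ltD b D hD hb I hI e h hh ?_
    by_contra hn
    push Not at hn
    let J : LieIdeal ℝ k1 := { h with lie_mem := fun {X Y} hY => hn X Y hY }
    rcases hs.eq_bot_or_eq_top J with hJ | hJ
    · exact h0 (congrArg LieSubmodule.toSubmodule hJ)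
    · exact h1 (congrArg LieSubmodule.toSubmodule hJ)
  obtain ⟨X0, X1, hX⟩ : ∃ X0 X1 : k1, ⁅X0, X1⁆ ≠ 0 := by
    by_contra hn
    push Not at hn
    exact hs.non_abelian ⟨hn⟩
  have hX0 : X0 ≠ 0 := fun h => hX (by rw [h, zero_lie])
  let c : k1 →ₗ[ℝ] Mat N := k.toSubmodule.subtype ∘ₗ k1.toSubmodule.subtype
  have hc : ∀ X Z : k1, c ⁅X, Z⁆ = c X * c Z - c Z * c X := fun _ _ => rfl
  obtain ⟨y, hy, hy0⟩ : ∃ y ∈ Y, c X0 *ᵥ y ≠ 0 := by
    by_contra hn
    push Not at hn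
    have h1 : Matrix.toLin' (c X0) = 0 := LinearMap.ext_on hsp hn
    exact hX0 (Subtype.ext (Subtype.ext (Matrix.toLin'.map_eq_zero_iff.1 h1)))
  let T : k1 →ₗ[ℝ] Fin N → ℝ := (evL y : Mat N →ₗ[ℝ] Fin N → ℝ) ∘ₗ c
  have hT : ∀ X, T X = c X *ᵥ y := fun _ => rfl
  have h2 : m < finrank ℝ k1 - finrank ℝ (LinearMap.ker T) := by
    by_cases h0 : LinearMap.ker T = ⊥
    · refine (key (Submodule.span ℝ {X0}) ?_ (by simpa using hX0) fun ht => hX ?_).trans_le
        (Nat.sub_le_sub_left (Submodule.finrank_mono (h0 ▸ bot_le)) _)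
      · intro X hX Z hZ
        obtain ⟨s, rfl⟩ := Submodule.mem_span_singleton.1 hX
        obtain ⟨t, rfl⟩ := Submodule.mem_span_singleton.1 hZ
        simp
      · obtain ⟨s, rfl⟩ := Submodule.mem_span_singleton.1 (ht ▸ Submodule.mem_top (x := X1))
        simp
    · refine key _ (fun X hX Z hZ => ?_) h0 fun ht => hy0 ?_
      · rw [LinearMap.mem_ker, hT] at hX hZ ⊢
        rw [hc, Matrix.sub_mulVec, ← Matrix.mulVec_mulVec, ← Matrix.mulVec_mulVec, hX, hZ]
        simp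
      · exact (show X0 ∈ LinearMap.ker T from ht ▸ Submodule.mem_top)
  have h3 := T.finrank_range_add_finrank_ker
  refine lt_of_lt_of_le ?_ (rank_le_dimH c y fun X => hY _ X.1.2 y hy)
  exact_mod_cast (show m < finrank ℝ (LinearMap.range T) by omega)

end Pool.Agent.P.MP_d483fb_an.Z.SR
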