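import Mathlib

open scoped Cardinal
open Set

set_option linter.unusedSectionVars false

noncomputable section

namespace Pool.Agent.P.MP_d483fb_an.Z.SR

theorem exists_ringEquiv_ext {R K L : Type} [CommRing R] [IsDomain R] [Countable R] [Field K]
    [IsAlgClosed K] [Field L] [IsAlgClosed L] (hK : ℵ₀ < #K) (hKL : #K = #L) (i : R →+* K)
    (j : R →+* L) (hi : Function.Injective i) (hj : Function.Injective j) :
    ∃ σ : K ≃+* L, ∀ r, σ (i r) = j r := by
  let := i.toAlgebra
  let := j.toAlgebra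
  have : FaithfulSMul R K := (faithfulSMul_iff_algebraMap_injective R K).mpr hi
  have : FaithfulSMul R L := (faithfulSMul_iff_algebraMap_injective R L).mpr hj
  obtain ⟨s, hs⟩ := exists_isTranscendenceBasis R K
  obtain ⟨t, ht⟩ := exists_isTranscendenceBasis R L
  have hR : #R ≤ ℵ₀ := Cardinal.mk_le_aleph0
  have e1 := IsAlgClosed.cardinal_eq_cardinal_transcendence_basis_of_aleph0_lt' _ hs hR hK
  have e2 := IsAlgClosed.cardinal_eq_cardinal_transcendence_basis_of_aleph0_lt' _ ht hR
    (hKL ▸ hK)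
  obtain ⟨e⟩ : Nonempty (s ≃ t) := Cardinal.eq.mp (e1.symm.trans (hKL.trans e2))
  let := IsAlgClosed.isAlgClosure_of_transcendence_basis _ hs
  let := IsAlgClosed.isAlgClosure_of_transcendence_basis _ ht
  let f : Algebra.adjoin R (range ((↑) : s → K)) ≃ₐ[R] Algebra.adjoin R (range ((↑) : t → L)) :=
    hs.1.aevalEquiv.symm.trans ((MvPolynomial.renameEquiv R e).trans ht.1.aevalEquiv)
  refine ⟨IsAlgClosure.equivOfEquiv K L f.toRingEquiv, fun r => ?_⟩
  have h1 := IsAlgClosure.equivOfEquiv_algebraMap K L f.toRingEquiv (algebraMap R _ r)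
  have h2 : f.toRingEquiv (algebraMap R _ r) = algebraMap R _ r := f.commutes r
  rw [h2, ← IsScalarTower.algebraMap_apply, ← IsScalarTower.algebraMap_apply] at h1
  exact h1

theorem ext_mk_padic (p : ℕ) [Fact p.Prime] : #ℚ_[p] = Cardinal.continuum := by
  refine le_antisymm ?_ (continuum_le_cardinal_of_nontriviallyNormedField ℚ_[p])
  have h1 : #ℚ_[p] ≤ #(PadicSeq p) :=
    Cardinal.mk_le_of_surjective (f := CauSeq.Completion.mk) Quot.mk_surjective
  have h2 : #(PadicSeq p) ≤ #(ℕ → ℚ) := Cardinal.mk_subtype_le _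
  refine h1.trans (h2.trans ?_)
  simp

theorem mk_padicAlgCl (p : ℕ) [Fact p.Prime] : #(PadicAlgCl p) = #ℂ := by
  rw [Cardinal.mk_complex]
  refine le_antisymm ?_ ?_
  · refine (Algebra.IsAlgebraic.cardinalMk_le_max ℚ_[p] (PadicAlgCl p)).trans ?_
    rw [ext_mk_padic]
    exact max_le le_rfl Cardinal.aleph0_le_continuum
  · rw [← ext_mk_padic p]
    exact Cardinal.mk_le_of_injective (algebraMap ℚ_[p] (PadicAlgCl p)).injective

end Pool.Agent.P.MP_d483fb_an.Z.SR
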