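import Pool.Agent.P.MP_d483fb_an.Z.Stmt

/-!
A compact set of unit vectors in a Hilbert space is detected by a finite dimensional subspace that
is invariant under every linear isometry preserving the set.
-/

open MeasureTheory Set Filter Topology
open scoped RealInnerProductSpace Matrix

set_option linter.unusedSectionVars false

noncomputable section

namespace Pool.Agent.P.MP_d483fb_an.Z.SR

/-- The monoid of isometric self maps. -/
def IsoM (X : Type) [MetricSpace X] : Type := {f : X → X // Isometry f}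

namespace IsoM

variable {X : Type} [MetricSpace X]

instance : Monoid (IsoM X) where
  mul f g := ⟨f.1 ∘ g.1, f.2.comp g.2⟩
  one := ⟨id, isometry_id⟩
  mul_assoc _ _ _ := rfl
  one_mul _ := rfl
  mul_one _ := rfl

instance : TopologicalSpace (IsoM X) := inferInstanceAs (TopologicalSpace {f : X → X // Isometry f})

instance : T2Space (IsoM X) := inferInstanceAs (T2Space {f : X → X // Isometry f})

theorem mul_apply (f g : IsoM X) (x : X) : (f * g).1 x = f.1 (g.1 x) := rfl

theorem one_apply (x : X) : (1 : IsoM X).1 x = x := rfl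

theorem continuous_ev (x : X) : Continuous fun f : IsoM X => f.1 x :=
  (continuous_apply x).comp continuous_subtype_val

theorem continuous_ev₂ : Continuous fun p : IsoM X × X => p.1.1 p.2 := by
  exact continuous_prod_of_continuous_lipschitzWith' _ 1 (fun f => f.2.lipschitz)
    fun x => continuous_ev x

instance : ContinuousMul (IsoM X) where
  continuous_mul := by
    refine Continuous.subtype_mk (continuous_pi fun x => ?_) _
    exact continuous_ev₂.comp (continuous_fst.prodMk ((continuous_ev x).comp continuous_snd))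

instance [CompactSpace X] : CompactSpace (IsoM X) := by
  have h : IsClosed {f : X → X | Isometry f} := by
    have : {f : X → X | Isometry f} = ⋂ x, ⋂ y, {f : X → X | dist (f x) (f y) = dist x y} := by
      ext f
      simp [isometry_iff_dist_eq]
    rw [this]
    exact isClosed_iInter fun x => isClosed_iInter fun y => isClosed_eq (by fun_prop) continuous_const
  exact isCompact_iff_compactSpace.1 h.isCompact

end IsoM

variable {H : Type} [NormedAddCommGroup H] [InnerProductSpace ℝ H] [CompleteSpace H]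

/-- The rank one operator of a vector. -/
def rk1 (s : H) : H →L[ℝ] H := (innerSL ℝ s).smulRight s

theorem rk1_apply (s v : H) : rk1 s v = ⟪s, v⟫ • s := rfl

theorem continuous_rk1 : Continuous (rk1 : H → H →L[ℝ] H) := by
  have : (rk1 : H → H →L[ℝ] H) =
      fun s => ContinuousLinearMap.smulRightL ℝ H H (innerSL ℝ s) s := rfl
  rw [this]
  exact (((ContinuousLinearMap.smulRightL ℝ H H).continuous.comp (innerSL ℝ).continuous).clm_apply
    continuous_id)

theorem compact_rk1 (s : H) : IsCompactOperator (rk1 s) := by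
  have : (rk1 s : H → H) = (ContinuousLinearMap.toSpanSingleton ℝ s) ∘ (innerSL ℝ s) := rfl
  rw [this]
  exact (isCompactOperator_of_locallyCompactSpace_dom (innerSL ℝ s)).clm_comp _

theorem exists_op {X : Set H} (hX : IsCompact X) (h1 : ∀ s ∈ X, ‖s‖ = 1) :
    ∃ T : H →L[ℝ] H, IsCompactOperator T ∧ (T : H →ₗ[ℝ] H).IsSymmetric ∧ (∀ s ∈ X, T s ≠ 0) ∧
      ∀ U : H ≃ₗᵢ[ℝ] H, (∀ s ∈ X, U s ∈ X) → (∀ s ∈ X, U.symm s ∈ X) →
        ∀ v, T (U v) = U (T v) := by
  classical
  have : CompactSpace X := isCompact_iff_compactSpace.1 hX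
  obtain ⟨F, -, hF, hcov⟩ := finite_cover_balls_of_compact (isCompact_univ (X := X)) one_pos
  let K := (IsoM X)ˣ
  borelize K
  let μ : Measure K := Measure.haarMeasure ⊤
  have : IsProbabilityMeasure μ := ⟨by
    have := Measure.haarMeasure_self (G := K) (K₀ := ⊤)
    simpa using this⟩
  let f : K → H →L[ℝ] H := fun k => ∑ s ∈ hF.toFinset, rk1 ((k : IsoM X).1 s : H)
  have hf : Continuous f := by
    refine continuous_finsetSum _ fun s _ => continuous_rk1.comp ?_
    exact continuous_subtype_val.comp ((IsoM.continuous_ev s).comp Units.continuous_val)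
  have hi : Integrable f μ := hf.integrable_of_hasCompactSupport (HasCompactSupport.of_compactSpace f)
  have happ : ∀ v, (∫ k, f k ∂μ) v = ∫ k, f k v ∂μ := fun v => ContinuousLinearMap.integral_apply hi v
  have hiv : ∀ v, Integrable (fun k => f k v) μ := fun v => hi.apply_continuousLinearMap v
  have hin : ∀ v w, ⟪w, (∫ k, f k ∂μ) v⟫ = ∫ k, ⟪w, f k v⟫ ∂μ := fun v w => by
    rw [happ, integral_inner (hiv v)]
  have hfk : ∀ k v w, ⟪w, f k v⟫ =
      ∑ s ∈ hF.toFinset, ⟪((k : IsoM X).1 s : H), v⟫ * ⟪w, ((k : IsoM X).1 s : H)⟫ := by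
    intro k v w
    simp only [f, _root_.sum_apply, rk1_apply, inner_sum, inner_smul_right]
  refine ⟨∫ k, f k ∂μ, ?_, ?_, ?_, ?_⟩
  · have hc : Convex ℝ ((compactOperator (RingHom.id ℝ) H H : Submodule ℝ (H →L[ℝ] H)) :
        Set (H →L[ℝ] H)) := Submodule.convex _
    refine hc.integral_mem isClosed_setOfPred_isCompactOperator (Eventually.of_forall fun k => ?_) hi
    exact Submodule.sum_mem _ fun s _ => compact_rk1 _
  · intro v w
    simp only [ContinuousLinearMap.coe_coe]
    rw [real_inner_comm, hin, hin]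
    refine integral_congr_ae (Eventually.of_forall fun k => ?_)
    simp only [hfk]
    refine Finset.sum_congr rfl fun s _ => ?_
    rw [mul_comm, real_inner_comm w, real_inner_comm v]
  · intro s hs h0
    have h2 : (1 / 4 : ℝ) ≤ ∫ k, ⟪s, f k s⟫ ∂μ := by
      have : (1 / 4 : ℝ) = ∫ _ : K, (1 / 4 : ℝ) ∂μ := by simp
      rw [this]
      refine integral_mono (integrable_const _) ((hiv s).const_inner s) fun k => ?_
      obtain ⟨t, ht, hd⟩ := mem_iUnion₂.1 (hcov (mem_univ (((k⁻¹ : K) : IsoM X).1 ⟨s, hs⟩)))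
      have e : (k : IsoM X).1 (((k⁻¹ : K) : IsoM X).1 ⟨s, hs⟩) = ⟨s, hs⟩ := by
        rw [← IsoM.mul_apply, Units.mul_inv, IsoM.one_apply]
      have hd' : ‖s - ((k : IsoM X).1 t : H)‖ < 1 := by
        rw [Metric.mem_ball, ← (k : IsoM X).2.dist_eq, e, Subtype.dist_eq, dist_eq_norm] at hd
        exact hd
      have hsq := norm_sub_sq_real s ((k : IsoM X).1 t : H)
      rw [h1 s hs, h1 _ ((k : IsoM X).1 t).2] at hsq
      have hge : 1 / 2 ≤ ⟪s, ((k : IsoM X).1 t : H)⟫ := by
        nlinarith [norm_nonneg (s - ((k : IsoM X).1 t : H))]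
      simp only [hfk]
      refine le_trans ?_ (Finset.single_le_sum (f := fun u : X =>
        ⟪((k : IsoM X).1 u : H), s⟫ * ⟪s, ((k : IsoM X).1 u : H)⟫) (fun u _ => ?_)
        (hF.mem_toFinset.2 ht))
      · simp only [real_inner_comm s]
        nlinarith
      · rw [real_inner_comm s]
        exact mul_self_nonneg _
    rw [← hin, h0, inner_zero_right] at h2
    norm_num at h2
  · intro U hU hU' v
    let u : K := ⟨⟨fun s => ⟨U s, hU s s.2⟩, fun a b => U.isometry a b⟩,
      ⟨fun s => ⟨U.symm s, hU' s s.2⟩, fun a b => U.symm.isometry a b⟩,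
      Subtype.ext (funext fun s => Subtype.ext (U.apply_symm_apply s)),
      Subtype.ext (funext fun s => Subtype.ext (U.symm_apply_apply s))⟩
    refine ext_inner_left ℝ fun w => ?_
    rw [← U.apply_symm_apply w, U.inner_map_map, hin, hin,
      ← integral_mul_left_eq_self (fun k => ⟪U (U.symm w), f k (U v)⟫) u]
    refine integral_congr_ae (Eventually.of_forall fun k => ?_)
    simp only [hfk]
    refine Finset.sum_congr rfl fun s _ => ?_
    have : (((u * k : K) : IsoM X).1 s : H) = U ((k : IsoM X).1 s : H) := rfl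
    rw [this, U.inner_map_map, U.inner_map_map]

theorem exists_finDim {X : Set H} (hX : IsCompact X) (h1 : ∀ s ∈ X, ‖s‖ = 1) :
    ∃ E : Submodule ℝ H, FiniteDimensional ℝ E ∧ (∀ s ∈ X, s ∉ Eᗮ) ∧
      ∀ U : H ≃ₗᵢ[ℝ] H, (∀ s ∈ X, U s ∈ X) → (∀ s ∈ X, U.symm s ∈ X) → ∀ v ∈ E, U v ∈ E := by
  obtain ⟨T, hc, hs, h0, hU⟩ := exists_op hX h1
  let O : {c : ℝ // c ≠ 0} → Set H := fun c =>
    ((Module.End.eigenspace (T : Module.End ℝ H) c.1)ᗮ : Set H)ᶜ
  have hO : ∀ c, IsOpen (O c) := fun c => (Submodule.isClosed_orthogonal _).isOpen_compl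
  have hcov : X ⊆ ⋃ c, O c := by
    intro s hsX
    by_contra hn
    simp only [mem_iUnion, not_exists, O, mem_compl_iff, not_not, SetLike.mem_coe] at hn
    refine h0 s hsX ?_
    have hb := ContinuousLinearMap.orthogonalComplement_iSup_eigenspaces_eq_bot hc hs
    rw [← Submodule.mem_bot ℝ, ← hb, ← Submodule.iInf_orthogonal, Submodule.mem_iInf]
    intro c v hv
    have e : ⟪v, T s⟫ = c * ⟪v, s⟫ := by
      have := hs v s
      simp only [ContinuousLinearMap.coe_coe] at this
      have hv' : T v = c • v := Module.End.mem_eigenspace_iff.1 hv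
      rw [← this, hv', real_inner_smul_left]
    rw [e]
    by_cases hc0 : c = 0
    · rw [hc0, zero_mul]
    · rw [hn ⟨c, hc0⟩ v hv, mul_zero]
  obtain ⟨F, hF⟩ := hX.elim_finite_subcover O hO hcov
  have : ∀ c : {c : ℝ // c ≠ 0},
      FiniteDimensional ℝ (Module.End.eigenspace (T : Module.End ℝ H) c.1) := fun c =>
    ContinuousLinearMap.finite_dimensional_eigenspace hc c.1 c.2
  refine ⟨⨆ c ∈ F, Module.End.eigenspace (T : Module.End ℝ H) c.1, ?_, ?_, ?_⟩
  · rw [← Finset.sup_eq_iSup]
    infer_instance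
  · intro s hsX hs'
    obtain ⟨c, hcF, hc'⟩ := mem_iUnion₂.1 (hF hsX)
    exact hc' (Submodule.orthogonal_le (le_iSup₂_of_le c hcF le_rfl) hs')
  · intro U h h' v hv
    have : (⨆ c ∈ F, Module.End.eigenspace (T : Module.End ℝ H) c.1) ≤
        Submodule.comap (U.toLinearEquiv : H →ₗ[ℝ] H)
          (⨆ c ∈ F, Module.End.eigenspace (T : Module.End ℝ H) c.1) := by
      refine iSup₂_le fun c hcF w hw => ?_
      refine (le_iSup₂_of_le c hcF le_rfl : Module.End.eigenspace (T : Module.End ℝ H) c.1 ≤ _) ?_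
      have hw' : T w = c.1 • w := Module.End.mem_eigenspace_iff.1 hw
      refine Module.End.mem_eigenspace_iff.2 ?_
      change T (U w) = c.1 • U w
      rw [hU U h h', hw', map_smul]
    exact this hv

/-- An equivariant injective map to a Hilbert space whose normalised differences form a totally
bounded set projects to an injective equivariant map to a finite dimensional representation. -/
theorem exists_embedding {Γ M : Type} [Group Γ] (act : Γ → M → M) (π : Γ →* (H ≃ₗᵢ[ℝ] H))
    (Φ : M → H) (hΦ : ∀ γ x, Φ (act γ x) = π γ (Φ x)) (inj : Function.Injective Φ)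
    (htb : TotallyBounded {v | ∃ x y, x ≠ y ∧ v = ‖Φ x - Φ y‖⁻¹ • (Φ x - Φ y)}) :
    ∃ (N : ℕ) (ρ : Γ →* Mat N) (Ψ : M → Fin N → ℝ), (∀ γ, ρ γ * (ρ γ)ᵀ = 1) ∧
      Function.Injective Ψ ∧ (∀ x y, ‖Ψ x - Ψ y‖ ≤ ‖Φ x - Φ y‖) ∧
      (∀ γ x, Ψ (act γ x) = ρ γ *ᵥ Ψ x) ∧ Submodule.span ℝ (range Ψ) = ⊤ := by
  set S : Set H := {v | ∃ x y, x ≠ y ∧ v = ‖Φ x - Φ y‖⁻¹ • (Φ x - Φ y)} with hS
  have hc : IsCompact (closure S) := htb.closure.isCompact_of_isClosed isClosed_closure
  have h1 : ∀ s ∈ closure S, ‖s‖ = 1 := by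
    intro s hs
    refine closure_minimal (t := {v : H | ‖v‖ = 1}) ?_ (isClosed_eq continuous_norm continuous_const) hs
    rintro v ⟨x, y, hxy, rfl⟩
    exact norm_smul_inv_norm (𝕜 := ℝ) (sub_ne_zero.2 fun h => hxy (inj h))
  have hinv : ∀ γ, ∀ s ∈ closure S, π γ s ∈ closure S := by
    intro γ s hs
    refine map_mem_closure (π γ).continuous hs ?_
    rintro v ⟨x, y, hxy, rfl⟩
    refine ⟨act γ x, act γ y, fun h => hxy (inj ((π γ).injective ?_)), ?_⟩
    · rw [← hΦ, ← hΦ, h]
    · rw [hΦ, hΦ, ← map_sub, (π γ).norm_map, map_smul]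
  have hsymm : ∀ γ v, (π γ).symm v = π γ⁻¹ v := fun γ v => by rw [map_inv]; rfl
  obtain ⟨E, hE, hdet, hU⟩ := exists_finDim hc h1
  have hEi : ∀ γ, ∀ v ∈ E, π γ v ∈ E := fun γ =>
    hU (π γ) (hinv γ) fun s hs => by rw [hsymm]; exact hinv _ s hs
  have hP : ∀ γ v, E.starProjection (π γ v) = π γ (E.starProjection v) := by
    intro γ v
    refine Submodule.eq_starProjection_of_mem_of_inner_eq_zero
      (hEi γ _ (E.starProjection_apply_mem v)) fun w hw => ?_
    rw [← map_sub, ← (π γ).apply_symm_apply w, (π γ).inner_map_map, hsymm]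
    exact Submodule.starProjection_inner_eq_zero v _ (hEi _ w hw)
  let E' : Submodule ℝ H := Submodule.span ℝ (range fun x => E.starProjection (Φ x))
  have hle : E' ≤ E := Submodule.span_le.2 (by rintro _ ⟨x, rfl⟩; exact E.starProjection_apply_mem _)
  have : FiniteDimensional ℝ E' := Submodule.finiteDimensional_of_le hle
  have hEi' : ∀ γ, ∀ v ∈ E', π γ v ∈ E' := by
    intro γ v hv
    have : E' ≤ Submodule.comap ((π γ).toLinearEquiv : H →ₗ[ℝ] H) E' := by
      refine Submodule.span_le.2 ?_
      rintro _ ⟨x, rfl⟩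
      refine Submodule.subset_span ⟨act γ x, ?_⟩
      change E.starProjection (Φ (act γ x)) = π γ (E.starProjection (Φ x))
      rw [hΦ, hP]
    exact this hv
  let b := stdOrthonormalBasis ℝ E'
  let σ : Γ →* Module.End ℝ E' :=
    { toFun := fun γ => ((π γ).toLinearEquiv : H →ₗ[ℝ] H).restrict (hEi' γ)
      map_one' := by ext v; simp
      map_mul' := by intro γ δ; ext v; simp }
  have hσ : ∀ γ v, ((σ γ v : E') : H) = π γ v := fun _ _ => rfl
  let ρ : Γ →* Mat (Module.finrank ℝ E') :=
    (LinearMap.toMatrixAlgEquiv b.toBasis).toMonoidHom.comp σ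
  have hρ : ∀ γ, ρ γ = LinearMap.toMatrix b.toBasis b.toBasis (σ γ) := fun _ => rfl
  let p : M → E' := fun x => ⟨E.starProjection (Φ x), Submodule.subset_span ⟨x, rfl⟩⟩
  refine ⟨_, ρ, fun x => b.toBasis.repr (p x), fun γ => ?_, fun x y h => ?_, fun x y => ?_,
    fun γ x => ?_, ?_⟩
  · have : (ρ γ)ᵀ = ρ γ⁻¹ := by
      ext i j
      simp only [hρ, Matrix.transpose_apply, LinearMap.toMatrix_apply, b.coe_toBasis,
        b.coe_toBasis_repr_apply, b.repr_apply_apply, Submodule.coe_inner, hσ]
      rw [← hsymm, ← (π γ).inner_map_map (b i), (π γ).apply_symm_apply, real_inner_comm]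
    rw [this, ← map_mul, mul_inv_cancel, map_one]
  · by_contra hxy
    have h2 : p x = p y := b.toBasis.repr.injective (DFunLike.coe_injective h)
    have h3 : E.starProjection (Φ x) = E.starProjection (Φ y) :=
      congrArg (fun v : E' => (v : H)) h2
    refine hdet _ (subset_closure ⟨x, y, hxy, rfl⟩) (Submodule.smul_mem _ _ ?_)
    rw [← Submodule.starProjection_apply_eq_zero_iff, map_sub, h3, sub_self]
  · refine (pi_norm_le_iff_of_nonneg (norm_nonneg _)).2 fun i => ?_
    have e : ((b.toBasis.repr (p x) : _ → ℝ) - b.toBasis.repr (p y)) i = b.repr (p x - p y) i := by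
      simp
    rw [e]
    refine (PiLp.norm_apply_le _ i).trans ?_
    rw [b.repr.norm_map]
    change ‖E.starProjection (Φ x) - E.starProjection (Φ y)‖ ≤ _
    rw [← map_sub]
    exact E.norm_starProjection_apply_le _
  · have : p (act γ x) = σ γ (p x) := Subtype.ext (by
      change E.starProjection (Φ (act γ x)) = π γ (E.starProjection (Φ x))
      rw [hΦ, hP])
    simp only
    rw [this, hρ, LinearMap.toMatrix_mulVec_repr]
  · have e : (range fun x => (b.toBasis.repr (p x) : _ → ℝ)) = b.toBasis.equivFun '' range p := by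
      rw [← range_comp]
      rfl
    have e2 : Submodule.span ℝ (range p) = ⊤ := by
      apply Submodule.map_injective_of_injective E'.injective_subtype
      rw [Submodule.map_span, Submodule.map_subtype_top, ← range_comp]
      rfl
    rw [e, ← LinearEquiv.coe_coe, ← Submodule.map_span, e2, Submodule.map_top, LinearEquiv.range]

end Pool.Agent.P.MP_d483fb_an.Z.SR
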