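import Pool.Agent.P.MP_d483fb_an.Z.SR.Defs

open scoped Topology ENNReal Pointwise
open MeasureTheory Filter Set

set_option linter.unusedSectionVars false

noncomputable section

namespace Pool.Agent.P.MP_d483fb_an.Z.SR

variable {G : Type} [Group G] [TopologicalSpace G] [IsTopologicalGroup G] [LocallyCompactSpace G]
  [T2Space G] [SecondCountableTopology G] [MeasurableSpace G] [BorelSpace G]

theorem steinhaus_cover (S : ℕ → Set G) (hS : ∀ j, MeasurableSet (S j)) (hc : ⋃ j, S j = univ) :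
    ∃ j, {g | ∃ s ∈ S j, ∃ t ∈ S j, g = s⁻¹ * t} ∈ 𝓝 (1 : G) := by
  let μ : Measure G := Measure.haar
  have hpos : ∃ j, 0 < μ (S j)⁻¹ := by
    by_contra h
    simp only [not_exists, not_lt, nonpos_iff_eq_zero] at h
    have h1 : μ (⋃ j, (S j)⁻¹) = 0 := measure_iUnion_null h
    have h2 : ⋃ j, (S j)⁻¹ = univ := by
      rw [eq_univ_iff_forall]
      intro g
      have : g⁻¹ ∈ ⋃ j, S j := hc ▸ mem_univ _
      obtain ⟨j, hj⟩ := mem_iUnion.1 this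
      exact mem_iUnion.2 ⟨j, hj⟩
    rw [h2] at h1
    exact (isOpen_univ.measure_pos μ univ_nonempty).ne' h1
  obtain ⟨j, hj⟩ := hpos
  refine ⟨j, mem_of_superset (Measure.div_mem_nhds_one_of_haar_pos μ _ (hS j).inv hj) ?_⟩
  rintro _ ⟨a, ha, b, hb, rfl⟩
  exact ⟨a⁻¹, ha, b⁻¹, hb, by simp [div_eq_mul_inv]⟩

theorem measurable_koopman_dist {Ω : Type} [MeasurableSpace Ω] (ν : Measure Ω) [SigmaFinite ν]
    (T : G → Ω → Ω) (hm : Measurable fun p : G × Ω => T p.1 p.2)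
    (hp : ∀ g, MeasurePreserving (T g) ν ν) (U : G → Lp ℝ 2 ν → Lp ℝ 2 ν)
    (hU : ∀ g ξ, U g ξ =ᵐ[ν] fun ω => ξ (T g⁻¹ ω)) (ξ η : Lp ℝ 2 ν) :
    Measurable fun g => ‖U g ξ - η‖ := by
  have hξ : Measurable ξ := (Lp.stronglyMeasurable ξ).measurable
  have hη : Measurable η := (Lp.stronglyMeasurable η).measurable
  have h1 : Measurable fun p : G × Ω => T p.1⁻¹ p.2 :=
    hm.comp (measurable_fst.inv.prodMk measurable_snd)
  have h2 : Measurable fun p : G × Ω => ‖ξ (T p.1⁻¹ p.2) - η p.2‖ₑ ^ (2 : ℝ≥0∞).toReal :=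
    ((hξ.comp h1).sub (hη.comp measurable_snd)).enorm.pow_const _
  have h3 : (fun g => ‖U g ξ - η‖) = fun g =>
      ((∫⁻ ω, ‖ξ (T g⁻¹ ω) - η ω‖ₑ ^ (2 : ℝ≥0∞).toReal ∂ν) ^ (1 / (2 : ℝ≥0∞).toReal)).toReal := by
    funext g
    rw [Lp.norm_def, ← eLpNorm_eq_lintegral_rpow_enorm_toReal two_ne_zero ENNReal.ofNat_ne_top]
    congr 1
    refine eLpNorm_congr_ae ?_
    filter_upwards [Lp.coeFn_sub (U g ξ) η, hU g ξ] with ω e1 e2
    rw [e1, Pi.sub_apply, e2]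
  rw [h3]
  exact (h2.lintegral_prod_right'.pow_const _).ennreal_toReal

theorem koopman {Ω : Type} [MeasurableSpace Ω] [MeasurableSpace.CountablyGenerated Ω]
    (ν : Measure Ω) [SigmaFinite ν] (T : G → Ω → Ω) (hm : Measurable fun p : G × Ω => T p.1 p.2)
    (h1 : ∀ ω, T 1 ω = ω) (hmul : ∀ g h ω, T (g * h) ω = T g (T h ω))
    (hp : ∀ g, MeasurePreserving (T g) ν ν) :
    ∃ U : G →* (Lp ℝ 2 ν →L[ℝ] Lp ℝ 2 ν), (∀ g ξ, ‖U g ξ‖ = ‖ξ‖) ∧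
      (∀ ξ, Continuous fun g => U g ξ) ∧ ∀ g ξ, U g ξ =ᵐ[ν] fun ω => ξ (T g⁻¹ ω) := by
  let V : G → Lp ℝ 2 ν →L[ℝ] Lp ℝ 2 ν := fun g =>
    (Lp.compMeasurePreservingₗᵢ ℝ (T g⁻¹) (hp g⁻¹)).toContinuousLinearMap
  have hV : ∀ g ξ, V g ξ =ᵐ[ν] fun ω => ξ (T g⁻¹ ω) := fun g ξ =>
    Lp.coeFn_compMeasurePreserving ξ (hp g⁻¹)
  have hn : ∀ g ξ, ‖V g ξ‖ = ‖ξ‖ := fun g ξ => LinearIsometry.norm_map _ ξ
  have hone : V 1 = 1 := by
    ext1 ξ
    refine Lp.ext ((hV 1 ξ).trans (Eventually.of_forall fun ω => ?_))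
    simp [h1]
  have hm2 : ∀ g h, V (g * h) = V g * V h := by
    intro g h
    ext1 ξ
    refine Lp.ext ?_
    filter_upwards [hV (g * h) ξ, hV g (V h ξ), (hp g⁻¹).quasiMeasurePreserving.ae (hV h ξ)]
      with ω e1 e2 e3
    rw [e1, ContinuousLinearMap.mul_apply, e2, e3, mul_inv_rev, hmul]
  let U : G →* (Lp ℝ 2 ν →L[ℝ] Lp ℝ 2 ν) := ⟨⟨V, hone⟩, hm2⟩
  have hU : ∀ g, U g = V g := fun g => rfl
  refine ⟨U, hn, fun ξ => ?_, hV⟩
  have : Fact ((2 : ℝ≥0∞) ≠ ∞) := ⟨ENNReal.ofNat_ne_top⟩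
  obtain ⟨η, hη⟩ := TopologicalSpace.exists_dense_seq (Lp ℝ 2 ν)
  have hone' : ∀ ε > 0, ∀ᶠ g in 𝓝 (1 : G), ‖U g ξ - ξ‖ < ε := by
    intro ε hε
    obtain ⟨j, hj⟩ := steinhaus_cover (fun j => {g : G | ‖V g ξ - η j‖ < ε / 2})
      (fun j => measurableSet_lt (measurable_koopman_dist ν T hm hp (fun g ξ => V g ξ) hV ξ (η j))
        measurable_const) (by
        rw [eq_univ_iff_forall]
        intro g
        obtain ⟨j, hj⟩ := hη.exists_dist_lt (V g ξ) (half_pos hε)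
        exact mem_iUnion.2 ⟨j, by rwa [dist_eq_norm] at hj⟩)
    filter_upwards [hj]
    rintro _ ⟨s, hs, t, ht, rfl⟩
    have e1 : U s (U (s⁻¹ * t) ξ - ξ) = (V t ξ - η j) - (V s ξ - η j) := by
      rw [map_sub, ← ContinuousLinearMap.mul_apply, ← map_mul, mul_inv_cancel_left, hU, hU]
      abel
    rw [← hn s, ← hU, e1]
    refine (norm_sub_le _ _).trans_lt ?_
    have hs' : ‖V s ξ - η j‖ < ε / 2 := hs
    have ht' : ‖V t ξ - η j‖ < ε / 2 := ht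
    linarith
  rw [continuous_iff_continuousAt]
  intro g₀
  rw [ContinuousAt, Metric.tendsto_nhds]
  intro ε hε
  have ht : Tendsto (fun g => g₀⁻¹ * g) (𝓝 g₀) (𝓝 1) := by
    have := (continuous_const_mul g₀⁻¹).tendsto g₀
    rwa [inv_mul_cancel] at this
  filter_upwards [ht.eventually (hone' ε hε)] with g hg
  have e1 : U g₀ (U (g₀⁻¹ * g) ξ - ξ) = U g ξ - U g₀ ξ := by
    rw [map_sub, ← ContinuousLinearMap.mul_apply, ← map_mul, mul_inv_cancel_left]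
  rw [dist_eq_norm, ← e1, hU g₀, hn]
  exact hg

end Pool.Agent.P.MP_d483fb_an.Z.SR
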