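import Pool.Agent.P.MP_d483fb_an.Z.SR.Ext

open scoped Cardinal
open Set

set_option linter.unusedSectionVars false

noncomputable section

namespace Pool.Agent.P.MP_d483fb_an.Z.SR

open Polynomial

theorem Kron_card : ℵ₀ < #ℂ := by
  rw [Cardinal.mk_complex]
  exact Cardinal.aleph0_lt_continuum

theorem Kron_countable : Countable ℚ[X] :=
  (Polynomial.toFinsuppIsoLinear ℚ).toEquiv.countable_iff.2 <|
    (AddMonoidAlgebra.coeffEquiv (R := ℚ) (M := ℕ)).countable_iff.2 inferInstance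

theorem Kron_alg (z : ℂ) (h1 : ∀ σ : ℂ ≃+* ℂ, ‖σ z‖ = 1) : IsAlgebraic ℚ z := by
  by_contra hz
  have hz' : Transcendental ℚ z := hz
  have h2 : Transcendental ℚ (2 * z) := by
    intro h
    apply hz
    have h3 : IsAlgebraic ℚ ((2 : ℂ)⁻¹) := by
      have := isAlgebraic_algebraMap (R := ℚ) (A := ℂ) (2⁻¹ : ℚ)
      simpa using this
    have h4 := h3.mul h
    rwa [← mul_assoc, inv_mul_cancel₀ two_ne_zero, one_mul] at h4
  have := Kron_countable
  obtain ⟨σ, hσ⟩ := exists_ringEquiv_ext Kron_card rfl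
    ((aeval z : ℚ[X] →ₐ[ℚ] ℂ) : ℚ[X] →+* ℂ) ((aeval (2 * z) : ℚ[X] →ₐ[ℚ] ℂ) : ℚ[X] →+* ℂ)
    (transcendental_iff_injective.1 hz') (transcendental_iff_injective.1 h2)
  have e1 : σ z = 2 * z := by simpa using hσ X
  have e2 := h1 σ
  have e3 : ‖z‖ = 1 := h1 (RingEquiv.refl ℂ)
  rw [e1, norm_mul, e3] at e2
  norm_num at e2

theorem Kron_coeff {L : Type*} [NormedField L] [IsUltrametricDist L] (s : Multiset L)
    (hs : ∀ r ∈ s, ‖r‖ ≤ 1) (n : ℕ) : ‖((s.map fun a => X - C a).prod).coeff n‖ ≤ 1 := by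
  induction s using Multiset.induction_on generalizing n with
  | empty =>
    simp only [Multiset.map_zero, Multiset.prod_zero, coeff_one]
    split_ifs <;> simp
  | cons a s ih =>
    have ih' := ih fun r hr => hs r (Multiset.mem_cons_of_mem hr)
    have ha := hs a (Multiset.mem_cons_self a s)
    have hm : ∀ m, ‖-(a * ((s.map fun a => X - C a).prod).coeff m)‖ ≤ 1 := fun m => by
      rw [norm_neg, norm_mul]
      exact mul_le_one₀ ha (norm_nonneg _) (ih' m)
    rw [Multiset.map_cons, Multiset.prod_cons, sub_mul, coeff_sub, coeff_C_mul, sub_eq_add_neg]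
    refine (IsUltrametricDist.norm_add_le_max _ _).trans (max_le ?_ (hm n))
    cases n with
    | zero => simp
    | succ n => rw [coeff_X_mul]; exact ih' n

theorem Kron_int (q : ℚ) (h : ∀ (p : ℕ) [Fact p.Prime], ‖(q : ℚ_[p])‖ ≤ 1) :
    ∃ m : ℤ, (m : ℚ) = q := by
  by_cases hd : q.den = 1
  · exact ⟨q.num, Rat.coe_int_num_of_den_eq_one hd⟩
  exfalso
  obtain ⟨p, hp, hpd⟩ := Nat.exists_prime_and_dvd hd
  have : Fact p.Prime := ⟨hp⟩
  have h1 := h p
  have h2 : ‖((q.den : ℤ) : ℚ_[p])‖ < 1 :=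
    (Padic.norm_intCast_lt_one_iff).2 (Int.natCast_dvd_natCast.2 hpd)
  have h3 : ((q.num : ℤ) : ℚ_[p]) = (q : ℚ_[p]) * ((q.den : ℤ) : ℚ_[p]) := by
    have := Rat.mul_den_eq_num q
    exact_mod_cast (congrArg (fun t : ℚ => (t : ℚ_[p])) this).symm
  have h4 : ‖((q.num : ℤ) : ℚ_[p])‖ < 1 := by
    rw [h3, norm_mul]
    exact mul_lt_one_of_nonneg_of_lt_one_right h1 (norm_nonneg _) h2
  have h5 : (p : ℤ) ∣ q.num := (Padic.norm_intCast_lt_one_iff).1 h4
  have h6 : p ∣ q.num.natAbs := Int.natCast_dvd.1 h5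
  have h7 := Nat.dvd_gcd h6 hpd
  rw [q.reduced] at h7
  exact hp.one_lt.ne' (Nat.dvd_one.1 h7)

theorem isOfFinOrder_of_norm (z : ℂ) (h1 : ∀ σ : ℂ ≃+* ℂ, ‖σ z‖ = 1)
    (h2 : ∀ (p : ℕ) [Fact p.Prime] (σ : ℂ ≃+* PadicAlgCl p), ‖σ z‖ ≤ 1) : IsOfFinOrder z := by
  have hz : IsIntegral ℚ z := (Kron_alg z h1).isIntegral
  let F := IntermediateField.adjoin ℚ {z}
  have : FiniteDimensional ℚ F := IntermediateField.adjoin.finiteDimensional hz
  have : NumberField F := ⟨⟩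
  have : Countable F := Finsupp.Countable.of_moduleFinite (R := ℚ)
  let x : F := ⟨z, IntermediateField.mem_adjoin_simple_self ℚ z⟩
  have hi : Function.Injective (algebraMap F ℂ) := (algebraMap F ℂ).injective
  have hC : ∀ φ : F →+* ℂ, ‖φ x‖ = 1 := fun φ => by
    obtain ⟨σ, hσ⟩ := exists_ringEquiv_ext Kron_card rfl (algebraMap F ℂ) φ hi φ.injective
    rw [← hσ x]
    exact h1 σ
  have hP : ∀ (p : ℕ) [Fact p.Prime] (φ : F →+* PadicAlgCl p), ‖φ x‖ ≤ 1 := fun p _ φ => by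
    obtain ⟨σ, hσ⟩ := exists_ringEquiv_ext Kron_card (mk_padicAlgCl p).symm (algebraMap F ℂ) φ hi
      φ.injective
    rw [← hσ x]
    exact h2 p σ
  have hxq : IsIntegral ℚ x := Algebra.IsIntegral.isIntegral x
  have hmon := minpoly.monic hxq
  have hco : ∀ n, ∃ m : ℤ, (m : ℚ) = (minpoly ℚ x).coeff n := fun n => by
    refine Kron_int _ fun p _ => ?_
    have hs := (IsAlgClosed.splits ((minpoly ℚ x).map (algebraMap ℚ (PadicAlgCl p)))
      ).eq_prod_roots_of_monic (hmon.map _)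
    have hr := Kron_coeff ((minpoly ℚ x).map (algebraMap ℚ (PadicAlgCl p))).roots (fun r hr => by
      have h3 : r ∈ (minpoly ℚ x).rootSet (PadicAlgCl p) := by
        rw [mem_rootSet_of_ne hmon.ne_zero, aeval_def, eval₂_eq_eval_map]
        exact (mem_roots (hmon.map _).ne_zero).1 hr
      rw [← NumberField.Embeddings.range_eval_eq_rootSet_minpoly] at h3
      obtain ⟨φ, rfl⟩ := h3
      exact hP p φ) n
    rw [← hs, coeff_map] at hr
    rw [← PadicAlgCl.norm_extends]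
    have e : algebraMap ℚ_[p] (PadicAlgCl p) (((minpoly ℚ x).coeff n : ℚ) : ℚ_[p]) =
        algebraMap ℚ (PadicAlgCl p) ((minpoly ℚ x).coeff n) := by
      rw [map_ratCast, eq_ratCast]
    rw [← e] at hr
    exact hr
  have hl : minpoly ℚ x ∈ lifts (algebraMap ℤ ℚ) := by
    rw [lifts_iff_coeff_lifts]
    exact fun n => hco n
  obtain ⟨q, hq, -, hqm⟩ := lifts_and_degree_eq_and_monic hl hmon
  have hxi : IsIntegral ℤ x := by
    refine ⟨q, hqm, ?_⟩
    have := minpoly.aeval ℚ x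
    rw [← hq, aeval_map_algebraMap] at this
    exact this
  obtain ⟨n, hn, h⟩ := NumberField.Embeddings.pow_eq_one_of_norm_eq_one F ℂ hxi hC
  refine isOfFinOrder_iff_pow_eq_one.2 ⟨n, hn, ?_⟩
  have := congrArg (algebraMap F ℂ) h
  rw [map_pow, map_one] at this
  exact this

end Pool.Agent.P.MP_d483fb_an.Z.SR
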