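import Pool.Agent.P.MP_d483fb_an.Z.SR.Pos

open scoped Topology ENNReal
open MeasureTheory Filter Set

set_option linter.unusedSectionVars false

noncomputable section

namespace Pool.Agent.P.MP_d483fb_an.Z.SR

variable {G : Type} [Group G] [TopologicalSpace G] [IsTopologicalGroup G] [LocallyCompactSpace G]
  [T2Space G] [SecondCountableTopology G] [MeasurableSpace G] [BorelSpace G]
  {Γ : Subgroup G} [Countable Γ] {X : Type} [MeasurableSpace X] [MulAction G X]
  [MeasurableSMul₂ G X]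
  [MeasurableSpace.CountablyGenerated X]
  {S : Sec Γ X} {A : Type} [NormedAddCommGroup A] {a : A → G}

theorem Lam_norm_le {k V : Type} [NontriviallyNormedField k] [NormedAddCommGroup V]
    [NormedSpace k V] {μ : Measure X} {T : Os.Sys A X μ} {c : A → X → V →L[k] V}
    {ι : Type} [Fintype ι] (o : Os.OseA T c ι) {l : A → ℝ} (hl : ∀ i t, o.lam i t = l t) {ε : ℝ}
    (hε : 0 < ε) {x : X} (hx : x ∈ o.X0) :
    ∃ M : ℝ, 0 ≤ M ∧ ∀ t, ‖c t x‖ ≤ M * Real.exp (l t + ε * ‖t‖) := by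
  obtain ⟨q, -, -, -, hq⟩ := o.est ε hε
  refine ⟨Fintype.card ι * Real.exp (2 * q x), by positivity, fun t => ?_⟩
  refine ContinuousLinearMap.opNorm_le_bound _ (by positivity) fun v => ?_
  have h1 : c t x v = ∑ i, c t x (o.P i x v) := by rw [← map_sum, o.P_sum x hx]
  have h2 : ∀ i, ‖c t x (o.P i x v)‖ ≤ Real.exp (2 * q x) * Real.exp (l t + ε * ‖t‖) * ‖v‖ := by
    intro i
    obtain ⟨h3, h4⟩ := hq x hx i
    refine (h4 t _ (o.P_mem x hx i v)).1.trans ?_
    have h5 : ‖o.P i x v‖ ≤ Real.exp (q x) * ‖v‖ :=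
      ((o.P i x).le_opNorm v).trans (mul_le_mul_of_nonneg_right h3 (norm_nonneg _))
    refine (mul_le_mul_of_nonneg_left h5 (Real.exp_pos _).le).trans (le_of_eq ?_)
    rw [← mul_assoc, ← Real.exp_add, ← Real.exp_add, hl]
    congr 2
    ring
  rw [h1]
  refine (norm_sum_le _ _).trans ((Finset.sum_le_sum fun i _ => h2 i).trans (le_of_eq ?_))
  rw [Finset.sum_const, Finset.card_univ, nsmul_eq_mul]
  ring

theorem Good.exists_lam_ne (hG : Good S a) {k V : Type}
    [NontriviallyNormedField k] [ProperSpace k] [NormedAddCommGroup V] [NormedSpace k V]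
    [FiniteDimensional k V] (π : Γ →* (V →L[k] V))
    (hz : ∀ γ : Γ, (γ : G) ∈ Subgroup.center G → π γ = 1) (hu : ¬ ∃ C : ℝ, ∀ γ, ‖π γ‖ ≤ C)
    {ι : Type} [Fintype ι] (o : Os.OseA hG.sys (fun t x => π (S.β (a t) x)) ι) :
    ∃ i j t, o.lam i t ≠ o.lam j t := by
  by_contra hne
  push Not at hne
  have : ProperSpace V := FiniteDimensional.proper k V
  borelize V
  let ν : Measure V := Measure.addHaar
  have hmp : ∀ γ, MeasurePreserving (π γ) ν ν := mp_of_noChar ν hG.nc π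
  by_cases h0 : ∀ i t, o.lam i t = 0
  · exact hu (hG.bdd_of_subexp ν π hmp hz fun ε hε δ hδ => hG.subexp_of_lam π o h0 hε hδ)
  push Not at h0
  obtain ⟨i, t₀, ht₀⟩ := h0
  have hV : Nontrivial V := by
    by_contra hV
    rw [not_nontrivial_iff_subsingleton] at hV
    exact hu ⟨0, fun γ => by rw [Subsingleton.elim (π γ) 0, norm_zero]⟩
  obtain ⟨t, ht⟩ : ∃ t, o.lam i t < 0 := by
    rcases lt_or_gt_of_ne ht₀ with h | h
    · exact ⟨t₀, h⟩
    · exact ⟨-t₀, by rw [map_neg]; linarith⟩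
  obtain ⟨r, hr, hr'⟩ := norm_ge_of_mp (k := k) ν
  obtain ⟨x, hx⟩ := o.ae0.exists
  have hn : 0 < ‖t‖ + 1 := by positivity
  have hε : 0 < -o.lam i t / (2 * (‖t‖ + 1)) := div_pos (by linarith) (by positivity)
  obtain ⟨M, hM, hb⟩ := Lam_norm_le o (l := o.lam i) (fun j s => hne j i s) hε hx
  have he : -o.lam i t / (2 * (‖t‖ + 1)) * ‖t‖ ≤ -o.lam i t / 2 := by
    rw [div_mul_eq_mul_div, div_le_div_iff₀ (by positivity) two_pos]
    nlinarith [norm_nonneg t]
  have h1 : ∀ n : ℕ, r ≤ M * Real.exp (o.lam i t / 2) ^ n := by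
    intro n
    refine (hr' _ (hmp _)).trans ((hb (n • t)).trans (mul_le_mul_of_nonneg_left ?_ hM))
    rw [← Real.exp_nat_mul, map_nsmul, nsmul_eq_mul]
    refine Real.exp_le_exp.2 ?_
    have h2 : ‖n • t‖ ≤ n * ‖t‖ := norm_nsmul_le
    have h3 := mul_le_mul_of_nonneg_left h2 hε.le
    have h4 := mul_le_mul_of_nonneg_left he (Nat.cast_nonneg (α := ℝ) n)
    nlinarith
  have h2 : Tendsto (fun n : ℕ => M * Real.exp (o.lam i t / 2) ^ n) atTop (𝓝 (M * 0)) :=
    (tendsto_pow_atTop_nhds_zero_of_lt_one (Real.exp_pos _).le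
      (Real.exp_lt_one_iff.2 (by linarith))).const_mul M
  have h3 := ge_of_tendsto' h2 h1
  linarith

end Pool.Agent.P.MP_d483fb_an.Z.SR
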