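import Pool.Agent.P.MP_d483fb_an.Z.SR.Defs

/-! The action of a group on the classes of measurable sections of a linear cocycle. -/

open scoped Topology
open MeasureTheory Filter Set

set_option linter.unusedSectionVars false

noncomputable section

namespace Pool.Agent.P.MP_d483fb_an.Z.SR

/-- A measurable linear cocycle over a measure preserving action. -/
structure Cyc (G : Type) {X : Type} [Group G] [MeasurableSpace G] [MeasurableSpace X]
    [MulAction G X] (μ : Measure X) (k V : Type) [NontriviallyNormedField k] [NormedAddCommGroup V]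
    [NormedSpace k V] where
  c : G → X → V →L[k] V
  meas : StronglyMeasurable fun p : G × X => c p.1 p.2
  one : ∀ x, c 1 x = 1
  mul : ∀ g h x, c (g * h) x = c g (h • x) * c h x
  inv : ∀ g : G, MeasurePreserving (fun x : X => g • x) μ μ

namespace Cyc

variable {G X : Type} [Group G] [MeasurableSpace G] [MeasurableSpace X] [MulAction G X]
  {μ : Measure X} {k V : Type} [NontriviallyNormedField k] [NormedAddCommGroup V] [NormedSpace k V]
  (C : Cyc G μ k V)

theorem meas_c (g : G) : StronglyMeasurable (C.c g) :=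
  C.meas.comp_measurable (measurable_prodMk_left (x := g))

theorem inv_apply (g : G) (x : X) (v : V) : C.c g⁻¹ (g • x) (C.c g x v) = v := by
  have h := C.mul g⁻¹ g x
  rw [inv_mul_cancel, C.one] at h
  exact (congrArg (fun T : V →L[k] V => T v) h).symm

theorem injective (g : G) (x : X) : Function.Injective (C.c g x) :=
  Function.LeftInverse.injective (C.inv_apply g x)

theorem aesm (g : G) (f : X →ₘ[μ] V) :
    AEStronglyMeasurable (fun x => C.c g (g⁻¹ • x) (f (g⁻¹ • x))) μ := by
  have h : StronglyMeasurable fun x => C.c g x (f x) :=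
    (isBoundedBilinearMap_apply (𝕜 := k) (E := V) (F := V)).continuous.comp_stronglyMeasurable
      ((C.meas_c g).prodMk f.stronglyMeasurable)
  exact (h.comp_measurable (C.inv g⁻¹).measurable).aestronglyMeasurable

include C in
theorem ae_smul (g : G) {p : X → Prop} (h : ∀ᵐ x ∂μ, p x) : ∀ᵐ x ∂μ, p (g • x) :=
  (C.inv g).quasiMeasurePreserving.ae h

/-- The action on sections. -/
def T (g : G) : (X →ₘ[μ] V) →ₗ[k] (X →ₘ[μ] V) where
  toFun f := AEEqFun.mk _ (C.aesm g f)
  map_add' f f' := by
    rw [AEEqFun.mk_add_mk, AEEqFun.mk_eq_mk]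
    filter_upwards [C.ae_smul g⁻¹ (AEEqFun.coeFn_add f f')] with x hx
    rw [hx, Pi.add_apply, map_add, Pi.add_apply]
  map_smul' t f := by
    rw [RingHom.id_apply, AEEqFun.smul_mk, AEEqFun.mk_eq_mk]
    filter_upwards [C.ae_smul g⁻¹ (AEEqFun.coeFn_smul t f)] with x hx
    rw [hx, Pi.smul_apply, map_smul, Pi.smul_apply]

theorem coe_T (g : G) (f : X →ₘ[μ] V) :
    C.T g f =ᵐ[μ] fun x => C.c g (g⁻¹ • x) (f (g⁻¹ • x)) := AEEqFun.coeFn_mk _ (C.aesm g f)

theorem T_eq_iff (g : G) (f f' : X →ₘ[μ] V) :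
    C.T g f = f' ↔ ∀ᵐ x ∂μ, C.c g x (f x) = f' (g • x) := by
  constructor
  · rintro rfl
    filter_upwards [C.ae_smul g (C.coe_T g f)] with x hx
    rw [hx, inv_smul_smul]
  · intro h
    refine AEEqFun.ext ?_
    filter_upwards [C.coe_T g f, C.ae_smul g⁻¹ h] with x h1 h2
    rw [h1, h2, smul_inv_smul]

theorem T_one : C.T 1 = 1 := by
  ext1 f
  refine (C.T_eq_iff 1 f f).2 (Eventually.of_forall fun x => ?_)
  rw [C.one, one_smul]
  rfl

theorem T_mul (g h : G) : C.T (g * h) = C.T g * C.T h := by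
  ext1 f
  refine (C.T_eq_iff _ f _).2 ?_
  filter_upwards [(C.T_eq_iff h f _).1 rfl, C.ae_smul h ((C.T_eq_iff g (C.T h f) _).1 rfl)]
    with x h1 h2
  rw [C.mul, mul_smul, Module.End.mul_apply, ← h2, ← h1]
  rfl

/-- The action on sections as a homomorphism. -/
def rep : G →* Module.End k (X →ₘ[μ] V) where
  toFun := C.T
  map_one' := C.T_one
  map_mul' := C.T_mul

theorem rep_apply (g : G) : C.rep g = C.T g := rfl

end Cyc

end Pool.Agent.P.MP_d483fb_an.Z.SR
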