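import Pool.Agent.P.MP_d483fb_an.Z.SR.Vol

open scoped Topology ENNReal
open MeasureTheory Filter Set

set_option linter.unusedSectionVars false

noncomputable section

namespace Pool.Agent.P.MP_d483fb_an.Z.SR

variable {G : Type} [Group G] [TopologicalSpace G] [IsTopologicalGroup G] [LocallyCompactSpace G]
  [T2Space G] [SecondCountableTopology G] [MeasurableSpace G] [BorelSpace G]
  {Γ : Subgroup G} [Countable Γ] {X : Type} [MeasurableSpace X] [MulAction G X]
  [MeasurableSMul₂ G X]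
  {k V : Type} [NontriviallyNormedField k] [ProperSpace k] [NormedAddCommGroup V] [NormedSpace k V]
  [FiniteDimensional k V]
  [ProperSpace V] [MeasurableSpace V] [BorelSpace V] (ν : Measure V) [ν.IsAddHaarMeasure]

theorem NoInv_fibre {Λ : Type} (T : Λ → V →L[k] V) (hmp : ∀ γ, MeasurePreserving (T γ) ν ν)
    {F : V → ℝ} (hF : Measurable F) (hi : Integrable F ν) (h0 : ¬ ∀ᵐ v ∂ν, F v ≤ 0)
    (hinv : ∀ γ, ∀ᵐ v ∂ν, F (T γ v) = F v) : ∃ C : ℝ, ∀ γ, ‖T γ‖ ≤ C := by
  obtain ⟨t, ht, hE⟩ : ∃ t : ℝ, 0 < t ∧ ν {v | t < F v} ≠ 0 := by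
    by_contra hc
    push Not at hc
    refine h0 ?_
    have : ∀ᵐ v ∂ν, ∀ n : ℕ, F v ≤ 1 / ((n : ℝ) + 1) := ae_all_iff.2 fun n => by
      rw [ae_iff]
      simpa only [not_le] using hc _ Nat.one_div_pos_of_nat
    filter_upwards [this] with v hv
    exact ge_of_tendsto' tendsto_one_div_add_atTop_nhds_zero_nat hv
  set E := {v | t < F v} with hEd
  have hEm : MeasurableSet E := measurableSet_lt measurable_const hF
  have hfin : ν E ≠ ⊤ := (hi.measure_gt_lt_top ht).ne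
  have hlim : Tendsto (fun n : ℕ => ν (E ∩ Metric.closedBall 0 n)) atTop (𝓝 (ν E)) := by
    have := tendsto_measure_iUnion_atTop (μ := ν) (s := fun n : ℕ => E ∩ Metric.closedBall (0 : V) n)
      fun a b hab => inter_subset_inter_right _
        (Metric.closedBall_subset_closedBall (Nat.cast_le.2 hab))
    rwa [← inter_iUnion, Metric.iUnion_closedBall_nat, inter_univ] at this
  obtain ⟨n, hn⟩ := (hlim.eventually (lt_mem_nhds (ENNReal.half_lt_self hE hfin))).exists
  set A := E ∩ Metric.closedBall (0 : V) n with hA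
  have hAm : MeasurableSet A := hEm.inter measurableSet_closedBall
  have hδ : ν A + ν A - ν E ≠ 0 := by
    refine (tsub_pos_of_lt ?_).ne'
    calc ν E = ν E / 2 + ν E / 2 := (ENNReal.add_halves _).symm
      _ < ν A + ν A := ENNReal.add_lt_add hn hn
  obtain ⟨C, hC⟩ := vol_thin (k := k) ν (n : ℝ) hδ
  refine ⟨C, fun γ => le_of_not_ge fun h => (hC _ h).not_ge ?_⟩
  have h1 : ν (T γ ⁻¹' A) = ν A := (hmp γ).measure_preimage hAm.nullMeasurableSet
  have h2 : ν (T γ ⁻¹' A ∪ A) ≤ ν E := by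
    refine measure_mono_ae ?_
    filter_upwards [hinv γ] with v hv hm
    rcases hm with hm | hm
    · have : t < F (T γ v) := hm.1
      rwa [hv] at this
    · exact hm.1
  have h3 := measure_union_add_inter (μ := ν) (T γ ⁻¹' A) hAm
  rw [tsub_le_iff_left]
  calc ν A + ν A = ν (T γ ⁻¹' A ∪ A) + ν (T γ ⁻¹' A ∩ A) := by rw [h3, h1]
    _ ≤ _ := add_le_add h2 (measure_mono fun v hv => mem_inter hv.2.2 hv.1.2)

theorem NoInv_meas (S : Sec Γ X) (π : Γ →* (V →L[k] V)) :
    Measurable fun q : (G × X) × V => π (S.β q.1.1 q.1.2) q.2 := by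
  have h1 : StronglyMeasurable fun q : (G × X) × V => (π (S.β q.1.1 q.1.2), q.2) :=
    ((S.stronglyMeasurable_comp_β π).comp_measurable measurable_fst).prodMk
      measurable_snd.stronglyMeasurable
  have h2 : Continuous fun z : (V →L[k] V) × V => z.1 z.2 := by fun_prop
  exact (h2.comp_stronglyMeasurable h1).measurable

theorem Sec.bdd_of_inv (S : Sec Γ X) (π : Γ →* (V →L[k] V))
    (hmp : ∀ γ, MeasurePreserving (π γ) ν ν) (ξ : X × V → ℝ) (hξ : MemLp ξ 2 (S.μ.prod ν))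
    (hinv : ∀ g : G, ∀ᵐ p ∂(S.μ.prod ν), ξ (g • p.1, π (S.β g p.1) p.2) = ξ p)
    (h0 : ¬ ξ =ᵐ[S.μ.prod ν] 0) : ∃ C : ℝ, ∀ γ, ‖π γ‖ ≤ C := by
  obtain ⟨η, hη, he⟩ : ∃ η : X × V → ℝ, Measurable η ∧ ξ =ᵐ[S.μ.prod ν] η :=
    ⟨_, hξ.1.stronglyMeasurable_mk.measurable, hξ.1.ae_eq_mk⟩
  have hm := NoInv_meas S π
  have hT : ∀ g : G, MeasurePreserving (fun p : X × V => (g • p.1, π (S.β g p.1) p.2))
      (S.μ.prod ν) (S.μ.prod ν) := fun g =>
    (S.inv g).skew_product (g := fun x v => π (S.β g x) v)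
      (hm.comp ((measurable_const.prodMk measurable_fst).prodMk measurable_snd))
      (ae_of_all _ fun x => (hmp _).map_eq)
  have hQ : MeasurableSet {q : (G × X) × V |
      η (q.1.1 • q.1.2, π (S.β q.1.1 q.1.2) q.2) = η (q.1.2, q.2)} :=
    measurableSet_eq_fun (hη.comp ((measurable_fst.fst.smul measurable_fst.snd).prodMk hm))
      (hη.comp (measurable_fst.snd.prodMk measurable_snd))
  have hN : MeasurableSet {a : G × X |
      ∀ᵐ v ∂ν, η (a.1 • a.2, π (S.β a.1 a.2) v) = η (a.2, v)} :=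
    measurable_measure_prodMk_left (ν := ν) hQ.compl (measurableSet_singleton 0)
  have h1 : ∀ᵐ x ∂S.μ, ∀ᵐ g ∂(Measure.haar : Measure G), ∀ᵐ v ∂ν,
      η (g • x, π (S.β g x) v) = η (x, v) := by
    refine (Measure.ae_ae_comm (p := fun (g : G) x => ∀ᵐ v ∂ν,
      η (g • x, π (S.β g x) v) = η (x, v)) hN).1 (ae_of_all _ fun g => ?_)
    refine Measure.ae_ae_of_ae_prod
      (p := fun p : X × V => η (g • p.1, π (S.β g p.1) p.2) = η (p.1, p.2)) ?_
    filter_upwards [hinv g, he, (hT g).quasiMeasurePreserving.ae he] with p a b c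
    rw [← c, a, b]
  have h2 : ∀ᵐ x ∂S.μ, Integrable (fun v => η (x, v) ^ 2) ν :=
    ((hξ.ae_eq he).integrable_sq).prod_right_ae
  have h3 : ∃ᶠ x in ae S.μ, ¬ ∀ᵐ v ∂ν, η (x, v) ^ 2 ≤ 0 := by
    rw [← not_eventually]
    intro h
    refine h0 (he.trans ?_)
    have := (Measure.ae_prod_iff_ae_ae (p := fun p : X × V => η p ^ 2 ≤ 0)
      (measurableSet_le (hη.pow_const 2) measurable_const)).2 h
    filter_upwards [this] with p hp
    exact pow_eq_zero_iff two_ne_zero |>.1 (le_antisymm hp (sq_nonneg _))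
  obtain ⟨x, hx3, hx1, hx2⟩ := (h3.and_eventually (h1.and h2)).exists
  refine NoInv_fibre ν (fun γ => π γ) hmp ((hη.comp measurable_prodMk_left).pow_const 2) hx2 hx3
    fun γ => ?_
  obtain ⟨g, ha, hb⟩ := (hx1.and ((quasiMeasurePreserving_mul_right Measure.haar
    (S.s x * γ * (S.s x)⁻¹)).ae hx1)).exists
  rw [mul_smul, S.β_mul, S.conj_smul, S.β_conj, map_mul] at hb
  filter_upwards [(hmp γ).quasiMeasurePreserving.ae ha, hb] with v a b
  exact congrArg (· ^ 2) (a.symm.trans b)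

end Pool.Agent.P.MP_d483fb_an.Z.SR
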