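import Pool.Agent.P.MP_d483fb_an.Z.SR.Lam
import Pool.Agent.P.MP_d483fb_an.Z.SR.Phi

open scoped Topology ENNReal
open MeasureTheory Filter Set

set_option linter.unusedSectionVars false

noncomputable section

namespace Pool.Agent.P.MP_d483fb_an.Z.SR

variable {G : Type} [Group G] [TopologicalSpace G] [IsTopologicalGroup G] [LocallyCompactSpace G]
  [T2Space G] [SecondCountableTopology G] [MeasurableSpace G] [BorelSpace G]
  {Γ : Subgroup G} [Countable Γ] {X : Type} [MeasurableSpace X] [MulAction G X]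
  [MeasurableSMul₂ G X]
  [MeasurableSpace.CountablyGenerated X]
  {k V : Type} [NontriviallyNormedField k] [ProperSpace k] [NormedAddCommGroup V] [NormedSpace k V]
  [FiniteDimensional k V]
  {S : Sec Γ X} {A : Type} [NormedAddCommGroup A] {a : A → G}

/-- The action by conjugation on endomorphisms. -/
def conjRep (π : Γ →* (V →L[k] V)) : Γ →* ((V →L[k] V) →L[k] (V →L[k] V)) where
  toFun γ := ContinuousLinearMap.mulLeftRight k (V →L[k] V) (π γ) (π γ⁻¹)
  map_one' := by
    ext1 T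
    simp
  map_mul' γ δ := by
    ext1 T
    simp [mul_assoc]

theorem conjRep_apply (π : Γ →* (V →L[k] V)) (γ : Γ) (T : V →L[k] V) :
    conjRep π γ T = π γ * T * π γ⁻¹ := by
  simp [conjRep]

theorem Good.padic [ConnectedSpace G] [IsUltrametricDist k] (hG : Good S a)
    (π : Γ →* (V →L[k] V)) (hz : ∀ γ : Γ, (γ : G) ∈ Subgroup.center G → π γ = 1)
    (hc : ∀ T : V →L[k] V, (∀ γ, T * π γ = π γ * T) → ∃ c : k, T = c • (1 : V →L[k] V)) :
    ∃ C : ℝ, ∀ γ, ‖π γ‖ ≤ C := by
  by_contra hu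
  obtain ⟨ι, _, ⟨o⟩⟩ := hG.met k V π
  obtain ⟨i, j, t, hij⟩ := hG.exists_lam_ne π hz hu o
  have hne : i ≠ j := by
    rintro rfl
    exact hij rfl
  have hinv : ∀ t, ∀ᵐ x ∂S.μ, conjRep π (S.β (a t) x) (o.P i x) = o.P i (a t • x) := by
    intro t
    filter_upwards [o.ae0] with x hx
    rw [conjRep_apply, ← hG.act]
    have h1 : o.P i (hG.sys.act t x) * π (S.β (a t) x) = π (S.β (a t) x) * o.P i x := by
      ext v
      exact o.P_inv x hx i t v
    rw [← h1, mul_assoc, ← map_mul, mul_inv_cancel, map_one, mul_one]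
  have hT : ∀ᵐ x ∂S.μ, o.P i x ∈ {T : V →L[k] V | ∀ c : k, T ≠ c • (1 : V →L[k] V)} := by
    filter_upwards [o.ae0] with x hx c hcx
    have hex : ∀ l, ∃ v ∈ o.D l x, v ≠ 0 := by
      intro l
      rw [← Submodule.ne_bot_iff]
      intro h0
      have h1 := o.rank x hx l
      rw [h0, finrank_bot] at h1
      exact absurd (o.d_pos l) (by omega)
    obtain ⟨u, hu1, hu2⟩ := hex i
    obtain ⟨v, hv1, hv2⟩ := hex j
    have h1 := o.P_self x hx i u hu1
    have h2 := o.P_other x hx i j hne v hv1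
    rw [hcx] at h1 h2
    simp only [smul_apply, one_apply_eq_self] at h1 h2
    have h3 : c = 0 := (smul_eq_zero.1 h2).resolve_right hv2
    rw [h3, zero_smul] at h1
    exact hu2 h1.symm
  obtain ⟨n, τ, Φ, hτ, hΦ, v, hv⟩ := hG.extend (conjRep π) (o.P i) (o.measP i) hinv _ hT
  have h1 : ∀ g, τ g = 1 := by
    intro g
    ext p q
    have h2 : Continuous fun g => τ g p q := hτ.matrix_elem p q
    rw [TotallyDisconnectedSpace.eq_of_continuous _ h2 g 1, map_one]
  obtain ⟨c, hc'⟩ := hc (Φ v) fun γ => by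
    have h2 := hΦ γ v
    rw [h1, Matrix.one_mulVec, conjRep_apply] at h2
    conv_lhs => rw [h2]
    rw [mul_assoc, ← map_mul, inv_mul_cancel, map_one, mul_one]
  exact hv c hc'

end Pool.Agent.P.MP_d483fb_an.Z.SR
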