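import Pool.Agent.P.MP_d483fb_an.Z.SR.Defs

open scoped Topology ENNReal
open MeasureTheory Filter Set

set_option linter.unusedSectionVars false

noncomputable section

namespace Pool.Agent.P.MP_d483fb_an.Z.SR

variable {G : Type} [Group G] [TopologicalSpace G] [IsTopologicalGroup G] [LocallyCompactSpace G]
  [T2Space G] [SecondCountableTopology G] [MeasurableSpace G] [BorelSpace G]
  {Γ : Subgroup G} [Countable Γ] {X : Type} [MeasurableSpace X] [MulAction G X]
  [MeasurableSMul₂ G X]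
  {k V : Type} [NontriviallyNormedField k] [ProperSpace k] [NormedAddCommGroup V] [NormedSpace k V]
  [FiniteDimensional k V]
  {S : Sec Γ X} {A : Type} [NormedAddCommGroup A] {a : A → G}

theorem exists_meas_le {Y : Type} [MeasurableSpace Y] (μ : Measure Y) [IsFiniteMeasure μ]
    (E : ℕ → Set Y) (hm : ∀ n, MeasurableSet (E n)) (ha : Antitone E) (he : ⋂ n, E n = ∅)
    {δ : ℝ≥0∞} (hδ : δ ≠ 0) : ∃ n, μ (E n) ≤ δ := by
  have h := tendsto_measure_iInter_atTop (μ := μ) (fun n => (hm n).nullMeasurableSet) ha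
    ⟨0, measure_ne_top _ _⟩
  rw [he, measure_empty] at h
  exact (h.eventually (ge_mem_nhds (pos_iff_ne_zero.2 hδ))).exists

theorem Sec.meas_pre_le (S : Sec Γ X) (g : G) (E : Set X) :
    S.μ ((fun x : X => g • x) ⁻¹' E) ≤ S.μ E := by
  have h := Measure.le_map_apply (μ := S.μ) (S.inv g).measurable.aemeasurable E
  rwa [(S.inv g).map_eq] at h

theorem Good.cpt_bound (hG : Good S a) (π : Γ →* (V →L[k] V)) {K : Set G} (hK : IsCompact K)
    {δ : ℝ≥0∞} (hδ : δ ≠ 0) :
    ∃ Q : ℝ, ∀ g ∈ K, S.μ {x | Real.exp Q < ‖π (S.β g x)‖} ≤ δ := by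
  obtain ⟨n, hn⟩ := exists_meas_le S.μ (fun n => S.s ⁻¹' (compactCovering G n)ᶜ)
    (fun n => S.meas (isCompact_compactCovering G n).isClosed.measurableSet.compl)
    (fun m n hmn => preimage_mono (compl_subset_compl.2 (compactCovering_subset G hmn)))
    (by rw [← preimage_iInter, ← compl_iUnion, iUnion_compactCovering, compl_univ, preimage_empty])
    (ENNReal.half_pos hδ).ne'
  have hO := isCompact_compactCovering G n
  have hc : IsCompact ((fun p : G × G × G => p.1⁻¹ * p.2.1 * p.2.2) ''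
      (compactCovering G n ×ˢ K ×ˢ compactCovering G n)) :=
    (hO.prod (hK.prod hO)).image (by fun_prop)
  obtain ⟨C, hC⟩ := ((hG.fin _ hc).image fun γ => ‖π γ‖).bddAbove
  refine ⟨C, fun g hg => ?_⟩
  have hsub : {x | Real.exp C < ‖π (S.β g x)‖} ⊆
      (fun x : X => g • x) ⁻¹' (S.s ⁻¹' (compactCovering G n)ᶜ) ∪
        S.s ⁻¹' (compactCovering G n)ᶜ := by
    intro x hx
    by_contra hno
    simp only [mem_union, mem_preimage, mem_compl_iff, not_or, not_not] at hno
    have h1 : ‖π (S.β g x)‖ ≤ C :=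
      hC ⟨S.β g x, ⟨(S.s (g • x), g, S.s x), ⟨hno.1, hg, hno.2⟩, rfl⟩, rfl⟩
    have h2 := Real.add_one_le_exp C
    have h3 : Real.exp C < ‖π (S.β g x)‖ := hx
    linarith
  calc S.μ {x | Real.exp C < ‖π (S.β g x)‖} ≤ _ := measure_mono hsub
    _ ≤ _ := measure_union_le _ _
    _ ≤ δ / 2 + δ / 2 := add_le_add ((S.meas_pre_le g _).trans hn) hn
    _ = δ := ENNReal.add_halves δ

theorem Sec.word_bound (S : Sec Γ X) (π : Γ →* (V →L[k] V)) {Q : ℝ} (hQ : 0 ≤ Q) {δ : ℝ≥0∞}
    (l : List G) (h : ∀ g ∈ l, S.μ {x | Real.exp Q < ‖π (S.β g x)‖} ≤ δ) :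
    S.μ {x | Real.exp (l.length * Q) < ‖π (S.β l.prod x)‖} ≤ l.length * δ := by
  induction l with
  | nil =>
    have he : {x | Real.exp ((([] : List G).length : ℝ) * Q) < ‖π (S.β ([] : List G).prod x)‖}
        = ∅ := by
      refine eq_empty_of_forall_notMem fun x hx => ?_
      have h1 : Real.exp ((([] : List G).length : ℝ) * Q) < ‖π (S.β ([] : List G).prod x)‖ := hx
      rw [List.prod_nil, S.β_one, map_one, List.length_nil, Nat.cast_zero, zero_mul,
        Real.exp_zero] at h1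
      exact absurd h1 (not_lt.2 ContinuousLinearMap.norm_id_le)
    rw [he, measure_empty]
    exact zero_le
  | cons g l ih =>
    have hsub : {x | Real.exp (((g :: l).length : ℝ) * Q) < ‖π (S.β (g :: l).prod x)‖} ⊆
        {x | Real.exp (l.length * Q) < ‖π (S.β l.prod x)‖} ∪
          (fun x : X => l.prod • x) ⁻¹' {x | Real.exp Q < ‖π (S.β g x)‖} := by
      intro x hx
      by_contra hno
      simp only [mem_union, mem_preimage, mem_ofPred_eq, not_or, not_lt] at hno
      have h1 : Real.exp (((g :: l).length : ℝ) * Q) < ‖π (S.β (g :: l).prod x)‖ := hx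
      rw [List.prod_cons, S.β_mul, map_mul, List.length_cons, Nat.cast_succ, add_mul, one_mul,
        Real.exp_add, mul_comm] at h1
      exact absurd h1 (not_lt.2 ((ContinuousLinearMap.opNorm_comp_le _ _).trans
        (mul_le_mul hno.2 hno.1 (norm_nonneg _) (Real.exp_pos _).le)))
    calc _ ≤ _ := measure_mono hsub
      _ ≤ _ := measure_union_le _ _
      _ ≤ l.length * δ + δ := add_le_add (ih fun g' hg' => h g' (List.mem_cons_of_mem _ hg'))
          ((S.meas_pre_le _ _).trans (h g List.mem_cons_self))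
      _ = _ := by rw [List.length_cons, Nat.cast_succ, add_mul, one_mul]

theorem Good.subexp_of_lam (hG : Good S a) (π : Γ →* (V →L[k] V)) {ι : Type} [Fintype ι]
    (o : Os.OseA hG.sys (fun t x => π (S.β (a t) x)) ι) (h : ∀ i t, o.lam i t = 0) {ε : ℝ}
    (hε : 0 < ε) {δ : ℝ≥0∞} (hδ : δ ≠ 0) :
    ∃ Q : ℝ, ∀ t, S.μ {x | Real.exp (Q + ε * ‖t‖) < ‖π (S.β (a t) x)‖} ≤ δ := by
  obtain ⟨q, hqm, -, -, hq⟩ := o.est ε hε
  obtain ⟨n, hn⟩ := exists_meas_le S.μ (fun n : ℕ => {x | (n : ℝ) < q x})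
    (fun n => measurableSet_lt measurable_const hqm)
    (fun m n hmn x hx => lt_of_le_of_lt (Nat.cast_le.2 hmn : (m : ℝ) ≤ n) hx)
    (eq_empty_of_forall_notMem fun x hx => by
      obtain ⟨m, hm⟩ := exists_nat_ge (q x)
      exact absurd (mem_iInter.1 hx m) (not_lt.2 hm)) hδ
  refine ⟨Fintype.card ι + 2 * n, fun t => le_trans (measure_mono_ae ?_) hn⟩
  filter_upwards [o.ae0] with x hx0 hx
  by_contra hno
  have hqx : q x ≤ n := not_lt.1 hno
  have h3 : Real.exp (Fintype.card ι + 2 * n + ε * ‖t‖) < ‖π (S.β (a t) x)‖ := hx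
  refine absurd h3 (not_lt.2 (ContinuousLinearMap.opNorm_le_bound _ (Real.exp_pos _).le
    fun v => ?_))
  have hi : ∀ i, ‖π (S.β (a t) x) (o.P i x v)‖ ≤ Real.exp (2 * n + ε * ‖t‖) * ‖v‖ := by
    intro i
    obtain ⟨hP, hA⟩ := hq x hx0 i
    have h1 := (hA t _ (o.P_mem x hx0 i v)).1
    rw [h i t, add_zero] at h1
    have h2 : ‖o.P i x v‖ ≤ Real.exp (q x) * ‖v‖ :=
      ((o.P i x).le_opNorm v).trans (mul_le_mul_of_nonneg_right hP (norm_nonneg _))
    refine h1.trans ((mul_le_mul_of_nonneg_left h2 (Real.exp_pos _).le).trans ?_)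
    rw [← mul_assoc, ← Real.exp_add]
    exact mul_le_mul_of_nonneg_right (Real.exp_le_exp.2 (by linarith)) (norm_nonneg _)
  calc ‖π (S.β (a t) x) v‖ = ‖∑ i, π (S.β (a t) x) (o.P i x v)‖ := by
        rw [← map_sum, o.P_sum x hx0]
    _ ≤ ∑ _i : ι, Real.exp (2 * n + ε * ‖t‖) * ‖v‖ :=
        (norm_sum_le _ _).trans (Finset.sum_le_sum fun i _ => hi i)
    _ = Fintype.card ι * (Real.exp (2 * n + ε * ‖t‖) * ‖v‖) := by
        rw [Finset.sum_const, Finset.card_univ, nsmul_eq_mul]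
    _ ≤ Real.exp (Fintype.card ι) * (Real.exp (2 * n + ε * ‖t‖) * ‖v‖) :=
        mul_le_mul_of_nonneg_right (by linarith [Real.add_one_le_exp (Fintype.card ι : ℝ)])
          (by positivity)
    _ = _ := by rw [← mul_assoc, ← Real.exp_add, add_assoc]

end Pool.Agent.P.MP_d483fb_an.Z.SR
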