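import Pool.Agent.P.MP_d483fb_an.Z.SR.Koop
import Pool.Agent.P.MP_d483fb_an.Z.SR.NoInv
import Pool.Agent.P.MP_d483fb_an.Z.SR.Words

open scoped Topology ENNReal
open MeasureTheory Filter Set

set_option linter.unusedSectionVars false

noncomputable section

namespace Pool.Agent.P.MP_d483fb_an.Z.SR

variable {G : Type} [Group G] [TopologicalSpace G] [IsTopologicalGroup G] [LocallyCompactSpace G]
  [T2Space G] [SecondCountableTopology G] [MeasurableSpace G] [BorelSpace G]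
  {Γ : Subgroup G} [Countable Γ] {X : Type} [MeasurableSpace X] [MulAction G X]
  [MeasurableSMul₂ G X]
  [MeasurableSpace.CountablyGenerated X]
  {k V : Type} [NontriviallyNormedField k] [ProperSpace k] [NormedAddCommGroup V] [NormedSpace k V]
  [FiniteDimensional k V]
  [ProperSpace V] [MeasurableSpace V] [BorelSpace V] (ν : Measure V) [ν.IsAddHaarMeasure]
  {S : Sec Γ X} {A : Type} [NormedAddCommGroup A] {a : A → G}

theorem Pos_final {c κ C : ℝ} (hc : 0 < c) (hκ : 0 < κ)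
    (h : ∀ᶠ r : ℝ in atTop, c * Real.exp (-(κ / 2 * r)) ≤ C * Real.exp (-(κ * r))) : False := by
  have h1 : Tendsto (fun r : ℝ => C * Real.exp (-(κ / 2 * r))) atTop (𝓝 (C * 0)) :=
    (Real.tendsto_exp_neg_atTop_nhds_zero.comp
      (tendsto_id.const_mul_atTop (half_pos hκ))).const_mul C
  have h2 : c ≤ C * 0 := by
    refine ge_of_tendsto h1 (h.mono fun r hr => ?_)
    have e : Real.exp (-(κ * r)) = Real.exp (-(κ / 2 * r)) * Real.exp (-(κ / 2 * r)) := by
      rw [← Real.exp_add]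
      congr 1
      ring
    rw [e, ← mul_assoc] at hr
    exact le_of_mul_le_mul_right hr (Real.exp_pos _)
  rw [mul_zero] at h2
  exact absurd hc (not_lt.2 h2)

/-- The skew product action. -/
def Pos_T (S : Sec Γ X) (π : Γ →* (V →L[k] V)) (g : G) (p : X × V) : X × V :=
  (g • p.1, π (S.β g p.1) p.2)

theorem Pos_meas (S : Sec Γ X) (π : Γ →* (V →L[k] V)) :
    Measurable fun q : G × (X × V) => π (S.β q.1 q.2.1) q.2.2 := by
  have h1 : Measurable fun q : Γ × V => π q.1 q.2 :=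
    measurable_from_prod_countable_right fun γ => (π γ).continuous.measurable
  have h2 : Measurable fun p : G × X => S.β p.1 p.2 := S.measurable_coe_β.subtype_mk
  exact h1.comp ((h2.comp (measurable_fst.prodMk measurable_snd.fst)).prodMk measurable_snd.snd)

theorem Pos_mp (S : Sec Γ X) (π : Γ →* (V →L[k] V)) (hmp : ∀ γ, MeasurePreserving (π γ) ν ν)
    (g : G) : MeasurePreserving (Pos_T S π g) (S.μ.prod ν) (S.μ.prod ν) :=
  (S.inv g).skew_product (g := fun x v => π (S.β g x) v)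
    ((Pos_meas S π).comp (measurable_const.prodMk measurable_id))
    (Eventually.of_forall fun x => (hmp (S.β g x)).map_eq)

theorem Pos_mul (S : Sec Γ X) (π : Γ →* (V →L[k] V)) (g h : G) (p : X × V) :
    Pos_T S π (g * h) p = Pos_T S π g (Pos_T S π h p) := by
  unfold Pos_T
  rw [S.β_mul, map_mul, mul_smul]
  rfl

theorem Pos_one (S : Sec Γ X) (π : Γ →* (V →L[k] V)) (p : X × V) : Pos_T S π 1 p = p := by
  unfold Pos_T
  rw [S.β_one, map_one, one_smul]
  rfl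

theorem Pos_lower (S : Sec Γ X) (π : Γ →* (V →L[k] V)) (hmp : ∀ γ, MeasurePreserving (π γ) ν ν)
    (g : G) {t : ℝ} (ht : 0 ≤ t) (hb : S.μ {x | Real.exp t < ‖π (S.β g x)‖} ≤ 2⁻¹) :
    2⁻¹ * ν (Metric.closedBall 0 (Real.exp (-t))) ≤
      S.μ.prod ν ((univ ×ˢ Metric.closedBall 0 1) ∩
        Pos_T S π g⁻¹ ⁻¹' (univ ×ˢ Metric.closedBall 0 1)) := by
  have hB : MeasurableSet ((univ : Set X) ×ˢ Metric.closedBall (0 : V) 1) :=
    MeasurableSet.univ.prod Metric.isClosed_closedBall.measurableSet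
  have h1 : (2⁻¹ : ℝ≥0∞) ≤ S.μ {x | Real.exp t < ‖π (S.β g x)‖}ᶜ := by
    have h2 := measure_union_le (μ := S.μ) {x | Real.exp t < ‖π (S.β g x)‖}ᶜ
      {x | Real.exp t < ‖π (S.β g x)‖}
    rw [compl_union_self, measure_univ] at h2
    have h3 := h2.trans (add_le_add_right hb _)
    rw [← ENNReal.inv_two_add_inv_two] at h3
    exact (ENNReal.add_le_add_iff_right (by simp)).1 h3
  rw [← (Pos_mp ν S π hmp g).measure_preimage
    (hB.inter ((Pos_mp ν S π hmp g⁻¹).measurable hB)).nullMeasurableSet]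
  refine (mul_le_mul_left h1 _).trans ?_
  rw [← Measure.prod_prod]
  refine measure_mono ?_
  rintro ⟨x, v⟩ ⟨hx, hv⟩
  have hx' : ‖π (S.β g x)‖ ≤ Real.exp t := not_lt.1 hx
  have hv' : ‖v‖ ≤ Real.exp (-t) := mem_closedBall_zero_iff.1 hv
  refine ⟨⟨mem_univ _, mem_closedBall_zero_iff.2 ?_⟩, ?_⟩
  · show ‖π (S.β g x) v‖ ≤ 1
    refine ((π (S.β g x)).le_opNorm v).trans
      ((mul_le_mul hx' hv' (norm_nonneg _) (Real.exp_pos _).le).trans ?_)
    rw [← Real.exp_add, add_neg_cancel, Real.exp_zero]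
  · rw [mem_preimage, ← Pos_mul, inv_mul_cancel, Pos_one]
    exact ⟨mem_univ _, mem_closedBall_zero_iff.2
      (hv'.trans (Real.exp_le_one_iff.2 (neg_nonpos.2 ht)))⟩

theorem Pos_inner {Ω : Type} [MeasurableSpace Ω] {m : Measure Ω} {B : Set Ω} (hB : MeasurableSet B)
    (hf : m B ≠ ∞) {T : Ω → Ω} (hT : MeasurePreserving T m m) (η : Lp ℝ 2 m)
    (h : η =ᵐ[m] fun ω => (indicatorConstLp 2 hB hf (1 : ℝ) : Lp ℝ 2 m) (T ω)) :
    inner ℝ η (indicatorConstLp 2 hB hf (1 : ℝ)) = (m (B ∩ T ⁻¹' B)).toReal := by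
  have h1 : η =ᵐ[m] (T ⁻¹' B).indicator fun _ => (1 : ℝ) := by
    filter_upwards [h, hT.quasiMeasurePreserving.ae
      (indicatorConstLp_coeFn (p := 2) (hs := hB) (hμs := hf) (c := (1 : ℝ)))] with ω k1 k2
    rw [k1, k2]
    rfl
  rw [real_inner_comm, L2.inner_indicatorConstLp_one, integral_congr_ae (ae_restrict_of_ae h1),
    integral_indicator (hT.measurable hB), Measure.restrict_restrict (hT.measurable hB),
    setIntegral_const, smul_eq_mul, mul_one, inter_comm, measureReal_def]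

theorem Good.bdd_of_subexp (hG : Good S a) (π : Γ →* (V →L[k] V))
    (hmp : ∀ γ, MeasurePreserving (π γ) ν ν)
    (hz : ∀ γ : Γ, (γ : G) ∈ Subgroup.center G → π γ = 1)
    (hsub : ∀ ε : ℝ, 0 < ε → ∀ δ : ℝ≥0∞, δ ≠ 0 →
      ∃ Q : ℝ, ∀ t, S.μ {x | Real.exp (Q + ε * ‖t‖) < ‖π (S.β (a t) x)‖} ≤ δ) :
    ∃ C : ℝ, ∀ γ, ‖π γ‖ ≤ C := by
  by_contra hu
  obtain ⟨U, hU1, hU2, hU3⟩ := koopman (S.μ.prod ν) (Pos_T S π)
    ((measurable_fst.smul measurable_snd.fst).prodMk (Pos_meas S π)) (Pos_one S π) (Pos_mul S π)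
    (Pos_mp ν S π hmp)
  have hinv : ∀ ξ, (∀ g, U g ξ = ξ) → ξ = 0 := by
    intro ξ hξ
    by_contra h0
    refine hu (Sec.bdd_of_inv ν S π hmp ξ (Lp.memLp ξ) (fun g => ?_)
      fun h => h0 (Lp.eq_zero_iff_ae_eq_zero.2 h))
    have h := hU3 g⁻¹ ξ
    rw [hξ, inv_inv] at h
    filter_upwards [h] with p hp
    exact hp.symm
  have hB : MeasurableSet ((univ : Set X) ×ˢ Metric.closedBall (0 : V) 1) :=
    MeasurableSet.univ.prod Metric.isClosed_closedBall.measurableSet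
  have hf : S.μ.prod ν ((univ : Set X) ×ˢ Metric.closedBall (0 : V) 1) ≠ ∞ := by
    rw [Measure.prod_prod, measure_univ, one_mul]
    exact (isCompact_closedBall (0 : V) 1).measure_lt_top.ne
  obtain ⟨q, K, κ, C, hK, hκ, hev⟩ := hG.dec _ U hU1 hU2 hinv (indicatorConstLp 2 hB hf (1 : ℝ))
  obtain ⟨c, D, hc, hD, hball⟩ := vol_ball (k := k) ν
  have hqD : 0 < (q : ℝ) * D + 1 := by positivity
  obtain ⟨ε, hε, hεq⟩ : ∃ ε : ℝ, 0 < ε ∧ D * (q * ε) ≤ κ / 2 := by
    refine ⟨κ / 2 / (q * D + 1), by positivity, ?_⟩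
    rw [← mul_assoc, ← mul_div_assoc, div_le_iff₀ hqD]
    nlinarith
  obtain ⟨δ, hδ, hδq⟩ : ∃ δ : ℝ≥0∞, δ ≠ 0 ∧ q * δ ≤ 2⁻¹ := by
    refine ⟨(q + 1 : ℝ≥0∞)⁻¹ * 2⁻¹, by simp, ?_⟩
    rw [← mul_assoc]
    refine mul_le_of_le_one_left' ?_
    exact (mul_le_mul_left le_self_add _).trans (ENNReal.mul_inv_le_one _)
  obtain ⟨Q1, hQ1⟩ := hG.cpt_bound π hK hδ
  obtain ⟨Q2, hQ2⟩ := hsub ε hε δ hδ
  obtain ⟨Q, hQ0, hQQ1, hQQ2⟩ : ∃ Q : ℝ, 0 ≤ Q ∧ Q1 ≤ Q ∧ Q2 ≤ Q :=
    ⟨max 0 (max Q1 Q2), le_max_left _ _, (le_max_left _ _).trans (le_max_right _ _),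
      (le_max_right _ _).trans (le_max_right _ _)⟩
  refine Pos_final (c := 2⁻¹ * (c * Real.exp (-(D * (q * Q))))) (C := C) (by positivity) hκ ?_
  filter_upwards [hev, eventually_ge_atTop 0] with r hr hr0
  obtain ⟨l, hl, hlet, hle⟩ := hr
  have hεr : 0 ≤ ε * r := mul_nonneg hε.le hr0
  have hQr : 0 ≤ Q + ε * r := add_nonneg hQ0 hεr
  have hbad : ∀ g ∈ l, S.μ {x | Real.exp (Q + ε * r) < ‖π (S.β g x)‖} ≤ δ := by
    intro g hg
    rcases hlet g hg with h | h | ⟨t, ht, rfl⟩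
    · refine le_trans (measure_mono fun x hx => ?_) (hQ1 g h)
      exact lt_of_le_of_lt (Real.exp_le_exp.2 (by linarith)) hx
    · have he : {x | Real.exp (Q + ε * r) < ‖π (S.β g x)‖} = ∅ := by
        refine eq_empty_of_forall_notMem fun x hx => ?_
        have e : S.β g x = ⟨g, h.1⟩ := S.β_central ⟨g, h.1⟩ h.2 x
        have hx' : Real.exp (Q + ε * r) < ‖π (S.β g x)‖ := hx
        rw [e, hz ⟨g, h.1⟩ h.2] at hx'
        exact absurd (hx'.trans_le ContinuousLinearMap.norm_id_le)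
          (not_lt.2 (Real.one_le_exp hQr))
      rw [he, measure_empty]
      exact zero_le
    · refine le_trans (measure_mono fun x hx => ?_) (hQ2 t)
      have := mul_le_mul_of_nonneg_left ht hε.le
      exact lt_of_le_of_lt (Real.exp_le_exp.2 (by linarith)) hx
  have ht : 0 ≤ (l.length : ℝ) * (Q + ε * r) := mul_nonneg (Nat.cast_nonneg _) hQr
  have hw := (S.word_bound π hQr l hbad).trans
    ((mul_le_mul_left (Nat.cast_le.2 hl) _).trans hδq)
  have h1 := (mul_le_mul_right (hball _ ht) _).trans (Pos_lower ν S π hmp l.prod ht hw)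
  have h2 := ENNReal.toReal_mono (measure_ne_top_of_subset inter_subset_left hf) h1
  rw [← Pos_inner hB hf (Pos_mp ν S π hmp l.prod⁻¹) _ (hU3 l.prod _), ENNReal.toReal_mul,
    ENNReal.toReal_ofReal (by positivity), ENNReal.toReal_inv, ENNReal.toReal_ofNat] at h2
  refine le_trans ?_ (h2.trans hle)
  rw [mul_assoc, mul_assoc, ← Real.exp_add]
  refine mul_le_mul_of_nonneg_left (mul_le_mul_of_nonneg_left (Real.exp_le_exp.2 ?_) hc.le)
    (by norm_num)
  have h3 : D * ((l.length : ℝ) * (Q + ε * r)) ≤ D * (q * (Q + ε * r)) :=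
    mul_le_mul_of_nonneg_left (mul_le_mul_of_nonneg_right (Nat.cast_le.2 hl) hQr) hD
  have h4 := mul_le_mul_of_nonneg_right hεq hr0
  nlinarith

end Pool.Agent.P.MP_d483fb_an.Z.SR
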