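import Pool.Agent.P.MP_d483fb_an.Z.SR.CptForm

/-!
A simple quotient of the complexification of a compact Lie algebra is the complexification of a
simple ideal.
-/

open Set Module
open scoped TensorProduct Matrix

set_option linter.unusedSectionVars false

noncomputable section

namespace Pool.Agent.P.MP_d483fb_an.Z.SR

variable {L I : Type} [LieRing L] [LieAlgebra ℝ L] [LieRing I] [LieAlgebra ℂ I]

theorem exists_re_im (z : ℂ ⊗[ℝ] L) :
    ∃ A B : L, z = (1 : ℂ) ⊗ₜ[ℝ] A + Complex.I • (1 : ℂ) ⊗ₜ[ℝ] B := by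
  induction z using TensorProduct.induction_on with
  | zero => exact ⟨0, 0, by simp⟩
  | tmul c X =>
    refine ⟨c.re • X, c.im • X, ?_⟩
    rw [TensorProduct.smul_tmul', ← TensorProduct.smul_tmul, ← TensorProduct.smul_tmul,
      ← TensorProduct.add_tmul]
    congr 1
    simp [Complex.re_add_im]
  | add x y hx hy =>
    obtain ⟨A, B, rfl⟩ := hx
    obtain ⟨A', B', rfl⟩ := hy
    refine ⟨A + A', B + B', ?_⟩
    simp only [TensorProduct.tmul_add, smul_add]
    abel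

/-- Complexification of a homomorphism of Lie algebras. -/
def bcHom {L' : Type} [LieRing L'] [LieAlgebra ℝ L'] (e : L →ₗ⁅ℝ⁆ L') :
    (ℂ ⊗[ℝ] L) →ₗ⁅ℂ⁆ (ℂ ⊗[ℝ] L') :=
  { (e : L →ₗ[ℝ] L').baseChange ℂ with
    map_lie' := by
      intro x y
      exact (LieAlgebra.ExtendScalars.map (AlgHom.id ℝ ℂ) e).map_lie x y }

theorem bcHom_tmul {L' : Type} [LieRing L'] [LieAlgebra ℝ L'] (e : L →ₗ⁅ℝ⁆ L') (c : ℂ) (X : L) :
    bcHom e (c ⊗ₜ[ℝ] X) = c ⊗ₜ[ℝ] e X := rfl

/-- The restriction to the real form. -/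
def res (φ : (ℂ ⊗[ℝ] L) →ₗ⁅ℂ⁆ I) : L →+ I where
  toFun X := φ ((1 : ℂ) ⊗ₜ[ℝ] X)
  map_zero' := by simp
  map_add' X Y := by simp [TensorProduct.tmul_add]

variable (φ : (ℂ ⊗[ℝ] L) →ₗ⁅ℂ⁆ I)

theorem res_lie (X Y : L) : res φ ⁅X, Y⁆ = ⁅res φ X, res φ Y⁆ := by
  change φ _ = ⁅φ _, φ _⁆
  rw [← φ.map_lie, LieAlgebra.ExtendScalars.bracket_tmul, mul_one]

theorem res_smul (c : ℝ) (X : L) : res φ (c • X) = (c : ℂ) • res φ X := by
  change φ _ = (c : ℂ) • φ _
  rw [← map_smul, TensorProduct.smul_tmul', ← TensorProduct.smul_tmul]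
  simp

theorem map_re_im (A B : L) :
    φ ((1 : ℂ) ⊗ₜ[ℝ] A + Complex.I • (1 : ℂ) ⊗ₜ[ℝ] B) = res φ A + Complex.I • res φ B := by
  rw [map_add, map_smul]
  rfl

theorem exists_res {φ : (ℂ ⊗[ℝ] L) →ₗ⁅ℂ⁆ I} (hφ : Function.Surjective φ) (w : I) :
    ∃ A B, w = res φ A + Complex.I • res φ B := by
  obtain ⟨z, rfl⟩ := hφ w
  obtain ⟨A, B, rfl⟩ := exists_re_im z
  exact ⟨A, B, map_re_im φ A B⟩

theorem I_I_smul (w : I) : Complex.I • Complex.I • w = -w := by
  rw [smul_smul, Complex.I_mul_I, neg_smul, one_smul]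

theorem smul_eq_re_im (c : ℂ) (w : I) : c • w = (c.re : ℂ) • w + (c.im : ℂ) • Complex.I • w := by
  rw [smul_smul, ← add_smul, Complex.re_add_im]

/-- An invariant inner product. -/
structure Cpt (B : LinearMap.BilinForm ℝ L) : Prop where
  symm : ∀ X Y, B X Y = B Y X
  nonneg : ∀ X, 0 ≤ B X X
  def' : ∀ X, B X X = 0 → X = 0
  inv : ∀ X Y Z : L, B ⁅X, Y⁆ Z = -B Y ⁅X, Z⁆

theorem re_im_eq_zero [LieAlgebra.IsSimple ℂ I] {B : LinearMap.BilinForm ℝ L} (hB : Cpt B)
    (hφ : Function.Surjective φ) (hi : Function.Injective (res φ)) {A A' : L}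
    (h : res φ A + Complex.I • res φ A' = 0) : A = 0 ∧ A' = 0 := by
  let p : LieIdeal ℂ I :=
    { carrier := {z | (∃ X, z = res φ X) ∧ ∃ Y, z = Complex.I • res φ Y}
      zero_mem' := ⟨⟨0, by simp⟩, 0, by simp⟩
      add_mem' := by
        rintro z w ⟨⟨X, hX⟩, Y, hY⟩ ⟨⟨X', hX'⟩, Y', hY'⟩
        exact ⟨⟨X + X', by rw [map_add, hX, hX']⟩, Y + Y', by rw [map_add, smul_add, hY, hY']⟩
      smul_mem' := by
        rintro c z ⟨⟨X, hX⟩, Y, hY⟩
        refine ⟨⟨c.re • X - c.im • Y, ?_⟩, c.re • Y + c.im • X, ?_⟩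
        · rw [smul_eq_re_im, map_sub, res_smul, res_smul, ← hX]
          nth_rw 2 [hY]
          rw [I_I_smul, smul_neg, sub_eq_add_neg]
        · rw [smul_eq_re_im, map_add, res_smul, res_smul, ← hX, smul_add, smul_comm Complex.I,
            ← hY, smul_comm Complex.I]
      lie_mem := by
        rintro w z ⟨⟨X, hX⟩, Y, hY⟩
        obtain ⟨C, D, rfl⟩ := exists_res hφ w
        refine ⟨⟨⁅C, X⁆ - ⁅D, Y⁆, ?_⟩, ⁅C, Y⁆ + ⁅D, X⁆, ?_⟩
        · rw [add_lie, map_sub, res_lie, res_lie, ← hX]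
          nth_rw 2 [hY]
          rw [smul_lie, lie_smul, I_I_smul, sub_eq_add_neg]
        · rw [add_lie, map_add, res_lie, res_lie, ← hX, smul_add, smul_lie,
            ← lie_smul Complex.I (res φ C), ← hY] }
  rcases LieAlgebra.IsSimple.eq_bot_or_eq_top p with hp | hp
  · have h1 : res φ A ∈ p :=
      ⟨⟨A, rfl⟩, -A', by rw [map_neg, smul_neg, eq_neg_iff_add_eq_zero, h]⟩
    rw [hp, LieSubmodule.mem_bot] at h1
    rw [h1, zero_add, smul_eq_zero_iff_right Complex.I_ne_zero] at h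
    exact ⟨hi (by rw [h1, map_zero]), hi (by rw [h, map_zero])⟩
  · have hall : ∀ z, ∃ X, z = res φ X := fun z => (show z ∈ p from hp ▸ LieSubmodule.mem_top z).1
    refine absurd ⟨fun z w => ?_⟩ (LieAlgebra.IsSimple.non_abelian ℂ (L := I))
    obtain ⟨X, rfl⟩ := hall z
    obtain ⟨Y, rfl⟩ := hall w
    obtain ⟨X', hX'⟩ := hall (Complex.I • res φ X)
    have e : ⁅X', ⁅X', Y⁆⁆ = -⁅X, ⁅X, Y⁆⁆ := hi (by
      rw [map_neg, res_lie, res_lie, res_lie, res_lie, ← hX', smul_lie, smul_lie, lie_smul,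
        I_I_smul])
    have h1 := hB.inv X' ⁅X', Y⁆ Y
    have h2 := hB.inv X ⁅X, Y⁆ Y
    rw [e, map_neg, LinearMap.neg_apply, h2] at h1
    have h3 : ⁅X, Y⁆ = 0 :=
      hB.def' _ (le_antisymm (by linarith [hB.nonneg ⁅X', Y⁆]) (hB.nonneg _))
    rw [← res_lie, h3, map_zero]

theorem injective_of_res [LieAlgebra.IsSimple ℂ I] {B : LinearMap.BilinForm ℝ L} (hB : Cpt B)
    (hφ : Function.Surjective φ) (hi : Function.Injective (res φ)) : Function.Injective φ := by
  refine (injective_iff_map_eq_zero φ).2 fun z hz => ?_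
  obtain ⟨A, A', rfl⟩ := exists_re_im z
  rw [map_re_im] at hz
  obtain ⟨rfl, rfl⟩ := re_im_eq_zero φ hB hφ hi hz
  simp

theorem isSimple_of_res [LieAlgebra.IsSimple ℂ I] {B : LinearMap.BilinForm ℝ L} (hB : Cpt B)
    (hφ : Function.Surjective φ) (hi : Function.Injective (res φ)) : LieAlgebra.IsSimple ℝ L where
  eq_bot_or_eq_top h := by
    let q : LieIdeal ℂ I :=
      { carrier := {z | ∃ X ∈ h, ∃ Y ∈ h, z = res φ X + Complex.I • res φ Y}
        zero_mem' := ⟨0, h.zero_mem, 0, h.zero_mem, by simp⟩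
        add_mem' := by
          rintro _ _ ⟨X, hX, Y, hY, rfl⟩ ⟨X', hX', Y', hY', rfl⟩
          refine ⟨X + X', h.add_mem hX hX', Y + Y', h.add_mem hY hY', ?_⟩
          simp only [map_add, smul_add]
          abel
        smul_mem' := by
          rintro c _ ⟨X, hX, Y, hY, rfl⟩
          refine ⟨c.re • X - c.im • Y, h.sub_mem (h.smul_mem _ hX) (h.smul_mem _ hY),
            c.re • Y + c.im • X, h.add_mem (h.smul_mem _ hY) (h.smul_mem _ hX), ?_⟩
          rw [smul_eq_re_im]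
          simp only [map_add, map_sub, res_smul, smul_add, I_I_smul, smul_comm Complex.I, smul_neg]
          abel
        lie_mem := by
          rintro w _ ⟨X, hX, Y, hY, rfl⟩
          obtain ⟨C, D, rfl⟩ := exists_res hφ w
          refine ⟨⁅C, X⁆ - ⁅D, Y⁆, h.sub_mem (h.lie_mem hX) (h.lie_mem hY),
            ⁅C, Y⁆ + ⁅D, X⁆, h.add_mem (h.lie_mem hY) (h.lie_mem hX), ?_⟩
          simp only [map_add, map_sub, res_lie, add_lie, lie_add, smul_lie, lie_smul, smul_add,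
            I_I_smul]
          abel }
    rcases LieAlgebra.IsSimple.eq_bot_or_eq_top q with hq | hq
    · refine Or.inl (eq_bot_iff.2 fun X hX => ?_)
      have h1 : res φ X ∈ q := ⟨X, hX, 0, h.zero_mem, by simp⟩
      rw [hq, LieSubmodule.mem_bot] at h1
      exact hi (by rw [h1, map_zero])
    · refine Or.inr (eq_top_iff.2 fun X _ => ?_)
      obtain ⟨A, hA, A', -, e⟩ : res φ X ∈ q := hq ▸ LieSubmodule.mem_top _
      have := (re_im_eq_zero φ hB hφ hi (A := A - X) (A' := A')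
        (by rw [map_sub, e]; abel)).1
      exact sub_eq_zero.1 this ▸ hA
  non_abelian h := by
    refine LieAlgebra.IsSimple.non_abelian ℂ (L := I) ⟨fun z w => ?_⟩
    obtain ⟨A, A', rfl⟩ := exists_res hφ z
    obtain ⟨C, C', rfl⟩ := exists_res hφ w
    simp [← res_lie, trivial_lie_zero]

/-- A simple quotient of the complexification comes from a simple ideal. -/
theorem exists_ideal [Module.Finite ℝ L] [LieAlgebra.IsSimple ℂ I] {B : LinearMap.BilinForm ℝ L}
    (hB : Cpt B) (hφ : Function.Surjective φ) :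
    ∃ k : LieIdeal ℝ L, LieAlgebra.IsSimple ℝ k ∧ Nonempty ((ℂ ⊗[ℝ] k) ≃ₗ⁅ℂ⁆ I) := by
  let n : Submodule ℝ L :=
    { carrier := {X | res φ X = 0}
      zero_mem' := map_zero _
      add_mem' := fun {X Y} (hX : res φ X = 0) (hY : res φ Y = 0) => by
        change res φ _ = 0
        rw [map_add, hX, hY, add_zero]
      smul_mem' := fun c X (hX : res φ X = 0) => by
        change res φ _ = 0
        rw [res_smul, hX, smul_zero] }
  let k : LieIdeal ℝ L :=
    { B.orthogonal n with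
      lie_mem := fun {X Y} hY Z (hZ : res φ Z = 0) => by
        have h1 : B ⁅X, Z⁆ Y = 0 := hY _ (show res φ _ = 0 by rw [res_lie, hZ, lie_zero])
        rw [hB.inv, neg_eq_zero] at h1
        exact h1 }
  have hd : Disjoint n (B.orthogonal n) :=
    Submodule.disjoint_def.2 fun X h1 h2 => hB.def' X (h2 X h1)
  have hc : IsCompl n (B.orthogonal n) :=
    (LinearMap.BilinForm.isCompl_orthogonal_iff_disjoint fun X Y h => by rw [hB.symm, h]).2 hd
  let φ1 : (ℂ ⊗[ℝ] k) →ₗ⁅ℂ⁆ I := φ.comp (bcHom k.incl)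
  have hr : ∀ X : k, res φ1 X = res φ (X : L) := fun _ => rfl
  have hdec : ∀ X : L, ∃ Y : k, res φ1 Y = res φ X := by
    intro X
    obtain ⟨Z, hZ, Y, hY, rfl⟩ := Submodule.mem_sup.1 (hc.sup_eq_top ▸ Submodule.mem_top (x := X))
    exact ⟨⟨Y, hY⟩, by rw [hr, map_add, show res φ Z = 0 from hZ, zero_add]⟩
  have hs : Function.Surjective φ1 := by
    intro w
    obtain ⟨A, A', rfl⟩ := exists_res hφ w
    obtain ⟨Y, hY⟩ := hdec A
    obtain ⟨Y', hY'⟩ := hdec A'
    exact ⟨_, (map_re_im φ1 Y Y').trans (by rw [hY, hY'])⟩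
  have hi : Function.Injective (res φ1) :=
    (injective_iff_map_eq_zero _).2 fun X hX => Subtype.ext (Submodule.disjoint_def.1 hd _ hX X.2)
  have hB1 : Cpt (L := k) (B.compl₁₂ k.toSubmodule.subtype k.toSubmodule.subtype) :=
    ⟨fun X Y => hB.symm X Y, fun X => hB.nonneg X, fun X h => Subtype.ext (hB.def' X h),
      fun X Y Z => hB.inv X Y Z⟩
  exact ⟨k, isSimple_of_res φ1 hB1 hs hi,
    ⟨LieEquiv.ofBijective φ1 ⟨injective_of_res φ1 hB1 hs hi, hs⟩⟩⟩

theorem exists_skew_basis [Module.Finite ℝ L] {B : LinearMap.BilinForm ℝ L} (hB : Cpt B) :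
    ∃ b : Basis (Fin (finrank ℝ L)) ℝ L, ∀ X, (adM b X)ᵀ = -adM b X := by
  let c : InnerProductSpace.Core ℝ L :=
    { inner := fun X Y => B X Y
      conj_inner_symm := fun X Y => hB.symm Y X
      re_inner_nonneg := hB.nonneg
      add_left := fun X Y Z => by simp
      smul_left := fun X Y r => by simp
      definite := hB.def' }
  let : NormedAddCommGroup L := c.toNormedAddCommGroup
  let : InnerProductSpace ℝ L := InnerProductSpace.ofCore c.toCore
  let b := stdOrthonormalBasis ℝ L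
  refine ⟨b.toBasis, fun X => ?_⟩
  ext i j
  simp only [adM_apply, Matrix.transpose_apply, Matrix.neg_apply, LinearMap.toMatrix_apply,
    b.coe_toBasis, b.coe_toBasis_repr_apply, b.repr_apply_apply, LieAlgebra.ad_apply]
  change B (b j) ⁅X, b i⁆ = -B (b i) ⁅X, b j⁆
  rw [hB.symm, hB.inv]

end Pool.Agent.P.MP_d483fb_an.Z.SR
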