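import Pool.Agent.P.MP_d483fb_an.Z.SR.Defs

open scoped Topology ENNReal
open MeasureTheory Filter Set

set_option linter.unusedSectionVars false

noncomputable section

namespace Pool.Agent.P.MP_d483fb_an.Z.SR

variable {k V : Type} [NontriviallyNormedField k] [ProperSpace k] [NormedAddCommGroup V] [NormedSpace k V]
  [FiniteDimensional k V]
  [ProperSpace V] [MeasurableSpace V] [BorelSpace V] (ν : Measure V) [ν.IsAddHaarMeasure]

/-- An operator of large norm expands some vector of the unit ball. -/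
theorem exists_long (C' : ℝ) (hC : 0 ≤ C') : ∃ C : ℝ, ∀ T : V →L[k] V, C ≤ ‖T‖ →
    ∃ v : V, ‖v‖ ≤ 1 ∧ C' ≤ ‖T v‖ := by
  obtain ⟨c, hc⟩ := NormedField.exists_one_lt_norm k
  have hc0 : 0 < ‖c‖ := one_pos.trans hc
  refine ⟨C' * ‖c‖ + 1, fun T hT => ?_⟩
  by_contra h
  push Not at h
  have : ‖T‖ ≤ C' * ‖c‖ := by
    refine ContinuousLinearMap.opNorm_le_of_shell one_pos (by positivity) hc fun x h1 h2 => ?_
    have h3 := (h x h2.le).le
    rw [div_le_iff₀ hc0] at h1
    nlinarith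
  linarith

theorem vol_thin (R : ℝ) {δ : ℝ≥0∞} (hδ : δ ≠ 0) : ∃ C : ℝ, ∀ T : V →L[k] V, C ≤ ‖T‖ →
    ν (Metric.closedBall 0 R ∩ T ⁻¹' Metric.closedBall 0 R) < δ := by
  obtain ⟨q, hq0, hq1⟩ := NormedField.exists_norm_lt_one k
  have hfin : ν (Metric.closedBall 0 (R + 1)) ≠ ∞ :=
    (isCompact_closedBall (0 : V) (R + 1)).measure_lt_top.ne
  obtain ⟨N, hN⟩ := ENNReal.exists_nat_mul_gt hδ hfin
  have hev : ∀ᶠ C : ℝ in atTop, ∀ i j : Fin N, i ≠ j →
      2 * R < ‖q ^ (i : ℕ) - q ^ (j : ℕ)‖ * C := by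
    refine eventually_all.2 fun i => eventually_all.2 fun j => ?_
    by_cases hij : i = j
    · exact Eventually.of_forall fun _ h => absurd hij h
    · have hpos : 0 < ‖q ^ (i : ℕ) - q ^ (j : ℕ)‖ := by
        rw [norm_pos_iff, sub_ne_zero]
        intro e
        have e2 := congrArg norm e
        rw [norm_pow, norm_pow] at e2
        exact hij (Fin.ext (pow_right_injective₀ hq0 hq1.ne e2))
      exact ((tendsto_id.const_mul_atTop hpos).eventually_gt_atTop (2 * R)).mono fun _ h _ => h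
  obtain ⟨C', hC', hC0⟩ := (hev.and (eventually_ge_atTop 0)).exists
  obtain ⟨C, hC⟩ := exists_long (k := k) (V := V) C' hC0
  refine ⟨C, fun T hT => ?_⟩
  obtain ⟨v, hv1, hv2⟩ := hC T hT
  set S : Set V := Metric.closedBall 0 R ∩ T ⁻¹' Metric.closedBall 0 R with hS
  have hSm : MeasurableSet S :=
    measurableSet_closedBall.inter (T.continuous.measurable measurableSet_closedBall)
  let A : Fin N → Set V := fun j => (fun x => x + q ^ (j : ℕ) • v) ⁻¹' S
  have hAm : ∀ j, MeasurableSet (A j) := fun j => (measurable_add_const _) hSm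
  have hAd : Pairwise (Function.onFun Disjoint A) := by
    intro i j hij
    refine Set.disjoint_left.2 fun x hi hj => ?_
    have h1 : ‖T (x + q ^ (i : ℕ) • v)‖ ≤ R := by simpa using hi.2
    have h2 : ‖T (x + q ^ (j : ℕ) • v)‖ ≤ R := by simpa using hj.2
    have h3 : (q ^ (i : ℕ) - q ^ (j : ℕ)) • T v =
        T (x + q ^ (i : ℕ) • v) - T (x + q ^ (j : ℕ) • v) := by
      simp [sub_smul]
    have h4 := norm_sub_le (T (x + q ^ (i : ℕ) • v)) (T (x + q ^ (j : ℕ) • v))
    rw [← h3, norm_smul] at h4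
    have h5 := hC' i j hij
    have h6 := mul_le_mul_of_nonneg_left hv2 (norm_nonneg (q ^ (i : ℕ) - q ^ (j : ℕ)))
    linarith
  have hAs : ⋃ j, A j ⊆ Metric.closedBall 0 (R + 1) := by
    refine iUnion_subset fun j x hx => ?_
    have h1 : ‖x + q ^ (j : ℕ) • v‖ ≤ R := by simpa using hx.1
    have h2 : ‖q ^ (j : ℕ) • v‖ ≤ 1 := by
      rw [norm_smul, norm_pow]
      exact mul_le_one₀ (pow_le_one₀ hq0.le hq1.le) (norm_nonneg _) hv1
    have h3 := norm_sub_le (x + q ^ (j : ℕ) • v) (q ^ (j : ℕ) • v)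
    rw [add_sub_cancel_right] at h3
    rw [mem_closedBall_zero_iff]
    linarith
  have hm := measure_mono (μ := ν) hAs
  rw [measure_iUnion hAd hAm, tsum_fintype] at hm
  have hA : ∀ j, ν (A j) = ν S := fun j => measure_preimage_add_right ν _ S
  simp only [hA, Finset.sum_const, Finset.card_univ, Fintype.card_fin, nsmul_eq_mul] at hm
  by_contra h
  exact absurd (hN.trans_le ((mul_le_mul_right (not_lt.1 h) _).trans hm)) (lt_irrefl _)

include k in
theorem vol_ball : ∃ c D : ℝ, 0 < c ∧ 0 ≤ D ∧ ∀ t : ℝ, 0 ≤ t →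
    ENNReal.ofReal (c * Real.exp (-(D * t))) ≤ ν (Metric.closedBall 0 (Real.exp (-t))) := by
  obtain ⟨p, hp⟩ := NormedField.exists_one_lt_norm k
  have hp0 : 0 < ‖p‖ := one_pos.trans hp
  have hpn : p ≠ 0 := norm_pos_iff.1 hp0
  let φ : V ≃ₜ+ V :=
    (ContinuousLinearEquiv.smulLeft (R₁ := k) (M₁ := V) (Units.mk0 p hpn)).toContinuousAddEquiv
  have hφ : ∀ x, φ x = p • x := fun x => rfl
  set L := Real.log ‖p‖ with hL
  have hL0 : 0 < L := Real.log_pos hp
  set E : ℝ := ((addEquivAddHaarChar φ : NNReal) : ℝ) with hE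
  have hE0 : 0 ≤ E := NNReal.coe_nonneg _
  have hfin : ∀ r : ℝ, ν (Metric.closedBall 0 r) ≠ ∞ := fun r =>
    (isCompact_closedBall (0 : V) r).measure_lt_top.ne
  let m : ℕ → ℝ := fun j => ν.real (Metric.closedBall 0 (Real.exp (-(j * L))))
  have hm0 : 0 < m 0 := by
    refine ENNReal.toReal_pos (Metric.measure_closedBall_pos ν _ (Real.exp_pos _)).ne' (hfin _)
  have hstep : ∀ j, m j = E * m (j + 1) := by
    intro j
    have h1 := addEquivAddHaarChar_smul_preimage ν
      (X := Metric.closedBall (0 : V) (Real.exp (-(j * L)))) φ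
    have h2 : φ ⁻¹' Metric.closedBall (0 : V) (Real.exp (-(j * L))) =
        Metric.closedBall (0 : V) (Real.exp (-(((j + 1 : ℕ) : ℝ) * L))) := by
      ext x
      have e : Real.exp (-(j * L)) = ‖p‖ * Real.exp (-(((j + 1 : ℕ) : ℝ) * L)) := by
        conv_rhs => rw [← Real.exp_log hp0, ← Real.exp_add]
        congr 1
        push_cast
        ring
      rw [mem_preimage, hφ, mem_closedBall_zero_iff, mem_closedBall_zero_iff, norm_smul, e,
        mul_le_mul_iff_right₀ hp0]
    rw [h2] at h1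
    have h3 := congrArg ENNReal.toReal h1
    rw [ENNReal.toReal_smul] at h3
    exact h3.symm
  have hlow : ∀ j : ℕ, m 0 * Real.exp (-(E * j)) ≤ m j := by
    intro j
    induction j with
    | zero => simp
    | succ j ih =>
      have h1 : E ≤ Real.exp E := by linarith [Real.add_one_le_exp E]
      have h2 : 0 ≤ m (j + 1) := measureReal_nonneg
      have h3 : m j ≤ Real.exp E * m (j + 1) := by
        rw [hstep j]
        exact mul_le_mul_of_nonneg_right h1 h2
      have h4 : Real.exp (-(E * j)) = Real.exp E * Real.exp (-(E * ((j + 1 : ℕ) : ℝ))) := by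
        rw [← Real.exp_add]
        congr 1
        push_cast
        ring
      rw [h4, mul_left_comm] at ih
      exact le_of_mul_le_mul_left (ih.trans h3) (Real.exp_pos E)
  refine ⟨m 0 * Real.exp (-E), E / L, by positivity, by positivity, fun t ht => ?_⟩
  have h1 : t / L ≤ (⌈t / L⌉₊ : ℝ) := Nat.le_ceil _
  have h2 : (⌈t / L⌉₊ : ℝ) ≤ t / L + 1 := (Nat.ceil_lt_add_one (by positivity)).le
  have h3 : Real.exp (-(⌈t / L⌉₊ * L)) ≤ Real.exp (-t) := by
    rw [div_le_iff₀ hL0] at h1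
    exact Real.exp_le_exp.2 (neg_le_neg h1)
  refine le_trans ?_ (measure_mono (Metric.closedBall_subset_closedBall h3))
  refine ENNReal.ofReal_le_of_le_toReal (le_trans ?_ (hlow ⌈t / L⌉₊))
  rw [mul_assoc, ← Real.exp_add]
  refine mul_le_mul_of_nonneg_left (Real.exp_le_exp.2 ?_) hm0.le
  have h4 := mul_le_mul_of_nonneg_left h2 hE0
  have h5 : E / L * t = E * (t / L) := by ring
  linarith

theorem norm_ge_of_mp [Nontrivial V] :
    ∃ r : ℝ, 0 < r ∧ ∀ T : V →L[k] V, MeasurePreserving T ν ν → r ≤ ‖T‖ := by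
  obtain ⟨C, hC⟩ := vol_thin (k := k) ν 1 (Metric.measure_closedBall_pos ν (0 : V) one_pos).ne'
  obtain ⟨c, hc⟩ := NormedField.exists_lt_norm k (max C 1)
  have hc1 : 1 < ‖c‖ := (le_max_right _ _).trans_lt hc
  have hc0 : 0 < ‖c‖ := one_pos.trans hc1
  have h1 := hC (c • ContinuousLinearMap.id k V) (by
    rw [norm_smul, ContinuousLinearMap.norm_id, mul_one]
    exact ((le_max_left _ _).trans_lt hc).le)
  refine ⟨‖c‖⁻¹, by positivity, fun T hT => ?_⟩
  by_contra h
  have h2 : Metric.closedBall (0 : V) 1 ⊆ T ⁻¹' Metric.closedBall 0 ‖c‖⁻¹ := by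
    intro x hx
    rw [mem_closedBall_zero_iff] at hx
    rw [mem_preimage, mem_closedBall_zero_iff]
    exact (T.le_of_opNorm_le_of_le (not_le.1 h).le hx).trans_eq (mul_one _)
  have h3 : Metric.closedBall (0 : V) ‖c‖⁻¹ ⊆ Metric.closedBall 0 1 ∩
      (c • ContinuousLinearMap.id k V) ⁻¹' Metric.closedBall 0 1 := by
    intro x hx
    rw [mem_closedBall_zero_iff] at hx
    refine ⟨mem_closedBall_zero_iff.2 (hx.trans (inv_le_one_of_one_le₀ hc1.le)), ?_⟩
    rw [mem_preimage, mem_closedBall_zero_iff]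
    change ‖c • x‖ ≤ 1
    rw [norm_smul]
    exact (mul_le_mul_of_nonneg_left hx hc0.le).trans_eq (mul_inv_cancel₀ hc0.ne')
  have h4 := measure_mono (μ := ν) h2
  rw [hT.measure_preimage measurableSet_closedBall.nullMeasurableSet] at h4
  exact absurd ((h4.trans (measure_mono h3)).trans_lt h1) (lt_irrefl _)

theorem mp_of_noChar {Λ : Type} [Group Λ] (h : NoChar Λ) (π : Λ →* (V →L[k] V)) (γ : Λ) :
    MeasurePreserving (π γ) ν ν := by
  have hinv : ∀ (g : Λ) (x : V), π g⁻¹ (π g x) = x := fun g x => by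
    rw [← mul_apply_eq_comp, ← map_mul, inv_mul_cancel, map_one, one_apply_eq_self]
  let φ : Λ → V ≃ₜ+ V := fun g =>
    (ContinuousLinearEquiv.equivOfInverse (π g) (π g⁻¹) (hinv g)
      (fun x => by simpa using hinv g⁻¹ x)).toContinuousAddEquiv
  have hφ : ∀ g x, φ g x = π g x := fun g x => rfl
  have hmul : ∀ g d, φ (g * d) = (φ d).trans (φ g) := by
    intro g d
    ext x
    rw [hφ, map_mul]
    rfl
  have hpos : ∀ g, (0 : ℝ) < addEquivAddHaarChar (φ g) := fun g =>
    NNReal.coe_pos.2 (addEquivAddHaarChar_pos _)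
  have h0 := h (fun g => Real.log (addEquivAddHaarChar (φ g))) (fun g d => by
    rw [hmul, addEquivAddHaarChar_trans, NNReal.coe_mul, Real.log_mul (hpos d).ne' (hpos g).ne',
      add_comm]) γ
  have h1 : addEquivAddHaarChar (φ γ) = 1 :=
    NNReal.coe_eq_one.1 (Real.eq_one_of_pos_of_log_eq_zero (hpos γ) h0)
  have h2 := addEquivAddHaarChar_smul_map ν (φ γ)
  rw [h1, one_smul] at h2
  exact ⟨(π γ).continuous.measurable, h2⟩

end Pool.Agent.P.MP_d483fb_an.Z.SR
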