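import Pool.Agent.P.MP_d483fb_an.Z.Lie.Closed
import Pool.Agent.P.MP_d483fb_an.Z.SR.CptForm

/-! The closure of the image of an orthogonal representation and its Lie algebra. -/

open Set Filter Topology NormedSpace Module
open scoped Matrix Matrix.Norms.Operator

set_option linter.unusedSectionVars false

attribute [local instance 100] LieRing.ofAssociativeRing

noncomputable section

namespace Pool.Agent.P.MP_d483fb_an.Z.SR

variable {N : ℕ}

/-- The exponential as a unit. -/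
def exU (X : Mat N) : (Mat N)ˣ := ⟨exp X, exp (-X), exp_mul_exp_neg X, exp_neg_mul_exp X⟩

theorem map_val : Filter.map Units.val (𝓝 (1 : (Mat N)ˣ)) = 𝓝 (1 : Mat N) :=
  (Units.isOpenEmbedding_val (R := Mat N)).map_nhds_eq 1

theorem continuous_exp : Continuous (exp : Mat N → Mat N) := exp_continuous

/-- The general linear group. -/
def glData (N : ℕ) : ExpData (Mat N)ˣ N where
  ρ := Units.coeHom _
  g := ⊤
  ex := exU
  cont := Units.continuous_val
  ρ_ex _ _ := rfl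
  ex_cont := ((Units.continuous_iff (f := exU)).2
    ⟨continuous_exp, continuous_exp.comp continuous_neg⟩).continuousOn
  ex_zero := Units.ext exp_zero
  ex_nhds := by
    apply Filter.map_injective Units.val_injective
    rw [Submodule.top_coe, nhdsWithin_univ, Filter.map_map, map_val]
    exact map_exp_nhds
  disc := Eventually.of_forall fun _ h => Units.ext h
  Ad_mem' _ _ _ := Submodule.mem_top

/-- A closed group of orthogonal matrices. -/
structure OGrp (S : Set (Mat N)) : Prop where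
  closed : IsClosed S
  one : (1 : Mat N) ∈ S
  mul : ∀ A ∈ S, ∀ B ∈ S, A * B ∈ S
  tr : ∀ A ∈ S, Aᵀ ∈ S
  orth : ∀ A ∈ S, A * Aᵀ = 1

namespace OGrp

variable {S : Set (Mat N)} (h : OGrp S)
include h

theorem orth' {A : Mat N} (hA : A ∈ S) : Aᵀ * A = 1 := mul_eq_one_comm.1 (h.orth A hA)

theorem compact : IsCompact S := isCompact_orth h.closed h.orth

theorem pow {A : Mat N} (hA : A ∈ S) (n : ℕ) : A ^ n ∈ S := by
  induction n with
  | zero => simpa using h.one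
  | succ n ih => exact pow_succ A n ▸ h.mul _ ih _ hA

/-- The corresponding subgroup of the general linear group. -/
def sub : Subgroup (Mat N)ˣ where
  carrier := {u | u.1 ∈ S}
  one_mem' := h.one
  mul_mem' hu hv := h.mul _ hu _ hv
  inv_mem' {u} hu := by
    have : ((u⁻¹ : (Mat N)ˣ) : Mat N) = u.1ᵀ := Units.inv_eq_of_mul_eq_one_right (h.orth _ hu)
    change ((u⁻¹ : (Mat N)ˣ) : Mat N) ∈ S
    exact this ▸ h.tr _ hu

theorem sub_closed : IsClosed (h.sub : Set (Mat N)ˣ) := h.closed.preimage Units.continuous_val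

theorem mem_lie {X : Mat N} : X ∈ (glData N).lie h.sub ↔ X ∈ lieSet S :=
  ((glData N).mem_lie h.sub_closed).trans ⟨fun a => a.2, fun a => ⟨Submodule.mem_top, a⟩⟩

theorem mem_lieAlg {X : Mat N} : X ∈ lieAlg S ↔ ∀ t : ℝ, exp (t • X) ∈ S := by
  refine ⟨fun hX => h.mem_lie.1 ?_, fun hX => LieSubalgebra.subset_lieSpan hX⟩
  let l : LieSubalgebra ℝ (Mat N) :=
    { (glData N).lie h.sub with lie_mem' := fun hX hY => (glData N).lie_isSub _ _ hX _ hY }
  exact (LieSubalgebra.lieSpan_le (K := l)).2 (fun Y hY => h.mem_lie.2 hY) hX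

theorem exp_mem {X : Mat N} (hX : X ∈ lieAlg S) : exp X ∈ S := by
  simpa using h.mem_lieAlg.1 hX 1

theorem skew {X : Mat N} (hX : X ∈ lieAlg S) : Xᵀ = -X := by
  refine eq_of_exp_smul_eq (Eventually.of_forall fun t => ?_)
  have h1 := h.orth _ (h.mem_lieAlg.1 hX t)
  have h2 : (exp (t • X))ᵀ = exp (-(t • X)) := by
    rw [← one_mul (exp (t • X))ᵀ, ← exp_neg_mul_exp (t • X), mul_assoc, h1, mul_one]
  rw [← Matrix.transpose_smul, smul_neg]
  exact (Matrix.exp_transpose _).trans h2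

theorem conj_mem {A X : Mat N} (hA : A ∈ S) (hX : X ∈ lieAlg S) : A * X * Aᵀ ∈ lieAlg S := by
  refine h.mem_lieAlg.2 fun t => ?_
  have e : A * exp (t • X) * Aᵀ = exp (A * (t • X) * Aᵀ) := exp_conj (h.orth A hA) (h.orth' hA) _
  rw [← smul_mul_assoc, ← mul_smul_comm, ← e]
  exact h.mul _ (h.mul _ hA _ (h.mem_lieAlg.1 hX t)) _ (h.tr A hA)

/-- Exponentials fill a neighbourhood of the identity. -/
theorem nhds : ∀ᶠ A in 𝓝 (1 : Mat N), A ∈ S → ∃ X ∈ lieAlg S, exp X = A := by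
  have h1 := (glData N).lg_mem_lie h.sub_closed
  have h2 : ∀ᶠ u in 𝓝 (1 : (Mat N)ˣ), u.1 ∈ S → ∃ X ∈ lieAlg S, exp X = u.1 := by
    filter_upwards [h1, (glData N).ex_lg] with u hu hu' hS
    exact ⟨_, h.mem_lieAlg.2 (h.mem_lie.1 (hu hS)), congrArg Units.val hu'.2⟩
  rw [← map_val]
  exact h2

end OGrp

variable {Γ : Type} [Group Γ] {ρ : Γ →* Mat N} (hρ : ∀ γ, ρ γ * (ρ γ)ᵀ = 1)
include hρ

theorem rho_inv (γ : Γ) : ρ γ⁻¹ = (ρ γ)ᵀ := by
  rw [← mul_one (ρ γ⁻¹), ← hρ γ, ← mul_assoc, ← map_mul, inv_mul_cancel, map_one, one_mul]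

theorem oGrp_closure : OGrp (closure (range ρ)) where
  closed := isClosed_closure
  one := subset_closure ⟨1, map_one ρ⟩
  mul A hA B hB := map_mem_closure₂ continuous_mul hA hB (by
    rintro _ ⟨γ, rfl⟩ _ ⟨δ, rfl⟩
    exact ⟨γ * δ, map_mul ρ γ δ⟩)
  tr A hA := map_mem_closure (f := fun A : Mat N => Aᵀ) (by fun_prop) hA (by
    rintro _ ⟨γ, rfl⟩
    exact ⟨γ⁻¹, rho_inv hρ γ⟩)
  orth A hA := closure_minimal (t := {A : Mat N | A * Aᵀ = 1}) (by rintro _ ⟨γ, rfl⟩; exact hρ γ)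
    (isClosed_eq (by fun_prop) continuous_const) hA

theorem finiteIndex_of_nhds (Λ : Subgroup Γ) (h : ∀ᶠ A in 𝓝 (1 : Mat N), ∀ γ, ρ γ = A → γ ∈ Λ) :
    Λ.FiniteIndex := by
  obtain ⟨U, hU, hUo, hU1⟩ := eventually_nhds_iff.1 h
  have hS := oGrp_closure hρ
  obtain ⟨F, hF⟩ := hS.compact.elim_finite_subcover (fun γ => {B : Mat N | ρ γ⁻¹ * B ∈ U})
    (fun γ => hUo.preimage (by fun_prop)) (fun A hA => by
      have h1 : {B : Mat N | Bᵀ * A ∈ U} ∈ 𝓝 A :=
        (hUo.preimage (by fun_prop)).mem_nhds (show Aᵀ * A ∈ U from hS.orth' hA ▸ hU1)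
      obtain ⟨_, h2, γ, rfl⟩ := mem_closure_iff_nhds.1 hA _ h1
      exact mem_iUnion.2 ⟨γ, show ρ γ⁻¹ * A ∈ U from rho_inv hρ γ ▸ h2⟩)
  have : Finite (Γ ⧸ Λ) := by
    refine Finite.of_surjective (fun γ : F => ((γ : Γ) : Γ ⧸ Λ)) fun q => ?_
    obtain ⟨δ, rfl⟩ := QuotientGroup.mk_surjective q
    obtain ⟨γ, hγ, h2⟩ := mem_iUnion₂.1 (hF (subset_closure ⟨δ, rfl⟩))
    exact ⟨⟨γ, hγ⟩, QuotientGroup.eq.2 (hU _ h2 _ (map_mul ρ _ _))⟩
  exact Subgroup.finiteIndex_of_finite_quotient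

theorem finiteIndex_of_exp (Λ : Subgroup Γ)
    (h : ∀ γ, ∀ X ∈ lieAlg (closure (range ρ)), exp X = ρ γ → γ ∈ Λ) : Λ.FiniteIndex := by
  refine finiteIndex_of_nhds hρ Λ ?_
  filter_upwards [(oGrp_closure hρ).nhds] with A hA γ hγ
  obtain ⟨X, hX, e⟩ := hA (subset_closure ⟨γ, hγ⟩)
  exact h γ X hX (e.trans hγ.symm)

/-- A closed set that contains the image of a subgroup of finite index contains all exponentials. -/
theorem exp_mem_of_finiteIndex (Λ : Subgroup Γ) [Λ.FiniteIndex] {P : Set (Mat N)} (hP : IsClosed P)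
    (h : ∀ γ ∈ Λ, ρ γ ∈ P) {X : Mat N} (hX : X ∈ lieAlg (closure (range ρ))) (t : ℝ) :
    exp (t • X) ∈ P := by
  have hn : Λ.normalCore.index ≠ 0 := Subgroup.FiniteIndex.index_ne_zero
  set n := Λ.normalCore.index
  have h1 : exp ((t / n) • X) ^ n ∈ closure P :=
    map_mem_closure (f := fun A : Mat N => A ^ n) (by fun_prop)
      ((oGrp_closure hρ).mem_lieAlg.1 hX (t / n)) (by
        rintro _ ⟨γ, rfl⟩
        have := h _ (Λ.normalCore_le (Λ.normalCore.pow_index_mem γ))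
        rwa [map_pow] at this)
  rwa [hP.closure_eq, ← Matrix.exp_nsmul, ← Nat.cast_smul_eq_nsmul ℝ, smul_smul,
    mul_div_cancel₀ _ (Nat.cast_ne_zero.2 hn)] at h1

theorem finite_of_lieAlg_eq_bot (h : lieAlg (closure (range ρ)) = ⊥) : (range ρ).Finite := by
  have : ρ.ker.FiniteIndex := finiteIndex_of_exp hρ _ fun γ X hX e => by
    rw [h, LieSubalgebra.mem_bot] at hX
    rw [MonoidHom.mem_ker, ← e, hX, exp_zero]
  refine (finite_range fun q : Γ ⧸ ρ.ker => ρ q.out).subset ?_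
  rintro _ ⟨γ, rfl⟩
  obtain ⟨k, hk⟩ := QuotientGroup.mk_out_eq_mul ρ.ker γ
  exact ⟨(γ : Γ ⧸ ρ.ker), by simp only [hk, map_mul, MonoidHom.mem_ker.1 k.2, mul_one]⟩

end Pool.Agent.P.MP_d483fb_an.Z.SR
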