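import Pool.Agent.P.MP_d483fb_an.Z.SR.Wrap1
import Pool.Agent.P.MP_d483fb_an.Z.SR.Defs

/-! The Lie algebra of the closure of the image has trivial centre. -/

open Set Filter Topology NormedSpace Module
open scoped Matrix Matrix.Norms.Operator

set_option linter.unusedSectionVars false

attribute [local instance 100] LieRing.ofAssociativeRing

noncomputable section

namespace Pool.Agent.P.MP_d483fb_an.Z.SR

theorem NoChar.isOfFinOrder {Λ A : Type} [Group Λ] [CommGroup A] (h : NoChar Λ) (χ : Λ →* A)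
    (γ : Λ) : IsOfFinOrder (χ γ) := by
  by_contra hn
  obtain ⟨f, hf⟩ := (Module.Baer.of_divisible ℝ).extension_property_addMonoidHom
    (zmultiplesHom (Additive A) (Additive.ofMul (χ γ)))
    (fun a b hab => injective_zpow_iff_not_isOfFinOrder.2 hn hab) (Int.castAddHom ℝ)
  have h1 := h (fun δ => f (Additive.ofMul (χ δ))) (fun δ δ' => by simp) γ
  have h2 := DFunLike.congr_fun hf 1
  simp [h1] at h2

theorem NoChar.exists_exponent {Λ A : Type} [Group Λ] [Group.FG Λ] [CommGroup A] (h : NoChar Λ)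
    (χ : Λ →* A) : ∃ e : ℕ, e ≠ 0 ∧ ∀ γ, χ γ ^ e = 1 := by
  have : Finite χ.range := CommGroup.finite_of_fg_isMulTorsion _ (by
    rintro ⟨_, γ, rfl⟩
    exact (χ.range.subtype_injective.isOfFinOrder_iff).1 (h.isOfFinOrder χ γ))
  exact ⟨Nat.card χ.range, Nat.card_pos.ne', fun γ =>
    congrArg Subtype.val (pow_card_eq_one' (x := (⟨χ γ, γ, rfl⟩ : χ.range)))⟩

variable {N : ℕ}

theorem exists_frame (V : Submodule ℂ (Fin N → ℂ)) :
    ∃ (B : Matrix (Fin N) (Fin (finrank ℂ V)) ℂ) (C : Matrix (Fin (finrank ℂ V)) (Fin N) ℂ),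
      C * B = 1 ∧ (∀ v, B *ᵥ v ∈ V) ∧ ∀ v ∈ V, B *ᵥ (C *ᵥ v) = v := by
  obtain ⟨p, hp⟩ := V.subtype.exists_leftInverse_of_injective V.ker_subtype
  have hp' : ∀ v : V, p v = v := LinearMap.congr_fun hp
  let e := (Module.finBasis ℂ V).equivFun
  refine ⟨LinearMap.toMatrix' (V.subtype ∘ₗ e.symm.toLinearMap),
    LinearMap.toMatrix' (e.toLinearMap ∘ₗ p), ?_, fun v => ?_, fun v hv => ?_⟩
  · rw [← LinearMap.toMatrix'_comp, ← LinearMap.toMatrix'_id]
    congr 1
    exact LinearMap.ext fun v => by simp [hp']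
  · rw [LinearMap.toMatrix'_mulVec]
    exact (e.symm v).2
  · rw [LinearMap.toMatrix'_mulVec, LinearMap.toMatrix'_mulVec]
    simpa using congrArg Subtype.val (hp' ⟨v, hv⟩)

/-- Complexification of a matrix. -/
def cx : Mat N →ₐ[ℝ] Matrix (Fin N) (Fin N) ℂ := Complex.ofRealAm.mapMatrix

theorem cx_exp_mulVec {Z : Mat N} {μ : ℂ} {v : Fin N → ℂ} (h : cx Z *ᵥ v = μ • v) (t : ℝ) :
    cx (exp (t • Z)) *ᵥ v = Complex.exp (t * μ) • v := by
  let T : Mat N →L[ℝ] Fin N → ℂ := LinearMap.toContinuousLinearMap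
    { toFun := fun A => cx A *ᵥ v
      map_add' := fun A B => by rw [map_add, Matrix.add_mulVec]
      map_smul' := fun c A => by rw [map_smul, Matrix.smul_mulVec, RingHom.id_apply] }
  have hT : ∀ s : ℝ, HasDerivAt (fun s : ℝ => cx (exp (s • Z)) *ᵥ v)
      (μ • (cx (exp (s • Z)) *ᵥ v)) s := by
    intro s
    have h1 : HasDerivAt (fun s : ℝ => cx (exp (s • Z)) *ᵥ v) (cx (exp (s • Z) * Z) *ᵥ v) s :=
      T.hasFDerivAt.comp_hasDerivAt s (hasDerivAt_exp_smul_const (𝕂 := ℝ) Z s)
    rwa [map_mul, ← Matrix.mulVec_mulVec, h, Matrix.mulVec_smul] at h1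
  have hE : ∀ s : ℝ, HasDerivAt (fun s : ℝ => Complex.exp (-(s * μ)))
      (Complex.exp (-(s * μ)) * -μ) s := by
    intro s
    simpa using ((Complex.ofRealCLM.hasDerivAt (x := s)).mul_const μ).neg.cexp
  have hf : ∀ s : ℝ, HasDerivAt (fun s : ℝ => Complex.exp (-(s * μ)) • (cx (exp (s • Z)) *ᵥ v))
      0 s := by
    intro s
    refine ((hE s).smul (hT s)).congr_deriv ?_
    rw [smul_smul, mul_neg, neg_smul, add_neg_cancel]
  have h0 := is_const_of_deriv_eq_zero (fun s => (hf s).differentiableAt) (fun s => (hf s).deriv) t 0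
  simp only [Complex.ofReal_zero, zero_mul, neg_zero, Complex.exp_zero, zero_smul, exp_zero,
    map_one, Matrix.one_mulVec, one_smul] at h0
  conv_rhs => rw [← h0, smul_smul, ← Complex.exp_add, add_neg_cancel, Complex.exp_zero, one_smul]

theorem exists_eig {Z : Mat N} (hZ : Zᵀ = -Z) (h0 : Z ≠ 0) :
    ∃ (μ : ℂ) (v : Fin N → ℂ), μ ≠ 0 ∧ v ≠ 0 ∧ cx Z *ᵥ v = μ • v := by
  have hH : (Complex.I • cx Z).IsHermitian := by
    ext i j
    have := congrFun (congrFun hZ i) j
    simp only [Matrix.transpose_apply, Matrix.neg_apply] at this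
    simp [cx, Matrix.conjTranspose_apply, this]
  obtain ⟨v, t, ht, hv, h⟩ := hH.exists_eigenvector_of_ne_zero (by
    refine smul_ne_zero Complex.I_ne_zero fun h => h0 ?_
    ext i j
    simpa [cx] using congrFun (congrFun h i) j)
  refine ⟨-Complex.I * t, v, mul_ne_zero (neg_ne_zero.2 Complex.I_ne_zero) (by simpa using ht), hv, ?_⟩
  rw [Matrix.smul_mulVec] at h
  rw [mul_smul, Complex.coe_smul, ← h, smul_smul]
  simp

variable {Γ : Type} [Group Γ] {ρ : Γ →* Mat N} (hρ : ∀ γ, ρ γ * (ρ γ)ᵀ = 1)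
include hρ

theorem central_eq_zero [Group.FG Γ] (h : ∀ Λ : Subgroup Γ, Λ.FiniteIndex → NoChar Λ) {Z : Mat N}
    (hZ : Z ∈ lieAlg (closure (range ρ))) (hc : ∀ X ∈ lieAlg (closure (range ρ)), X * Z = Z * X) :
    Z = 0 := by
  by_contra h0
  obtain ⟨μ, v, hμ, hv, he⟩ := exists_eig ((oGrp_closure hρ).skew hZ) h0
  let Λ : Subgroup Γ :=
    { carrier := {γ | Commute (ρ γ) Z}
      one_mem' := by simp
      mul_mem' := fun {γ δ} (h1 : Commute _ _) (h2 : Commute _ _) => by
        change Commute _ _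
        rw [map_mul]
        exact h1.mul_left h2
      inv_mem' := fun {γ} (h1 : Commute _ _) => by
        have := Commute.units_inv_left (u := ρ.toHomUnits γ) h1
        rwa [← map_inv] at this }
  have : Λ.FiniteIndex := finiteIndex_of_exp hρ Λ fun γ X hX e => by
    change Commute _ _
    rw [← e]
    exact Commute.exp_left (hc X hX)
  let V : Submodule ℂ (Fin N → ℂ) := Module.End.eigenspace (Matrix.toLin' (cx Z)) μ
  have hV : ∀ w, w ∈ V ↔ cx Z *ᵥ w = μ • w := fun w => Module.End.mem_eigenspace_iff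
  obtain ⟨B, C, hCB, hB, hBC⟩ := exists_frame V
  have hr : finrank ℂ V ≠ 0 := fun h => hv (by
    have := (hV v).2 he
    rwa [Submodule.finrank_eq_zero.1 h, Submodule.mem_bot] at this)
  let χ : Λ →* ℂ :=
    { toFun := fun γ => (C * cx (ρ γ) * B).det
      map_one' := by simp [hCB]
      map_mul' := fun γ δ => by
        have e : B * (C * (cx (ρ δ) * B)) = cx (ρ δ) * B := by
          refine Matrix.toLin'.injective (LinearMap.ext fun w => ?_)
          simp only [Matrix.toLin'_apply, ← Matrix.mulVec_mulVec]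
          refine hBC _ ((hV _).2 ?_)
          rw [Matrix.mulVec_mulVec, ← map_mul, ← (show Commute _ _ from δ.2).eq, map_mul,
            ← Matrix.mulVec_mulVec, (hV _).1 (hB w), Matrix.mulVec_smul]
        rw [← Matrix.det_mul, Subgroup.coe_mul, map_mul, map_mul]
        simp only [Matrix.mul_assoc, e] }
  obtain ⟨e, he0, hχ⟩ := (h Λ this).exists_exponent χ.toHomUnits
  have hcx : Continuous (cx : Mat N → Matrix (Fin N) (Fin N) ℂ) :=
    cx.toLinearMap.continuous_of_finiteDimensional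
  have h1 : ∀ t : ℝ, Complex.exp (t * (μ * (finrank ℂ V * e))) = 1 := by
    intro t
    have h2 := exp_mem_of_finiteIndex hρ Λ (P := {A | (C * cx A * B).det ^ e = 1})
      (isClosed_eq (((continuous_const.matrix_mul hcx).matrix_mul continuous_const).matrix_det.pow e)
        continuous_const) (fun γ hγ => congrArg Units.val (hχ ⟨γ, hγ⟩)) hZ t
    have h3 : cx (exp (t • Z)) * B = Complex.exp (t * μ) • B := by
      refine Matrix.toLin'.injective (LinearMap.ext fun w => ?_)
      simp only [Matrix.toLin'_apply, ← Matrix.mulVec_mulVec, Matrix.smul_mulVec]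
      exact cx_exp_mulVec ((hV _).1 (hB w)) t
    rw [mem_ofPred_eq, Matrix.mul_assoc, h3, Matrix.mul_smul, hCB, Matrix.det_smul, Matrix.det_one,
      mul_one, Fintype.card_fin, ← pow_mul, ← Complex.exp_nat_mul] at h2
    rw [← h2]
    congr 1
    push_cast
    ring
  have h4 := ((Complex.ofRealCLM.hasDerivAt (x := 0)).mul_const (μ * (finrank ℂ V * e))).cexp
  simp only [Complex.ofRealCLM_apply, h1] at h4
  have h5 := h4.unique (hasDerivAt_const _ _)
  simp [hμ, hr, he0] at h5

end Pool.Agent.P.MP_d483fb_an.Z.SR
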